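import Pool.Agent.H36.FR.Def
import Pool.Agent.H38.TD.MertA

/-!
# [H36 FR NEX] The extended ideals and the places over a place

* `norm_ex`: `absNorm (𝔠 𝓞_F) = absNorm 𝔠 ^ [F : K]` (`Ideal.relNorm_algebraMap`, `Ideal.absNorm_relNorm`-type lemmas, or multiplicativity and `Ideal.sum_ramification_inertia_eq_finrank` as in
  `cbl_data`, H57/SL/Cbl.lean), `kk = ∑ [E i : K]`.
* `ex_*`: `Ideal.map_mul`, `Ideal.map_prod`, `IsCoprime` under `Ideal.map` (`Ideal.map_sup`, `Ideal.map_top`), `Ideal.map_pow`, `Ideal.map_le_iff_le_comap`.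
* `ov_fin`: the places over `v` of all `E i` (finitely many, `∑ e f = [E i : K]`: `cbl_data`-type argument, at most `[E i : K]` for each `i`). `ov_nm`: `nm w = nm v ^ f` (`nm_over`).
-/

set_option autoImplicit false

open scoped NumberField Classical
open IsDedekindDomain NumberField

noncomputable section

namespace Pool.Agent.H36.FR

open H63.MA H38.BB H38.BG H77.PC3 H51.SN H57.SL H36.QA H1.LS4 H38.ML

variable {K : Type} [Field K] [NumberField K] {I : Type} [Fintype I] {E : I → Type}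
  [∀ i, Field (E i)] [∀ i, NumberField (E i)] [∀ i, Algebra K (E i)]

private theorem nexOne {F : Type} [Field F] [NumberField F] [Algebra K F] (𝔠 : Ideal (𝓞 K)) :
    Ideal.absNorm (𝔠.map (algebraMap (𝓞 K) (𝓞 F))) = Ideal.absNorm 𝔠 ^ Module.finrank K F := by
  rw [Ideal.absNorm_algebraMap, ← IsFractionRing.finrank_eq (𝓞 K) K (𝓞 F) F]

theorem norm_ex (𝔠 : Ideal (𝓞 K)) :
    ∏ i, (Ideal.absNorm (ex E 𝔠 i) : ℝ) = (Ideal.absNorm 𝔠 : ℝ) ^ kk K E := by
  unfold kk ex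
  rw [← Finset.prod_pow_eq_pow_sum]
  refine Finset.prod_congr rfl fun i _ => ?_
  rw [nexOne, Nat.cast_pow]

theorem ex_ne {𝔠 : Ideal (𝓞 K)} (h : 𝔠 ≠ ⊥) (i : I) : ex E 𝔠 i ≠ ⊥ :=
  Ideal.map_ne_bot_of_ne_bot h

theorem ex_mul (𝔠 𝔡 : Ideal (𝓞 K)) (i : I) : ex E (𝔠 * 𝔡) i = ex E 𝔠 i * ex E 𝔡 i :=
  Ideal.map_mul _ 𝔠 𝔡

theorem ex_prod {S : Type} (s : Finset S) (𝔠 : S → Ideal (𝓞 K)) (i : I) :
    ex E (∏ v ∈ s, 𝔠 v) i = ∏ v ∈ s, ex E (𝔠 v) i :=
  map_prod (Ideal.mapHom (algebraMap (𝓞 K) (𝓞 (E i)))) _ _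

theorem ex_cop {𝔠 𝔡 : Ideal (𝓞 K)} (h : IsCoprime 𝔠 𝔡) (i : I) :
    IsCoprime (ex E 𝔠 i) (ex E 𝔡 i) := by
  rw [Ideal.isCoprime_iff_sup_eq] at h ⊢
  unfold ex
  rw [← Ideal.map_sup, h, Ideal.map_top]

theorem ex_le {v : Pl K} {i : I} {w : Pl (E i)} (h : Over w v) (n : ℕ) :
    ex E (v.asIdeal ^ n) i ≤ w.asIdeal ^ n := by
  unfold ex
  rw [Ideal.map_pow]
  refine Ideal.pow_right_mono ?_ n
  rw [Ideal.map_le_iff_le_comap]
  exact h.ge

theorem ex_dvd {𝔪 : Ideal (𝓞 K)} {v : Pl K} (hv : v.asIdeal ∣ 𝔪) {i : I} {w : Pl (E i)}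
    (h : Over w v) : ex E 𝔪 i ≤ w.asIdeal := by
  unfold ex
  rw [Ideal.map_le_iff_le_comap]
  exact (Ideal.le_of_dvd hv).trans h.ge

private theorem nexFin {F : Type} [Field F] [NumberField F] [Algebra K F] (l : Pl K) :
    ∃ W : Finset (Pl F), (∀ P, P ∈ W ↔ Over P l) ∧ W.card ≤ Module.finrank K F := by
  have hm : l.asIdeal.IsMaximal := l.isMaximal
  have hpr : l.asIdeal.IsPrime := l.isPrime
  have hfs : Finite (l.asIdeal.primesOver (𝓞 F)) := IsDedekindDomain.primesOver_finite l.asIdeal (𝓞 F)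
  have hft : Fintype (l.asIdeal.primesOver (𝓞 F)) := Fintype.ofFinite _
  have hinj : Function.Injective (fun P : Pl F => P.asIdeal) := fun _ _ h => HeightOneSpectrum.ext h
  have hmem : ∀ P : Pl F, P.asIdeal ∈ l.asIdeal.primesOver (𝓞 F) ↔ Over P l := fun P =>
    ⟨fun h => h.2.over.symm, fun h => ⟨P.isPrime, ⟨h.symm⟩⟩⟩
  have hWf : {P : Pl F | Over P l}.Finite := by
    refine Set.Finite.of_finite_image (f := fun P : Pl F => P.asIdeal) ?_ hinj.injOn
    refine (Set.toFinite (l.asIdeal.primesOver (𝓞 F))).subset ?_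
    rintro _ ⟨P, hP, rfl⟩
    exact (hmem P).2 hP
  have hWm : ∀ P, P ∈ hWf.toFinset ↔ Over P l := fun P => hWf.mem_toFinset
  have himg : ∀ h : Fintype (l.asIdeal.primesOver (𝓞 F)),
      @Set.toFinset _ (l.asIdeal.primesOver (𝓞 F)) h = hWf.toFinset.image (fun P : Pl F => P.asIdeal) := by
    intro h
    ext I
    rw [Set.mem_toFinset, Finset.mem_image]
    constructor
    · intro hI
      have h1 := hI.1
      have h2 := hI.2
      exact ⟨⟨I, hI.1, Ideal.ne_bot_of_liesOver_of_ne_bot l.ne_bot I⟩, (hWm _).2 ((hmem _).1 hI), rfl⟩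
    · rintro ⟨P, hP, rfl⟩
      exact (hmem P).2 ((hWm P).1 hP)
  refine ⟨hWf.toFinset, hWm, ?_⟩
  have h1 := Ideal.sum_ramification_inertia_eq_finrank l.asIdeal (𝓞 F)
  rw [Finset.sum_set_coe (l.asIdeal.primesOver (𝓞 F))
    (f := fun q : Ideal (𝓞 F) => q.ramificationIdx (𝓞 K) * q.inertiaDeg (𝓞 K)), himg,
    Finset.sum_image hinj.injOn] at h1
  rw [IsFractionRing.finrank_eq (𝓞 K) K (𝓞 F) F, ← h1, Finset.card_eq_sum_ones]
  refine Finset.sum_le_sum fun P hP => ?_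
  have h2 : P.asIdeal.LiesOver l.asIdeal := ⟨((hWm P).1 hP).symm⟩
  have h3 := P.isPrime
  exact Nat.one_le_iff_ne_zero.2 (Nat.mul_ne_zero (Ideal.ramificationIdx_pos P.asIdeal (𝓞 K)).ne'
    (Ideal.inertiaDeg_pos P.asIdeal (𝓞 K)).ne')

variable (E) in
theorem ov_fin (v : Pl K) : ∃ s : Finset (Σ i, Pl (E i)), (∀ x, x ∈ s ↔ Over x.2 v) ∧
    s.card ≤ kk K E := by
  choose W hW hc using fun i => nexFin (F := E i) v
  refine ⟨Finset.univ.sigma W, fun x => ?_, ?_⟩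
  · rw [Finset.mem_sigma]
    exact ⟨fun h => (hW _ _).1 h.2, fun h => ⟨Finset.mem_univ _, (hW _ _).2 h⟩⟩
  · rw [Finset.card_sigma]
    exact Finset.sum_le_sum fun i _ => hc i

theorem ov_nm {F : Type} [Field F] [NumberField F] [Algebra K F] {w : Pl F} {v : Pl K}
    (h : Over w v) : (nm v : ℝ) ≤ nm w ∧ (nm w ≠ nm v → (nm v : ℝ) ^ 2 ≤ nm w) := by
  obtain ⟨f, hf, he⟩ := nm_over h
  have h0 : nm v ≠ 0 := fun h => v.ne_bot (Ideal.absNorm_eq_zero_iff.1 h)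
  have h1 : 1 ≤ nm v := Nat.one_le_iff_ne_zero.2 h0
  constructor
  · rw [he, Nat.cast_pow]
    exact le_self_pow₀ (by exact_mod_cast h1) (by omega)
  · intro h2
    have h3 : 2 ≤ f := by
      by_contra h4
      apply h2
      have h5 : f = 1 := by omega
      rw [he, h5, pow_one]
    rw [he, Nat.cast_pow]
    exact pow_le_pow_right₀ (by exact_mod_cast h1) h3

theorem ov_ex {F : Type} [Field F] [NumberField F] [Algebra K F] (w : Pl F) :
    ∃ v : Pl K, Over w v := exists_below w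

theorem ov_nonempty {F : Type} [Field F] [NumberField F] [Algebra K F] (v : Pl K) :
    ∃ w : Pl F, Over w v := exists_over v

theorem pl_cop {F : Type} [Field F] [NumberField F] {w u : Pl F} (h : w ≠ u) (a b : ℕ) :
    IsCoprime (w.asIdeal ^ a) (u.asIdeal ^ b) := by
  refine IsCoprime.pow ?_
  rw [Ideal.isCoprime_iff_sup_eq]
  have h1 : w.asIdeal.IsMaximal := w.isMaximal
  have h2 : u.asIdeal.IsMaximal := u.isMaximal
  exact Ideal.IsMaximal.coprime_of_ne h1 h2 fun h3 => h (HeightOneSpectrum.ext h3)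

end Pool.Agent.H36.FR
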