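import Pool.Agent.H36.FR.Per

/-!
# [H36 FR PES] Simple facts on means

As H36/FA/Pes.lean (proved). `mn_cls`: exactly one class of tuples. `mn_const`: the number of classes is the product of the norms. `mn_nonneg`, `mn_mono`, `mn_add`: finite sums.
`mn_sub`: the mean modulo `𝔄 ≤ 𝔅` of a function periodic modulo `𝔅`: every fibre of the projection has the same number of elements. `mn_one`: from `mn_sub` with `𝔅 = Function.update ⊤ i 𝔟` and `mn_cls`.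
-/

set_option autoImplicit false

open scoped NumberField Classical
open IsDedekindDomain NumberField

noncomputable section

namespace Pool.Agent.H36.FR

open H63.MA H38.BB H38.BG H77.PC3 H51.SN H57.SL H36.QA H1.LS4 H38.ML

variable {I : Type} [Fintype I] {E : I → Type} [∀ i, Field (E i)] [∀ i, NumberField (E i)]

private theorem pes_fin {𝔄 : (i : I) → Ideal (𝓞 (E i))} (hc : ∀ i, 𝔄 i ≠ ⊥) (i : I) :
    Finite (𝓞 (E i) ⧸ 𝔄 i) :=
  Ideal.finiteQuotientOfFreeOfNeBot (𝔄 i) (hc i)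

private theorem pes_finpi {𝔄 : (i : I) → Ideal (𝓞 (E i))} (hc : ∀ i, 𝔄 i ≠ ⊥) :
    Finite ((i : I) → 𝓞 (E i) ⧸ 𝔄 i) := by
  have := pes_fin hc
  exact inferInstance

private theorem pes_out {F : Type} [Field F] [NumberField F] {𝔠 : Ideal (𝓞 F)} (r : 𝓞 F ⧸ 𝔠) :
    Ideal.Quotient.mk 𝔠 (Quotient.out r) = r :=
  Quotient.out_eq r

private theorem pes_card {𝔄 : (i : I) → Ideal (𝓞 (E i))} :
    Nat.card ((i : I) → 𝓞 (E i) ⧸ 𝔄 i) = ∏ i, Ideal.absNorm (𝔄 i) := by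
  rw [Nat.card_pi]
  refine Finset.prod_congr rfl fun i _ => ?_
  rw [Ideal.absNorm_apply, Submodule.cardQuot_apply]

private theorem pes_pos {𝔄 : (i : I) → Ideal (𝓞 (E i))} (hc : ∀ i, 𝔄 i ≠ ⊥) :
    (0 : ℝ) < ∏ i, (Ideal.absNorm (𝔄 i) : ℝ) := by
  refine Finset.prod_pos fun i _ => ?_
  have h : Ideal.absNorm (𝔄 i) ≠ 0 := fun h => hc i (Ideal.absNorm_eq_zero_iff.1 h)
  exact_mod_cast Nat.pos_of_ne_zero h

theorem mn_cls {𝔄 : (i : I) → Ideal (𝓞 (E i))} (hm : ∀ i, 𝔄 i ≠ ⊥) (a : Tp E) :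
    Mn 𝔄 (fun α => if ∀ i, α i - a i ∈ 𝔄 i then 1 else 0) =
      1 / ∏ i, (Ideal.absNorm (𝔄 i) : ℝ) := by
  unfold Mn
  congr 1
  have h1 : ∀ r : (i : I) → 𝓞 (E i) ⧸ 𝔄 i, (∀ i, Quotient.out (r i) - a i ∈ 𝔄 i) ↔
      r = fun i => Ideal.Quotient.mk (𝔄 i) (a i) := by
    intro r
    constructor
    · intro h
      funext i
      have h2 := h i
      rw [← Ideal.Quotient.mk_eq_mk_iff_sub_mem, pes_out] at h2
      exact h2
    · intro h i
      rw [← Ideal.Quotient.mk_eq_mk_iff_sub_mem, pes_out, h]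
  rw [finsum_eq_single _ (fun i => Ideal.Quotient.mk (𝔄 i) (a i))]
  · exact if_pos ((h1 _).2 rfl)
  · intro r hr
    exact if_neg fun h => hr ((h1 r).1 h)

theorem per_cls (𝔄 : (i : I) → Ideal (𝓞 (E i))) (a : Tp E) :
    Per 𝔄 (fun α => if ∀ i, α i - a i ∈ 𝔄 i then 1 else 0) := by
  intro α β h
  have h1 : (∀ i, α i - a i ∈ 𝔄 i) ↔ ∀ i, β i - a i ∈ 𝔄 i := by
    constructor
    · intro h2 i
      have h3 : β i - a i = (α i - a i) - (α i - β i) := by ring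
      rw [h3]
      exact (𝔄 i).sub_mem (h2 i) (h i)
    · intro h2 i
      have h3 : α i - a i = (β i - a i) + (α i - β i) := by ring
      rw [h3]
      exact (𝔄 i).add_mem (h2 i) (h i)
  simp only [h1]

theorem mn_nonneg {𝔄 : (i : I) → Ideal (𝓞 (E i))} {f : Tp E → ℝ} (h : ∀ α, 0 ≤ f α) :
    0 ≤ Mn 𝔄 f := by
  unfold Mn
  exact div_nonneg (finsum_nonneg fun r => h _) (Finset.prod_nonneg fun i _ => by positivity)

theorem mn_mono {𝔄 : (i : I) → Ideal (𝓞 (E i))} (hc : ∀ i, 𝔄 i ≠ ⊥) {f g : Tp E → ℝ}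
    (h : ∀ α, f α ≤ g α) : Mn 𝔄 f ≤ Mn 𝔄 g := by
  have := pes_finpi hc
  have : Fintype ((i : I) → 𝓞 (E i) ⧸ 𝔄 i) := Fintype.ofFinite _
  unfold Mn
  rw [finsum_eq_sum_of_fintype, finsum_eq_sum_of_fintype]
  exact div_le_div_of_nonneg_right (Finset.sum_le_sum fun r _ => h _) (pes_pos hc).le

theorem mn_add {𝔄 : (i : I) → Ideal (𝓞 (E i))} (hc : ∀ i, 𝔄 i ≠ ⊥) (f g : Tp E → ℝ) :
    Mn 𝔄 (fun α => f α + g α) = Mn 𝔄 f + Mn 𝔄 g := by
  have := pes_finpi hc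
  have : Fintype ((i : I) → 𝓞 (E i) ⧸ 𝔄 i) := Fintype.ofFinite _
  unfold Mn
  rw [finsum_eq_sum_of_fintype, finsum_eq_sum_of_fintype, finsum_eq_sum_of_fintype,
    Finset.sum_add_distrib, add_div]

theorem mn_sum {𝔄 : (i : I) → Ideal (𝓞 (E i))} (hc : ∀ i, 𝔄 i ≠ ⊥) {S : Type} (s : Finset S)
    (f : S → Tp E → ℝ) : Mn 𝔄 (fun α => ∑ x ∈ s, f x α) = ∑ x ∈ s, Mn 𝔄 (f x) := by
  have := pes_finpi hc
  have : Fintype ((i : I) → 𝓞 (E i) ⧸ 𝔄 i) := Fintype.ofFinite _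
  unfold Mn
  simp only [finsum_eq_sum_of_fintype]
  rw [Finset.sum_comm, Finset.sum_div]

theorem mn_const {𝔄 : (i : I) → Ideal (𝓞 (E i))} (hc : ∀ i, 𝔄 i ≠ ⊥) (B : ℝ) :
    Mn 𝔄 (fun _ => B) = B := by
  have := pes_finpi hc
  have : Fintype ((i : I) → 𝓞 (E i) ⧸ 𝔄 i) := Fintype.ofFinite _
  unfold Mn
  have h1 : (Fintype.card ((i : I) → 𝓞 (E i) ⧸ 𝔄 i) : ℝ) = ∏ i, (Ideal.absNorm (𝔄 i) : ℝ) := by
    rw [← Nat.card_eq_fintype_card, pes_card]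
    push_cast
    rfl
  rw [finsum_eq_sum_of_fintype, Finset.sum_const, Finset.card_univ, nsmul_eq_mul, h1]
  field_simp [(pes_pos hc).ne']

/-- the projection of tuples -/
private def pes_pr {𝔄 𝔅 : (i : I) → Ideal (𝓞 (E i))} (hAB : ∀ i, 𝔄 i ≤ 𝔅 i) :
    ((i : I) → 𝓞 (E i) ⧸ 𝔄 i) →+ ((i : I) → 𝓞 (E i) ⧸ 𝔅 i) where
  toFun r i := Ideal.Quotient.factor (hAB i) (r i)
  map_zero' := by
    funext i
    exact map_zero _
  map_add' r r' := by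
    funext i
    exact map_add _ _ _

theorem mn_sub {𝔄 𝔅 : (i : I) → Ideal (𝓞 (E i))} (hc : ∀ i, 𝔄 i ≠ ⊥) (hAB : ∀ i, 𝔄 i ≤ 𝔅 i)
    {f : Tp E → ℝ} (hf : Per 𝔅 f) : Mn 𝔄 f = Mn 𝔅 f := by
  have hd : ∀ i, 𝔅 i ≠ ⊥ := fun i h => hc i (le_bot_iff.1 (h ▸ hAB i))
  have := pes_finpi hc
  have := pes_finpi hd
  have : Fintype ((i : I) → 𝓞 (E i) ⧸ 𝔄 i) := Fintype.ofFinite _
  have : Fintype ((i : I) → 𝓞 (E i) ⧸ 𝔅 i) := Fintype.ofFinite _
  have hsurj : Function.Surjective (pes_pr hAB) := by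
    intro t
    refine ⟨fun i => Ideal.Quotient.mk (𝔄 i) (Quotient.out (t i)), ?_⟩
    funext i
    show Ideal.Quotient.factor (hAB i) (Ideal.Quotient.mk (𝔄 i) (Quotient.out (t i))) = t i
    rw [Ideal.Quotient.factor_mk, pes_out]
  obtain ⟨c, hcc⟩ : ∃ c : ℕ, ∀ t : (i : I) → 𝓞 (E i) ⧸ 𝔅 i,
      (Finset.univ.filter fun r : (i : I) → 𝓞 (E i) ⧸ 𝔄 i => pes_pr hAB r = t).card = c := by
    refine ⟨_, fun t => AddMonoidHom.card_fiber_eq_of_mem_range (pes_pr hAB) (x := t) (y := 0)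
      (hsurj t) (hsurj 0)⟩
  have hsum : ∀ g : ((i : I) → 𝓞 (E i) ⧸ 𝔅 i) → ℝ,
      ∑ r : (i : I) → 𝓞 (E i) ⧸ 𝔄 i, g (pes_pr hAB r) = c * ∑ t, g t := by
    intro g
    rw [← Finset.sum_fiberwise_of_maps_to (s := Finset.univ) (t := Finset.univ)
      (g := fun r => pes_pr hAB r) (fun _ _ => Finset.mem_univ _), Finset.mul_sum]
    refine Finset.sum_congr rfl fun t _ => ?_
    rw [Finset.sum_congr rfl (g := fun _ => g t) (by
      intro r hr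
      rw [(Finset.mem_filter.1 hr).2]), Finset.sum_const, hcc, nsmul_eq_mul]
  have hcard : ∏ i, (Ideal.absNorm (𝔄 i) : ℝ) = c * ∏ i, (Ideal.absNorm (𝔅 i) : ℝ) := by
    have h1 := hsum fun _ => 1
    rw [Finset.sum_const, Finset.sum_const, Finset.card_univ, Finset.card_univ, nsmul_eq_mul,
      nsmul_eq_mul, mul_one, mul_one, ← Nat.card_eq_fintype_card, ← Nat.card_eq_fintype_card,
      pes_card, pes_card] at h1
    push_cast at h1
    exact h1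
  unfold Mn
  rw [finsum_eq_sum_of_fintype, finsum_eq_sum_of_fintype, hcard]
  have h2 : ∑ r : (i : I) → 𝓞 (E i) ⧸ 𝔄 i, f (fun i => Quotient.out (r i)) =
      ∑ r : (i : I) → 𝓞 (E i) ⧸ 𝔄 i,
        (fun t : (i : I) → 𝓞 (E i) ⧸ 𝔅 i => f fun i => Quotient.out (t i)) (pes_pr hAB r) := by
    refine Finset.sum_congr rfl fun r _ => ?_
    refine hf _ _ fun i => ?_
    rw [← Ideal.Quotient.mk_eq_mk_iff_sub_mem, pes_out]
    show _ = Ideal.Quotient.factor (hAB i) (r i)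
    conv_rhs => rw [← pes_out (r i), Ideal.Quotient.factor_mk]
  rw [h2, hsum fun t : (i : I) → 𝓞 (E i) ⧸ 𝔅 i => f fun i => Quotient.out (t i)]
  have h3 := pes_pos hc
  have h4 := pes_pos hd
  have h5 : (c : ℝ) ≠ 0 := by
    intro h
    rw [h, zero_mul] at hcard
    exact h3.ne' hcard
  field_simp

private theorem pes_upd (i : I) (𝔟 : Ideal (𝓞 (E i))) (α : Tp E) (b : Tp E) :
    (∀ j, α j - b j ∈ Function.update (fun j => (⊤ : Ideal (𝓞 (E j)))) i 𝔟 j) ↔ α i - b i ∈ 𝔟 := by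
  constructor
  · intro h
    have h1 := h i
    rwa [Function.update_self] at h1
  · intro h j
    by_cases hj : j = i
    · subst hj
      rw [Function.update_self]
      exact h
    · rw [Function.update_of_ne hj]
      exact Submodule.mem_top

private theorem pes_ule {𝔄 : (i : I) → Ideal (𝓞 (E i))} (i : I) {𝔟 : Ideal (𝓞 (E i))}
    (h : 𝔄 i ≤ 𝔟) (j : I) :
    𝔄 j ≤ Function.update (fun j => (⊤ : Ideal (𝓞 (E j)))) i 𝔟 j := by
  by_cases hj : j = i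
  · subst hj
    rw [Function.update_self]
    exact h
  · rw [Function.update_of_ne hj]
    exact le_top

private theorem pes_ind (i : I) (𝔟 : Ideal (𝓞 (E i))) (α : Tp E) :
    (if α i ∈ 𝔟 then (1 : ℝ) else 0) =
      if ∀ j, α j - (0 : Tp E) j ∈ Function.update (fun j => (⊤ : Ideal (𝓞 (E j)))) i 𝔟 j
        then 1 else 0 := by
  have h := pes_upd i 𝔟 α 0
  rw [Pi.zero_apply, sub_zero] at h
  simp only [h]

theorem mn_one {𝔄 : (i : I) → Ideal (𝓞 (E i))} (hc : ∀ i, 𝔄 i ≠ ⊥) (i : I) {𝔟 : Ideal (𝓞 (E i))}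
    (h : 𝔄 i ≤ 𝔟) :
    Mn 𝔄 (fun α => if α i ∈ 𝔟 then 1 else 0) = 1 / (Ideal.absNorm 𝔟 : ℝ) := by
  have hb : 𝔟 ≠ ⊥ := fun h1 => hc i (le_bot_iff.1 (h1 ▸ h))
  have hle := pes_ule i h
  have hne : ∀ j, Function.update (fun j => (⊤ : Ideal (𝓞 (E j)))) i 𝔟 j ≠ ⊥ := fun j h1 =>
    hc j (le_bot_iff.1 (h1 ▸ hle j))
  simp_rw [pes_ind]
  rw [mn_sub hc hle (per_cls _ 0), mn_cls hne 0]
  congr 1
  rw [Finset.prod_eq_single i]
  · rw [Function.update_self]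
  · intro j _ hj
    rw [Function.update_of_ne hj, Ideal.absNorm_top, Nat.cast_one]
  · intro hi
    exact absurd (Finset.mem_univ i) hi

theorem per_one {𝔄 : (i : I) → Ideal (𝓞 (E i))} (i : I) {𝔟 : Ideal (𝓞 (E i))} (h : 𝔄 i ≤ 𝔟) :
    Per 𝔄 (fun α => if α i ∈ 𝔟 then (1 : ℝ) else 0) := by
  intro α β hαβ
  have h1 : α i ∈ 𝔟 ↔ β i ∈ 𝔟 := by
    have h2 := h (hαβ i)
    constructor
    · intro h3
      have h4 := 𝔟.sub_mem h3 h2
      rwa [sub_sub_cancel] at h4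
    · intro h3
      have h4 := 𝔟.add_mem h2 h3
      rwa [sub_add_cancel] at h4
  simp only [h1]

end Pool.Agent.H36.FR
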