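import Pool.Agent.H36.FR.Pep
import Pool.Agent.H36.FR.Pes
import Pool.Agent.H36.FR.Nex

/-!
# [H36 FR BDM] Bad tuples and tuples of units: periodicity, density of the tuples of units

* `per_bad`, `per_un`: if `α i - β i ∈ ex (v²) i ≤ w²` (`ex_le`) then `α i ∈ w² ↔ β i ∈ w²` and `α i ∈ w ↔ β i ∈ w`. `un_not_bad`: definitions (`w² ≤ w`).
* `un_low`: with `s` from `ov_fin`: `1_Un = ∏_{x ∈ s} (1 - 1[α x.1 ∈ x.2])`, a product of functions periodic modulo `𝔞 x = Function.update ⊤ x.1 x.2.asIdeal` (pairwise coprime in every component: `pl_cop`); `mn_prod`,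
  `mn_sub` (from `ex v` to the product of the `𝔞 x`: the product of different primes over `v` divides `ex v i`, coprime), `mn_one`: `un = ∏_{x ∈ s} (1 - 1/nm x.2) ≥ (1 - 1/nm v)^#s ≥ (1 - 1/nm v)^kk` (`ov_nm`).
-/

set_option autoImplicit false

open scoped NumberField Classical
open IsDedekindDomain NumberField

noncomputable section

namespace Pool.Agent.H36.FR

open H63.MA H38.BB H38.BG H77.PC3 H51.SN H57.SL H36.QA H1.LS4 H38.ML

variable {K : Type} [Field K] [NumberField K] {I : Type} [Fintype I] {E : I → Type}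
  [∀ i, Field (E i)] [∀ i, NumberField (E i)] [∀ i, Algebra K (E i)]

private theorem bd_mem {F : Type} [Field F] {𝔟 : Ideal (𝓞 F)} {x y : 𝓞 F} (h : x - y ∈ 𝔟) : x ∈ 𝔟 ↔ y ∈ 𝔟 := by
  constructor
  · intro hx
    have h1 := 𝔟.sub_mem hx h
    rwa [sub_sub_cancel] at h1
  · intro hy
    have h1 := 𝔟.add_mem h hy
    rwa [sub_add_cancel] at h1

private theorem bd_sq {F : Type} [Field F] [NumberField F] (w : Pl F) : w.asIdeal ^ 2 ≤ w.asIdeal := by
  rw [pow_two]
  exact Ideal.mul_le_right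

private theorem bd_imp {v : Pl K} {α β : Tp E} (h : ∀ i, α i - β i ∈ ex E (v.asIdeal ^ 2) i) (hb : Bad α v) :
    Bad β v := by
  have h2 : ∀ i (w : Pl (E i)), Over w v → α i ∈ w.asIdeal ^ 2 → β i ∈ w.asIdeal ^ 2 := fun i w hw =>
    (bd_mem (ex_le hw 2 (h i))).1
  have h1 : ∀ i (w : Pl (E i)), Over w v → α i ∈ w.asIdeal → β i ∈ w.asIdeal := fun i w hw =>
    (bd_mem (bd_sq w (ex_le hw 2 (h i)))).1
  rcases hb with ⟨i, w, hw, hi⟩ | ⟨i, w, hw, hn, hi⟩ | ⟨i, j, w, u, hw, hu, hn, hi, hj⟩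
  · exact Or.inl ⟨i, w, hw, h2 i w hw hi⟩
  · exact Or.inr (Or.inl ⟨i, w, hw, hn, h1 i w hw hi⟩)
  · exact Or.inr (Or.inr ⟨i, j, w, u, hw, hu, hn, h1 i w hw hi, h1 j u hu hj⟩)

private theorem bd_sym {𝔄 : (i : I) → Ideal (𝓞 (E i))} {α β : Tp E} (h : ∀ i, α i - β i ∈ 𝔄 i) (i : I) :
    β i - α i ∈ 𝔄 i := by
  rw [← neg_sub]
  exact (𝔄 i).neg_mem (h i)

theorem per_bad (v : Pl K) :
    Per (ex E (v.asIdeal ^ 2)) (fun α : Tp E => if Bad α v then (1 : ℝ) else 0) := by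
  intro α β h
  show (if Bad α v then (1 : ℝ) else 0) = if Bad β v then (1 : ℝ) else 0
  by_cases h4 : Bad α v
  · rw [if_pos h4, if_pos (bd_imp h h4)]
  · rw [if_neg h4, if_neg fun h5 => h4 (bd_imp (bd_sym h) h5)]

private theorem bd_un {v : Pl K} {α β : Tp E} (h : ∀ i, α i - β i ∈ ex E v.asIdeal i) (hu : Un α v) : Un β v := by
  intro i w hw hi
  have h1 := ex_le hw 1
  rw [pow_one, pow_one] at h1
  exact hu i w hw ((bd_mem (h1 (h i))).2 hi)

theorem per_un (v : Pl K) :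
    Per (ex E v.asIdeal) (fun α : Tp E => if Un α v then (1 : ℝ) else 0) := by
  intro α β h
  show (if Un α v then (1 : ℝ) else 0) = if Un β v then (1 : ℝ) else 0
  by_cases h4 : Un α v
  · rw [if_pos h4, if_pos (bd_un h h4)]
  · rw [if_neg h4, if_neg fun h5 => h4 (bd_un (bd_sym h) h5)]

theorem un_not_bad {v : Pl K} {α : Tp E} (h : Un α v) : ¬ Bad α v := by
  rintro (⟨i, w, hw, hi⟩ | ⟨i, w, hw, -, hi⟩ | ⟨i, j, w, u, hw, -, -, hi, -⟩)
  · exact h i w hw (bd_sq w hi)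
  · exact h i w hw hi
  · exact h i w hw hi

/-- the ideal of the condition at one place -/
private def bda (x : Σ i, Pl (E i)) : (i : I) → Ideal (𝓞 (E i)) :=
  Function.update (fun j => (⊤ : Ideal (𝓞 (E j)))) x.1 x.2.asIdeal

private theorem bda_self (x : Σ i, Pl (E i)) : bda x x.1 = x.2.asIdeal := Function.update_self _ _ _

private theorem bda_ne {x : Σ i, Pl (E i)} {i : I} (h : i ≠ x.1) : bda x i = ⊤ := Function.update_of_ne h _ _

private theorem bda_bot (x : Σ i, Pl (E i)) (i : I) : bda x i ≠ ⊥ := by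
  by_cases h : i = x.1
  · subst h
    rw [bda_self]
    exact x.2.ne_bot
  · rw [bda_ne h]
    exact top_ne_bot

private theorem bda_cop {x y : Σ i, Pl (E i)} (h : x ≠ y) (i : I) : IsCoprime (bda x i) (bda y i) := by
  by_cases h1 : i = x.1
  · by_cases h2 : i = y.1
    · obtain ⟨a, w⟩ := x
      obtain ⟨b, u⟩ := y
      subst h1
      have h3 : i = b := h2
      subst h3
      rw [bda_self, bda_self]
      have h4 := pl_cop (w := w) (u := u) (fun h5 => h (by rw [h5])) 1 1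
      rwa [pow_one, pow_one] at h4
    · rw [bda_ne h2, ← Ideal.one_eq_top]
      exact isCoprime_one_right
  · rw [bda_ne h1, ← Ideal.one_eq_top]
    exact isCoprime_one_left

private theorem bd_one (x : Σ i, Pl (E i)) :
    Mn (bda x) (fun α : Tp E => if α x.1 ∈ x.2.asIdeal then (0 : ℝ) else 1) = 1 - 1 / (nm x.2 : ℝ) := by
  have h1 := mn_one (𝔄 := bda x) (bda_bot x) x.1 (𝔟 := x.2.asIdeal) (bda_self x).le
  have h2 := mn_add (𝔄 := bda x) (bda_bot x) (fun α : Tp E => if α x.1 ∈ x.2.asIdeal then (0 : ℝ) else 1)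
    (fun α : Tp E => if α x.1 ∈ x.2.asIdeal then (1 : ℝ) else 0)
  have h3 : (fun α : Tp E => (if α x.1 ∈ x.2.asIdeal then (0 : ℝ) else 1) +
      (if α x.1 ∈ x.2.asIdeal then (1 : ℝ) else 0)) = fun _ => 1 := by
    funext α
    by_cases h4 : α x.1 ∈ x.2.asIdeal
    · rw [if_pos h4, if_pos h4, zero_add]
    · rw [if_neg h4, if_neg h4, add_zero]
  rw [h3, mn_const (bda_bot x), h1] at h2
  have h5 : (nm x.2 : ℝ) = (Ideal.absNorm x.2.asIdeal : ℝ) := rfl
  rw [h5]
  linarith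

private theorem bd_per (x : Σ i, Pl (E i)) :
    Per (bda x) (fun α : Tp E => if α x.1 ∈ x.2.asIdeal then (0 : ℝ) else 1) := by
  intro α β h
  have h1 : α x.1 ∈ x.2.asIdeal ↔ β x.1 ∈ x.2.asIdeal := by
    refine bd_mem ?_
    have h2 := h x.1
    rwa [bda_self] at h2
  show (if α x.1 ∈ x.2.asIdeal then (0 : ℝ) else 1) = if β x.1 ∈ x.2.asIdeal then (0 : ℝ) else 1
  simp only [h1]

variable (E) in
theorem un_low (v : Pl K) : (1 - 1 / (nm v : ℝ)) ^ kk K E ≤ un E v := by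
  obtain ⟨s, hs, hk⟩ := ov_fin E v
  have h1 : (fun α : Tp E => if Un α v then (1 : ℝ) else 0) =
      fun α => ∏ x ∈ s, if α x.1 ∈ x.2.asIdeal then (0 : ℝ) else 1 := by
    funext α
    by_cases h : Un α v
    · rw [if_pos h]
      refine (Finset.prod_eq_one fun x hx => ?_).symm
      exact if_neg (h x.1 x.2 ((hs x).1 hx))
    · rw [if_neg h]
      unfold Un at h
      push Not at h
      obtain ⟨i, w, hw, hi⟩ := h
      exact (Finset.prod_eq_zero (f := fun x : Σ i, Pl (E i) => if α x.1 ∈ x.2.asIdeal then (0 : ℝ) else 1)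
        ((hs ⟨i, w⟩).2 hw) (if_pos hi)).symm
  have hper : Per (fun i => ∏ x ∈ s, bda x i)
      (fun α : Tp E => ∏ x ∈ s, if α x.1 ∈ x.2.asIdeal then (0 : ℝ) else 1) :=
    per_prod s bda _ fun x _ => bd_per x
  have hle : ∀ i, ex E v.asIdeal i ≤ ∏ x ∈ s, bda x i := by
    intro i
    rw [← Ideal.dvd_iff_le]
    refine Finset.prod_dvd_of_coprime (fun x _ y _ hxy => bda_cop hxy i) fun x hx => ?_
    rw [Ideal.dvd_iff_le]
    by_cases h : i = x.1
    · subst h
      rw [bda_self]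
      have h2 := ex_le ((hs x).1 hx) 1
      rwa [pow_one, pow_one] at h2
    · rw [bda_ne h]
      exact le_top
  have h2 : un E v = ∏ x ∈ s, (1 - 1 / (nm x.2 : ℝ)) := by
    unfold un
    rw [h1, mn_sub (ex_ne v.ne_bot) hle hper,
      mn_prod s bda (fun x _ => bda_bot x) (fun x _ y _ hxy => bda_cop hxy) _ fun x _ => bd_per x]
    exact Finset.prod_congr rfl fun x _ => bd_one x
  have hv : (1 : ℝ) < nm v := by exact_mod_cast one_lt_nm v
  have h0 : 0 ≤ 1 - 1 / (nm v : ℝ) := by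
    rw [sub_nonneg, div_le_one (by linarith)]
    exact hv.le
  have h3 : 1 - 1 / (nm v : ℝ) ≤ 1 := by
    have : 0 ≤ 1 / (nm v : ℝ) := by positivity
    linarith
  rw [h2]
  calc (1 - 1 / (nm v : ℝ)) ^ kk K E ≤ (1 - 1 / (nm v : ℝ)) ^ s.card := pow_le_pow_of_le_one h0 h3 hk
    _ = ∏ x ∈ s, (1 - 1 / (nm v : ℝ)) := by rw [Finset.prod_const]
    _ ≤ ∏ x ∈ s, (1 - 1 / (nm x.2 : ℝ)) := by
      refine Finset.prod_le_prod (fun _ _ => h0) fun x hx => ?_
      have h4 := (ov_nm ((hs x).1 hx)).1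
      have h5 : 1 / (nm x.2 : ℝ) ≤ 1 / (nm v : ℝ) := one_div_le_one_div_of_le (by linarith) h4
      linarith

end Pool.Agent.H36.FR
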