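import Pool.Agent.H36.FR.Bdm

/-!
# [H36 FR BEB] The density of the bad tuples

With `s` from `ov_fin`, `N = nm v`: `1_Bad ≤ ∑_{x ∈ s} 1[α x.1 ∈ x.2²] + ∑_{x ∈ s, nm x.2 ≠ N} 1[α x.1 ∈ x.2] + ∑_{x, y ∈ s, x ≠ y} 1[α x.1 ∈ x.2] 1[α y.1 ∈ y.2]` (means modulo `ex (v²)`: `mn_mono`, `mn_sum`, `mn_one`); the means are
`1/nm² ≤ 1/N²`, `1/nm ≤ 1/N²` (`ov_nm`), and for the product `1/(nm nm') ≤ 1/N²` (two components, or two coprime ideals in one component: `mn_mul` / `mn_sub`). So `be ≤ (kk + kk + kk²)/N² = cb/N²`. `un_be`: `1_Un + 1_Bad ≤ 1`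
(`un_not_bad`), `mn_sub` for `1_Un` (`ex (v²) ≤ ex v`), `mn_add`, `mn_const`.
-/

set_option autoImplicit false

open scoped NumberField Classical
open IsDedekindDomain NumberField

noncomputable section

namespace Pool.Agent.H36.FR

open H63.MA H38.BB H38.BG H77.PC3 H51.SN H57.SL H36.QA H1.LS4 H38.ML

variable {K : Type} [Field K] [NumberField K] {I : Type} [Fintype I] {E : I → Type}
  [∀ i, Field (E i)] [∀ i, NumberField (E i)] [∀ i, Algebra K (E i)]

private theorem beb_ne (v : Pl K) (i : I) : ex E (v.asIdeal ^ 2) i ≠ ⊥ :=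
  ex_ne (pow_ne_zero 2 v.ne_bot) i

private theorem beb_sq {F : Type} [Field F] [NumberField F] (w : Pl F) : w.asIdeal ^ 2 ≤ w.asIdeal := by
  rw [pow_two]
  exact Ideal.mul_le_right

/-- the ideal of the condition at one place -/
private def beba (x : Σ i, Pl (E i)) : (i : I) → Ideal (𝓞 (E i)) :=
  Function.update (fun j => (⊤ : Ideal (𝓞 (E j)))) x.1 x.2.asIdeal

omit [Fintype I] in
private theorem beba_self (x : Σ i, Pl (E i)) : beba x x.1 = x.2.asIdeal := Function.update_self _ _ _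

omit [Fintype I] in
private theorem beba_neq {x : Σ i, Pl (E i)} {i : I} (h : i ≠ x.1) : beba x i = ⊤ := Function.update_of_ne h _ _

private theorem beba_bot (x : Σ i, Pl (E i)) (i : I) : beba x i ≠ ⊥ := by
  by_cases h : i = x.1
  · subst h
    rw [beba_self]
    exact x.2.ne_bot
  · rw [beba_neq h]
    exact top_ne_bot

private theorem beba_cop {x y : Σ i, Pl (E i)} (h : x ≠ y) (i : I) : IsCoprime (beba x i) (beba y i) := by
  by_cases h1 : i = x.1
  · by_cases h2 : i = y.1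
    · obtain ⟨a, w⟩ := x
      obtain ⟨b, u⟩ := y
      subst h1
      have h3 : i = b := h2
      subst h3
      rw [beba_self, beba_self]
      have h4 := pl_cop (w := w) (u := u) (fun h5 => h (by rw [h5])) 1 1
      rwa [pow_one, pow_one] at h4
    · rw [beba_neq h2, ← Ideal.one_eq_top]
      exact isCoprime_one_right
  · rw [beba_neq h1, ← Ideal.one_eq_top]
    exact isCoprime_one_left

private theorem beba_le {v : Pl K} {x : Σ i, Pl (E i)} (hx : Over x.2 v) (i : I) :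
    ex E (v.asIdeal ^ 2) i ≤ beba x i := by
  by_cases h : i = x.1
  · subst h
    rw [beba_self]
    exact (ex_le hx 2).trans (beb_sq x.2)
  · rw [beba_neq h]
    exact le_top

private theorem beb_one (x : Σ i, Pl (E i)) :
    Mn (beba x) (fun α : Tp E => if α x.1 ∈ x.2.asIdeal then (1 : ℝ) else 0) = 1 / (nm x.2 : ℝ) :=
  mn_one (𝔄 := beba x) (beba_bot x) x.1 (𝔟 := x.2.asIdeal) (beba_self x).le

private theorem beb_per (x : Σ i, Pl (E i)) :
    Per (beba x) (fun α : Tp E => if α x.1 ∈ x.2.asIdeal then (1 : ℝ) else 0) :=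
  per_one x.1 (beba_self x).le

private theorem beb_two {v : Pl K} {x y : Σ i, Pl (E i)} (hx : Over x.2 v) (hy : Over y.2 v) (h : x ≠ y) :
    Mn (ex E (v.asIdeal ^ 2)) (fun α : Tp E => (if α x.1 ∈ x.2.asIdeal then (1 : ℝ) else 0) *
      (if α y.1 ∈ y.2.asIdeal then (1 : ℝ) else 0)) = 1 / (nm x.2 : ℝ) * (1 / (nm y.2 : ℝ)) := by
  have hle : ∀ i, ex E (v.asIdeal ^ 2) i ≤ beba x i * beba y i := by
    intro i
    rw [← Ideal.dvd_iff_le]
    exact (beba_cop h i).mul_dvd (Ideal.dvd_iff_le.2 (beba_le hx i)) (Ideal.dvd_iff_le.2 (beba_le hy i))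
  rw [mn_sub (beb_ne v) hle (per_mul (beb_per x) (beb_per y)),
    mn_mul (beba_bot x) (beba_bot y) (beba_cop h) (beb_per x) (beb_per y), beb_one, beb_one]

variable (E) in
theorem be_nonneg (v : Pl K) : 0 ≤ be E v := by
  unfold be
  apply mn_nonneg
  intro α
  split_ifs
  · exact zero_le_one
  · exact le_rfl

variable (E) in
theorem be_le (v : Pl K) : be E v ≤ cb K E / (nm v : ℝ) ^ 2 := by
  obtain ⟨s, hs, hk⟩ := ov_fin E v
  have hv : (1 : ℝ) < nm v := by exact_mod_cast one_lt_nm v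
  have hv0 : (0 : ℝ) < nm v := by linarith
  have hN : (0 : ℝ) < (nm v : ℝ) ^ 2 := by positivity
  -- the pieces
  set f1 : (Σ i, Pl (E i)) → Tp E → ℝ := fun x α => if α x.1 ∈ x.2.asIdeal ^ 2 then 1 else 0 with hf1
  set f2 : (Σ i, Pl (E i)) → Tp E → ℝ := fun x α =>
    if nm x.2 ≠ nm v then (if α x.1 ∈ x.2.asIdeal then 1 else 0) else 0 with hf2
  set f3 : (Σ i, Pl (E i)) × (Σ i, Pl (E i)) → Tp E → ℝ := fun p α =>
    if p.1 ≠ p.2 then (if α p.1.1 ∈ p.1.2.asIdeal then (1 : ℝ) else 0) *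
      (if α p.2.1 ∈ p.2.2.asIdeal then (1 : ℝ) else 0) else 0 with hf3
  have h10 : ∀ x α, 0 ≤ f1 x α := by
    intro x α
    simp only [hf1]
    split_ifs <;> norm_num
  have h20 : ∀ x α, 0 ≤ f2 x α := by
    intro x α
    simp only [hf2]
    split_ifs <;> norm_num
  have h30 : ∀ p α, 0 ≤ f3 p α := by
    intro p α
    simp only [hf3]
    split_ifs <;> norm_num
  have hA : be E v ≤ Mn (ex E (v.asIdeal ^ 2)) (fun α => ∑ x ∈ s, f1 x α + (∑ x ∈ s, f2 x α +
      ∑ p ∈ s ×ˢ s, f3 p α)) := by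
    unfold be
    apply mn_mono (beb_ne v)
    intro α
    have e1 : 0 ≤ ∑ x ∈ s, f1 x α := Finset.sum_nonneg fun x _ => h10 x α
    have e2 : 0 ≤ ∑ x ∈ s, f2 x α := Finset.sum_nonneg fun x _ => h20 x α
    have e3 : 0 ≤ ∑ p ∈ s ×ˢ s, f3 p α := Finset.sum_nonneg fun p _ => h30 p α
    by_cases hb : Bad α v
    · rw [if_pos hb]
      rcases hb with ⟨i, w, hw, hi⟩ | ⟨i, w, hw, hn, hi⟩ | ⟨i, j, w, u, hw, hu, hn, hi, hj⟩
      · have h4 : (1 : ℝ) = f1 ⟨i, w⟩ α := by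
          simp only [hf1]
          rw [if_pos hi]
        have h5 : f1 ⟨i, w⟩ α ≤ ∑ x ∈ s, f1 x α :=
          Finset.single_le_sum (f := fun x => f1 x α) (fun x _ => h10 x α) ((hs ⟨i, w⟩).2 hw)
        linarith
      · have h4 : (1 : ℝ) = f2 ⟨i, w⟩ α := by
          simp only [hf2]
          rw [if_pos hn, if_pos hi]
        have h5 : f2 ⟨i, w⟩ α ≤ ∑ x ∈ s, f2 x α :=
          Finset.single_le_sum (f := fun x => f2 x α) (fun x _ => h20 x α) ((hs ⟨i, w⟩).2 hw)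
        linarith
      · have h4 : (1 : ℝ) = f3 (⟨i, w⟩, ⟨j, u⟩) α := by
          simp only [hf3]
          rw [if_pos hn, if_pos hi, if_pos hj, mul_one]
        have h5 : f3 (⟨i, w⟩, ⟨j, u⟩) α ≤ ∑ p ∈ s ×ˢ s, f3 p α :=
          Finset.single_le_sum (f := fun p => f3 p α) (fun p _ => h30 p α)
            (Finset.mem_product.2 ⟨(hs ⟨i, w⟩).2 hw, (hs ⟨j, u⟩).2 hu⟩)
        linarith
    · rw [if_neg hb]
      linarith
  rw [mn_add (beb_ne v), mn_add (beb_ne v), mn_sum (beb_ne v), mn_sum (beb_ne v), mn_sum (beb_ne v)] at hA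
  have hinv : ∀ a : ℝ, (nm v : ℝ) ^ 2 ≤ a → 1 / a ≤ 1 / (nm v : ℝ) ^ 2 := fun a ha =>
    one_div_le_one_div_of_le hN ha
  have m1 : ∀ x ∈ s, Mn (ex E (v.asIdeal ^ 2)) (f1 x) ≤ 1 / (nm v : ℝ) ^ 2 := by
    intro x hx
    have hx' := (hs x).1 hx
    have h4 : Mn (ex E (v.asIdeal ^ 2)) (f1 x) = 1 / (Ideal.absNorm (x.2.asIdeal ^ 2) : ℝ) :=
      mn_one (beb_ne v) x.1 (𝔟 := x.2.asIdeal ^ 2) (ex_le hx' 2)
    rw [h4, map_pow, Nat.cast_pow]
    have h5 : (nm v : ℝ) ≤ (Ideal.absNorm x.2.asIdeal : ℝ) := (ov_nm hx').1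
    exact hinv _ (pow_le_pow_left₀ hv0.le h5 2)
  have m2 : ∀ x ∈ s, Mn (ex E (v.asIdeal ^ 2)) (f2 x) ≤ 1 / (nm v : ℝ) ^ 2 := by
    intro x hx
    have hx' := (hs x).1 hx
    by_cases hn : nm x.2 ≠ nm v
    · have h3 : f2 x = fun α => if α x.1 ∈ x.2.asIdeal then 1 else 0 := by
        funext α
        simp only [hf2]
        rw [if_pos hn]
      have h4 : Mn (ex E (v.asIdeal ^ 2)) (fun α : Tp E => if α x.1 ∈ x.2.asIdeal then (1 : ℝ) else 0) =
          1 / (Ideal.absNorm x.2.asIdeal : ℝ) :=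
        mn_one (beb_ne v) x.1 (𝔟 := x.2.asIdeal) ((ex_le hx' 2).trans (beb_sq x.2))
      rw [h3, h4]
      exact hinv _ ((ov_nm hx').2 hn)
    · have h3 : f2 x = fun _ => 0 := by
        funext α
        simp only [hf2]
        rw [if_neg hn]
      rw [h3, mn_const (beb_ne v)]
      positivity
  have m3 : ∀ p ∈ s ×ˢ s, Mn (ex E (v.asIdeal ^ 2)) (f3 p) ≤ 1 / (nm v : ℝ) ^ 2 := by
    intro p hp
    obtain ⟨hp1, hp2⟩ := Finset.mem_product.1 hp
    have hx' := (hs p.1).1 hp1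
    have hy' := (hs p.2).1 hp2
    by_cases hn : p.1 ≠ p.2
    · have h3 : f3 p = fun α => (if α p.1.1 ∈ p.1.2.asIdeal then (1 : ℝ) else 0) *
          (if α p.2.1 ∈ p.2.2.asIdeal then (1 : ℝ) else 0) := by
        funext α
        simp only [hf3]
        rw [if_pos hn]
      rw [h3, beb_two hx' hy' hn]
      have h5 : (nm v : ℝ) ≤ (nm p.1.2 : ℝ) := (ov_nm hx').1
      have h6 : (nm v : ℝ) ≤ (nm p.2.2 : ℝ) := (ov_nm hy').1
      have h7 : 1 / (nm p.1.2 : ℝ) ≤ 1 / (nm v : ℝ) := one_div_le_one_div_of_le hv0 h5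
      have h8 : 1 / (nm p.2.2 : ℝ) ≤ 1 / (nm v : ℝ) := one_div_le_one_div_of_le hv0 h6
      have h9 : 1 / (nm v : ℝ) ^ 2 = 1 / (nm v : ℝ) * (1 / (nm v : ℝ)) := by
        field_simp
      rw [h9]
      exact mul_le_mul h7 h8 (by positivity) (by positivity)
    · have h3 : f3 p = fun _ => 0 := by
        funext α
        simp only [hf3]
        rw [if_neg hn]
      rw [h3, mn_const (beb_ne v)]
      positivity
  have n1 := Finset.sum_le_sum m1
  have n2 := Finset.sum_le_sum m2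
  have n3 := Finset.sum_le_sum m3
  rw [Finset.sum_const, nsmul_eq_mul] at n1 n2 n3
  rw [Finset.card_product] at n3
  have hk' : (s.card : ℝ) ≤ (kk K E : ℝ) := by exact_mod_cast hk
  have hs0 : (0 : ℝ) ≤ (s.card : ℝ) := Nat.cast_nonneg _
  have h5 : (s.card : ℝ) ^ 2 ≤ (kk K E : ℝ) ^ 2 := pow_le_pow_left₀ hs0 hk' 2
  have hi0 : (0 : ℝ) ≤ 1 / (nm v : ℝ) ^ 2 := by positivity
  calc be E v ≤ (s.card : ℝ) * (1 / (nm v : ℝ) ^ 2) + ((s.card : ℝ) * (1 / (nm v : ℝ) ^ 2) +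
        ((s.card * s.card : ℕ) : ℝ) * (1 / (nm v : ℝ) ^ 2)) := by linarith
    _ = ((s.card : ℝ) ^ 2 + 2 * (s.card : ℝ)) * (1 / (nm v : ℝ) ^ 2) := by
        push_cast
        ring
    _ ≤ cb K E * (1 / (nm v : ℝ) ^ 2) := by
        refine mul_le_mul_of_nonneg_right ?_ hi0
        unfold cb
        linarith
    _ = cb K E / (nm v : ℝ) ^ 2 := by rw [mul_one_div]

variable (E) in
theorem un_be (v : Pl K) : un E v ≤ 1 - be E v := by
  have h0 : ∀ i, ex E (v.asIdeal ^ 2) i ≤ ex E v.asIdeal i := fun i =>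
    Ideal.map_mono (Ideal.pow_le_self two_ne_zero)
  rw [le_sub_iff_add_le]
  unfold un be
  rw [← mn_sub (beb_ne v) h0 (per_un v), ← mn_add (beb_ne v)]
  refine (mn_mono (beb_ne v) (g := fun _ => 1) fun α => ?_).trans (le_of_eq (mn_const (beb_ne v) 1))
  by_cases h : Un α v
  · rw [if_pos h, if_neg (un_not_bad h)]
    norm_num
  · rw [if_neg h, zero_add]
    split_ifs
    · exact le_rfl
    · exact zero_le_one

variable (E) in
theorem one_sub_be (v : Pl K) : (1 - 1 / (nm v : ℝ)) ^ kk K E ≤ 1 - be E v :=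
  (un_low E v).trans (un_be E v)

end Pool.Agent.H36.FR
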