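import Pool.Agent.H36.FR.Ctr
import Pool.Agent.H36.FA.Win
import Pool.Agent.H36.FA.Che

/-!
# [H36 FR CHE] Chebyshev and Mertens for fixed points of Frobenius, arbitrary group

As H36/FA/Che.lean (proved or in work there: copy it), with `che_tr` of this chapter.
-/

set_option autoImplicit false

open scoped NumberField Classical
open IsDedekindDomain NumberField

noncomputable section

namespace Pool.Agent.H36.FR

open H63.MA H38.BB H38.BG H77.PC3 H51.SN H57.SL H36.QA H1.LS4 H38.ML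

variable {K : IntermediateField ℚ QBar} [NumberField K] {A : Type} [Group A] [Finite A]

private lemma che_fin (F : Type) [Field F] [NumberField F] (y : ℝ) :
    {w : H63.MA.Pl F | (nm w : ℝ) ≤ y}.Finite := by
  have h1 : {I : Ideal (𝓞 F) | Ideal.absNorm I ≤ ⌊y⌋₊}.Finite := Ideal.finite_setOfPred_absNorm_le _
  have h2 : Function.Injective (fun w : H63.MA.Pl F => w.asIdeal) := by
    intro a b h
    exact HeightOneSpectrum.ext h
  refine (h1.preimage h2.injOn).subset ?_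
  intro w hw
  show Ideal.absNorm w.asIdeal ≤ ⌊y⌋₊
  exact Nat.le_floor hw

private lemma che_mem (S₀ : Finset (Pl K)) (x : ℝ) (v : H51.K1.Vx S₀) :
    v ∈ H51.K1.PV S₀ x ↔ (nm v.1 : ℝ) ≤ x := by
  unfold H51.K1.PV
  rw [Set.Finite.mem_toFinset]
  rfl

/-- transfer of a sum over the primes of `F` -/
private theorem che_sum {F : Type} [Field F] [NumberField F] (S₀ : Finset (Pl K)) (S : Set (Pl F))
    (π : Pl F → Pl K) (f : Pl K → ℕ)
    (h1 : ∀ w, w ∉ S → (nm w).Prime → π w ∉ S₀ ∧ nm (π w) = nm w)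
    (h2 : ∀ (v : Pl K) (T : Finset (Pl F)), (∀ w ∈ T, w ∉ S ∧ (nm w).Prime ∧ π w = v) → T.card ≤ f v)
    (T : Finset (Pl F)) (hT : ∀ w ∈ T, w ∉ S ∧ (nm w).Prime) (P : Finset (H51.K1.Vx S₀))
    (hP : ∀ w ∈ T, ∀ h : π w ∉ S₀, (⟨π w, h⟩ : H51.K1.Vx S₀) ∈ P) (a : ℕ → ℝ) (ha : ∀ n, 0 ≤ a n) :
    ∑ w ∈ T, a (nm w) ≤ ∑ v ∈ P, (f v.1 : ℝ) * a (nm v.1) := by
  have e1 : ∑ w ∈ T, a (nm w) = ∑ w ∈ T, a (nm (π w)) :=
    Finset.sum_congr rfl fun w hw => by rw [(h1 w (hT w hw).1 (hT w hw).2).2]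
  have e2 : ∑ w ∈ T, a (nm (π w)) = ∑ v ∈ T.image π, ((T.filter fun w => π w = v).card : ℝ) * a (nm v) := by
    rw [← Finset.sum_fiberwise_of_maps_to (s := T) (t := T.image π) (g := π)
      (fun w hw => Finset.mem_image_of_mem π hw)]
    refine Finset.sum_congr rfl fun v _ => ?_
    rw [Finset.sum_congr rfl (g := fun _ => a (nm v)) fun w hw => by rw [(Finset.mem_filter.1 hw).2],
      Finset.sum_const, nsmul_eq_mul]
  have e3 : ∑ v ∈ T.image π, ((T.filter fun w => π w = v).card : ℝ) * a (nm v) ≤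
      ∑ v ∈ T.image π, (f v : ℝ) * a (nm v) := by
    refine Finset.sum_le_sum fun v _ => mul_le_mul_of_nonneg_right ?_ (ha _)
    exact_mod_cast h2 v (T.filter fun w => π w = v) fun w hw =>
      ⟨(hT w (Finset.mem_filter.1 hw).1).1, (hT w (Finset.mem_filter.1 hw).1).2, (Finset.mem_filter.1 hw).2⟩
  have e4 : T.image π ⊆ P.map ⟨Subtype.val, Subtype.val_injective⟩ := by
    intro v hv
    obtain ⟨w, hw, rfl⟩ := Finset.mem_image.1 hv
    have h := (h1 w (hT w hw).1 (hT w hw).2).1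
    exact Finset.mem_map.2 ⟨⟨π w, h⟩, hP w hw h, rfl⟩
  have e5 : ∑ v ∈ T.image π, (f v : ℝ) * a (nm v) ≤
      ∑ v ∈ P.map ⟨Subtype.val, Subtype.val_injective⟩, (f v : ℝ) * a (nm v) :=
    Finset.sum_le_sum_of_subset_of_nonneg e4 fun v _ _ => mul_nonneg (Nat.cast_nonneg _) (ha _)
  rw [Finset.sum_map] at e5
  calc ∑ w ∈ T, a (nm w) = ∑ v ∈ T.image π, ((T.filter fun w => π w = v).card : ℝ) * a (nm v) :=
        e1.trans e2
    _ ≤ ∑ v ∈ T.image π, (f v : ℝ) * a (nm v) := e3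
    _ ≤ _ := e5

theorem che_m (φ₀ : Gal(QBar/K) →* A) (h₀ : FT φ₀) (hs : Function.Surjective φ₀) (Q : DP K QBar)
    (H : Subgroup A) (S₀ : Finset (Pl K)) : ∃ C : ℝ, 1 ≤ C ∧ ∀ x : ℝ, 2 ≤ x →
      Real.log (Real.log x) - C ≤ ∑ v ∈ H51.K1.PV S₀ x,
        (H51.K1.fxp H (φ₀ (fr Q v.1)) : ℝ) / (nm v.1 : ℝ) := by
  obtain ⟨F, _, _, S, π, hS, h1, h2⟩ := che_tr φ₀ h₀ hs Q H S₀
  obtain ⟨C, hC, hm⟩ := FA.mer2 F S hS
  refine ⟨C, hC, fun x hx => ?_⟩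
  set T : Finset (Pl F) := (che_fin F x).toFinset.filter fun w => w ∉ S ∧ (nm w).Prime with hTd
  have hT : ∀ w, w ∈ T ↔ (nm w : ℝ) ≤ x ∧ w ∉ S ∧ (nm w).Prime := by
    intro w
    rw [hTd, Finset.mem_filter, Set.Finite.mem_toFinset]
    rfl
  have h3 := hm x hx T fun w hw hp hle => (hT w).2 ⟨hle, hw, hp⟩
  have h4 := che_sum S₀ S π (fun v => H51.K1.fxp H (φ₀ (fr Q v))) h1 h2 T (fun w hw => ((hT w).1 hw).2)
    (H51.K1.PV S₀ x) (fun w hw h => (che_mem S₀ x _).2 (by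
      show ((nm (π w) : ℕ) : ℝ) ≤ x
      rw [(h1 w ((hT w).1 hw).2.1 ((hT w).1 hw).2.2).2]
      exact ((hT w).1 hw).1)) (fun n => 1 / (n : ℝ)) (fun n => by positivity)
  refine (h3.trans h4).trans (le_of_eq ?_)
  exact Finset.sum_congr rfl fun v _ => by rw [mul_one_div]

theorem che_w (φ₀ : Gal(QBar/K) →* A) (h₀ : FT φ₀) (hs : Function.Surjective φ₀) (Q : DP K QBar)
    (H : Subgroup A) (S₀ : Finset (Pl K)) : ∃ C₀ : ℝ, 2 ≤ C₀ ∧ ∀ C : ℝ, C₀ ≤ C → ∀ x : ℝ, C ≤ x →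
      x / (C * Real.log x) ≤ ∑ v ∈ H51.K1.PV S₀ (C * x) \ H51.K1.PV S₀ x,
        (H51.K1.fxp H (φ₀ (fr Q v.1)) : ℝ) := by
  obtain ⟨F, _, _, S, π, hS, h1, h2⟩ := che_tr φ₀ h₀ hs Q H S₀
  obtain ⟨C₀, hC₀, hm⟩ := FA.win F S hS
  refine ⟨C₀, hC₀, fun C hC x hx => ?_⟩
  set T : Finset (Pl F) := (che_fin F (C * x)).toFinset.filter fun w =>
    (w ∉ S ∧ (nm w).Prime) ∧ x < (nm w : ℝ) with hTd
  have hT : ∀ w, w ∈ T ↔ (nm w : ℝ) ≤ C * x ∧ (w ∉ S ∧ (nm w).Prime) ∧ x < (nm w : ℝ) := by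
    intro w
    rw [hTd, Finset.mem_filter, Set.Finite.mem_toFinset]
    rfl
  have h3 := hm C hC x hx T fun w hw hp hlt hle => (hT w).2 ⟨hle, ⟨hw, hp⟩, hlt⟩
  have h4 := che_sum S₀ S π (fun v => H51.K1.fxp H (φ₀ (fr Q v))) h1 h2 T (fun w hw => ((hT w).1 hw).2.1)
    (H51.K1.PV S₀ (C * x) \ H51.K1.PV S₀ x) (fun w hw h => by
      obtain ⟨g1, g2, g3⟩ := (hT w).1 hw
      have g4 : nm (π w) = nm w := (h1 w g2.1 g2.2).2
      rw [Finset.mem_sdiff, che_mem, che_mem]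
      show ((nm (π w) : ℕ) : ℝ) ≤ C * x ∧ ¬ ((nm (π w) : ℕ) : ℝ) ≤ x
      rw [g4]
      exact ⟨g1, not_le.2 g3⟩) (fun _ => 1) (fun _ => zero_le_one)
  rw [Finset.sum_const, nsmul_eq_mul, mul_one] at h4
  refine (h3.trans h4).trans (le_of_eq ?_)
  exact Finset.sum_congr rfl fun v _ => by rw [mul_one]

end Pool.Agent.H36.FR
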