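import Pool.Agent.H36.FR.Def

/-!
# [H36 FR XVV] The elements `xv`

`xv_spec`: if `ac σ val = ac τ val` then `τ⁻¹ σ` fixes `E i`, so `φ (τ⁻¹ σ)` fixes `u i` (`Ok.fix`): the element exists. Every embedding is `ac σ val` (`emb_tr`). `xv_act`: `ac_mul`. `xv_inj`: if `φ σ u = φ τ u` then `τ⁻¹ σ` fixes `E i`. `xv_eq`: `Ok.cl`. `xv_ord`: the action is by
automorphisms. `xv_conj`: `Ok.act`. `l_dvd`: `orderOf (u i) = orderOf (e (u i))` divides `card A`, which divides `m`. `z_prim`: `IsPrimitiveRoot.pow`. `e_com`: `e (e x • y) = e x e y (e x)⁻¹ = e y`.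
-/

set_option autoImplicit false

open scoped NumberField Classical
open IsDedekindDomain NumberField

noncomputable section

namespace Pool.Agent.H36.FR

open H63.MA H38.BB H38.BG H77.PC3 H51.SN H57.SL H36.QA H1.LS4 H38.ML

variable {K : IntermediateField ℚ QBar} [NumberField K] {A V I : Type} [Group A] [Finite A]
  [CommGroup V] [MulDistribMulAction A V] [Fintype I] {D : Dt K A V I}
  [∀ i, NumberField (D.E i)]

omit [Finite A] [Fintype I] [∀ i, NumberField (D.E i)] in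
private theorem xv_key (hD : Ok D) (i : I) (τ σ : Gal(QBar/K)) :
    ac τ (D.E i).val = ac σ (D.E i).val ↔ D.φ τ • D.u i = D.φ σ • D.u i := by
  have h1 := hD.fix i (σ⁻¹ * τ)
  have h2 : D.φ (σ⁻¹ * τ) • D.u i = D.u i ↔ D.φ τ • D.u i = D.φ σ • D.u i := by
    rw [map_mul, mul_smul, map_inv, inv_smul_eq_iff]
  rw [← h2, ← h1]
  constructor
  · intro h y
    have h3 : τ (y : QBar) = σ (y : QBar) := DFunLike.congr_fun h y
    calc (σ⁻¹ * τ) (y : QBar) = σ⁻¹ (τ (y : QBar)) := rfl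
      _ = σ⁻¹ (σ (y : QBar)) := by rw [h3]
      _ = (σ⁻¹ * σ) (y : QBar) := rfl
      _ = y := by rw [inv_mul_cancel]; rfl
  · intro h
    refine AlgHom.ext fun y => ?_
    have h3 := congrArg σ (h y)
    have h4 : σ ((σ⁻¹ * τ) (y : QBar)) = τ (y : QBar) := by
      calc σ ((σ⁻¹ * τ) (y : QBar)) = (σ * (σ⁻¹ * τ)) (y : QBar) := rfl
        _ = τ (y : QBar) := by rw [mul_inv_cancel_left]
    rw [h4] at h3
    exact h3

omit [Fintype I] in
theorem xv_spec (hD : Ok D) (i : I) (σ : Gal(QBar/K)) :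
    xv D i (ac σ (D.E i).val) = D.φ σ • D.u i := by
  have h : ∃ x : V, ∀ τ : Gal(QBar/K), ac τ (D.E i).val = ac σ (D.E i).val → D.φ τ • D.u i = x :=
    ⟨D.φ σ • D.u i, fun τ hτ => (xv_key hD i τ σ).1 hτ⟩
  unfold xv
  rw [dif_pos h]
  exact (h.choose_spec σ rfl).symm

omit [Fintype I] in
theorem xv_act (hD : Ok D) (i : I) (σ : Gal(QBar/K)) (ι : D.E i →ₐ[K] QBar) :
    xv D i (ac σ ι) = D.φ σ • xv D i ι := by
  obtain ⟨γ, rfl⟩ := emb_tr (D.E i) (D.E i).val ι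
  rw [← ac_mul, xv_spec hD, xv_spec hD, map_mul, mul_smul]

omit [Fintype I] in
theorem xv_inj (hD : Ok D) (i : I) : Function.Injective (xv D i) := by
  intro ι κ h
  obtain ⟨γ, rfl⟩ := emb_tr (D.E i) (D.E i).val ι
  obtain ⟨δ, rfl⟩ := emb_tr (D.E i) (D.E i).val κ
  rw [xv_spec hD, xv_spec hD] at h
  exact (xv_key hD i γ δ).2 h

omit [Fintype I] in
theorem xv_eq (hD : Ok D) {i j : I} {ι : D.E i →ₐ[K] QBar} {ι' : D.E j →ₐ[K] QBar}
    (h : xv D i ι = xv D j ι') : i = j := by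
  obtain ⟨γ, rfl⟩ := emb_tr (D.E i) (D.E i).val ι
  obtain ⟨δ, rfl⟩ := emb_tr (D.E j) (D.E j).val ι'
  rw [xv_spec hD, xv_spec hD] at h
  refine hD.cl i j ((D.φ δ)⁻¹ * D.φ γ) ?_
  rw [mul_smul, h, inv_smul_smul]

omit [Fintype I] in
theorem xv_ord (hD : Ok D) (i : I) (ι : D.E i →ₐ[K] QBar) : orderOf (xv D i ι) = D.l i := by
  obtain ⟨γ, rfl⟩ := emb_tr (D.E i) (D.E i).val ι
  rw [xv_spec hD]
  exact orderOf_injective (MulDistribMulAction.toMonoidHom V (D.φ γ))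
    (MulAction.injective (D.φ γ)) (D.u i)

omit [Fintype I] in
theorem xv_conj (hD : Ok D) (i : I) (ι : D.E i →ₐ[K] QBar) :
    ∃ a : A, D.e (xv D i ι) = a * D.e (D.u i) * a⁻¹ := by
  obtain ⟨γ, rfl⟩ := emb_tr (D.E i) (D.E i).val ι
  exact ⟨D.φ γ, by rw [xv_spec hD, hD.act]⟩

omit [Fintype I] in
theorem xv_gen (hD : Ok D) (W : Subgroup V) (h : ∀ i (ι : D.E i →ₐ[K] QBar), xv D i ι ∈ W) :
    W = ⊤ := by
  refine hD.gen W fun i a => ?_
  obtain ⟨σ, rfl⟩ := hD.srj a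
  rw [← xv_spec hD]
  exact h i _

omit [Fintype I] [∀ i, NumberField (D.E i)] in
theorem l_dvd (hD : Ok D) (i : I) : D.l i ∣ D.m := by
  have h1 : orderOf (D.e (D.u i)) = orderOf (D.u i) := orderOf_injective D.e hD.inj (D.u i)
  have h2 : orderOf (D.e (D.u i)) ∣ Nat.card A := orderOf_dvd_natCard _
  rw [h1] at h2
  exact h2.trans hD.dvd

omit [Fintype I] [∀ i, NumberField (D.E i)] in
theorem z_prim (hD : Ok D) (i : I) : IsPrimitiveRoot (D.z i) (D.l i) :=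
  IsPrimitiveRoot.pow hD.pos hD.prim (Nat.div_mul_cancel (l_dvd hD i)).symm

omit [Fintype I] [∀ i, NumberField (D.E i)] in
theorem e_com (hD : Ok D) (x y : V) : D.e x • y = y := by
  apply hD.inj
  rw [hD.act, ← map_mul, ← map_inv, ← map_mul, mul_comm x y, mul_inv_cancel_right]

omit [Fintype I] [∀ i, NumberField (D.E i)] in
theorem fin_V (hD : Ok D) : Finite V := Finite.of_injective D.e hD.inj

end Pool.Agent.H36.FR
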