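import Pool.Agent.H36.FR.Sym
import Pool.Agent.H36.FR.Xvv

/-!
# [H36 FR COB] Change of roots, products

* `kap_cob`: `B' ι = ζ^(t ι) B ι` (two roots of the same element, `t ι : ZMod l`); `sy' σ ι = sy σ ι + t ι - t (σ ι)` (`sy_spec`, `sy_eq`). With `w = (∏ x ι ^ t ι)⁻¹`: `∏ x (σ ι) ^ t ι = φ σ • ∏ x ι ^ t ι` and `∏ x (σ ι) ^ t (σ ι) = ∏ x ι ^ t ι` (reindex).
* `phB_cob`: `e (w κ (φσ•w)⁻¹) φ(σ) = e w (e κ φ(σ)) (e w)⁻¹` (`Ok.act`); the product over `i` of the `w_i`.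
* `kap_arg`: `sy (B B') = sy B + sy B'`.
-/

set_option autoImplicit false

open scoped NumberField Classical
open IsDedekindDomain NumberField

noncomputable section

namespace Pool.Agent.H36.FR

open H63.MA H38.BB H38.BG H77.PC3 H51.SN H57.SL H36.QA H1.LS4 H38.ML

variable {K : IntermediateField ℚ QBar} [NumberField K] {F : Type} [Field F] [NumberField F]
  [Algebra K F] {l : ℕ} {ζ : K} {A V : Type} [Group A] [CommGroup V] [MulDistribMulAction A V]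

omit [NumberField K] in
private theorem cob_two (hl : l.Prime) (hζ : IsPrimitiveRoot ζ l) {x B D : QBar} (hx : x ≠ 0) (hB : B ^ l = x)
    (hD : D ^ l = x) : ∃ i < l, D = algebraMap K QBar ζ ^ i * B := by
  have hB0 : B ≠ 0 := by
    rintro rfl
    rw [zero_pow hl.ne_zero] at hB
    exact hx hB.symm
  have : NeZero l := ⟨hl.ne_zero⟩
  have h1 : (D / B) ^ l = 1 := by
    rw [div_pow, hD, hB, div_self hx]
  obtain ⟨i, hi, h2⟩ := (hζ.map_of_injective (algebraMap K QBar).injective).eq_pow_of_pow_eq_one h1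
  exact ⟨i, hi, by rw [h2, div_mul_cancel₀ _ hB0]⟩

omit [NumberField K] [NumberField F] in
private theorem cob_rt {α : 𝓞 F} {B : (F →ₐ[K] QBar) → 𝓞 QBar} (hB : Rt l α B) (ι : F →ₐ[K] QBar) :
    (B ι : QBar) ^ l = ι (α : F) := by
  exact (map_pow (algebraMap (𝓞 QBar) QBar) (B ι) l).symm.trans
    (congrArg (algebraMap (𝓞 QBar) QBar) (hB ι))

private theorem cob_val {l : ℕ} {V : Type} [CommGroup V] {y : V} (hy : y ^ l = 1) (n : ℕ) :
    y ^ ((n : ZMod l).val) = y ^ n := by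
  rw [ZMod.val_natCast]
  conv_rhs => rw [← Nat.div_add_mod n l, pow_add, pow_mul, hy, one_pow, one_mul]

private theorem cob_fin (K : IntermediateField ℚ QBar) [NumberField K] (F : Type) [Field F] [NumberField F]
    [Algebra K F] : Finite (F →ₐ[K] QBar) := by
  have : FiniteDimensional K F := Module.Finite.of_restrictScalars_finite ℚ K F
  infer_instance

omit [NumberField K] [NumberField F] in
private theorem cob_bij (σ : Gal(QBar/K)) : Function.Bijective (fun ι : F →ₐ[K] QBar => ac σ ι) := by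
  constructor
  · intro ι ι' h
    ext x
    have h1 := congrArg (fun j : F →ₐ[K] QBar => j x) h
    exact σ.injective h1
  · intro ι
    refine ⟨ac σ⁻¹ ι, ?_⟩
    ext x
    show σ (σ⁻¹ (ι x)) = ι x
    exact σ.apply_symm_apply (ι x)

theorem kap_cob (hl : l.Prime) (hζ : IsPrimitiveRoot ζ l) {α : 𝓞 F}
    {B B' : (F →ₐ[K] QBar) → 𝓞 QBar} (hB : Rt l α B) (hB' : Rt l α B') (hα : α ≠ 0)
    (φ : Gal(QBar/K) →* A) (x : (F →ₐ[K] QBar) → V) (hx : ∀ σ ι, x (ac σ ι) = φ σ • x ι)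
    (hxl : ∀ ι, x ι ^ l = 1) :
    ∃ w : V, ∀ σ : Gal(QBar/K), kap l ζ x B' σ = w * kap l ζ x B σ * (φ σ • w)⁻¹ := by
  have := cob_fin K F
  have : Fintype (F →ₐ[K] QBar) := Fintype.ofFinite _
  have hne : ∀ ι : F →ₐ[K] QBar, ι (α : F) ≠ 0 := by
    intro ι h
    rw [map_eq_zero] at h
    exact hα (NumberField.RingOfIntegers.ext h)
  have ht : ∀ ι : F →ₐ[K] QBar, ∃ i < l, (B' ι : QBar) = algebraMap K QBar ζ ^ i * (B ι : QBar) := fun ι =>
    cob_two hl hζ (hne ι) (cob_rt hB ι) (cob_rt hB' ι)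
  choose t ht1 ht2 using ht
  have hz : (algebraMap K QBar ζ) ^ l = 1 := by
    rw [← map_pow, hζ.pow_eq_one, map_one]
  refine ⟨(∏ ι, x ι ^ t ι)⁻¹, fun σ => ?_⟩
  have hs : ∀ ι, sy l ζ B' σ ι = ((t ι + (sy l ζ B σ ι).val + (l - t (ac σ ι)) : ℕ) : ZMod l) := by
    intro ι
    refine sy_eq hl hζ hB' hα σ ι _ ?_
    rw [ht2 ι, map_mul, map_pow, AlgEquiv.commutes, sy_spec hl hζ hB hα σ ι, ht2 (ac σ ι)]
    have h1 : (algebraMap K QBar ζ) ^ (l - t (ac σ ι)) * (algebraMap K QBar ζ) ^ t (ac σ ι) = 1 := by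
      rw [← pow_add, Nat.sub_add_cancel (ht1 _).le, hz]
    calc algebraMap K QBar ζ ^ t ι * (algebraMap K QBar ζ ^ (sy l ζ B σ ι).val * (B (ac σ ι) : QBar))
        = algebraMap K QBar ζ ^ t ι * (algebraMap K QBar ζ ^ (sy l ζ B σ ι).val * (B (ac σ ι) : QBar)) *
          ((algebraMap K QBar ζ) ^ (l - t (ac σ ι)) * (algebraMap K QBar ζ) ^ t (ac σ ι)) := by rw [h1, mul_one]
      _ = _ := by
        rw [pow_add, pow_add]
        ring
  have hx1 : ∀ ι, x (ac σ ι) ^ (sy l ζ B' σ ι).val =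
      x (ac σ ι) ^ t ι * x (ac σ ι) ^ (sy l ζ B σ ι).val * (x (ac σ ι) ^ t (ac σ ι))⁻¹ := by
    intro ι
    rw [hs ι, cob_val (hxl _), pow_add, pow_add]
    congr 1
    rw [eq_inv_iff_mul_eq_one, ← pow_add, Nat.sub_add_cancel (ht1 _).le, hxl]
  have h2 : (∏ ι, x (ac σ ι) ^ t ι) = φ σ • ∏ ι, x ι ^ t ι := by
    rw [Finset.smul_prod']
    refine Finset.prod_congr rfl fun ι _ => ?_
    rw [hx, smul_pow']
  have h3 : (∏ ι : F →ₐ[K] QBar, x (ac σ ι) ^ t (ac σ ι)) = ∏ ι, x ι ^ t ι :=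
    Function.Bijective.prod_comp (cob_bij σ) (fun ι => x ι ^ t ι)
  unfold kap
  rw [finprod_eq_prod_of_fintype, finprod_eq_prod_of_fintype, Finset.prod_congr rfl fun ι _ => hx1 ι,
    Finset.prod_mul_distrib, Finset.prod_mul_distrib, Finset.prod_inv_distrib, h2, h3, smul_inv', inv_inv]
  rw [mul_comm (φ σ • _), mul_assoc, mul_comm (φ σ • _), ← mul_assoc, mul_comm _ ((∏ ι, x ι ^ t ι)⁻¹)]

theorem kap_arg (hl : l.Prime) (hζ : IsPrimitiveRoot ζ l) {α α' : 𝓞 F}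
    {B B' : (F →ₐ[K] QBar) → 𝓞 QBar} (hB : Rt l α B) (hB' : Rt l α' B') (hα : α ≠ 0)
    (hα' : α' ≠ 0) (x : (F →ₐ[K] QBar) → V) (hxl : ∀ ι, x ι ^ l = 1) (σ : Gal(QBar/K)) :
    kap l ζ x (fun ι => B ι * B' ι) σ = kap l ζ x B σ * kap l ζ x B' σ := by
  have := cob_fin K F
  have : Fintype (F →ₐ[K] QBar) := Fintype.ofFinite _
  have hR : Rt (K := K) l (α * α') (fun ι => B ι * B' ι) := by
    intro ι
    show (B ι * B' ι) ^ l = ro ι (α * α')
    rw [mul_pow, hB ι, hB' ι, map_mul]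
  have hs : ∀ ι, sy l ζ (fun ι => B ι * B' ι) σ ι = (((sy l ζ B σ ι).val + (sy l ζ B' σ ι).val : ℕ) : ZMod l) := by
    intro ι
    refine sy_eq hl hζ hR (mul_ne_zero hα hα') σ ι _ ?_
    have h1 := sy_spec hl hζ hB hα σ ι
    have h2 := sy_spec hl hζ hB' hα' σ ι
    show σ ((B ι : QBar) * (B' ι : QBar)) = _ * ((B (ac σ ι) : QBar) * (B' (ac σ ι) : QBar))
    rw [map_mul, h1, h2, pow_add]
    ring
  unfold kap
  rw [finprod_eq_prod_of_fintype, finprod_eq_prod_of_fintype, finprod_eq_prod_of_fintype, ← Finset.prod_mul_distrib]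
  refine Finset.prod_congr rfl fun ι _ => ?_
  rw [hs ι, cob_val (hxl _), pow_add]

variable {I : Type} [Finite A] [Fintype I] {D : Dt K A V I} [∀ i, NumberField (D.E i)]

theorem phB_cob (hD : Ok D) {α : Tp fun i => D.E i} (hα : ∀ i, α i ≠ 0)
    {B B' : (i : I) → (D.E i →ₐ[K] QBar) → 𝓞 QBar} (hB : ∀ i, Rt (D.l i) (α i) (B i))
    (hB' : ∀ i, Rt (D.l i) (α i) (B' i)) :
    ∃ w : V, ∀ σ : Gal(QBar/K), phB D B' σ = D.e w * phB D B σ * (D.e w)⁻¹ := by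
  have h1 : ∀ i, ∃ w : V, ∀ σ : Gal(QBar/K), kap (D.l i) (D.z i) (xv D i) (B' i) σ =
      w * kap (D.l i) (D.z i) (xv D i) (B i) σ * (D.φ σ • w)⁻¹ := fun i =>
    kap_cob (hD.pr i) (z_prim hD i) (hB i) (hB' i) (hα i) D.φ (xv D i) (xv_act hD i)
      (fun ι => by
        have h9 := pow_orderOf_eq_one (xv D i ι)
        rw [xv_ord hD i ι] at h9
        exact h9)
  choose w hw using h1
  refine ⟨∏ i, w i, fun σ => ?_⟩
  unfold phB
  rw [Finset.prod_congr rfl fun i _ => hw i σ, Finset.prod_mul_distrib, Finset.prod_mul_distrib,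
    Finset.prod_inv_distrib, ← Finset.smul_prod', map_mul, map_mul, map_inv, hD.act]
  group

end Pool.Agent.H36.FR
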