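import Pool.Agent.H36.FR.Def

/-!
# [H36 FR FXG] Fixed points in coset spaces (finite groups)

* `fxp_conj`: `x ↦ b • x`. `fxp_le`: `#(A ⧸ M) ≤ #A`.
* `fxp_mul`: `W` normal acts trivially on `A ⧸ (M ⊔ W)`.
* `fxp_sup`: `∑_{x ∈ W} #Fix_{A/M}(x a) = ∑_{y ∈ A/M} #{x ∈ W : x a y = y}`. The `W`-orbit of `y` is fixed by `a` iff `a y ∈ W y`; in this case the number of `x` is `#W_y` (a coset of the stabiliser), otherwise `0`. So every `W`-orbit fixed by `a` contributes `#(W y) #W_y = #W`, and the `W`-orbits on `A/M` are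
  the elements of `A/(M ⊔ W)` (`W` normal: `W g M = g W M`).
-/

set_option autoImplicit false

open scoped NumberField Classical
open IsDedekindDomain NumberField

noncomputable section

namespace Pool.Agent.H36.FR

open H63.MA H38.BB H38.BG H77.PC3 H51.SN H57.SL H36.QA H1.LS4 H38.ML

variable {A : Type} [Group A] [Finite A]

/-- the elements whose cosets are fixed points -/
private theorem fxp_card (M : Subgroup A) (a : A) :
    Nat.card {g : A // g⁻¹ * a * g ∈ M} = Nat.card M * H51.K1.fxp M a := by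
  unfold H51.K1.fxp
  rw [← Nat.card_prod]
  refine Nat.card_congr (Equiv.trans ?_ (QuotientGroup.preimageMkEquivSubgroupProdSet M {x : A ⧸ M | a • x = x}))
  refine Equiv.subtypeEquivRight fun g => ?_
  show g⁻¹ * a * g ∈ M ↔ a • (g : A ⧸ M) = (g : A ⧸ M)
  rw [eq_comm, MulAction.Quotient.smul_coe, QuotientGroup.eq, smul_eq_mul, mul_assoc]

theorem fxp_conj (M : Subgroup A) (a b : A) :
    H51.K1.fxp M (b * a * b⁻¹) = H51.K1.fxp M a := by
  have h1 : Nat.card {g : A // g⁻¹ * (b * a * b⁻¹) * g ∈ M} = Nat.card {g : A // g⁻¹ * a * g ∈ M} := by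
    refine Nat.card_congr ((Equiv.mulLeft b⁻¹).subtypeEquiv fun g => ?_)
    simp only [Equiv.coe_mulLeft, mul_inv_rev, inv_inv]
    have h2 : g⁻¹ * (b * a * b⁻¹) * g = g⁻¹ * b * a * (b⁻¹ * g) := by group
    rw [h2]
  rw [fxp_card, fxp_card] at h1
  exact Nat.eq_of_mul_eq_mul_left Nat.card_pos h1

theorem fxp_le (M : Subgroup A) (a : A) : H51.K1.fxp M a ≤ Nat.card A := by
  unfold H51.K1.fxp
  exact (Finite.card_subtype_le _).trans (Nat.card_le_card_of_surjective (QuotientGroup.mk : A → A ⧸ M) Quotient.mk_surjective)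

theorem fxp_mul (M W : Subgroup A) (hW : W.Normal) (x a : A) (hx : x ∈ W) :
    H51.K1.fxp (M ⊔ W) (x * a) = H51.K1.fxp (M ⊔ W) a := by
  have h1 : Nat.card {g : A // g⁻¹ * (x * a) * g ∈ M ⊔ W} = Nat.card {g : A // g⁻¹ * a * g ∈ M ⊔ W} := by
    refine Nat.card_congr (Equiv.subtypeEquivRight fun g => ?_)
    have h2 : g⁻¹ * (x * a) * g = (g⁻¹ * x * g) * (g⁻¹ * a * g) := by group
    have h3 : g⁻¹ * x * g ∈ M ⊔ W := by
      have h4 := hW.conj_mem x hx g⁻¹
      rw [inv_inv] at h4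
      exact Subgroup.mem_sup_right h4
    rw [h2]
    exact (M ⊔ W).mul_mem_cancel_left h3
  rw [fxp_card, fxp_card] at h1
  exact Nat.eq_of_mul_eq_mul_left Nat.card_pos h1

/-- the orders of the sum and of the intersection -/
private theorem card_sup_inf (M W : Subgroup A) (hW : W.Normal) :
    Nat.card (M ⊔ W : Subgroup A) * Nat.card (W ⊓ M : Subgroup A) = Nat.card W * Nat.card M := by
  have h1 : Nat.card W * W.relIndex (M ⊔ W) = Nat.card (M ⊔ W : Subgroup A) := by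
    have h := Subgroup.relIndex_mul_relIndex (⊥ : Subgroup A) W (M ⊔ W) bot_le le_sup_right
    rwa [Subgroup.relIndex_bot_left, Subgroup.relIndex_bot_left] at h
  have h2 : Nat.card (W ⊓ M : Subgroup A) * W.relIndex M = Nat.card M := by
    have h := Subgroup.relIndex_mul_relIndex (⊥ : Subgroup A) (W ⊓ M) M bot_le inf_le_right
    rwa [Subgroup.relIndex_bot_left, Subgroup.relIndex_bot_left, Subgroup.inf_relIndex_right] at h
  rw [Subgroup.relIndex_sup_right] at h1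
  rw [← h1, ← h2]
  ring

/-- the elements of `W` with `w c` in `M` -/
private theorem card_coset (M W : Subgroup A) (hW : W.Normal) (a g : A) :
    Nat.card {x : W // g⁻¹ * ((x : A) * a) * g ∈ M} =
      if g⁻¹ * a * g ∈ M ⊔ W then Nat.card (W ⊓ M : Subgroup A) else 0 := by
  have hc : ∀ x : A, g⁻¹ * (x * a) * g = (g⁻¹ * x * g) * (g⁻¹ * a * g) := fun x => by group
  have hin : ∀ x : A, x ∈ W → g⁻¹ * x * g ∈ W := fun x hx => by
    have h4 := hW.conj_mem x hx g⁻¹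
    rwa [inv_inv] at h4
  split_ifs with h
  · have h1 : g⁻¹ * a * g ∈ ((M ⊔ W : Subgroup A) : Set A) := h
    rw [Subgroup.mul_normal M W, Set.mem_mul] at h1
    obtain ⟨m, hm, w, hw, h2⟩ := h1
    have hm' : m ∈ M := hm
    have hw' : w ∈ W := hw
    -- `w0 = m w⁻¹ m⁻¹`
    have hw0 : m * w⁻¹ * m⁻¹ ∈ W := hW.conj_mem _ (W.inv_mem hw') m
    have hm0 : (m * w⁻¹ * m⁻¹) * (g⁻¹ * a * g) = m := by
      rw [← h2]
      group
    refine Nat.card_congr ⟨fun x => ⟨(g⁻¹ * (x.1 : A) * g) * (m * w⁻¹ * m⁻¹)⁻¹, ?_, ?_⟩,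
      fun u => ⟨⟨g * ((u : A) * (m * w⁻¹ * m⁻¹)) * g⁻¹, ?_⟩, ?_⟩, ?_, ?_⟩
    · exact W.mul_mem (hin _ x.1.2) (W.inv_mem hw0)
    · have h3 := x.2
      rw [hc] at h3
      have h4 : (g⁻¹ * (x.1 : A) * g) * (m * w⁻¹ * m⁻¹)⁻¹ =
          (g⁻¹ * (x.1 : A) * g) * (g⁻¹ * a * g) * ((m * w⁻¹ * m⁻¹) * (g⁻¹ * a * g))⁻¹ := by group
      show (g⁻¹ * (x.1 : A) * g) * (m * w⁻¹ * m⁻¹)⁻¹ ∈ M
      rw [h4, hm0]
      exact M.mul_mem h3 (M.inv_mem hm')
    · exact hW.conj_mem _ (W.mul_mem u.2.1 hw0) g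
    · show g⁻¹ * (g * ((u : A) * (m * w⁻¹ * m⁻¹)) * g⁻¹ * a) * g ∈ M
      have h5 : g⁻¹ * (g * ((u : A) * (m * w⁻¹ * m⁻¹)) * g⁻¹ * a) * g =
          (u : A) * ((m * w⁻¹ * m⁻¹) * (g⁻¹ * a * g)) := by group
      rw [h5, hm0]
      exact M.mul_mem u.2.2 hm'
    · rintro ⟨⟨x, hx⟩, hx2⟩
      apply Subtype.ext
      apply Subtype.ext
      show g * ((g⁻¹ * x * g) * (m * w⁻¹ * m⁻¹)⁻¹ * (m * w⁻¹ * m⁻¹)) * g⁻¹ = x
      group
    · rintro ⟨u, hu⟩
      apply Subtype.ext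
      show (g⁻¹ * (g * (u * (m * w⁻¹ * m⁻¹)) * g⁻¹) * g) * (m * w⁻¹ * m⁻¹)⁻¹ = u
      group
  · have : IsEmpty {x : W // g⁻¹ * ((x : A) * a) * g ∈ M} := by
      refine ⟨fun x => h ?_⟩
      have h3 := x.2
      rw [hc] at h3
      exact ((M ⊔ W).mul_mem_cancel_left (Subgroup.mem_sup_right (hin _ x.1.2))).1
        (Subgroup.mem_sup_left h3)
    exact Nat.card_of_isEmpty

/-- double counting -/
private theorem card_double {X Y : Type} [Fintype X] [Fintype Y] (P : X → Y → Prop) :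
    ∑ x : X, Nat.card {y : Y // P x y} = ∑ y : Y, Nat.card {x : X // P x y} := by
  have h1 : ∀ x : X, Nat.card {y : Y // P x y} = ∑ y : Y, if P x y then 1 else 0 := fun x => by
    rw [Nat.card_eq_fintype_card, Fintype.card_subtype, Finset.card_filter]
  have h2 : ∀ y : Y, Nat.card {x : X // P x y} = ∑ x : X, if P x y then 1 else 0 := fun y => by
    rw [Nat.card_eq_fintype_card, Fintype.card_subtype, Finset.card_filter]
  simp only [h1, h2]
  exact Finset.sum_comm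

private theorem fxp_sup_nat [Fintype A] (M W : Subgroup A) (hW : W.Normal) (a : A) :
    ∑ x : W, H51.K1.fxp M ((x : A) * a) = Nat.card W * H51.K1.fxp (M ⊔ W) a := by
  have h1 : Nat.card M * ∑ x : W, H51.K1.fxp M ((x : A) * a) =
      Nat.card (W ⊓ M : Subgroup A) * (Nat.card (M ⊔ W : Subgroup A) * H51.K1.fxp (M ⊔ W) a) := by
    rw [Finset.mul_sum, ← fxp_card (M ⊔ W) a]
    have h2 : ∑ x : W, Nat.card M * H51.K1.fxp M ((x : A) * a) =
        ∑ x : W, Nat.card {g : A // g⁻¹ * ((x : A) * a) * g ∈ M} :=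
      Finset.sum_congr rfl fun x _ => (fxp_card M _).symm
    rw [h2, card_double (fun (x : W) (g : A) => g⁻¹ * ((x : A) * a) * g ∈ M)]
    simp only [card_coset M W hW a]
    rw [← Finset.sum_filter, Finset.sum_const, smul_eq_mul, mul_comm]
    congr 1
    rw [Nat.card_eq_fintype_card, Fintype.card_subtype]
  have h3 : Nat.card M * ∑ x : W, H51.K1.fxp M ((x : A) * a) =
      Nat.card M * (Nat.card W * H51.K1.fxp (M ⊔ W) a) := by
    rw [h1]
    have h4 := card_sup_inf M W hW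
    calc Nat.card (W ⊓ M : Subgroup A) * (Nat.card (M ⊔ W : Subgroup A) * H51.K1.fxp (M ⊔ W) a)
        = (Nat.card (M ⊔ W : Subgroup A) * Nat.card (W ⊓ M : Subgroup A)) * H51.K1.fxp (M ⊔ W) a := by ring
      _ = (Nat.card W * Nat.card M) * H51.K1.fxp (M ⊔ W) a := by rw [h4]
      _ = Nat.card M * (Nat.card W * H51.K1.fxp (M ⊔ W) a) := by ring
  exact Nat.eq_of_mul_eq_mul_left Nat.card_pos h3

theorem fxp_sup (M W : Subgroup A) (hW : W.Normal) (a : A) :
    ∑ᶠ x : W, (H51.K1.fxp M ((x : A) * a) : ℝ) =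
      (Nat.card W : ℝ) * (H51.K1.fxp (M ⊔ W) a : ℝ) := by
  have := Fintype.ofFinite A
  rw [finsum_eq_sum_of_fintype]
  exact_mod_cast fxp_sup_nat M W hW a

end Pool.Agent.H36.FR
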