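import Pool.Agent.H36.FR.Frr
import Pool.Agent.H36.FR.Cob
import Pool.Agent.H36.FR.Fxg
import Pool.Agent.H36.FR.Nex

/-!
# [H36 FR FRP] Periodicity

`α i - α' i ∈ ex v i` for all `i`. `Un α v ↔ Un α' v` (`ex_le` with `n = 1`). If `Un α v`: all `α i`, `α' i` are nonzero (`ov_nonempty`), `ro ι (α i) ∉ Q.P v` for all `ι` (`mem_pe`, `pe_over`). `B` = the chosen roots of `α`, `B'` from `rt_lift`: `sy B (fr) = sy B' (fr)` (`sy_res`; `fr Q v ∈ dec (Q.P v)` by `fr_spec`), so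
`phB D B (fr) = phB D B' (fr)`; the chosen roots of `α'` differ from `B'` by a conjugation (`phB_cob`), `fxp_conj`. `fr_dec`: `fr_spec`: `fr x ≡ x^N`: `fr x ∈ P ↔ x ∈ P`.
-/

set_option autoImplicit false

open scoped NumberField Classical
open IsDedekindDomain NumberField

noncomputable section

namespace Pool.Agent.H36.FR

open H63.MA H38.BB H38.BG H77.PC3 H51.SN H57.SL H36.QA H1.LS4 H38.ML

variable {K : IntermediateField ℚ QBar} [NumberField K] {A V I : Type} [Group A] [Finite A]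
  [CommGroup V] [MulDistribMulAction A V] [Fintype I] {D : Dt K A V I}
  [∀ i, NumberField (D.E i)]

theorem fr_dec (Q : DP K QBar) (v : Pl K) : fr Q v ∈ dec (K := K) (Q.P v) := by
  haveI := Q.prime v
  intro x
  have h := fr_spec Q v x
  have hn : nm v ≠ 0 := by
    unfold nm
    rw [Ne, Ideal.absNorm_eq_zero_iff]
    exact v.ne_bot
  constructor
  · intro hx
    have h1 : x ^ nm v ∈ Q.P v := by
      have h2 := Ideal.sub_mem _ hx h
      rwa [sub_sub_cancel] at h2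
    exact (Q.prime v).mem_of_pow_mem _ h1
  · intro hx
    have h1 : x ^ nm v ∈ Q.P v := Ideal.pow_mem_of_mem _ hx _ (Nat.pos_of_ne_zero hn)
    have h2 := Ideal.add_mem _ h h1
    rwa [sub_add_cancel] at h2

private theorem frp_un {v : Pl K} {α β : Tp fun i => D.E i}
    (h : ∀ i, α i - β i ∈ ex (fun i => D.E i) v.asIdeal i) (hu : Un α v) : Un β v := by
  intro i w hw hb
  apply hu i w hw
  have h1 := ex_le (E := fun i => D.E i) hw 1
  rw [pow_one, pow_one] at h1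
  have h2 := h1 (h i)
  have h3 := Ideal.add_mem _ h2 hb
  rwa [sub_add_cancel] at h3

private theorem frp_fx (hD : Ok D) (Q : DP K QBar) (M : Subgroup A) (v : Pl K)
    (hv : ((D.m : ℕ) : 𝓞 K) ∉ v.asIdeal) {α β : Tp fun i => D.E i}
    (h : ∀ i, α i - β i ∈ ex (fun i => D.E i) v.asIdeal i) (hu : Un α v) :
    H51.K1.fxp M (phf D α (fr Q v)) = H51.K1.fxp M (phf D β (fr Q v)) := by
  have hb := frp_un h hu
  have hlv : ∀ i, ((D.l i : ℕ) : 𝓞 K) ∉ v.asIdeal := by
    intro i hl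
    apply hv
    obtain ⟨c, hc⟩ := l_dvd hD i
    rw [hc, Nat.cast_mul]
    exact Ideal.mul_mem_right _ _ hl
  have hα0 : ∀ i, β i ≠ 0 := by
    intro i h0
    obtain ⟨w, hw⟩ := ov_nonempty (F := D.E i) v
    apply hb i w hw
    rw [h0]
    exact Ideal.zero_mem _
  have hro : ∀ i (ι : D.E i →ₐ[K] QBar), ro ι (α i) ∉ Q.P v := by
    intro i ι h0
    exact hu i (pe (D.E i) Q v ι) (pe_over (D.E i) Q v ι) ((mem_pe (D.E i) Q v ι (α i)).2 h0)
  have hex : ∀ i, ∃ B' : (D.E i →ₐ[K] QBar) → 𝓞 QBar, Rt (D.l i) (β i) B' ∧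
      ∀ ι, rt (D.l i) (α i) ι - B' ι ∈ Q.P v := fun i =>
    rt_lift (hD.pr i) (z_prim hD i) Q v (rt_ex (hD.pr i).pos (α i)) (h i)
  choose B' hB' hBB using hex
  have h1 : phf D α (fr Q v) = phB D B' (fr Q v) := by
    unfold phf phB
    have h2 : ∀ i, kap (D.l i) (D.z i) (xv D i) (rt (D.l i) (α i)) (fr Q v) =
        kap (D.l i) (D.z i) (xv D i) (B' i) (fr Q v) := by
      intro i
      unfold kap
      apply finprod_congr
      intro ι
      rw [sy_res (hD.pr i) (z_prim hD i) Q v (hlv i) (rt_ex (hD.pr i).pos (α i)) (hB' i)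
        (hro i) (hBB i) (fr Q v) (fr_dec Q v) ι]
    rw [Finset.prod_congr rfl fun i _ => h2 i]
  obtain ⟨w, hw⟩ := phB_cob hD hα0 hB' (fun i => rt_ex (K := K) (hD.pr i).pos (β i))
  have h3 : phf D β (fr Q v) = D.e w * phB D B' (fr Q v) * (D.e w)⁻¹ := hw (fr Q v)
  rw [h1, h3, fxp_conj]

theorem per_ff (hD : Ok D) (Q : DP K QBar) (M : Subgroup A) (v : Pl K)
    (hv : ((D.m : ℕ) : 𝓞 K) ∉ v.asIdeal) :
    Per (ex (fun i => D.E i) v.asIdeal) (ff D Q M v) := by
  intro α β h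
  unfold ff
  by_cases hu : Un α v
  · rw [if_pos hu, if_pos (frp_un h hu), frp_fx hD Q M v hv h hu]
  · have hb : ¬ Un β v := fun hb => hu (frp_un (fun i => by
      have := Ideal.neg_mem_iff _ |>.2 (h i)
      rwa [neg_sub] at this) hb)
    rw [if_neg hu, if_neg hb]

theorem ff_bd (Q : DP K QBar) (M : Subgroup A) (v : Pl K) (α : Tp fun i => D.E i) :
    0 ≤ ff D Q M v α ∧ ff D Q M v α ≤ Nat.card A ∧ (¬ Un α v → ff D Q M v α = 0) := by
  unfold ff
  refine ⟨?_, ?_, fun h => if_neg h⟩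
  · split_ifs
    · exact Nat.cast_nonneg _
    · exact le_rfl
  · split_ifs
    · exact_mod_cast fxp_le M _
    · exact Nat.cast_nonneg _

end Pool.Agent.H36.FR
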