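import Pool.Agent.H36.FR.Frt
import Pool.Agent.H36.FR.Frp
import Pool.Agent.H36.FR.Bdm

/-!
# [H36 FR FRM] The mean of the number of fixed points

`𝔄 = ex v`. For `x : V` let `G x = ∑_r 1_Un(r) fxp M (e x * phf r (fr))` (sum over the classes, representatives `Quotient.out`; the summand is periodic as in `per_ff`: conjugation with `e w` commutes with `e x`). By `transl`, `G (x * xv i ι) = G x`: replace `r` by the class of `update r i (r i β)` (a bijection of the classes: `β` is a unit modulo `ex v i`, i.e. in no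
`w` over `v`; it preserves `Un`), `fxp_conj`, `e` injective homomorphism of the commutative group `V`. So `G` is constant (`xv_gen` with `W = {x | ∀ y, G (y x) = G y}`), `#V G 1 = ∑_{x ∈ V} G x = ∑_r 1_Un(r) ∑_x fxp M (e x * phf r (fr)) = ∑_r 1_Un(r) #V fxp (M ⊔ e.range) (phf r (fr))` (`fxp_sup`, `e.range` normal by `Ok.act`)
`= #V fxp (M ⊔ e.range) (φ (fr)) ∑_r 1_Un(r)` (`phf = e(..) φ`, `fxp_mul`). Divide by `#V` and by the product of the norms.
-/

set_option autoImplicit false

open scoped NumberField Classical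
open IsDedekindDomain NumberField

noncomputable section

namespace Pool.Agent.H36.FR

open H63.MA H38.BB H38.BG H77.PC3 H51.SN H57.SL H36.QA H1.LS4 H38.ML

variable {K : IntermediateField ℚ QBar} [NumberField K] {A V I : Type} [Group A] [Finite A]
  [CommGroup V] [MulDistribMulAction A V] [Fintype I] {D : Dt K A V I}
  [∀ i, NumberField (D.E i)]

/-- a tuple of units over `v` moves `phf` by `e x` -/
private theorem mult (hD : Ok D) (Q : DP K QBar) (v : Pl K) (hv : ((D.m : ℕ) : 𝓞 K) ∉ v.asIdeal)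
    (h₀ : ∀ τ ∈ (Q.P v).inertia Gal(QBar/K), D.φ τ = 1) (x : V) :
    ∃ β : Tp fun i => D.E i, (∀ i (w : Pl (D.E i)), Over w v → β i ∉ w.asIdeal) ∧
      ∀ α : Tp fun i => D.E i, Un α v → ∃ w : V,
        phf D (fun i => α i * β i) (fr Q v) =
          D.e w * (D.e x * phf D α (fr Q v)) * (D.e w)⁻¹ := by
  have hone : ∀ (i : I) (w : Pl (D.E i)), (1 : 𝓞 (D.E i)) ∉ w.asIdeal := fun i w h =>
    w.isPrime.ne_top ((Ideal.eq_top_iff_one _).2 h)
  have hcom : ∀ y z : V, D.e y * D.e z = D.e z * D.e y := fun y z => by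
    rw [← map_mul, ← map_mul, mul_comm]
  let S : Submonoid V :=
    { carrier := {x : V | ∃ β : Tp fun i => D.E i,
        (∀ i (w : Pl (D.E i)), Over w v → β i ∉ w.asIdeal) ∧
        ∀ α : Tp fun i => D.E i, Un α v → ∃ w : V,
          phf D (fun i => α i * β i) (fr Q v) =
            D.e w * (D.e x * phf D α (fr Q v)) * (D.e w)⁻¹}
      one_mem' := by
        refine ⟨fun _ => 1, fun i w _ => hone i w, fun α _ => ⟨1, ?_⟩⟩
        simp only [mul_one, map_one, one_mul, inv_one]
      mul_mem' := by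
        rintro y z ⟨β, hβ, hβ'⟩ ⟨γ, hγ, hγ'⟩
        refine ⟨fun i => β i * γ i, fun i w hw h => ?_, fun α hα => ?_⟩
        · rcases w.isPrime.mem_or_mem h with h | h
          · exact hβ i w hw h
          · exact hγ i w hw h
        · obtain ⟨w, hw⟩ := hβ' α hα
          have hun : Un (fun i => α i * β i) v := fun i w hw h => by
            rcases w.isPrime.mem_or_mem h with h | h
            · exact hα i w hw h
            · exact hβ i w hw h
          obtain ⟨w', hw'⟩ := hγ' _ hun
          refine ⟨w' * w, ?_⟩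
          have h1 : (fun i => α i * (β i * γ i)) = fun i => α i * β i * γ i := by
            funext i
            rw [mul_assoc]
          rw [h1, hw', hw]
          have h2 : D.e z * D.e w = D.e w * D.e z := hcom z w
          have h3 : D.e (y * z) = D.e z * D.e y := by rw [map_mul, hcom]
          rw [h3, map_mul, mul_inv_rev]
          calc D.e w' * (D.e z * (D.e w * (D.e y * phf D α (fr Q v)) * (D.e w)⁻¹)) * (D.e w')⁻¹
              = D.e w' * ((D.e z * D.e w) * (D.e y * phf D α (fr Q v)) * (D.e w)⁻¹) *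
                (D.e w')⁻¹ := by group
            _ = D.e w' * ((D.e w * D.e z) * (D.e y * phf D α (fr Q v)) * (D.e w)⁻¹) *
                (D.e w')⁻¹ := by rw [h2]
            _ = D.e w' * D.e w * (D.e z * D.e y * phf D α (fr Q v)) *
                ((D.e w)⁻¹ * (D.e w')⁻¹) := by group }
  have hfin : Finite V := Finite.of_injective D.e hD.inj
  let W : Subgroup V :=
    { carrier := S
      one_mem' := S.one_mem
      mul_mem' := S.mul_mem
      inv_mem' := by
        intro y hy
        have h1 : y⁻¹ = y ^ (orderOf y - 1) := by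
          have h2 : y ^ (orderOf y - 1) * y = 1 := by
            rw [← pow_succ, Nat.sub_add_cancel (orderOf_pos y), pow_orderOf_eq_one]
          exact (eq_inv_of_mul_eq_one_left h2).symm
        rw [h1]
        exact S.pow_mem hy _ }
  have hW : W = ⊤ := by
    refine xv_gen hD W fun i ι => ?_
    obtain ⟨β, hβ, hβ'⟩ := transl hD Q v hv h₀ i ι
    refine ⟨Function.update (fun _ => 1) i β, fun j w hw => ?_, fun α hα => ?_⟩
    · by_cases hj : j = i
      · subst hj
        rw [Function.update_self]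
        exact hβ w hw
      · rw [Function.update_of_ne hj]
        exact hone j w
    · obtain ⟨w, hw⟩ := hβ' α hα
      refine ⟨w, ?_⟩
      rw [← hw]
      refine congrArg (fun a => phf D a (fr Q v)) ?_
      funext j
      by_cases hj : j = i
      · subst hj
        rw [Function.update_self, Function.update_self]
      · rw [Function.update_of_ne hj, Function.update_of_ne hj, mul_one]
  have hx : x ∈ W := by
    rw [hW]
    exact Subgroup.mem_top x
  exact hx

/-- an element which is in no place over `v` is a unit modulo `v` -/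
private theorem unit_q {F : Type} [Field F] [NumberField F] [Algebra K F] {v : Pl K} {β : 𝓞 F}
    (hβ : ∀ w : Pl F, Over w v → β ∉ w.asIdeal) :
    IsUnit (Ideal.Quotient.mk (v.asIdeal.map (algebraMap (𝓞 K) (𝓞 F))) β) := by
  set J : Ideal (𝓞 F) := v.asIdeal.map (algebraMap (𝓞 K) (𝓞 F)) with hJ
  have hJ0 : J ≠ ⊥ := by
    intro h
    rw [hJ, Ideal.map_eq_bot_iff_of_injective (FaithfulSMul.algebraMap_injective (𝓞 K) (𝓞 F))] at h
    exact v.ne_bot h
  by_contra hn
  obtain ⟨P, hP, hP'⟩ := exists_max_ideal_of_mem_nonunits hn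
  let P₁ : Ideal (𝓞 F) := P.comap (Ideal.Quotient.mk J)
  have h1 : P₁.IsPrime := by
    have := hP.isPrime
    exact Ideal.comap_isPrime _ _
  have h2 : J ≤ P₁ := fun y hy => by
    have h3 : Ideal.Quotient.mk J y = 0 := Ideal.Quotient.eq_zero_iff_mem.2 hy
    have h4 : Ideal.Quotient.mk J y ∈ P := by
      rw [h3]
      exact P.zero_mem
    exact h4
  have h3 : P₁ ≠ ⊥ := fun h => hJ0 (le_bot_iff.1 (h ▸ h2))
  refine hβ ⟨P₁, h1, h3⟩ ?_ hP'
  have h4 : v.asIdeal ≤ P₁.comap (algebraMap (𝓞 K) (𝓞 F)) := by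
    rw [← Ideal.map_le_iff_le_comap]
    exact h2
  have h5 : v.asIdeal.IsMaximal := v.isPrime.isMaximal v.ne_bot
  have h6 : P₁.comap (algebraMap (𝓞 K) (𝓞 F)) ≠ ⊤ := by
    have := Ideal.comap_isPrime (algebraMap (𝓞 K) (𝓞 F)) P₁
    exact this.ne_top
  exact (h5.eq_of_le h6 h4).symm

theorem mn_ff (hD : Ok D) (Q : DP K QBar) (M : Subgroup A) (v : Pl K)
    (hv : ((D.m : ℕ) : 𝓞 K) ∉ v.asIdeal)
    (h₀ : ∀ τ ∈ (Q.P v).inertia Gal(QBar/K), D.φ τ = 1) :
    Mn (ex (fun i => D.E i) v.asIdeal) (ff D Q M v) =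
      un (fun i => D.E i) v * (H51.K1.fxp (M ⊔ D.e.range) (D.φ (fr Q v)) : ℝ) := by
  have hA : ∀ i, ex (fun i => D.E i) v.asIdeal i ≠ ⊥ := fun i =>
    ex_ne (E := fun i => D.E i) v.ne_bot i
  have hfin : ∀ i, Finite (𝓞 (D.E i) ⧸ ex (fun i => D.E i) v.asIdeal i) := fun i =>
    Ideal.finiteQuotientOfFreeOfNeBot _ (hA i)
  have hF : Fintype ((i : I) → 𝓞 (D.E i) ⧸ ex (fun i => D.E i) v.asIdeal i) :=
    Fintype.ofFinite _
  have hV : Finite V := Finite.of_injective D.e hD.inj
  have hFV : Fintype V := Fintype.ofFinite _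
  have hn : D.e.range.Normal := by
    refine ⟨?_⟩
    rintro _ ⟨y, rfl⟩ a
    exact ⟨a • y, hD.act a y⟩
  -- the sum for x
  have hkey : ∀ x : V, (∑ r : (i : I) → 𝓞 (D.E i) ⧸ ex (fun i => D.E i) v.asIdeal i,
      if Un (fun i => Quotient.out (r i) : Tp fun i => D.E i) v then
        (H51.K1.fxp M (D.e x * phf D (fun i => Quotient.out (r i)) (fr Q v)) : ℝ) else 0) =
      ∑ r : (i : I) → 𝓞 (D.E i) ⧸ ex (fun i => D.E i) v.asIdeal i,
        ff D Q M v (fun i => Quotient.out (r i)) := by
    intro x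
    obtain ⟨β, hβ, hβ'⟩ := mult hD Q v hv h₀ x
    have hu : ∀ i, IsUnit (Ideal.Quotient.mk (ex (fun i => D.E i) v.asIdeal i) (β i)) := fun i =>
      unit_q (hβ i)
    let e : ((i : I) → 𝓞 (D.E i) ⧸ ex (fun i => D.E i) v.asIdeal i) ≃
        ((i : I) → 𝓞 (D.E i) ⧸ ex (fun i => D.E i) v.asIdeal i) :=
      Equiv.piCongrRight fun i => Units.mulRight (hu i).unit
    refine Eq.trans ?_ (Equiv.sum_comp e
      (fun r => ff D Q M v (fun i => Quotient.out (r i))))
    refine Finset.sum_congr rfl fun r _ => ?_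
    have h1 : ff D Q M v (fun i => Quotient.out (e r i)) =
        ff D Q M v (fun i => Quotient.out (r i) * β i) := by
      refine per_ff hD Q M v hv _ _ fun i => ?_
      have h2 : ∀ y : 𝓞 (D.E i) ⧸ ex (fun i => D.E i) v.asIdeal i,
          Ideal.Quotient.mk (ex (fun i => D.E i) v.asIdeal i) (Quotient.out y) = y :=
        fun y => Quotient.out_eq y
      rw [← Ideal.Quotient.eq, map_mul, h2, h2]
      rfl
    refine Eq.trans ?_ h1.symm
    have h3 : Un (fun i => Quotient.out (r i) * β i : Tp fun i => D.E i) v ↔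
        Un (fun i => Quotient.out (r i) : Tp fun i => D.E i) v := by
      refine ⟨fun h i w hw h' => h i w hw (w.asIdeal.mul_mem_right _ h'), fun h i w hw h' => ?_⟩
      rcases w.isPrime.mem_or_mem h' with h' | h'
      · exact h i w hw h'
      · exact hβ i w hw h'
    by_cases hc : Un (fun i => Quotient.out (r i) : Tp fun i => D.E i) v
    · obtain ⟨w, hw⟩ := hβ' _ hc
      unfold ff
      rw [if_pos hc, if_pos (h3.2 hc), hw, fxp_conj]
    · unfold ff
      rw [if_neg hc, if_neg (fun h => hc (h3.1 h))]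
  -- the sum over V for one class
  have hsum : ∀ a : A, ∑ x : V, (H51.K1.fxp M (D.e x * a) : ℝ) =
      (Fintype.card V : ℝ) * (H51.K1.fxp (M ⊔ D.e.range) a : ℝ) := by
    intro a
    have h1 := fxp_sup M D.e.range hn a
    rw [← finsum_comp_equiv (MonoidHom.ofInjective hD.inj).toEquiv, finsum_eq_sum_of_fintype,
      ← Nat.card_congr (MonoidHom.ofInjective hD.inj).toEquiv, Nat.card_eq_fintype_card] at h1
    exact h1
  have hphf : ∀ α : Tp fun i => D.E i, H51.K1.fxp (M ⊔ D.e.range) (phf D α (fr Q v)) =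
      H51.K1.fxp (M ⊔ D.e.range) (D.φ (fr Q v)) := fun α =>
    fxp_mul M D.e.range hn _ _ ⟨_, rfl⟩
  -- double counting
  have hdc : (Fintype.card V : ℝ) *
      ∑ r : (i : I) → 𝓞 (D.E i) ⧸ ex (fun i => D.E i) v.asIdeal i,
        ff D Q M v (fun i => Quotient.out (r i)) =
      (Fintype.card V : ℝ) * ((∑ r : (i : I) → 𝓞 (D.E i) ⧸ ex (fun i => D.E i) v.asIdeal i,
        if Un (fun i => Quotient.out (r i) : Tp fun i => D.E i) v then (1 : ℝ) else 0) *
        (H51.K1.fxp (M ⊔ D.e.range) (D.φ (fr Q v)) : ℝ)) := by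
    calc (Fintype.card V : ℝ) *
        ∑ r : (i : I) → 𝓞 (D.E i) ⧸ ex (fun i => D.E i) v.asIdeal i,
          ff D Q M v (fun i => Quotient.out (r i))
        = ∑ x : V, ∑ r : (i : I) → 𝓞 (D.E i) ⧸ ex (fun i => D.E i) v.asIdeal i,
          ff D Q M v (fun i => Quotient.out (r i)) := by
          rw [Finset.sum_const, nsmul_eq_mul, Finset.card_univ]
      _ = ∑ x : V, ∑ r : (i : I) → 𝓞 (D.E i) ⧸ ex (fun i => D.E i) v.asIdeal i,
          if Un (fun i => Quotient.out (r i) : Tp fun i => D.E i) v then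
            (H51.K1.fxp M (D.e x * phf D (fun i => Quotient.out (r i)) (fr Q v)) : ℝ) else 0 :=
          Finset.sum_congr rfl fun x _ => (hkey x).symm
      _ = ∑ r : (i : I) → 𝓞 (D.E i) ⧸ ex (fun i => D.E i) v.asIdeal i, ∑ x : V,
          if Un (fun i => Quotient.out (r i) : Tp fun i => D.E i) v then
            (H51.K1.fxp M (D.e x * phf D (fun i => Quotient.out (r i)) (fr Q v)) : ℝ) else 0 :=
          Finset.sum_comm
      _ = ∑ r : (i : I) → 𝓞 (D.E i) ⧸ ex (fun i => D.E i) v.asIdeal i,
          (Fintype.card V : ℝ) *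
          ((if Un (fun i => Quotient.out (r i) : Tp fun i => D.E i) v then (1 : ℝ) else 0) *
          (H51.K1.fxp (M ⊔ D.e.range) (D.φ (fr Q v)) : ℝ)) := by
          refine Finset.sum_congr rfl fun r _ => ?_
          by_cases hc : Un (fun i => Quotient.out (r i) : Tp fun i => D.E i) v
          · rw [if_pos hc, one_mul]
            have h1 : ∀ x : V, (if Un (fun i => Quotient.out (r i) : Tp fun i => D.E i) v then
                (H51.K1.fxp M (D.e x * phf D (fun i => Quotient.out (r i)) (fr Q v)) : ℝ)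
                else 0) =
                (H51.K1.fxp M (D.e x * phf D (fun i => Quotient.out (r i)) (fr Q v)) : ℝ) :=
              fun x => if_pos hc
            rw [Finset.sum_congr rfl fun x _ => h1 x, hsum, hphf]
          · rw [if_neg hc, zero_mul, mul_zero]
            exact Finset.sum_eq_zero fun x _ => if_neg hc
      _ = _ := by rw [← Finset.mul_sum, ← Finset.sum_mul]
  have hV0 : (Fintype.card V : ℝ) ≠ 0 := by
    have : 0 < Fintype.card V := Fintype.card_pos
    exact_mod_cast this.ne'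
  have hmain := mul_left_cancel₀ hV0 hdc
  unfold un Mn
  rw [finsum_eq_sum_of_fintype, finsum_eq_sum_of_fintype, hmain]
  ring

end Pool.Agent.H36.FR
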