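import Pool.Agent.H36.FR.Beb
import Pool.Agent.H36.FA.Mpi

/-!
# [H36 FR MPI] The product of `1 - be` is bounded below

As `prod_be` in H36/FA/Mpi.lean: `1 - be ≥ 2^(-kk)` (`one_sub_be`, `nm ≥ 2`), `be ≤ cb/nm²` (`be_le`), `FA.sum_32`.
-/

set_option autoImplicit false

open scoped NumberField Classical
open IsDedekindDomain NumberField

noncomputable section

namespace Pool.Agent.H36.FR

open H63.MA H38.BB H38.BG H77.PC3 H51.SN H57.SL H36.QA H1.LS4 H38.ML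

variable {K : Type} [Field K] [NumberField K] {I : Type} [Fintype I] {E : I → Type}
  [∀ i, Field (E i)] [∀ i, NumberField (E i)] [∀ i, Algebra K (E i)]

private theorem nm_ge_two (v : Pl K) : 2 ≤ nm v := by
  have h0 : nm v ≠ 0 := by
    unfold nm
    rw [Ne, Ideal.absNorm_eq_zero_iff]
    exact v.ne_bot
  have h1 : nm v ≠ 1 := by
    unfold nm
    rw [Ne, Ideal.absNorm_eq_one_iff]
    exact v.isPrime.ne_top
  omega

omit [NumberField K] [∀ i, NumberField (E i)] in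
private theorem cb_nonneg : 0 ≤ cb K E := by
  unfold cb
  positivity

/-- one factor -/
private theorem factor (x k c N : ℝ) (hk : 0 < k) (hx1 : k ≤ 1 - x) (hx : x ≤ c / N ^ 2)
    (hc : 0 ≤ c) (hN : 2 ≤ N) : Real.exp (-(k⁻¹ * c * N ^ (-(3 / 2) : ℝ))) ≤ 1 - x := by
  have hpos : 0 < 1 - x := lt_of_lt_of_le hk hx1
  have h1 : Real.exp (-(k⁻¹ * c * N ^ (-(3 / 2) : ℝ))) ≤ Real.exp (-((1 - x)⁻¹ - 1)) := by
    apply Real.exp_le_exp.2
    rw [neg_le_neg_iff]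
    have h2 : (1 - x)⁻¹ - 1 = (1 - x)⁻¹ * x := by
      field_simp
      ring
    rw [h2]
    have h3 : c / N ^ 2 ≤ c * N ^ (-(3 / 2) : ℝ) := by
      rw [div_eq_mul_inv]
      apply mul_le_mul_of_nonneg_left _ hc
      rw [← Real.rpow_natCast, ← Real.rpow_neg (by linarith)]
      apply Real.rpow_le_rpow_of_exponent_le (by linarith)
      norm_num
    have h4 : x ≤ c * N ^ (-(3 / 2) : ℝ) := hx.trans h3
    have h5 : 0 ≤ c * N ^ (-(3 / 2) : ℝ) := mul_nonneg hc (Real.rpow_nonneg (by linarith) _)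
    have h6 : (1 - x)⁻¹ ≤ k⁻¹ := inv_anti₀ hk hx1
    calc (1 - x)⁻¹ * x ≤ (1 - x)⁻¹ * (c * N ^ (-(3 / 2) : ℝ)) :=
          mul_le_mul_of_nonneg_left h4 (inv_nonneg.2 hpos.le)
      _ ≤ k⁻¹ * (c * N ^ (-(3 / 2) : ℝ)) := mul_le_mul_of_nonneg_right h6 h5
      _ = k⁻¹ * c * N ^ (-(3 / 2) : ℝ) := by ring
  refine h1.trans ?_
  have h7 := Real.log_le_sub_one_of_pos (inv_pos.2 hpos)
  rw [Real.log_inv] at h7
  calc Real.exp (-((1 - x)⁻¹ - 1)) ≤ Real.exp (Real.log (1 - x)) :=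
        Real.exp_le_exp.2 (by linarith)
    _ = 1 - x := Real.exp_log hpos

variable (K E) in
theorem prod_be : ∃ c : ℝ, 0 < c ∧ ∀ R : Finset (Pl K), c ≤ ∏ v ∈ R, (1 - be E v) := by
  obtain ⟨S, hS0, hS⟩ := FA.sum_32 K
  have hkp : (0 : ℝ) < (1 / 2 : ℝ) ^ kk K E := by positivity
  have hcb : 0 ≤ cb K E := cb_nonneg
  have hA : 0 ≤ ((1 / 2 : ℝ) ^ kk K E)⁻¹ * cb K E := mul_nonneg (inv_nonneg.2 hkp.le) hcb
  refine ⟨Real.exp (-(((1 / 2 : ℝ) ^ kk K E)⁻¹ * cb K E * S)), Real.exp_pos _, fun R => ?_⟩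
  have key : ∀ v : Pl K, Real.exp (-(((1 / 2 : ℝ) ^ kk K E)⁻¹ * cb K E *
      (nm v : ℝ) ^ (-(3 / 2) : ℝ))) ≤ 1 - be E v := by
    intro v
    have hN : (2 : ℝ) ≤ (nm v : ℝ) := by exact_mod_cast nm_ge_two v
    refine factor _ _ _ _ hkp ?_ (be_le E v) hcb hN
    refine le_trans ?_ (one_sub_be E v)
    apply pow_le_pow_left₀ (by norm_num)
    have h1 : 1 / (nm v : ℝ) ≤ 1 / 2 := one_div_le_one_div_of_le (by norm_num) hN
    linarith
  calc Real.exp (-(((1 / 2 : ℝ) ^ kk K E)⁻¹ * cb K E * S))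
      ≤ Real.exp (∑ v ∈ R, -(((1 / 2 : ℝ) ^ kk K E)⁻¹ * cb K E *
          (nm v : ℝ) ^ (-(3 / 2) : ℝ))) := by
        apply Real.exp_le_exp.2
        rw [Finset.sum_neg_distrib, ← Finset.mul_sum, neg_le_neg_iff]
        exact mul_le_mul_of_nonneg_left (hS R) hA
    _ = ∏ v ∈ R, Real.exp (-(((1 / 2 : ℝ) ^ kk K E)⁻¹ * cb K E *
          (nm v : ℝ) ^ (-(3 / 2) : ℝ))) := Real.exp_sum _ _
    _ ≤ ∏ v ∈ R, (1 - be E v) :=
        Finset.prod_le_prod (fun v _ => (Real.exp_pos _).le) fun v _ => key v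

end Pool.Agent.H36.FR
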