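import Pool.Agent.H36.FR.Che
import Pool.Agent.H36.FR.Frm
import Pool.Agent.H36.FR.Mpi

/-!
# [H36 FR CHG] The hypotheses `che1`, `che2` for the means `gg`

As H36/FA/Chg.lean (PROVED: copy it). `gg v = un v fxp (M ⊔ e.range) (φ (fr v)) / (1 - be v)` (`mn_ff`), `(1 - 1/N)^kk ≤ un v ≤ 1 - be v ≤ 1` (`un_low`, `un_be`, `be_nonneg`): `(1 - 1/N)^kk fxp ≤ gg ≤ fxp ≤ #A`. `che_w`, `che_m` for `φ₀ = D.φ`, `H = M ⊔ e.range`; `FA.sum_32`.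
-/

set_option autoImplicit false

open scoped NumberField Classical
open IsDedekindDomain NumberField

noncomputable section

namespace Pool.Agent.H36.FR

open H63.MA H38.BB H38.BG H77.PC3 H51.SN H57.SL H36.QA H1.LS4 H38.ML

variable {K : IntermediateField ℚ QBar} [NumberField K] {A V I : Type} [Group A] [Finite A]
  [CommGroup V] [MulDistribMulAction A V] [Fintype I] {D : Dt K A V I}
  [∀ i, NumberField (D.E i)]

private theorem chg_two_le (v : Pl K) : (2 : ℝ) ≤ nm v := by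
  exact_mod_cast one_lt_nm v

private theorem chg_half_le (v : Pl K) : 1 / 2 ≤ 1 - 1 / (nm v : ℝ) := by
  have h := chg_two_le v
  have h1 : 1 / (nm v : ℝ) ≤ 1 / 2 := one_div_le_one_div_of_le two_pos h
  linarith

omit [Finite A] in
private theorem chg_fxp_le [Finite A] (H : Subgroup A) (a : A) :
    (H51.K1.fxp H a : ℝ) ≤ Nat.card A := by
  have h1 : H51.K1.fxp H a ≤ Nat.card (A ⧸ H) :=
    Nat.card_le_card_of_injective Subtype.val Subtype.val_injective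
  have h2 : Nat.card (A ⧸ H) ≤ Nat.card A :=
    Nat.card_le_card_of_surjective (QuotientGroup.mk : A → A ⧸ H) QuotientGroup.mk_surjective
  exact_mod_cast h1.trans h2

/-- `gg` is between `(1 - 1 / N) ^ k` times the number of fixed points and the number of fixed points -/
private theorem chg_both (hD : Ok D) (Q : DP K QBar) (M : Subgroup A) (v : Pl K)
    (hv : ((D.m : ℕ) : 𝓞 K) ∉ v.asIdeal)
    (h₀ : ∀ τ ∈ (Q.P v).inertia Gal(QBar/K), D.φ τ = 1) :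
    (1 - 1 / (nm v : ℝ)) ^ kk K (fun i => D.E i) *
        (H51.K1.fxp (M ⊔ D.e.range) (D.φ (fr Q v)) : ℝ) ≤ gg D Q M v ∧
      gg D Q M v ≤ (H51.K1.fxp (M ⊔ D.e.range) (D.φ (fr Q v)) : ℝ) := by
  have h0 : 0 < (1 - 1 / (nm v : ℝ)) ^ kk K (fun i => D.E i) :=
    pow_pos (lt_of_lt_of_le (by norm_num) (chg_half_le v)) _
  have h1 := un_low (E := fun i => D.E i) v
  have h1' := un_be (E := fun i => D.E i) v
  have h2 := be_nonneg (E := fun i => D.E i) v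
  have h3 : 0 < 1 - be (fun i => D.E i) v := lt_of_lt_of_le h0 (h1.trans h1')
  have h4 : (0 : ℝ) ≤ (H51.K1.fxp (M ⊔ D.e.range) (D.φ (fr Q v)) : ℝ) := Nat.cast_nonneg _
  unfold gg
  rw [mn_ff hD Q M v hv h₀]
  constructor
  · rw [le_div_iff₀ h3]
    have h5 : 0 ≤ (1 - 1 / (nm v : ℝ)) ^ kk K (fun i => D.E i) *
        (H51.K1.fxp (M ⊔ D.e.range) (D.φ (fr Q v)) : ℝ) := mul_nonneg h0.le h4
    have h6 : (1 - 1 / (nm v : ℝ)) ^ kk K (fun i => D.E i) *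
        (H51.K1.fxp (M ⊔ D.e.range) (D.φ (fr Q v)) : ℝ) ≤
        un (fun i => D.E i) v * (H51.K1.fxp (M ⊔ D.e.range) (D.φ (fr Q v)) : ℝ) :=
      mul_le_mul_of_nonneg_right h1 h4
    nlinarith
  · rw [div_le_iff₀ h3, mul_comm]
    exact mul_le_mul_of_nonneg_left h1' h4

theorem gg_bd (hD : Ok D) (Q : DP K QBar) (M : Subgroup A) (v : Pl K)
    (hv : ((D.m : ℕ) : 𝓞 K) ∉ v.asIdeal)
    (h₀ : ∀ τ ∈ (Q.P v).inertia Gal(QBar/K), D.φ τ = 1) :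
    0 ≤ gg D Q M v ∧ gg D Q M v ≤ Nat.card A := by
  obtain ⟨h1, h2⟩ := chg_both hD Q M v hv h₀
  have h0 : 0 < (1 - 1 / (nm v : ℝ)) ^ kk K (fun i => D.E i) :=
    pow_pos (lt_of_lt_of_le (by norm_num) (chg_half_le v)) _
  exact ⟨(mul_nonneg h0.le (Nat.cast_nonneg _)).trans h1, h2.trans (chg_fxp_le _ _)⟩

private theorem chg_mem_PV {S₀ : Finset (Pl K)} {x : ℝ} {v : H51.K1.Vx S₀} :
    v ∈ H51.K1.PV S₀ x ↔ (nm v.1 : ℝ) ≤ x := by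
  unfold H51.K1.PV
  rw [Set.Finite.mem_toFinset]
  rfl

/-- `1 - k y ≤ (1 - y) ^ k` -/
private theorem chg_bern (k : ℕ) {y : ℝ} (hy : y ≤ 1) : 1 - k * y ≤ (1 - y) ^ k := by
  have h := one_add_mul_le_pow (a := -y) (by linarith) k
  rw [show (1 : ℝ) + k * -y = 1 - k * y by ring, show (1 : ℝ) + -y = 1 - y by ring] at h
  exact h

/-- `1 / N ^ 2 ≤ N ^ (- 3 / 2)` -/
private theorem chg_sq_le_32 {N : ℝ} (hN : 1 ≤ N) : 1 / N ^ 2 ≤ N ^ (-(3 / 2) : ℝ) := by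
  have h1 : 1 / N ^ 2 = N ^ (-2 : ℝ) := by
    rw [Real.rpow_neg (by linarith), one_div]
    norm_num
  rw [h1]
  exact Real.rpow_le_rpow_of_exponent_le hN (by norm_num)

theorem gg_che (hD : Ok D) (Q : DP K QBar) (M : Subgroup A) (S₀ : Finset (Pl K))
    (hS : ∀ v : Pl K, ((D.m : ℕ) : 𝓞 K) ∈ v.asIdeal → v ∈ S₀)
    (hS' : ∀ v, v ∉ S₀ → ∀ τ ∈ (Q.P v).inertia Gal(QBar/K), D.φ τ = 1) :
    ∃ C₀ : ℝ, 2 ≤ C₀ ∧ ∀ C : ℝ, C₀ ≤ C →
      (∀ x : ℝ, C ≤ x → x / (C * Real.log x) ≤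
        ∑ v ∈ H51.K1.PV S₀ (C * x) \ H51.K1.PV S₀ x, gg D Q M v.1) ∧
      ∀ x : ℝ, 2 ≤ x → Real.log (Real.log x) - C ≤
        ∑ v ∈ H51.K1.PV S₀ x, gg D Q M v.1 / (nm v.1 : ℝ) := by
  obtain ⟨k, hk⟩ : ∃ k, k = kk K (fun i => D.E i) := ⟨_, rfl⟩
  obtain ⟨H', hH'⟩ : ∃ H', H' = M ⊔ D.e.range := ⟨_, rfl⟩
  have hv : ∀ v : H51.K1.Vx S₀, ((D.m : ℕ) : 𝓞 K) ∉ v.1.asIdeal := fun v h => v.2 (hS v.1 h)
  have hlow : ∀ v : H51.K1.Vx S₀, (1 - 1 / (nm v.1 : ℝ)) ^ k *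
      (H51.K1.fxp H' (D.φ (fr Q v.1)) : ℝ) ≤ gg D Q M v.1 := fun v => by
    rw [hk, hH']
    exact (chg_both hD Q M v.1 (hv v) (hS' v.1 v.2)).1
  have hnn : ∀ v : H51.K1.Vx S₀, 0 ≤ gg D Q M v.1 := fun v =>
    (gg_bd hD Q M v.1 (hv v) (hS' v.1 v.2)).1
  obtain ⟨C1, hC1, hm⟩ := che_m D.φ hD.ft hD.srj Q H' S₀
  obtain ⟨C2, hC2, hw⟩ := che_w D.φ hD.ft hD.srj Q H' S₀
  obtain ⟨S, hS0, hS32⟩ := FA.sum_32 K
  have h2k : (1 : ℝ) ≤ 2 ^ k := one_le_pow₀ one_le_two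
  have h2k0 : (0 : ℝ) < 2 ^ k := by positivity
  obtain ⟨C3, hC3⟩ : ∃ C3 : ℝ, C3 = C1 + k * (Nat.card A * S) := ⟨_, rfl⟩
  refine ⟨max (2 ^ k * C2) C3, ?_, fun C hC => ⟨fun x hx => ?_, fun x hx => ?_⟩⟩
  · refine le_trans ?_ (le_max_left _ _)
    nlinarith
  · -- windows
    have hCk : 2 ^ k * C2 ≤ C := (le_max_left _ _).trans hC
    have hC0 : 2 ≤ C := by nlinarith
    have hx0 : 2 ≤ x := hC0.trans hx
    have hlog : 0 < Real.log x := Real.log_pos (by linarith)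
    have h1 : C2 ≤ C / 2 ^ k := by
      rw [le_div_iff₀ h2k0, mul_comm]
      exact hCk
    have h2 : C / 2 ^ k ≤ C := div_le_self (by linarith) h2k
    have h3 := hw (C / 2 ^ k) h1 x (h2.trans hx)
    have h4 : H51.K1.PV S₀ (C / 2 ^ k * x) \ H51.K1.PV S₀ x ⊆ H51.K1.PV S₀ (C * x) \ H51.K1.PV S₀ x := by
      refine Finset.sdiff_subset_sdiff (fun v hv => ?_) (Finset.Subset.refl _)
      rw [chg_mem_PV] at hv ⊢
      exact hv.trans (mul_le_mul_of_nonneg_right h2 (by linarith))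
    have h5 : ∀ v : H51.K1.Vx S₀, (1 / 2) ^ k * (H51.K1.fxp H' (D.φ (fr Q v.1)) : ℝ) ≤
        gg D Q M v.1 := fun v => by
      refine le_trans ?_ (hlow v)
      exact mul_le_mul_of_nonneg_right (pow_le_pow_left₀ (by norm_num) (chg_half_le v.1) k) (Nat.cast_nonneg _)
    calc x / (C * Real.log x) = (1 / 2) ^ k * (x / (C / 2 ^ k * Real.log x)) := by
          rw [one_div_pow]
          field_simp
      _ ≤ (1 / 2) ^ k * ∑ v ∈ H51.K1.PV S₀ (C / 2 ^ k * x) \ H51.K1.PV S₀ x,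
          (H51.K1.fxp H' (D.φ (fr Q v.1)) : ℝ) := mul_le_mul_of_nonneg_left h3 (by positivity)
      _ = ∑ v ∈ H51.K1.PV S₀ (C / 2 ^ k * x) \ H51.K1.PV S₀ x,
          (1 / 2) ^ k * (H51.K1.fxp H' (D.φ (fr Q v.1)) : ℝ) := Finset.mul_sum _ _ _
      _ ≤ ∑ v ∈ H51.K1.PV S₀ (C / 2 ^ k * x) \ H51.K1.PV S₀ x, gg D Q M v.1 :=
          Finset.sum_le_sum fun v _ => h5 v
      _ ≤ _ := Finset.sum_le_sum_of_subset_of_nonneg h4 fun v _ _ => hnn v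
  · -- Mertens
    have hC3' : C3 ≤ C := (le_max_right _ _).trans hC
    have h1 := hm x hx
    have h2 : ∀ v : H51.K1.Vx S₀, (H51.K1.fxp H' (D.φ (fr Q v.1)) : ℝ) / (nm v.1 : ℝ) -
        k * (Nat.card A * (nm v.1 : ℝ) ^ (-(3 / 2) : ℝ)) ≤ gg D Q M v.1 / (nm v.1 : ℝ) := fun v => by
      have hN := chg_two_le v.1
      have hN0 : (0 : ℝ) < nm v.1 := by linarith
      have hf0 : (0 : ℝ) ≤ (H51.K1.fxp H' (D.φ (fr Q v.1)) : ℝ) := Nat.cast_nonneg _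
      have hf1 := chg_fxp_le H' (D.φ (fr Q v.1))
      have h3 : (1 - k * (1 / (nm v.1 : ℝ))) * (H51.K1.fxp H' (D.φ (fr Q v.1)) : ℝ) ≤ gg D Q M v.1 := by
        refine le_trans ?_ (hlow v)
        refine mul_le_mul_of_nonneg_right (chg_bern k ?_) hf0
        rw [div_le_one hN0]
        linarith
      have h4 : (1 - k * (1 / (nm v.1 : ℝ))) * (H51.K1.fxp H' (D.φ (fr Q v.1)) : ℝ) / (nm v.1 : ℝ) ≤
          gg D Q M v.1 / (nm v.1 : ℝ) := div_le_div_of_nonneg_right h3 hN0.le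
      refine le_trans ?_ h4
      have h5 := chg_sq_le_32 (N := (nm v.1 : ℝ)) (by linarith)
      have h6 : (H51.K1.fxp H' (D.φ (fr Q v.1)) : ℝ) * (1 / (nm v.1 : ℝ) ^ 2) ≤
          Nat.card A * (nm v.1 : ℝ) ^ (-(3 / 2) : ℝ) :=
        mul_le_mul hf1 h5 (by positivity) (Nat.cast_nonneg _)
      have h7 : (1 - k * (1 / (nm v.1 : ℝ))) * (H51.K1.fxp H' (D.φ (fr Q v.1)) : ℝ) / (nm v.1 : ℝ) =
          (H51.K1.fxp H' (D.φ (fr Q v.1)) : ℝ) / (nm v.1 : ℝ) -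
            k * ((H51.K1.fxp H' (D.φ (fr Q v.1)) : ℝ) * (1 / (nm v.1 : ℝ) ^ 2)) := by
        field_simp
      rw [h7]
      have h8 := mul_le_mul_of_nonneg_left h6 (Nat.cast_nonneg k : (0 : ℝ) ≤ k)
      linarith
    have h3 : ∑ v ∈ H51.K1.PV S₀ x, (nm v.1 : ℝ) ^ (-(3 / 2) : ℝ) ≤ S := by
      have h4 := hS32 ((H51.K1.PV S₀ x).map ⟨Subtype.val, Subtype.val_injective⟩)
      rw [Finset.sum_map] at h4
      exact h4
    have h5 : ∑ v ∈ H51.K1.PV S₀ x, ((H51.K1.fxp H' (D.φ (fr Q v.1)) : ℝ) / (nm v.1 : ℝ) -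
        k * (Nat.card A * (nm v.1 : ℝ) ^ (-(3 / 2) : ℝ))) ≤
        ∑ v ∈ H51.K1.PV S₀ x, gg D Q M v.1 / (nm v.1 : ℝ) := Finset.sum_le_sum fun v _ => h2 v
    rw [Finset.sum_sub_distrib, ← Finset.mul_sum, ← Finset.mul_sum] at h5
    have h6 : (k : ℝ) * (Nat.card A * ∑ v ∈ H51.K1.PV S₀ x, (nm v.1 : ℝ) ^ (-(3 / 2) : ℝ)) ≤
        k * (Nat.card A * S) := mul_le_mul_of_nonneg_left
      (mul_le_mul_of_nonneg_left h3 (Nat.cast_nonneg _)) (Nat.cast_nonneg _)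
    linarith

end Pool.Agent.H36.FR
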