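import Pool.Agent.H36.FR.Def

/-!
# [H36 FR PER] Periodic functions of tuples and their means

As H36/FA/Per.lean (proved, read it), with different fields `E i` and a family `𝔄 i` of ideals in place of one ideal.
* `mn_rep`: `𝓞 (E i) ⧸ 𝔄 i` is finite with `absNorm (𝔄 i)` elements; for periodic `f` the mean can be computed with any representatives.
* `mn_mul`: Chinese remainder theorem in every component (`Ideal.quotientMulEquivQuotientProd`), tuples of pairs = pairs of tuples, `Finset.sum_mul_sum`; the norm is multiplicative.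
-/

set_option autoImplicit false

open scoped NumberField Classical
open IsDedekindDomain NumberField

noncomputable section

namespace Pool.Agent.H36.FR

open H63.MA H38.BB H38.BG H77.PC3 H51.SN H57.SL H36.QA H1.LS4 H38.ML

variable {I : Type} [Fintype I] {E : I → Type} [∀ i, Field (E i)] [∀ i, NumberField (E i)]

theorem mn_rep {𝔄 : (i : I) → Ideal (𝓞 (E i))} (hc : ∀ i, 𝔄 i ≠ ⊥) {f : Tp E → ℝ} (hf : Per 𝔄 f)
    (rp : (i : I) → 𝓞 (E i) ⧸ 𝔄 i → 𝓞 (E i))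
    (hrp : ∀ i r, Ideal.Quotient.mk (𝔄 i) (rp i r) = r) :
    Mn 𝔄 f = (∑ᶠ r : (i : I) → 𝓞 (E i) ⧸ 𝔄 i, f (fun i => rp i (r i))) /
      ∏ i, (Ideal.absNorm (𝔄 i) : ℝ) := by
  unfold Mn
  have h1 : (fun r : (i : I) → 𝓞 (E i) ⧸ 𝔄 i => f (fun i => Quotient.out (r i))) =
      fun r : (i : I) → 𝓞 (E i) ⧸ 𝔄 i => f (fun i => rp i (r i)) := by
    funext r
    refine hf _ _ fun i => ?_
    rw [← Ideal.Quotient.eq, hrp]
    exact Quotient.out_eq (r i)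
  rw [h1]

private theorem exists_crt {F : Type} [Field F] [NumberField F] {𝔠 𝔡 : Ideal (𝓞 F)} (hcd : IsCoprime 𝔠 𝔡) :
    ∃ e : (𝓞 F ⧸ 𝔠 * 𝔡) ≃ (𝓞 F ⧸ 𝔠) × (𝓞 F ⧸ 𝔡), ∀ x : 𝓞 F,
      e (Ideal.Quotient.mk (𝔠 * 𝔡) x) = (Ideal.Quotient.mk 𝔠 x, Ideal.Quotient.mk 𝔡 x) :=
  ⟨(Ideal.quotientMulEquivQuotientProd 𝔠 𝔡 hcd).toEquiv, fun _ => rfl⟩

private theorem sum_prod {A B : Type} [Finite A] [Finite B] (f : A → ℝ) (g : B → ℝ) :
    ∑ᶠ r : A × B, f r.1 * g r.2 = (∑ᶠ a, f a) * ∑ᶠ b, g b := by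
  have fA : Fintype A := Fintype.ofFinite _
  have fB : Fintype B := Fintype.ofFinite _
  rw [finsum_eq_sum_of_fintype, finsum_eq_sum_of_fintype, finsum_eq_sum_of_fintype,
    Fintype.sum_prod_type, Finset.sum_mul_sum]

theorem mn_mul {𝔄 𝔅 : (i : I) → Ideal (𝓞 (E i))} (hA : ∀ i, 𝔄 i ≠ ⊥) (hB : ∀ i, 𝔅 i ≠ ⊥)
    (hc : ∀ i, IsCoprime (𝔄 i) (𝔅 i)) {f g : Tp E → ℝ} (hf : Per 𝔄 f) (hg : Per 𝔅 g) :
    Mn (fun i => 𝔄 i * 𝔅 i) (fun α => f α * g α) = Mn 𝔄 f * Mn 𝔅 g := by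
  have f1 : ∀ i, Finite (𝓞 (E i) ⧸ 𝔄 i) := fun i => Ideal.finiteQuotientOfFreeOfNeBot _ (hA i)
  have f2 : ∀ i, Finite (𝓞 (E i) ⧸ 𝔅 i) := fun i => Ideal.finiteQuotientOfFreeOfNeBot _ (hB i)
  have hex := fun i => exists_crt (hc i)
  choose e he using hex
  have hout : ∀ (i : I) (J : Ideal (𝓞 (E i))) (r : 𝓞 (E i) ⧸ J),
      Ideal.Quotient.mk J (Quotient.out r) = r := fun i J r => Quotient.out_eq r
  have h1 : (∑ᶠ r : (i : I) → 𝓞 (E i) ⧸ 𝔄 i * 𝔅 i,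
      f (fun i => Quotient.out (r i)) * g (fun i => Quotient.out (r i))) =
      (∑ᶠ r : (i : I) → 𝓞 (E i) ⧸ 𝔄 i, f (fun i => Quotient.out (r i))) *
        ∑ᶠ r : (i : I) → 𝓞 (E i) ⧸ 𝔅 i, g (fun i => Quotient.out (r i)) := by
    rw [← sum_prod]
    rw [← finsum_comp_equiv ((Equiv.piCongrRight e).trans
      (Equiv.arrowProdEquivProdArrow I (fun i => 𝓞 (E i) ⧸ 𝔄 i) (fun i => 𝓞 (E i) ⧸ 𝔅 i)))]
    refine finsum_congr fun r => ?_
    have h3 : ∀ i, (e i (r i)).1 = Ideal.Quotient.mk (𝔄 i) (Quotient.out (r i)) ∧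
        (e i (r i)).2 = Ideal.Quotient.mk (𝔅 i) (Quotient.out (r i)) := by
      intro i
      have h4 := he i (Quotient.out (r i))
      rw [hout] at h4
      rw [h4]
      exact ⟨rfl, rfl⟩
    have h5 : f (fun i => Quotient.out (r i)) = f (fun i => Quotient.out ((e i (r i)).1)) := by
      refine hf _ _ fun i => ?_
      rw [← Ideal.Quotient.eq, hout, (h3 i).1]
    have h6 : g (fun i => Quotient.out (r i)) = g (fun i => Quotient.out ((e i (r i)).2)) := by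
      refine hg _ _ fun i => ?_
      rw [← Ideal.Quotient.eq, hout, (h3 i).2]
    rw [h5, h6]
    rfl
  have h2 : (∏ i, (Ideal.absNorm (𝔄 i * 𝔅 i) : ℝ)) =
      (∏ i, (Ideal.absNorm (𝔄 i) : ℝ)) * ∏ i, (Ideal.absNorm (𝔅 i) : ℝ) := by
    rw [← Finset.prod_mul_distrib]
    refine Finset.prod_congr rfl fun i _ => ?_
    rw [map_mul, Nat.cast_mul]
  unfold Mn
  rw [h1, h2, mul_div_mul_comm]

omit [Fintype I] [∀ i, NumberField (E i)] in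
theorem per_mul {𝔄 𝔅 : (i : I) → Ideal (𝓞 (E i))} {f g : Tp E → ℝ} (hf : Per 𝔄 f)
    (hg : Per 𝔅 g) : Per (fun i => 𝔄 i * 𝔅 i) (fun α => f α * g α) := by
  intro α α' h
  have h1 : ∀ i, 𝔄 i * 𝔅 i ≤ 𝔄 i := fun i => Ideal.mul_le_left
  have h2 : ∀ i, 𝔄 i * 𝔅 i ≤ 𝔅 i := fun i => Ideal.mul_le_right
  have h3 : f α = f α' := hf α α' fun i => h1 i (h i)
  have h4 : g α = g α' := hg α α' fun i => h2 i (h i)
  change f α * g α = f α' * g α'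
  rw [h3, h4]

omit [Fintype I] [∀ i, NumberField (E i)] in
theorem per_mono {𝔄 𝔅 : (i : I) → Ideal (𝓞 (E i))} (h : ∀ i, 𝔄 i ≤ 𝔅 i) {f : Tp E → ℝ}
    (hf : Per 𝔅 f) : Per 𝔄 f := fun α β hαβ => hf α β fun i => h i (hαβ i)

end Pool.Agent.H36.FR
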