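import Pool.Agent.H36.FA.Ann
import Pool.Agent.H36.FR.Per

/-!
# [H36 FR CNT] Sums of periodic functions over the box of tuples

As H36/FA/Cnt.lean (proved, read it). `κ_i`, `C_i` from `FA.ann_cnt (E i)`, `κ = ∏ κ_i`, `η` = the minimum of the `1/[E i : ℚ]` (or `1/(1 + ∑ ..)`). Group the `α ∈ BX E X` by their classes:
`∑ f α = ∑_r f(r) ∏_i #{α ∈ Ax (E i) (X i) : α ≡ r i (𝔄 i)}`; each factor is `κ_i X i / N(𝔄 i) + e_i`, `|e_i| ≤ C_i X i Z^(-η)`, so the product differs from `∏ κ_i X i / N(𝔄 i)` by at most `C' (∏ X i) Z^(-η)`; there are `∏ N(𝔄 i)`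
classes, `|f| ≤ B`, and `∑_r f(r) ∏ κ_i X i / N(𝔄 i) = κ (∏ X i) Mn 𝔄 f`. (`I` may be empty: `κ = 1`.)
-/

set_option autoImplicit false

open scoped NumberField Classical
open IsDedekindDomain NumberField

noncomputable section

namespace Pool.Agent.H36.FR

open H63.MA H38.BB H38.BG H77.PC3 H51.SN H57.SL H36.QA H1.LS4 H38.ML

variable {I : Type} [Fintype I] {E : I → Type} [∀ i, Field (E i)] [∀ i, NumberField (E i)]

private theorem cnt_prod {ι : Type} (s : Finset ι) (a b M : ι → ℝ) (ε : ℝ) (hε : 0 ≤ ε)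
    (ha : ∀ i ∈ s, |a i| ≤ M i) (hb : ∀ i ∈ s, |b i| ≤ M i) (hab : ∀ i ∈ s, |a i - b i| ≤ ε * M i) :
    |∏ i ∈ s, a i - ∏ i ∈ s, b i| ≤ s.card * ε * ∏ i ∈ s, M i := by
  induction s using Finset.induction_on with
  | empty => simp
  | insert i s hi ih =>
    rw [Finset.prod_insert hi, Finset.prod_insert hi, Finset.prod_insert hi, Finset.card_insert_of_notMem hi]
    have h1 := ih (fun j hj => ha j (Finset.mem_insert_of_mem hj)) (fun j hj => hb j (Finset.mem_insert_of_mem hj))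
      fun j hj => hab j (Finset.mem_insert_of_mem hj)
    have h2 := ha i (Finset.mem_insert_self i s)
    have h3 := hab i (Finset.mem_insert_self i s)
    have hM : 0 ≤ M i := (abs_nonneg _).trans h2
    have hP : 0 ≤ ∏ j ∈ s, M j :=
      Finset.prod_nonneg fun j hj => (abs_nonneg _).trans (ha j (Finset.mem_insert_of_mem hj))
    have h4 : |∏ j ∈ s, b j| ≤ ∏ j ∈ s, M j := by
      rw [Finset.abs_prod]
      exact Finset.prod_le_prod (fun j _ => abs_nonneg _) fun j hj => hb j (Finset.mem_insert_of_mem hj)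
    have h5 : a i * ∏ j ∈ s, a j - b i * ∏ j ∈ s, b j =
        a i * (∏ j ∈ s, a j - ∏ j ∈ s, b j) + (a i - b i) * ∏ j ∈ s, b j := by ring
    rw [h5]
    refine (abs_add_le _ _).trans ?_
    rw [abs_mul, abs_mul]
    have h6 : |a i| * |∏ j ∈ s, a j - ∏ j ∈ s, b j| ≤ M i * (s.card * ε * ∏ j ∈ s, M j) :=
      mul_le_mul h2 h1 (abs_nonneg _) hM
    have h7 : |a i - b i| * |∏ j ∈ s, b j| ≤ ε * M i * ∏ j ∈ s, M j :=
      mul_le_mul h3 h4 (abs_nonneg _) (mul_nonneg hε hM)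
    refine (add_le_add h6 h7).trans (le_of_eq ?_)
    push_cast
    ring

private theorem cnt_sum {𝔄 : (i : I) → Ideal (𝓞 (E i))}
    [Fintype ((i : I) → 𝓞 (E i) ⧸ 𝔄 i)] {f : Tp E → ℝ} (hf : Per 𝔄 f) (X : I → ℝ) :
    ∑ α ∈ BX E X, f α = ∑ r : (i : I) → 𝓞 (E i) ⧸ 𝔄 i, f (fun i => Quotient.out (r i)) *
      ∏ i, (((FA.Ax (E i) (X i)).filter fun α => α - Quotient.out (r i) ∈ 𝔄 i).card : ℝ) := by
  have hmk : ∀ (i : I) (x : 𝓞 (E i)) (q : 𝓞 (E i) ⧸ 𝔄 i), Ideal.Quotient.mk (𝔄 i) x = q ↔ x - Quotient.out q ∈ 𝔄 i := by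
    intro i x q
    rw [← Ideal.Quotient.eq, Ideal.Quotient.mk_out]
  rw [← Finset.sum_fiberwise (BX E X) (fun α => fun i => Ideal.Quotient.mk (𝔄 i) (α i)) f]
  refine Finset.sum_congr rfl fun r _ => ?_
  have h1 : (BX E X).filter (fun α => (fun i => Ideal.Quotient.mk (𝔄 i) (α i)) = r) =
      Fintype.piFinset fun i => (FA.Ax (E i) (X i)).filter fun α => α - Quotient.out (r i) ∈ 𝔄 i := by
    ext α
    rw [Finset.mem_filter, Fintype.mem_piFinset]
    unfold BX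
    rw [Fintype.mem_piFinset]
    constructor
    · rintro ⟨h1, h2⟩ i
      rw [Finset.mem_filter]
      exact ⟨h1 i, (hmk i _ _).1 (congrFun h2 i)⟩
    · intro h1
      refine ⟨fun i => (Finset.mem_filter.1 (h1 i)).1, ?_⟩
      funext i
      exact (hmk i _ _).2 (Finset.mem_filter.1 (h1 i)).2
  have h2 : ∀ α ∈ (BX E X).filter (fun α => (fun i => Ideal.Quotient.mk (𝔄 i) (α i)) = r),
      f α = f (fun i => Quotient.out (r i)) := by
    intro α hα
    rw [h1, Fintype.mem_piFinset] at hα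
    exact hf _ _ fun i => (Finset.mem_filter.1 (hα i)).2
  rw [Finset.sum_congr rfl h2, Finset.sum_const, h1, Fintype.card_piFinset, nsmul_eq_mul, mul_comm]
  push_cast
  rfl

theorem mn_cnt (hE : ∀ i, NumberField.IsTotallyComplex (E i)) :
    ∃ κ η C : ℝ, 0 < κ ∧ 0 < η ∧ 1 ≤ C ∧
      ∀ 𝔄 : (i : I) → Ideal (𝓞 (E i)), (∀ i, 𝔄 i ≠ ⊥) → ∀ f : Tp E → ℝ, Per 𝔄 f →
        ∀ B : ℝ, (∀ α, |f α| ≤ B) → ∀ (X : I → ℝ) (Z : ℝ), 1 ≤ Z → (∀ i, Z ≤ X i) →
          ∏ i, (Ideal.absNorm (𝔄 i) : ℝ) ≤ Z →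
          |∑ α ∈ BX E X, f α - κ * (∏ i, X i) * Mn 𝔄 f| ≤
            C * B * (∏ i, (Ideal.absNorm (𝔄 i) : ℝ)) * (∏ i, X i) * Z ^ (-η) := by
  choose κ C hκ hC hann using fun i => FA.ann_cnt (E i) (hE i)
  let n : I → ℝ := fun i => (Module.finrank ℚ (E i) : ℝ)
  have hn : ∀ i, 0 < n i := fun i => by
    have h1 : 0 < Module.finrank ℚ (E i) := Module.finrank_pos
    exact Nat.cast_pos.2 h1
  have hns : 0 ≤ ∑ i, n i := Finset.sum_nonneg fun i _ => (hn i).le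
  have hkC : ∀ i, 0 < κ i + C i := fun i => by
    have h1 := hκ i
    have h2 := hC i
    linarith
  refine ⟨∏ i, κ i, 1 / (1 + ∑ i, n i), 1 + Fintype.card I * ∏ i, (κ i + C i),
    Finset.prod_pos fun i _ => hκ i, by positivity, ?_, ?_⟩
  · have h1 : 0 ≤ (Fintype.card I : ℝ) * ∏ i, (κ i + C i) :=
      mul_nonneg (by positivity) (Finset.prod_nonneg fun i _ => (hkC i).le)
    linarith
  intro 𝔄 hc f hf B hB X Z hZ hX hN
  have hfin : ∀ i, Finite (𝓞 (E i) ⧸ 𝔄 i) := fun i => Ideal.finiteQuotientOfFreeOfNeBot (𝔄 i) (hc i)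
  let _ : ∀ i, Fintype (𝓞 (E i) ⧸ 𝔄 i) := fun i => Fintype.ofFinite _
  have hcard : ∀ i, Fintype.card (𝓞 (E i) ⧸ 𝔄 i) = Ideal.absNorm (𝔄 i) := by
    intro i
    rw [Ideal.absNorm_apply, Submodule.cardQuot_apply, Nat.card_eq_fintype_card]
  have hN1 : ∀ i, (1 : ℝ) ≤ (Ideal.absNorm (𝔄 i) : ℝ) := by
    intro i
    exact_mod_cast Nat.one_le_iff_ne_zero.2 fun h => hc i (Ideal.absNorm_eq_zero_iff.1 h)
  have hNi : ∀ i, (Ideal.absNorm (𝔄 i) : ℝ) ≤ Z := by
    intro i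
    refine le_trans ?_ hN
    rw [← Finset.mul_prod_erase Finset.univ _ (Finset.mem_univ i)]
    refine le_mul_of_one_le_right ((zero_le_one.trans (hN1 i))) ?_
    exact Finset.prod_induction _ (fun x : ℝ => 1 ≤ x) (fun a b ha hb => one_le_mul_of_one_le_of_one_le ha hb) le_rfl fun j _ => hN1 j
  obtain ⟨e, he⟩ : ∃ e : ℝ, e = 1 / (1 + ∑ i, n i) := ⟨_, rfl⟩
  have he0 : 0 ≤ e := by
    rw [he]
    positivity
  have hei : ∀ i, e ≤ 1 / n i := by
    intro i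
    rw [he]
    apply one_div_le_one_div_of_le (hn i)
    have h1 := Finset.single_le_sum (f := n) (fun j _ => (hn j).le) (Finset.mem_univ i)
    linarith
  rw [← he]
  have hZ0 : 0 < Z := by linarith
  have hX0 : ∀ i, 0 < X i := fun i => hZ0.trans_le (hX i)
  have hB0 : 0 ≤ B := (abs_nonneg _).trans (hB fun _ => 0)
  have hZe : 0 < Z ^ (-e) := Real.rpow_pos_of_pos hZ0 _
  -- the factors
  have hfac : ∀ (i : I) (r : 𝓞 (E i)),
      |(((FA.Ax (E i) (X i)).filter fun α => α - r ∈ 𝔄 i).card : ℝ) - κ i * X i / (Ideal.absNorm (𝔄 i) : ℝ)| ≤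
        C i * (X i * Z ^ (-e)) := by
    intro i r
    have h1 := hann i (𝔄 i) (hc i) r (X i) (hZ.trans (hX i)) ((hNi i).trans (hX i))
    refine h1.trans (mul_le_mul_of_nonneg_left ?_ (zero_le_one.trans (hC i)))
    have h2 : X i ^ (1 - 1 / n i) = X i * X i ^ (-(1 / n i)) := by
      rw [sub_eq_add_neg, Real.rpow_add (hX0 i), Real.rpow_one]
    change X i ^ (1 - 1 / n i) ≤ _
    rw [h2]
    refine mul_le_mul_of_nonneg_left ?_ (hX0 i).le
    have h3 : 0 < 1 / n i := one_div_pos.2 (hn i)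
    refine (Real.rpow_le_rpow_of_nonpos hZ0 (hX i) (by linarith)).trans ?_
    exact Real.rpow_le_rpow_of_exponent_le hZ (neg_le_neg (hei i))
  have hZe1 : Z ^ (-e) ≤ 1 := by
    rw [Real.rpow_neg hZ0.le]
    exact inv_le_one_of_one_le₀ (Real.one_le_rpow hZ he0)
  have hmain : ∀ i : I, |κ i * X i / (Ideal.absNorm (𝔄 i) : ℝ)| ≤ κ i * X i := by
    intro i
    have h1 := hX0 i
    have h2 := hκ i
    rw [abs_of_nonneg (by positivity)]
    exact div_le_self (by positivity) (hN1 i)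
  have hdiff : ∀ r : (i : I) → 𝓞 (E i) ⧸ 𝔄 i,
      |∏ i, (((FA.Ax (E i) (X i)).filter fun α => α - Quotient.out (r i) ∈ 𝔄 i).card : ℝ) -
        ∏ i, κ i * X i / (Ideal.absNorm (𝔄 i) : ℝ)| ≤
        (Fintype.card I : ℝ) * (∏ i, (κ i + C i)) * (∏ i, X i) * Z ^ (-e) := by
    intro r
    have h1 := cnt_prod Finset.univ
      (fun i => (((FA.Ax (E i) (X i)).filter fun α => α - Quotient.out (r i) ∈ 𝔄 i).card : ℝ))
      (fun i => κ i * X i / (Ideal.absNorm (𝔄 i) : ℝ)) (fun i => (κ i + C i) * X i) (Z ^ (-e)) hZe.le (by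
        intro i _
        have h2 := hfac i (Quotient.out (r i))
        have h3 := hmain i
        have h4 := hX0 i
        have h5 : C i * (X i * Z ^ (-e)) ≤ C i * X i := by
          refine mul_le_mul_of_nonneg_left ?_ (zero_le_one.trans (hC i))
          exact mul_le_of_le_one_right h4.le hZe1
        have h6 := abs_add_le ((((FA.Ax (E i) (X i)).filter fun α => α - Quotient.out (r i) ∈ 𝔄 i).card : ℝ) -
          κ i * X i / (Ideal.absNorm (𝔄 i) : ℝ)) (κ i * X i / (Ideal.absNorm (𝔄 i) : ℝ))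
        rw [sub_add_cancel] at h6
        calc _ ≤ _ := h6
          _ ≤ C i * X i + κ i * X i := add_le_add (h2.trans h5) h3
          _ = (κ i + C i) * X i := by ring) (by
        intro i _
        have h4 := hX0 i
        have h5 : 0 ≤ C i * X i := mul_nonneg (zero_le_one.trans (hC i)) h4.le
        calc _ ≤ κ i * X i := hmain i
          _ ≤ (κ i + C i) * X i := by linarith) (by
        intro i _
        refine (hfac i (Quotient.out (r i))).trans ?_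
        have h4 := hX0 i
        have h2 := hκ i
        have h5 : 0 ≤ κ i * (X i * Z ^ (-e)) := by positivity
        linarith)
    refine h1.trans (le_of_eq ?_)
    rw [Finset.prod_mul_distrib, Finset.card_univ]
    ring
  -- the sum
  have hMn : (∏ i, κ i) * (∏ i, X i) * Mn 𝔄 f =
      ∑ r : (i : I) → 𝓞 (E i) ⧸ 𝔄 i, f (fun i => Quotient.out (r i)) *
        ∏ i, κ i * X i / (Ideal.absNorm (𝔄 i) : ℝ) := by
    unfold Mn
    rw [finsum_eq_sum_of_fintype, Finset.prod_div_distrib, Finset.prod_mul_distrib, ← Finset.sum_mul]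
    ring
  rw [cnt_sum hf X, hMn, ← Finset.sum_sub_distrib]
  have hone : ∀ r : (i : I) → 𝓞 (E i) ⧸ 𝔄 i, |f (fun i => Quotient.out (r i)) *
      ∏ i, (((FA.Ax (E i) (X i)).filter fun α => α - Quotient.out (r i) ∈ 𝔄 i).card : ℝ) -
        f (fun i => Quotient.out (r i)) * ∏ i, κ i * X i / (Ideal.absNorm (𝔄 i) : ℝ)| ≤
      B * ((Fintype.card I : ℝ) * (∏ i, (κ i + C i)) * (∏ i, X i) * Z ^ (-e)) := by
    intro r
    rw [← mul_sub, abs_mul]
    exact mul_le_mul (hB _) (hdiff r) (abs_nonneg _) hB0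
  refine (Finset.abs_sum_le_sum_abs _ _).trans ((Finset.sum_le_sum fun r _ => hone r).trans ?_)
  rw [Finset.sum_const, Finset.card_univ, Fintype.card_pi, nsmul_eq_mul, Nat.cast_prod]
  have h0 : ∏ i, ((Fintype.card (𝓞 (E i) ⧸ 𝔄 i) : ℕ) : ℝ) = ∏ i, (Ideal.absNorm (𝔄 i) : ℝ) :=
    Finset.prod_congr rfl fun i _ => by rw [hcard i]
  rw [h0]
  have hP : 0 < ∏ i, X i := Finset.prod_pos fun i _ => hX0 i
  have hNP : 0 < ∏ i, (Ideal.absNorm (𝔄 i) : ℝ) := Finset.prod_pos fun i _ => zero_lt_one.trans_le (hN1 i)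
  have h1 : 0 ≤ B * (∏ i, (Ideal.absNorm (𝔄 i) : ℝ)) * (∏ i, X i) * Z ^ (-e) := by positivity
  have h2 : (1 + (Fintype.card I : ℝ) * ∏ i, (κ i + C i)) * B * (∏ i, (Ideal.absNorm (𝔄 i) : ℝ)) * (∏ i, X i) * Z ^ (-e) =
      B * (∏ i, (Ideal.absNorm (𝔄 i) : ℝ)) * (∏ i, X i) * Z ^ (-e) +
      (∏ i, (Ideal.absNorm (𝔄 i) : ℝ)) * (B * ((Fintype.card I : ℝ) * (∏ i, (κ i + C i)) * (∏ i, X i) * Z ^ (-e))) := by ring
  rw [h2]
  linarith

end Pool.Agent.H36.FR
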