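import Pool.Agent.H36.FR.Sym
import Pool.Agent.H36.FR.Xvv

/-!
# [H36 FR COC] The cocycle property

`kap_mul`: `sy (σ τ) ι = sy σ (τ ι) + sy τ ι` (`sy_spec`, `sy_eq`, `σ ζ = ζ`), `x (σ τ ι) = φ σ • x (τ ι)`, powers of `x` only depend on the exponent modulo `l`; the product over `ι` of `x (σ (τ ι)) ^ sy σ (τ ι)` is reindexed by the permutation `ι ↦ ac τ ι` (the embeddings are a finite set).
`phB_mul`: `e (κ_i(σ) φσ•κ_i(τ)) φ(σ) φ(τ) = e κ(σ) φ(σ) e κ(τ) φ(τ)` by `Ok.act` (`x ^ l = 1` by `xv_ord`, hypotheses `xv_act`, `z_prim`).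
-/

set_option autoImplicit false

open scoped NumberField Classical
open IsDedekindDomain NumberField

noncomputable section

namespace Pool.Agent.H36.FR

open H63.MA H38.BB H38.BG H77.PC3 H51.SN H57.SL H36.QA H1.LS4 H38.ML

variable {K : IntermediateField ℚ QBar} [NumberField K] {F : Type} [Field F] [NumberField F]
  [Algebra K F] {l : ℕ} {ζ : K} {A V : Type} [Group A] [CommGroup V] [MulDistribMulAction A V]

theorem kap_mul (hl : l.Prime) (hζ : IsPrimitiveRoot ζ l) {α : 𝓞 F}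
    {B : (F →ₐ[K] QBar) → 𝓞 QBar} (hB : Rt l α B) (hα : α ≠ 0) (φ : Gal(QBar/K) →* A)
    (x : (F →ₐ[K] QBar) → V) (hx : ∀ σ ι, x (ac σ ι) = φ σ • x ι) (hxl : ∀ ι, x ι ^ l = 1)
    (σ τ : Gal(QBar/K)) :
    kap l ζ x B (σ * τ) = kap l ζ x B σ * (φ σ • kap l ζ x B τ) := by
  have : NeZero l := ⟨hl.ne_zero⟩
  have : Module.Finite K F := Module.Finite.of_restrictScalars_finite ℚ K F
  have : Finite (F →ₐ[K] QBar) := inferInstance
  have hsy : ∀ ι, sy l ζ B (σ * τ) ι = sy l ζ B σ (ac τ ι) + sy l ζ B τ ι := by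
    intro ι
    have h1 := sy_eq hl hζ hB hα (σ * τ) ι ((sy l ζ B σ (ac τ ι)).val + (sy l ζ B τ ι).val) (by
      rw [AlgEquiv.mul_apply, sy_spec hl hζ hB hα τ ι, map_mul, map_pow, AlgEquiv.commutes,
        sy_spec hl hζ hB hα σ (ac τ ι), pow_add, ac_mul]
      ring)
    rw [h1]
    push_cast
    rw [ZMod.natCast_zmod_val, ZMod.natCast_zmod_val]
  have hterm : ∀ ι, x (ac (σ * τ) ι) ^ (sy l ζ B (σ * τ) ι).val =
      x (ac σ (ac τ ι)) ^ (sy l ζ B σ (ac τ ι)).val * (φ σ • (x (ac τ ι) ^ (sy l ζ B τ ι).val)) := by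
    intro ι
    rw [hsy, ZMod.val_add, ← pow_eq_pow_mod _ (hxl _), pow_add, ac_mul, smul_pow', ← hx]
  have hbij : Function.Bijective (fun ι : F →ₐ[K] QBar => ac τ ι) := by
    refine ⟨fun a b h => ?_, fun b => ⟨ac τ⁻¹ b, ?_⟩⟩
    · have h2 := congrArg (ac τ⁻¹) h
      simp only [← ac_mul, inv_mul_cancel, ac_one] at h2
      exact h2
    · simp only [← ac_mul, mul_inv_cancel, ac_one]
  unfold kap
  rw [finprod_congr hterm, finprod_mul_distrib (Set.toFinite _) (Set.toFinite _)]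
  congr 1
  · exact finprod_eq_of_bijective _ hbij fun ι => rfl
  · exact ((MulDistribMulAction.toMonoidHom V (φ σ)).map_finprod (Set.toFinite _)).symm

variable {I : Type} [Finite A] [Fintype I] {D : Dt K A V I} [∀ i, NumberField (D.E i)]

theorem phB_mul (hD : Ok D) {α : Tp fun i => D.E i} (hα : ∀ i, α i ≠ 0)
    {B : (i : I) → (D.E i →ₐ[K] QBar) → 𝓞 QBar} (hB : ∀ i, Rt (D.l i) (α i) (B i))
    (σ τ : Gal(QBar/K)) : phB D B (σ * τ) = phB D B σ * phB D B τ := by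
  have h1 : ∀ i, kap (D.l i) (D.z i) (xv D i) (B i) (σ * τ) =
      kap (D.l i) (D.z i) (xv D i) (B i) σ * (D.φ σ • kap (D.l i) (D.z i) (xv D i) (B i) τ) := fun i =>
    kap_mul (hD.pr i) (z_prim hD i) (hB i) (hα i) D.φ (xv D i) (xv_act hD i)
      (fun ι => orderOf_dvd_iff_pow_eq_one.1 (dvd_of_eq (xv_ord hD i ι))) σ τ
  have h2 : ∏ i, (D.φ σ • kap (D.l i) (D.z i) (xv D i) (B i) τ) =
      D.φ σ • ∏ i, kap (D.l i) (D.z i) (xv D i) (B i) τ :=
    (map_prod (MulDistribMulAction.toMonoidHom V (D.φ σ)) _ _).symm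
  unfold phB
  rw [Finset.prod_congr rfl fun i _ => h1 i, Finset.prod_mul_distrib, h2, map_mul, hD.act, map_mul]
  group

end Pool.Agent.H36.FR
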