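import Pool.Agent.H36.FR.Frr
import Pool.Agent.H36.FR.Xvv

/-!
# [H36 FR DCC] Decomposition groups

`σ ∈ dec (Q.P v)`, `φ σ = 1`, so `ac σ ι = ι` for all embeddings `ι` of `E i` (`emb_tr`, `φ (γ⁻¹ σ γ) = 1`, `Ok.fix`). `α i ≡ 1`: compare the roots `rt` of `α i` with a system of roots of `1` (`rt_lift`: `B' ι ^ l = 1`, so `B' ι` is a power of `ζ`, in `K`: `σ (B' ι) = B' ι`, symbol `0`), `sy_res`: all symbols are `0`,
`phf D α σ = e 1 φ σ = 1`.
-/

set_option autoImplicit false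

open scoped NumberField Classical
open IsDedekindDomain NumberField

noncomputable section

namespace Pool.Agent.H36.FR

open H63.MA H38.BB H38.BG H77.PC3 H51.SN H57.SL H36.QA H1.LS4 H38.ML

variable {K : IntermediateField ℚ QBar} [NumberField K] {A V I : Type} [Group A] [Finite A]
  [CommGroup V] [MulDistribMulAction A V] [Fintype I] {D : Dt K A V I}
  [∀ i, NumberField (D.E i)]

private theorem dcc_ac (hD : Ok D) (σ : Gal(QBar/K)) (h : D.φ σ = 1) (i : I) (ι : D.E i →ₐ[K] QBar) :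
    ac σ ι = ι := by
  obtain ⟨γ, rfl⟩ := emb_tr (D.E i) (D.E i).val ι
  have h1 : D.φ (γ⁻¹ * σ * γ) • D.u i = D.u i := by
    rw [map_mul, map_mul, h, mul_one, ← map_mul, inv_mul_cancel, map_one, one_smul]
  have h2 := (hD.fix i (γ⁻¹ * σ * γ)).2 h1
  refine AlgHom.ext fun y => ?_
  have h3 := congrArg γ (h2 y)
  have h4 : γ ((γ⁻¹ * σ * γ) (y : QBar)) = σ (γ (y : QBar)) := by
    have e : γ * (γ⁻¹ * σ * γ) = σ * γ := by
      rw [← mul_assoc, ← mul_assoc, mul_inv_cancel, one_mul]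
    calc γ ((γ⁻¹ * σ * γ) (y : QBar)) = (γ * (γ⁻¹ * σ * γ)) (y : QBar) := rfl
      _ = (σ * γ) (y : QBar) := by rw [e]
      _ = σ (γ (y : QBar)) := rfl
  rw [h4] at h3
  exact h3

private theorem dcc_mem {F : Type} [Field F] [Algebra K F] (Q : DP K QBar) (v : Pl K) (ι : F →ₐ[K] QBar) {x : 𝓞 F}
    (hx : x ∈ v.asIdeal.map (algebraMap (𝓞 K) (𝓞 F))) : ro ι x ∈ Q.P v := by
  have h1 : v.asIdeal.map (algebraMap (𝓞 K) (𝓞 F)) ≤ (Q.P v).comap (ro ι) := by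
    rw [Ideal.map_le_iff_le_comap]
    intro y hy
    rw [Ideal.mem_comap, Ideal.mem_comap]
    have h2 : ro ι (algebraMap (𝓞 K) (𝓞 F) y) = algebraMap (𝓞 K) (𝓞 QBar) y := by
      apply NumberField.RingOfIntegers.ext
      exact ι.commutes (y : K)
    rw [h2]
    have h3 : y ∈ (Q.P v).under (𝓞 K) := by
      rw [Q.under v]
      exact hy
    exact h3
  exact h1 hx

private theorem dcc_sy {F : Type} [Field F] [NumberField F] [Algebra K F] {l : ℕ} {ζ : K} (hl : l.Prime)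
    (hζ : IsPrimitiveRoot ζ l) (Q : DP K QBar) (v : Pl K) (hv : ((l : ℕ) : 𝓞 K) ∉ v.asIdeal) {α : 𝓞 F}
    (h1 : α - 1 ∈ v.asIdeal.map (algebraMap (𝓞 K) (𝓞 F))) (σ : Gal(QBar/K))
    (hσ : σ ∈ dec (K := K) (Q.P v)) (hac : ∀ ι : F →ₐ[K] QBar, ac σ ι = ι) (ι : F →ₐ[K] QBar) :
    sy l ζ (rt (K := K) l α) σ ι = 0 := by
  have hB := rt_ex (K := K) hl.pos α
  obtain ⟨B', hB', hBB⟩ := rt_lift hl hζ Q v hB h1
  have hP := Q.prime v
  have hu : ∀ ι : F →ₐ[K] QBar, ro ι α ∉ Q.P v := by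
    intro ι h2
    have h3 := dcc_mem Q v ι h1
    rw [map_sub, map_one] at h3
    have h4 : (1 : 𝓞 QBar) ∈ Q.P v := by
      have h5 := (Q.P v).sub_mem h2 h3
      rwa [sub_sub_cancel] at h5
    exact hP.ne_top ((Ideal.eq_top_iff_one _).2 h4)
  rw [sy_res hl hζ Q v hv hB hB' hu hBB σ hσ ι]
  have h2 : σ (B' ι : QBar) = algebraMap K QBar ζ ^ 0 * (B' (ac σ ι) : QBar) := by
    rw [pow_zero, one_mul, hac]
    have h3 : (B' ι : QBar) ^ l = 1 := by
      have h4 : B' ι ^ l = 1 := by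
        rw [hB' ι, map_one]
      have h5 := congrArg (fun z : 𝓞 QBar => (z : QBar)) h4
      simpa using h5
    have : NeZero l := ⟨hl.ne_zero⟩
    have hζ' : IsPrimitiveRoot (algebraMap K QBar ζ) l := hζ.map_of_injective (algebraMap K QBar).injective
    obtain ⟨k, -, hk⟩ := hζ'.eq_pow_of_pow_eq_one h3
    rw [← hk, map_pow, AlgEquiv.commutes]
  have h6 := sy_eq hl hζ hB' one_ne_zero σ ι 0 h2
  rw [h6, Nat.cast_zero]

theorem pha_dec (hD : Ok D) (Q : DP K QBar) (v : Pl K) (hv : ((D.m : ℕ) : 𝓞 K) ∉ v.asIdeal)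
    (h0 : ∀ σ ∈ dec (K := K) (Q.P v), D.φ σ = 1) {α : Tp fun i => D.E i}
    (h1 : ∀ i, α i - 1 ∈ ex (fun i => D.E i) v.asIdeal i) (σ : Gal(QBar/K))
    (hσ : σ ∈ dec (K := K) (Q.P v)) : phf D α σ = 1 := by
  have hφ := h0 σ hσ
  have hac := dcc_ac hD σ hφ
  have hk : ∀ i, kap (D.l i) (D.z i) (xv D i) (rt (D.l i) (α i)) σ = 1 := by
    intro i
    have hl : (D.l i).Prime := hD.pr i
    have hvl : ((D.l i : ℕ) : 𝓞 K) ∉ v.asIdeal := by
      intro h2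
      obtain ⟨c, hc⟩ := l_dvd hD i
      apply hv
      rw [hc, Nat.cast_mul]
      exact v.asIdeal.mul_mem_right _ h2
    unfold kap
    refine finprod_eq_one_of_forall_eq_one fun ι => ?_
    rw [dcc_sy hl (z_prim hD i) Q v hvl (h1 i) σ hσ (hac i) ι, ZMod.val_zero, pow_zero]
  unfold phf phB
  rw [Finset.prod_eq_one fun i _ => hk i, map_one, hφ, mul_one]

end Pool.Agent.H36.FR
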