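import Pool.Agent.H51.K2.Def
import Pool.Agent.H36.FA.Def
import Pool.Agent.H57.SL.Diu

/-!
# FR (MP_b39724_nt, THEOREM K2): the families of homomorphisms over a fixed homomorphism; definitions (complete)

PART 1 (number fields `E i` over `K`, `i ∈ I`).
* `Tp E`: the tuples `α i ∈ 𝓞 (E i)`. `Per 𝔄 f`: `f` is periodic modulo the family `𝔄 i` of ideals of `𝓞 (E i)`; `Mn 𝔄 f`: its mean.
* `ex 𝔠 i`: the ideal of `𝓞 (E i)` generated by `𝔠`. `kk = ∑ [E i : K]`.
* `Un α v`: all `α i` are units over `v`. `Bad α v`: `α i ∈ w²`, or `α i ∈ w` with `nm w ≠ nm v`, or two different `(i, w)`, `(j, u)` with `α i ∈ w`, `α j ∈ u` (`w`, `u` over `v`).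
* `Ph 𝔪 X`: the tuples in the annular box, `≡ 1` modulo `𝔪`, not bad at any `v`. `be v`, `un v`: the densities of `Bad` and `Un`.

PART 2 (Galois groups). `D : Dt K A V I`: the data: `e : V → A` (`V` abelian, with an action of `A`), `u i ∈ V`, `φ : Γ → A`, `m`, `ζ`, the fields `E i`; `Ok D`: the hypotheses:
`e` injective and equivariant, `V` generated by the conjugates of the `u i` (prime order, not conjugate), `E i` is the fixed field of `{σ | φ σ • u i = u i}`.
* `xv D i ι`: for an embedding `ι = σ ∘ val` of `E i` the element `φ σ • u i`.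
* `Rt l α B`: `B ι ^ l = ι α` for all embeddings `ι` (integral elements). `rt`: a choice. `sy l ζ B σ ι`: the `k` with `σ (B ι) = ζ ^ k B (σ ι)`.
* `kap l ζ x B σ = ∏_ι x (σ ι) ^ sy`. `phB D B σ = e (∏_i kap_i (B i) σ) φ σ`. `phf D α`: for the chosen roots of the `α i`.
* `ff D Q M v α`: the number of fixed points of `phf D α (fr Q v)` on `A ⧸ M`, `0` if `¬ Un α v`. `gg D Q M v`: its mean divided by `1 - be v`.
* `Dv D α i`: the primes `v` of `K` such that `α i ∈ w` for some `w` over `v`.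
-/

set_option autoImplicit false

open scoped NumberField Classical
open IsDedekindDomain NumberField

noncomputable section

namespace Pool.Agent.H36.FR

open H63.MA H38.BB H38.BG H77.PC3 H51.SN H57.SL H36.QA H1.LS4 H38.ML

/-- the sum of the degrees -/
def kk (K : Type) [Field K] {I : Type} [Fintype I] (E : I → Type) [∀ i, Field (E i)]
    [∀ i, Algebra K (E i)] : ℕ := ∑ i, Module.finrank K (E i)

/-- a constant -/
def cb (K : Type) [Field K] {I : Type} [Fintype I] (E : I → Type) [∀ i, Field (E i)]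
    [∀ i, Algebra K (E i)] : ℝ := (kk K E : ℝ) ^ 2 + 2 * (kk K E : ℝ)

section nf

variable {I : Type} (E : I → Type) [∀ i, Field (E i)]

/-- the tuples -/
abbrev Tp : Type := (i : I) → 𝓞 (E i)

variable {E}

/-- periodic modulo `𝔄` -/
def Per (𝔄 : (i : I) → Ideal (𝓞 (E i))) (f : Tp E → ℝ) : Prop :=
  ∀ α β : Tp E, (∀ i, α i - β i ∈ 𝔄 i) → f α = f β

variable [∀ i, NumberField (E i)] [Fintype I]

/-- the mean modulo `𝔄` -/
def Mn (𝔄 : (i : I) → Ideal (𝓞 (E i))) (f : Tp E → ℝ) : ℝ :=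
  (∑ᶠ r : (i : I) → 𝓞 (E i) ⧸ 𝔄 i, f (fun i => Quotient.out (r i))) /
    ∏ i, (Ideal.absNorm (𝔄 i) : ℝ)

variable (E) in
/-- the box of tuples -/
def BX (X : I → ℝ) : Finset (Tp E) := Fintype.piFinset fun i => FA.Ax (E i) (X i)

variable {K : Type} [Field K] [NumberField K] [∀ i, Algebra K (E i)]

variable (E) in
/-- the extended ideals -/
def ex (𝔠 : Ideal (𝓞 K)) (i : I) : Ideal (𝓞 (E i)) := 𝔠.map (algebraMap (𝓞 K) (𝓞 (E i)))

/-- all components are units over `v` -/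
def Un (α : Tp E) (v : Pl K) : Prop := ∀ i (w : Pl (E i)), Over w v → α i ∉ w.asIdeal

/-- the bad tuples -/
def Bad (α : Tp E) (v : Pl K) : Prop :=
  (∃ i, ∃ w : Pl (E i), Over w v ∧ α i ∈ w.asIdeal ^ 2) ∨
  (∃ i, ∃ w : Pl (E i), Over w v ∧ nm w ≠ nm v ∧ α i ∈ w.asIdeal) ∨
  ∃ i j, ∃ (w : Pl (E i)) (u : Pl (E j)), Over w v ∧ Over u v ∧
    (⟨i, w⟩ : Σ i, Pl (E i)) ≠ ⟨j, u⟩ ∧ α i ∈ w.asIdeal ∧ α j ∈ u.asIdeal

variable (E) in
/-- the density of the bad tuples -/
def be (v : Pl K) : ℝ := Mn (ex E (v.asIdeal ^ 2)) fun α => if Bad α v then 1 else 0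

variable (E) in
/-- the density of the tuples of units -/
def un (v : Pl K) : ℝ := Mn (ex E v.asIdeal) fun α => if Un α v then 1 else 0

variable (E) in
/-- the family -/
def Ph (𝔪 : Ideal (𝓞 K)) (X : I → ℝ) : Finset (Tp E) :=
  (BX E X).filter fun α => (∀ i, α i - 1 ∈ ex E 𝔪 i) ∧ ∀ v : Pl K, ¬ Bad α v

end nf

section gal

variable {K : IntermediateField ℚ QBar} [NumberField K]

/-- a system of roots -/
def Rt {F : Type} [Field F] [Algebra K F] (l : ℕ) (α : 𝓞 F) (B : (F →ₐ[K] QBar) → 𝓞 QBar) : Prop :=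
  ∀ ι, B ι ^ l = ro ι α

/-- a choice -/
def rt {F : Type} [Field F] [Algebra K F] (l : ℕ) (α : 𝓞 F) : (F →ₐ[K] QBar) → 𝓞 QBar :=
  if h : ∃ B, Rt l α B then h.choose else fun _ => 0

/-- the symbol -/
def sy {F : Type} [Field F] [Algebra K F] (l : ℕ) (ζ : K) (B : (F →ₐ[K] QBar) → 𝓞 QBar)
    (σ : Gal(QBar/K)) (ι : F →ₐ[K] QBar) : ZMod l :=
  if h : ∃ a : ZMod l, σ (B ι : QBar) = algebraMap K QBar ζ ^ a.val * (B (ac σ ι) : QBar)
  then h.choose else 0

/-- the cocycle -/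
def kap {V : Type} [CommGroup V] {F : Type} [Field F] [Algebra K F] (l : ℕ) (ζ : K)
    (x : (F →ₐ[K] QBar) → V) (B : (F →ₐ[K] QBar) → 𝓞 QBar) (σ : Gal(QBar/K)) : V :=
  ∏ᶠ ι : F →ₐ[K] QBar, x (ac σ ι) ^ (sy l ζ B σ ι).val

/-- the data -/
structure Dt (K : IntermediateField ℚ QBar) [NumberField K] (A V I : Type) [Group A] [CommGroup V]
    [MulDistribMulAction A V] where
  /-- the embedding -/
  e : V →* A
  /-- the generators -/
  u : I → V
  /-- the homomorphism -/
  φ : Gal(QBar/K) →* A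
  /-- the order of `ζ` -/
  m : ℕ
  /-- a root of unity -/
  ζ : K
  /-- the fields -/
  E : I → IntermediateField K QBar

variable {A V I : Type} [Group A] [Finite A] [CommGroup V] [MulDistribMulAction A V]

/-- the hypotheses -/
structure Ok (D : Dt K A V I) : Prop where
  inj : Function.Injective D.e
  act : ∀ (a : A) (x : V), D.e (a • x) = a * D.e x * a⁻¹
  pr : ∀ i, (orderOf (D.u i)).Prime
  cl : ∀ i j (a : A), a • D.u i = D.u j → i = j
  gen : ∀ W : Subgroup V, (∀ i (a : A), a • D.u i ∈ W) → W = ⊤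
  ft : FT D.φ
  srj : Function.Surjective D.φ
  prim : IsPrimitiveRoot D.ζ D.m
  pos : 0 < D.m
  dvd : Nat.card A ∣ D.m
  fix : ∀ i (σ : Gal(QBar/K)), (∀ y : D.E i, σ (y : QBar) = y) ↔ D.φ σ • D.u i = D.u i

/-- the order of `u i` -/
abbrev Dt.l (D : Dt K A V I) (i : I) : ℕ := orderOf (D.u i)

/-- the root of unity of order `l i` -/
abbrev Dt.z (D : Dt K A V I) (i : I) : K := D.ζ ^ (D.m / orderOf (D.u i))

/-- the conjugate of `u i` of an embedding of `E i` -/
def xv (D : Dt K A V I) (i : I) (ι : D.E i →ₐ[K] QBar) : V :=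
  if h : ∃ x : V, ∀ σ : Gal(QBar/K), ac σ (D.E i).val = ι → D.φ σ • D.u i = x then h.choose else 1

variable [Fintype I]

/-- the homomorphism of a family of systems of roots -/
def phB (D : Dt K A V I) (B : (i : I) → (D.E i →ₐ[K] QBar) → 𝓞 QBar) (σ : Gal(QBar/K)) : A :=
  D.e (∏ i, kap (D.l i) (D.z i) (xv D i) (B i) σ) * D.φ σ

/-- the homomorphism of a tuple -/
def phf (D : Dt K A V I) (α : Tp fun i => D.E i) (σ : Gal(QBar/K)) : A :=
  phB D (fun i => rt (D.l i) (α i)) σ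

/-- the number of fixed points of the Frobenius, `0` if `v` is not prime to `α` -/
def ff (D : Dt K A V I) [∀ i, NumberField (D.E i)] (Q : DP K QBar) (M : Subgroup A) (v : Pl K)
    (α : Tp fun i => D.E i) : ℝ :=
  if Un α v then (H51.K1.fxp M (phf D α (fr Q v)) : ℝ) else 0

/-- the mean of `ff`, relative to the tuples which are not bad -/
def gg (D : Dt K A V I) [∀ i, NumberField (D.E i)] (Q : DP K QBar) (M : Subgroup A) (v : Pl K) : ℝ :=
  Mn (ex (fun i => D.E i) v.asIdeal) (ff D Q M v) / (1 - be (fun i => D.E i) v)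

/-- the primes of type `u i` -/
def Dv (D : Dt K A V I) [∀ i, NumberField (D.E i)] (α : Tp fun i => D.E i) (i : I) : Finset (Pl K) :=
  if h : {v : Pl K | ∃ w : Pl (D.E i), Over w v ∧ α i ∈ w.asIdeal}.Finite then h.toFinset else ∅

end gal

end Pool.Agent.H36.FR
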