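import Pool.Agent.H36.FR.Nex
import Pool.Agent.H36.FA.Ndv
import Pool.Agent.H36.FA.Anu

/-!
# [H36 FR DVS] The primes of a tuple

`dv_mem`: finitely many places contain `α i ≠ 0`, and the places under them. `un_iff`: definitions. `nN_Dv`: `¬ Bad`: every `w` with `α i ∈ w` has `nm w = nm v` (`v` under `w`), `α i ∉ w²`, and is the only place over `v` which contains `α i`; `N(α i) = ∏_{w ∈ dv (α i)} nm w` (as `nN_dv`, H36/FA/Ndv.lean: its statement is for `K` in `QBar`; `E i` is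
`IntermediateField K QBar`: copy the proof) `= ∏_{v ∈ Dv} nm v`. `dv_norm`: `FA.ann_norm`.
-/

set_option autoImplicit false

open scoped NumberField Classical
open IsDedekindDomain NumberField

noncomputable section

namespace Pool.Agent.H36.FR

open H63.MA H38.BB H38.BG H77.PC3 H51.SN H57.SL H36.QA H1.LS4 H38.ML

variable {K : IntermediateField ℚ QBar} [NumberField K] {A V I : Type} [Group A] [Finite A]
  [CommGroup V] [MulDistribMulAction A V] [Fintype I] {D : Dt K A V I}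
  [∀ i, NumberField (D.E i)]

private theorem dvs_prod {F : Type} [Field F] [NumberField F] {x : 𝓞 F} (hx : x ≠ 0)
    (h : ∀ v : Pl F, x ∉ v.asIdeal ^ 2) : Ideal.span {x} = ∏ v ∈ FA.dv x, v.asIdeal := by
  have h1 : (∏ v ∈ FA.dv x, v.asIdeal) ∣ Ideal.span {x} := by
    refine Finset.prod_dvd_of_isRelPrime ?_ ?_
    · intro v _ w _ hvw
      refine IsCoprime.isRelPrime ?_
      have h2 : v.asIdeal ≠ w.asIdeal := fun h3 => hvw (HeightOneSpectrum.ext h3)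
      exact Ideal.isCoprime_iff_sup_eq.2 (Ideal.IsMaximal.coprime_of_ne v.isMaximal w.isMaximal h2)
    · intro v hv
      rw [Ideal.dvd_span_singleton]
      exact (FA.dv_mem hx v).1 hv
  obtain ⟨J, hJ⟩ := h1
  have hx0 : Ideal.span {x} ≠ ⊥ := by
    rw [Ne, Ideal.span_singleton_eq_bot]
    exact hx
  have hJ1 : J = ⊤ := by
    by_contra hne
    obtain ⟨M, hM, hJM⟩ := Ideal.exists_le_maximal J hne
    have hM0 : M ≠ ⊥ := by
      rintro rfl
      have h4 : J = ⊥ := le_bot_iff.1 hJM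
      rw [h4, Ideal.mul_bot] at hJ
      exact hx0 hJ
    obtain ⟨w, hw⟩ : ∃ w : Pl F, w.asIdeal = M := ⟨⟨M, hM.isPrime, hM0⟩, rfl⟩
    have hwJ : w.asIdeal ∣ J := by
      rw [hw]
      exact Ideal.dvd_iff_le.2 hJM
    have hwx : x ∈ w.asIdeal := by
      rw [← Ideal.dvd_span_singleton, hJ]
      exact Dvd.dvd.mul_left hwJ _
    have hwP : w.asIdeal ∣ ∏ v ∈ FA.dv x, v.asIdeal :=
      Finset.dvd_prod_of_mem _ ((FA.dv_mem hx w).2 hwx)
    refine h w ?_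
    rw [← Ideal.dvd_span_singleton, hJ, pow_two]
    exact mul_dvd_mul hwP hwJ
  rw [hJ, hJ1, Ideal.mul_top]

private theorem dvs_norm {F : Type} [Field F] [NumberField F] {x : 𝓞 F} (hx : x ≠ 0)
    (h : ∀ v : Pl F, x ∉ v.asIdeal ^ 2) :
    ∏ v ∈ FA.dv x, (nm v : ℝ) = (Ideal.absNorm (Ideal.span {x}) : ℝ) := by
  rw [dvs_prod hx h, map_prod]
  push_cast
  rfl

omit [Finite A] in
theorem dv_mem {α : Tp fun i => D.E i} (hα : ∀ i, α i ≠ 0) (i : I) (v : Pl K) :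
    v ∈ Dv D α i ↔ ∃ w : Pl (D.E i), Over w v ∧ α i ∈ w.asIdeal := by
  have hfin : {v : Pl K | ∃ w : Pl (D.E i), Over w v ∧ α i ∈ w.asIdeal}.Finite := by
    have h1 : {w : Pl (D.E i) | α i ∈ w.asIdeal}.Finite := by
      refine (FA.dv (α i)).finite_toSet.subset fun w hw => ?_
      exact Finset.mem_coe.2 ((FA.dv_mem (hα i) w).2 hw)
    have h2 : ∀ w : Pl (D.E i), ∃ v : Pl K, Over w v := fun w => ov_ex w
    choose f hf using h2
    refine (h1.image f).subset ?_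
    rintro v ⟨w, hw, hwα⟩
    refine ⟨w, hwα, ?_⟩
    exact HeightOneSpectrum.ext ((hf w).symm.trans hw)
  unfold Dv
  rw [dif_pos hfin, Set.Finite.mem_toFinset]
  rfl

omit [Finite A] in
theorem un_iff {α : Tp fun i => D.E i} (hα : ∀ i, α i ≠ 0) (v : Pl K) :
    v ∈ H51.K2.UI (Dv D α) ↔ ¬ Un α v := by
  unfold H51.K2.UI Un
  rw [Finset.mem_biUnion]
  push Not
  constructor
  · rintro ⟨i, -, hi⟩
    obtain ⟨w, h1, h2⟩ := (dv_mem hα i v).1 hi
    exact ⟨i, w, h1, h2⟩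
  · rintro ⟨i, w, h1, h2⟩
    exact ⟨i, Finset.mem_univ i, (dv_mem hα i v).2 ⟨w, h1, h2⟩⟩

omit [Finite A] in
theorem nN_Dv {α : Tp fun i => D.E i} (hα : ∀ i, α i ≠ 0) (hb : ∀ v : Pl K, ¬ Bad α v) (i : I) :
    H51.K1.nN (Dv D α i) = (Ideal.absNorm (Ideal.span {α i}) : ℝ) := by
  have hsq : ∀ w : Pl (D.E i), α i ∉ w.asIdeal ^ 2 := by
    intro w hw
    obtain ⟨v, hv⟩ := ov_ex (K := K) w
    exact hb v (Or.inl ⟨i, w, hv, hw⟩)
  rw [← dvs_norm (hα i) hsq]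
  have h2 : ∀ w : Pl (D.E i), ∃ v : Pl K, Over w v := fun w => ov_ex w
  choose f hf using h2
  have huniq : ∀ (w : Pl (D.E i)) (v : Pl K), Over w v → f w = v := fun w v hv =>
    HeightOneSpectrum.ext ((hf w).symm.trans hv)
  unfold H51.K1.nN
  symm
  refine Finset.prod_bij (fun w _ => f w) ?_ ?_ ?_ ?_
  · intro w hw
    exact (dv_mem hα i _).2 ⟨w, hf w, (FA.dv_mem (hα i) w).1 hw⟩
  · intro w hw u hu hwu
    by_contra hne
    refine hb (f w) (Or.inr (Or.inr ⟨i, i, w, u, hf w, ?_, ?_, (FA.dv_mem (hα i) w).1 hw,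
      (FA.dv_mem (hα i) u).1 hu⟩))
    · rw [show f w = f u from hwu]
      exact hf u
    · intro h3
      exact hne (eq_of_heq (Sigma.mk.inj h3).2)
  · intro v hv
    obtain ⟨w, h1, h3⟩ := (dv_mem hα i v).1 hv
    exact ⟨w, (FA.dv_mem (hα i) w).2 h3, huniq w v h1⟩
  · intro w hw
    have h3 : nm w = nm (f w) := by
      by_contra hne
      exact hb (f w) (Or.inr (Or.inl ⟨i, w, hf w, hne, (FA.dv_mem (hα i) w).1 hw⟩))
    rw [h3]

omit [Finite A] in
theorem ph_ne {𝔪 : Ideal (𝓞 K)} {X : I → ℝ} (hX : ∀ i, 0 < X i) {α : Tp fun i => D.E i}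
    (hα : α ∈ Ph (fun i => D.E i) 𝔪 X) (i : I) : α i ≠ 0 := by
  intro h0
  have h1 : α ∈ BX (fun i => D.E i) X := (Finset.mem_filter.1 hα).1
  have h2 := (FA.mem_Ax (D.E i)).1 (Fintype.mem_piFinset.1 h1 i) (Classical.arbitrary _)
  rw [h0] at h2
  have h3 : 0 < X i ^ (1 / (Module.finrank ℚ (D.E i) : ℝ)) := Real.rpow_pos_of_pos (hX i) _
  have h4 := h2.1
  rw [show (((0 : 𝓞 (D.E i)) : (D.E i)) = 0) from rfl, map_zero] at h4
  linarith

omit [Finite A] in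
theorem dv_norm (hE : ∀ i, NumberField.IsTotallyComplex (D.E i)) {𝔪 : Ideal (𝓞 K)} {X : I → ℝ}
    (hX : ∀ i, 0 < X i) {α : Tp fun i => D.E i} (hα : α ∈ Ph (fun i => D.E i) 𝔪 X) (i : I) :
    X i < H51.K1.nN (Dv D α i) ∧
      H51.K1.nN (Dv D α i) ≤ 2 ^ Module.finrank ℚ (D.E i) * X i := by
  have h1 : α ∈ BX (fun i => D.E i) X := (Finset.mem_filter.1 hα).1
  rw [nN_Dv (fun i => ph_ne hX hα i) (Finset.mem_filter.1 hα).2.2 i]
  exact FA.ann_norm (D.E i) (hE i) (X i) (hX i) (α i) (Fintype.mem_piFinset.1 h1 i)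

end Pool.Agent.H36.FR
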