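import Pool.Agent.H36.FR.Def

/-!
# [H36 FR FFD] The fixed field of the inverse image of a subgroup

`U = φ₀⁻¹(H)` contains `E.fixingSubgroup` for a finite extension `E/K` (`FT`), so it is an open (closed) subgroup of finite index; `F` = its fixed field (`IntermediateField.fixedField`), contained in the fixed field of `E.fixingSubgroup`
which is `E` (finite dimensional), and `F.fixingSubgroup = U` (`InfiniteGalois.fixingSubgroup_fixedField` for closed subgroups; see `exists_act`, H51/SN/Plc.lean, for the same argument with a kernel). `NumberField F`: finite over `K`, which is a number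
field (see the beginning of the proof of `che_tr`, H36/FA/Ctr.lean).
-/

set_option autoImplicit false

open scoped NumberField Classical
open IsDedekindDomain NumberField

noncomputable section

namespace Pool.Agent.H36.FR

open H63.MA H38.BB H38.BG H77.PC3 H51.SN H57.SL H36.QA H1.LS4 H38.ML

variable {K : IntermediateField ℚ QBar} [NumberField K] {A : Type} [Group A] [Finite A]

theorem ex_F (φ₀ : Gal(QBar/K) →* A) (h₀ : FT φ₀) (H : Subgroup A) :
    ∃ F : IntermediateField K QBar, FiniteDimensional K F ∧ NumberField F ∧
      ∀ σ : Gal(QBar/K), (∀ y : F, σ (y : QBar) = y) ↔ φ₀ σ ∈ H := by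
  obtain ⟨E, hE, h1⟩ := h₀
  have hE' : FiniteDimensional K E := hE
  have hgal : IsGalois K QBar := IsAlgClosure.isGalois K QBar
  obtain ⟨U, hU⟩ : ∃ U : Subgroup Gal(QBar/K), U = H.comap φ₀ := ⟨_, rfl⟩
  have hEU : E.fixingSubgroup ≤ U := by
    intro γ hγ
    rw [hU, Subgroup.mem_comap, show φ₀ γ = 1 from h1 hγ]
    exact H.one_mem
  have hop : IsOpen (U : Set Gal(QBar/K)) :=
    Subgroup.isOpen_mono hEU (IntermediateField.fixingSubgroup_isOpen E)
  have hcl : IsClosed (U : Set Gal(QBar/K)) := Subgroup.isClosed_of_isOpen U hop
  have hF : (IntermediateField.fixedField U).fixingSubgroup = U :=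
    InfiniteGalois.fixingSubgroup_fixedField ⟨U, hcl⟩
  have hle : IntermediateField.fixedField U ≤ E := by
    calc IntermediateField.fixedField U ≤ IntermediateField.fixedField E.fixingSubgroup :=
          IntermediateField.fixedField_le hEU
      _ = E := InfiniteGalois.fixedField_fixingSubgroup E
  have hfd : FiniteDimensional K (IntermediateField.fixedField U) :=
    FiniteDimensional.of_injective (IntermediateField.inclusion hle).toLinearMap
      (IntermediateField.inclusion hle).injective
  refine ⟨IntermediateField.fixedField U, hfd, ?_, fun σ => ?_⟩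
  · have hQ : FiniteDimensional ℚ (IntermediateField.fixedField U) :=
      Module.Finite.trans K (IntermediateField.fixedField U)
    exact ⟨⟩
  · have h2 : φ₀ σ ∈ H ↔ σ ∈ (IntermediateField.fixedField U).fixingSubgroup := by
      rw [hF, hU]
      exact Iff.rfl
    rw [h2, IntermediateField.mem_fixingSubgroup_iff]
    exact ⟨fun h y hy => h ⟨y, hy⟩, fun h y => h y y.2⟩

/-- `K` totally complex implies `F` totally complex -/
theorem tc_F (hK : NumberField.IsTotallyComplex K) (F : IntermediateField K QBar) [NumberField F] :
    NumberField.IsTotallyComplex F :=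
  NumberField.isTotallyComplex_of_algebra (F := K) F

end Pool.Agent.H36.FR
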