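import Pool.Agent.H36.FR.Mea
import Pool.Agent.H36.FR.Chg
import Pool.Agent.H36.FR.Dvs

/-!
# [H36 FR FHY] The hypotheses `Hyp` for the family

As H36/FA/Fhy.lean (in work there; same proof), `UI (Dv D α)` in place of `UD (Dd L α)` (`un_iff`, `ph_ne`), `per_ff`, `ff_bd`, `gg_bd`.
-/

set_option autoImplicit false

open scoped NumberField Classical
open IsDedekindDomain NumberField

noncomputable section

namespace Pool.Agent.H36.FR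

open H63.MA H38.BB H38.BG H77.PC3 H51.SN H57.SL H36.QA H1.LS4 H38.ML

variable {K : IntermediateField ℚ QBar} [NumberField K] {A V I : Type} [Group A] [Finite A]
  [CommGroup V] [MulDistribMulAction A V] [Fintype I] {D : Dt K A V I}
  [∀ i, NumberField (D.E i)] {J : Type} [Fintype J]

private theorem fhy_fxp_le (M : Subgroup A) (a : A) : (H51.K1.fxp M a : ℝ) ≤ Nat.card A := by
  have h1 : H51.K1.fxp M a ≤ Nat.card (A ⧸ M) :=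
    Nat.card_le_card_of_injective Subtype.val Subtype.val_injective
  have h2 : Nat.card (A ⧸ M) ≤ Nat.card A :=
    Nat.card_le_card_of_surjective (QuotientGroup.mk : A → A ⧸ M) QuotientGroup.mk_surjective
  exact_mod_cast h1.trans h2

private theorem fhy_mem {S₀ : Finset (Pl K)} (x : ℝ) (v : H51.K1.Vx S₀) :
    v ∈ H51.K1.PV S₀ x ↔ (nm v.1 : ℝ) ≤ x := by
  unfold H51.K1.PV
  rw [Set.Finite.mem_toFinset]
  rfl

omit [Fintype J] in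
private theorem fhy_rr (Q : DP K QBar) (S₀ : Finset (Pl K)) (H : J → Subgroup A)
    {α : Tp fun i => D.E i} (hα : ∀ i, α i ≠ 0) (φ : Gal(QBar/K) →* A)
    (hφ : ∀ σ, φ σ = phf D α σ) (j : J) (v : H51.K1.Vx S₀) :
    H51.K1.rr Q S₀ H φ (H51.K2.UI (Dv D α)) j v = ff D Q (H j) v.1 α := by
  unfold H51.K1.rr ff
  by_cases h : Un α v.1
  · have h1 : v.1 ∉ H51.K2.UI (Dv D α) := fun h2 => (un_iff hα v.1).1 h2 h
    rw [if_neg h1, if_pos h, hφ]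
  · have h1 : v.1 ∈ H51.K2.UI (Dv D α) := (un_iff hα v.1).2 h
    rw [if_pos h1, if_neg h]

private theorem fhy_prod {S₀ : Finset (Pl K)} (q : J → Finset (H51.K1.Vx S₀))
    (hq : ∀ i j, i ≠ j → Disjoint (q i) (q j)) (G : Pl K → ℝ) (F : J → H51.K1.Vx S₀ → ℝ)
    (hG : ∀ j, ∀ v ∈ q j, G v.1 = F j v) :
    ∏ v ∈ Finset.univ.biUnion (fun j => (q j).map ⟨Subtype.val, Subtype.val_injective⟩), G v =
      ∏ j, ∏ v ∈ q j, F j v := by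
  rw [Finset.prod_biUnion]
  · refine Finset.prod_congr rfl fun j _ => ?_
    rw [Finset.prod_map]
    exact Finset.prod_congr rfl fun v hv => hG j v hv
  · intro i _ j _ hij
    exact (Finset.disjoint_map _).2 (hq i j hij)

private theorem fhy_mean (hD : Ok D) (H : J → Subgroup A) (Q : DP K QBar)
    (S₀ : Finset (Pl K)) (𝔪 : Ideal (𝓞 K)) (h𝔪 : ∀ v : Pl K, v.asIdeal ∣ 𝔪 ↔ v ∈ S₀)
    (hm : ∀ v : Pl K, ((D.m : ℕ) : 𝓞 K) ∈ v.asIdeal → v ∈ S₀) (Y E : ℝ) (X : I → ℝ)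
    (hmean : ∀ f : Pl K → (Tp fun i => D.E i) → ℝ,
      (∀ v, Per (ex (fun i => D.E i) v.asIdeal) (f v)) → (∀ v α, 0 ≤ f v α) →
      (∀ v α, f v α ≤ Nat.card A) → (∀ v α, ¬ Un α v → f v α = 0) → ∀ q : Finset (Pl K),
        (∀ v ∈ q, ¬ v.asIdeal ∣ 𝔪) → ∏ v ∈ q, (nm v : ℝ) ≤ Y →
          |∑ α ∈ Ph (fun i => D.E i) 𝔪 X, ∏ v ∈ q, f v α -
            ((Ph (fun i => D.E i) 𝔪 X).card : ℝ) *
              ∏ v ∈ q, (Mn (ex (fun i => D.E i) v.asIdeal) (f v) / (1 - be (fun i => D.E i) v))| ≤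
              ((Ph (fun i => D.E i) 𝔪 X).card : ℝ) * E)
    (q : J → Finset (H51.K1.Vx S₀)) (hq : ∀ i j, i ≠ j → Disjoint (q i) (q j))
    (hY : ∏ j, ∏ v ∈ q j, (nm v.1 : ℝ) ≤ Y) :
    |∑ α ∈ Ph (fun i => D.E i) 𝔪 X, ∏ j, ∏ v ∈ q j, ff D Q (H j) v.1 α -
      ((Ph (fun i => D.E i) 𝔪 X).card : ℝ) * ∏ j, ∏ v ∈ q j, gg D Q (H j) v.1| ≤
        ((Ph (fun i => D.E i) 𝔪 X).card : ℝ) * E := by
  set f : Pl K → (Tp fun i => D.E i) → ℝ := fun v α =>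
    if h : ∃ j, ∃ hv : v ∉ S₀, (⟨v, hv⟩ : H51.K1.Vx S₀) ∈ q j then ff D Q (H h.choose) v α else 0
    with hf
  have hf1 : ∀ j, ∀ v ∈ q j, f v.1 = ff D Q (H j) v.1 := by
    intro j v hv
    have h : ∃ j, ∃ hv : v.1 ∉ S₀, (⟨v.1, hv⟩ : H51.K1.Vx S₀) ∈ q j := ⟨j, v.2, hv⟩
    have h1 : h.choose = j := by
      by_contra hne
      obtain ⟨h2, h3⟩ := h.choose_spec
      exact (Finset.disjoint_left.1 (hq _ _ hne)) h3 hv
    funext α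
    rw [hf]
    simp only
    rw [dif_pos h, h1]
  have hf0 : ∀ v, (¬ ∃ j, ∃ hv : v ∉ S₀, (⟨v, hv⟩ : H51.K1.Vx S₀) ∈ q j) → ∀ α, f v α = 0 := by
    intro v h α
    rw [hf]
    simp only
    rw [dif_neg h]
  have hmv : ∀ v : Pl K, v ∉ S₀ → ((D.m : ℕ) : 𝓞 K) ∉ v.asIdeal := fun v hv h => hv (hm v h)
  have key := hmean f ?_ ?_ ?_ ?_
    (Finset.univ.biUnion (fun j => (q j).map ⟨Subtype.val, Subtype.val_injective⟩)) ?_ ?_
  · have e1 : ∀ α : Tp fun i => D.E i,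
        ∏ v ∈ Finset.univ.biUnion (fun j => (q j).map ⟨Subtype.val, Subtype.val_injective⟩), f v α =
          ∏ j, ∏ v ∈ q j, ff D Q (H j) v.1 α := fun α =>
      fhy_prod q hq (fun v => f v α) (fun j v => ff D Q (H j) v.1 α)
        fun j v hv => congrFun (hf1 j v hv) α
    have e2 : ∏ v ∈ Finset.univ.biUnion (fun j => (q j).map ⟨Subtype.val, Subtype.val_injective⟩),
        (Mn (ex (fun i => D.E i) v.asIdeal) (f v) / (1 - be (fun i => D.E i) v)) =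
          ∏ j, ∏ v ∈ q j, gg D Q (H j) v.1 :=
      fhy_prod q hq (fun v => Mn (ex (fun i => D.E i) v.asIdeal) (f v) / (1 - be (fun i => D.E i) v))
        (fun j v => gg D Q (H j) v.1) fun j v hv => by
          rw [hf1 j v hv]
          rfl
    rw [e2] at key
    simp only [e1] at key
    exact key
  · intro v
    by_cases h : ∃ j, ∃ hv : v ∉ S₀, (⟨v, hv⟩ : H51.K1.Vx S₀) ∈ q j
    · obtain ⟨j, hv, hj⟩ := h
      rw [hf1 j ⟨v, hv⟩ hj]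
      exact per_ff hD Q (H j) v (hmv v hv)
    · intro α β _
      rw [hf0 v h, hf0 v h]
  · intro v α
    by_cases h : ∃ j, ∃ hv : v ∉ S₀, (⟨v, hv⟩ : H51.K1.Vx S₀) ∈ q j
    · obtain ⟨j, hv, hj⟩ := h
      rw [hf1 j ⟨v, hv⟩ hj]
      exact (ff_bd Q (H j) v α).1
    · rw [hf0 v h]
  · intro v α
    by_cases h : ∃ j, ∃ hv : v ∉ S₀, (⟨v, hv⟩ : H51.K1.Vx S₀) ∈ q j
    · obtain ⟨j, hv, hj⟩ := h
      rw [hf1 j ⟨v, hv⟩ hj]
      exact (ff_bd Q (H j) v α).2.1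
    · rw [hf0 v h]
      exact Nat.cast_nonneg _
  · intro v α hu
    by_cases h : ∃ j, ∃ hv : v ∉ S₀, (⟨v, hv⟩ : H51.K1.Vx S₀) ∈ q j
    · obtain ⟨j, hv, hj⟩ := h
      rw [hf1 j ⟨v, hv⟩ hj]
      exact (ff_bd Q (H j) v α).2.2 hu
    · exact hf0 v h α
  · intro v hv
    obtain ⟨j, -, hj⟩ := Finset.mem_biUnion.1 hv
    obtain ⟨w, -, rfl⟩ := Finset.mem_map.1 hj
    rw [h𝔪]
    exact w.2
  · rw [fhy_prod q hq (fun v => (nm v : ℝ)) (fun _ v => (nm v.1 : ℝ)) fun j v _ => rfl]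
    exact hY

theorem fhy (hD : Ok D) (H : J → Subgroup A) (Q : DP K QBar)
    (S₀ : Finset (Pl K)) (𝔪 : Ideal (𝓞 K)) (h𝔪 : ∀ v : Pl K, v.asIdeal ∣ 𝔪 ↔ v ∈ S₀)
    (hm : ∀ v : Pl K, ((D.m : ℕ) : 𝓞 K) ∈ v.asIdeal → v ∈ S₀)
    (hun : ∀ v, v ∉ S₀ → ∀ τ ∈ (Q.P v).inertia Gal(QBar/K), D.φ τ = 1)
    (C θ η Z : ℝ) (hC : 2 ≤ C) (hCA : (Nat.card A : ℝ) ≤ C) (hZ : 2 ≤ Z)
    (hp : ∀ x : ℝ, 2 ≤ x → ((H51.K1.PV S₀ x).card : ℝ) ≤ C * x / Real.log x)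
    (hche : ∀ j, (∀ x : ℝ, C ≤ x → x / (C * Real.log x) ≤
        ∑ v ∈ H51.K1.PV S₀ (C * x) \ H51.K1.PV S₀ x, gg D Q (H j) v.1) ∧
      ∀ x : ℝ, 2 ≤ x → Real.log (Real.log x) - C ≤
        ∑ v ∈ H51.K1.PV S₀ x, gg D Q (H j) v.1 / (nm v.1 : ℝ))
    (X : I → ℝ) (hX : ∀ i, 1 ≤ X i)
    (hmean : ∀ f : Pl K → (Tp fun i => D.E i) → ℝ,
      (∀ v, Per (ex (fun i => D.E i) v.asIdeal) (f v)) → (∀ v α, 0 ≤ f v α) →
      (∀ v α, f v α ≤ Nat.card A) → (∀ v α, ¬ Un α v → f v α = 0) → ∀ q : Finset (Pl K),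
        (∀ v ∈ q, ¬ v.asIdeal ∣ 𝔪) → ∏ v ∈ q, (nm v : ℝ) ≤ Z ^ θ →
          |∑ α ∈ Ph (fun i => D.E i) 𝔪 X, ∏ v ∈ q, f v α -
            ((Ph (fun i => D.E i) 𝔪 X).card : ℝ) *
              ∏ v ∈ q, (Mn (ex (fun i => D.E i) v.asIdeal) (f v) / (1 - be (fun i => D.E i) v))| ≤
              ((Ph (fun i => D.E i) 𝔪 X).card : ℝ) * Z ^ (-η))
    (φ : {α : Tp fun i => D.E i // α ∈ Ph (fun i => D.E i) 𝔪 X} → Gal(QBar/K) →* A)
    (hφ : ∀ k σ, φ k σ = phf D k.1 σ) :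
    RS.Hyp C θ η 1 Z (H51.K1.dat Q S₀ H φ (fun k => H51.K2.UI (Dv D k.1))
      (fun j v => gg D Q (H j) v.1) Z) := by
  have hne : ∀ k : {α : Tp fun i => D.E i // α ∈ Ph (fun i => D.E i) 𝔪 X}, ∀ i, k.1 i ≠ 0 :=
    fun k i => ph_ne (fun i => lt_of_lt_of_le one_pos (hX i)) k.2 i
  have hmv : ∀ v : Pl K, v ∉ S₀ → ((D.m : ℕ) : 𝓞 K) ∉ v.asIdeal := fun v hv h => hv (hm v h)
  have hr0 : ∀ (ψ : Gal(QBar/K) →* A) (s : Finset (Pl K)) (j : J) (v : H51.K1.Vx S₀),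
      0 ≤ H51.K1.rr Q S₀ H ψ s j v := by
    intro ψ s j v
    unfold H51.K1.rr
    split_ifs
    · exact le_refl _
    · exact Nat.cast_nonneg _
  have hT : ∀ k j x y, 0 ≤ (H51.K1.dat0 Q S₀ H φ (fun k => H51.K2.UI (Dv D k.1))
      (fun j v => gg D Q (H j) v.1)).T k j x y := by
    intro k j x y
    exact Finset.sum_nonneg fun q _ => Finset.prod_nonneg fun v _ => hr0 _ _ _ _
  have hZ0 : (0 : ℝ) < Z ^ (1 : ℝ) := Real.rpow_pos_of_pos (by linarith) _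
  refine
    { mem_P := fun x v => fhy_mem x v
      two := fun v => one_lt_nm v.1
      card_P := hp
      r_nonneg := fun k j v => hr0 _ _ _ _
      r_le := ?_
      g_nonneg := fun j v => (gg_bd hD Q (H j) v.1 (hmv v.1 v.2) (hun v.1 v.2)).1
      g_le := fun j v => (gg_bd hD Q (H j) v.1 (hmv v.1 v.2) (hun v.1 v.2)).2.trans hCA
      w_nonneg := fun _ => zero_le_one
      κ_nonneg := fun k j => div_nonneg (hT k j _ _) hZ0.le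
      che1 := fun j => (hche j).1
      che2 := fun j => (hche j).2
      mean := ?_
      cnt := ?_ }
  · intro k j v
    refine le_trans ?_ hCA
    change H51.K1.rr Q S₀ H (φ k) (H51.K2.UI (Dv D k.1)) j v ≤ _
    unfold H51.K1.rr
    split_ifs
    · exact Nat.cast_nonneg _
    · exact fhy_fxp_le _ _
  · intro q hq hY
    have h1 := fhy_mean hD H Q S₀ 𝔪 h𝔪 hm (Z ^ θ) (Z ^ (-η)) X hmean q hq hY
    have e1 : ∑ k : {α : Tp fun i => D.E i // α ∈ Ph (fun i => D.E i) 𝔪 X},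
        (1 : ℝ) * ∏ j, ∏ v ∈ q j, H51.K1.rr Q S₀ H (φ k) (H51.K2.UI (Dv D k.1)) j v =
          ∑ α ∈ Ph (fun i => D.E i) 𝔪 X, ∏ j, ∏ v ∈ q j, ff D Q (H j) v.1 α := by
      rw [Finset.sum_subtype (Ph (fun i => D.E i) 𝔪 X) (fun _ => Iff.rfl)]
      refine Finset.sum_congr rfl fun k _ => ?_
      rw [one_mul]
      refine Finset.prod_congr rfl fun j _ => Finset.prod_congr rfl fun v _ => ?_
      exact fhy_rr Q S₀ H (hne k) (φ k) (hφ k) j v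
    have e2 : ∑ _k : {α : Tp fun i => D.E i // α ∈ Ph (fun i => D.E i) 𝔪 X}, (1 : ℝ) =
        ((Ph (fun i => D.E i) 𝔪 X).card : ℝ) := by
      rw [← Finset.sum_subtype (Ph (fun i => D.E i) 𝔪 X) (fun _ => Iff.rfl) (fun _ => (1 : ℝ)),
        Finset.sum_const, nsmul_eq_mul, mul_one]
    change |∑ k : {α : Tp fun i => D.E i // α ∈ Ph (fun i => D.E i) 𝔪 X},
        (1 : ℝ) * ∏ j, ∏ v ∈ q j, H51.K1.rr Q S₀ H (φ k) (H51.K2.UI (Dv D k.1)) j v -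
      (∑ _k : {α : Tp fun i => D.E i // α ∈ Ph (fun i => D.E i) 𝔪 X}, (1 : ℝ)) *
        ∏ j, ∏ v ∈ q j, gg D Q (H j) v.1| ≤
      (∑ _k : {α : Tp fun i => D.E i // α ∈ Ph (fun i => D.E i) 𝔪 X}, (1 : ℝ)) * Z ^ (-η)
    rw [e1, e2]
    exact h1
  · intro k j
    change (H51.K1.dat0 Q S₀ H φ (fun k => H51.K2.UI (Dv D k.1))
      (fun j v => gg D Q (H j) v.1)).T k j (Z ^ (1 : ℝ)) (Z ^ (1 : ℝ)) ≤
      C * ((H51.K1.dat0 Q S₀ H φ (fun k => H51.K2.UI (Dv D k.1))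
      (fun j v => gg D Q (H j) v.1)).T k j (Z ^ (1 : ℝ)) (Z ^ (1 : ℝ)) / Z ^ (1 : ℝ)) * Z ^ (1 : ℝ)
    rw [mul_assoc, div_mul_cancel₀ _ hZ0.ne']
    have h1 := hT k j (Z ^ (1 : ℝ)) (Z ^ (1 : ℝ))
    nlinarith

end Pool.Agent.H36.FR
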