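import Pool.Agent.H36.FR.Coc

/-!
# [H36 FR FTE] The homomorphism of a tuple

`phf_hom`: `phB_mul` for the chosen roots (`rt_ex`). FT: let `M` be a finite extension of `K` which contains the field of `FT D.φ` and all `B i ι` and all `ι (E i)` (finitely many algebraic elements: `IntermediateField.adjoin` of a finite set, compositum; see `kq_ft` in H51/SN/Kum.lean): for `σ` fixing `M`: `φ σ = 1`,
`ac σ ι = ι`, `σ (B ι) = B ι`, so all symbols are `0`.
-/

set_option autoImplicit false

open scoped NumberField Classical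
open IsDedekindDomain NumberField

noncomputable section

namespace Pool.Agent.H36.FR

open H63.MA H38.BB H38.BG H77.PC3 H51.SN H57.SL H36.QA H1.LS4 H38.ML

variable {K : IntermediateField ℚ QBar} [NumberField K] {A V I : Type} [Group A] [Finite A]
  [CommGroup V] [MulDistribMulAction A V] [Fintype I] {D : Dt K A V I}
  [∀ i, NumberField (D.E i)]

theorem phf_hom (hD : Ok D) {α : Tp fun i => D.E i} (hα : ∀ i, α i ≠ 0) :
    ∃ φ : Gal(QBar/K) →* A, (∀ σ, φ σ = phf D α σ) ∧ FT φ := by
  have hB : ∀ i, Rt (D.l i) (α i) (rt (K := K) (D.l i) (α i)) :=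
    fun i => rt_ex (hD.pr i).pos (α i)
  refine ⟨MonoidHom.mk' (phf D α) (fun σ τ => phB_mul hD hα hB σ τ), fun σ => rfl, ?_⟩
  obtain ⟨E0, hE0, hE0'⟩ := hD.ft
  have hfd : ∀ i, FiniteDimensional K (D.E i) :=
    fun i => Module.Finite.of_restrictScalars_finite ℚ K (D.E i)
  have hfe : ∀ i, Finite (D.E i →ₐ[K] QBar) := fun i => inferInstance
  have hadj : ∀ x : QBar, FiniteDimensional K (IntermediateField.adjoin K {x}) := fun x =>
    IntermediateField.adjoin.finiteDimensional (Algebra.IsAlgebraic.isAlgebraic x).isIntegral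
  have hrg : ∀ i (ι : D.E i →ₐ[K] QBar), FiniteDimensional K ι.fieldRange := fun i ι =>
    (AlgHom.equivFieldRange ι).toLinearEquiv.finiteDimensional
  refine ⟨E0 ⊔ ⨆ i, ⨆ ι : D.E i →ₐ[K] QBar,
    (ι.fieldRange ⊔ IntermediateField.adjoin K {(rt (K := K) (D.l i) (α i) ι : QBar)}), ?_, ?_⟩
  · infer_instance
  · intro σ hσ
    have h1 := (IntermediateField.mem_fixingSubgroup_iff _ σ).1 hσ
    have hφ : D.φ σ = 1 := by
      refine MonoidHom.mem_ker.1 (hE0' ((IntermediateField.mem_fixingSubgroup_iff _ σ).2 ?_))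
      intro x hx
      exact h1 x ((le_sup_left : E0 ≤ _) hx)
    have h2 : ∀ i (ι : D.E i →ₐ[K] QBar), ∀ x ∈ ι.fieldRange ⊔
        IntermediateField.adjoin K {(rt (K := K) (D.l i) (α i) ι : QBar)}, σ x = x := by
      intro i ι x hx
      refine h1 x ?_
      have h3 : ι.fieldRange ⊔ IntermediateField.adjoin K {(rt (K := K) (D.l i) (α i) ι : QBar)} ≤
          ⨆ i, ⨆ ι : D.E i →ₐ[K] QBar,
          (ι.fieldRange ⊔ IntermediateField.adjoin K {(rt (K := K) (D.l i) (α i) ι : QBar)}) :=
        le_iSup_of_le i (le_iSup_of_le ι le_rfl)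
      exact (h3.trans le_sup_right) hx
    have hac : ∀ i (ι : D.E i →ₐ[K] QBar), ac σ ι = ι := by
      intro i ι
      refine AlgHom.ext fun y => ?_
      rw [ac_apply]
      exact h2 i ι (ι y) ((le_sup_left : ι.fieldRange ≤ _) ⟨y, rfl⟩)
    have hk : ∀ i, kap (D.l i) (D.z i) (xv D i) (rt (K := K) (D.l i) (α i)) σ = 1 := by
      intro i
      unfold kap
      refine finprod_eq_one_of_forall_eq_one fun ι => ?_
      have h4 : σ (rt (K := K) (D.l i) (α i) ι : QBar) = rt (K := K) (D.l i) (α i) ι := by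
        refine h2 i ι _ ((le_sup_right : IntermediateField.adjoin K
          {(rt (K := K) (D.l i) (α i) ι : QBar)} ≤ _) ?_)
        exact IntermediateField.mem_adjoin_simple_self K _
      rw [sy_eq (hD.pr i) (z_prim hD i) (hB i) (hα i) σ ι 0 (by rw [hac, pow_zero, one_mul, h4])]
      rw [Nat.cast_zero, ZMod.val_zero, pow_zero]
    rw [MonoidHom.mem_ker]
    change phf D α σ = 1
    unfold phf phB
    rw [Finset.prod_eq_one fun i _ => hk i, map_one, one_mul, hφ]

end Pool.Agent.H36.FR
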