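import Pool.Agent.H36.FR.Phr
import Pool.Agent.H36.FR.Dcc
import Pool.Agent.H36.FR.Dvs
import Pool.Agent.H51.K1.Tam

/-!
# [H36 FR FTY] The homomorphism of a tuple is typed

`α i ≠ 0` (`ph_ne`). `out`: if `v ∈ S₀` then `v ∣ 𝔪`, `α i ≡ 1` modulo `w` (`ex_dvd`). `dis`: `¬ Bad`. `ram`: `dv_mem`, `pha_ram`, `xv_conj`: `e (xv ^ t) = a (e (u i))^t a⁻¹`, and `H51.K1.tx m ζ v (e (u i)) τ = (e (u i))^t` since `orderOf (e (u i)) = orderOf (u i)`. `unr`: `un_iff`, `pha_unr`. `dec`: `pha_dec` (`ex 𝔪 i ≤ ex v i` for `v ∣ 𝔪`).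
`srj`: `R = φ.range`. `φ σ = e(..) φ₀ σ`, so `R ⊔ e.range = ⊤`. For every `i` there is `v ∈ Dv D α i` (`dv_norm`: the product of norms is `> X i ≥ 1`), so `e (xv i ι) ∈ R` for some `ι` (`pha_ram`, `H51.K1.tam`: `t(τ) = 1`); for `a ∈ A`, `a = r e(x)`: `e (a • u)` is the conjugate by `r` (`e_com`); all conjugates of `e (u i)` are in `R`;
`Ok.gen`: `e.range ≤ R`, `R = ⊤`.
-/

set_option autoImplicit false

open scoped NumberField Classical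
open IsDedekindDomain NumberField

noncomputable section

namespace Pool.Agent.H36.FR

open H63.MA H38.BB H38.BG H77.PC3 H51.SN H57.SL H36.QA H1.LS4 H38.ML

variable {K : IntermediateField ℚ QBar} [NumberField K] {A V I : Type} [Group A] [Finite A]
  [CommGroup V] [MulDistribMulAction A V] [Fintype I] {D : Dt K A V I}
  [∀ i, NumberField (D.E i)]

omit [Finite A] [Fintype I] [∀ i, NumberField (D.E i)] in
private theorem fty_ord (hD : Ok D) (i : I) : orderOf (D.e (D.u i)) = orderOf (D.u i) :=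
  orderOf_injective D.e hD.inj (D.u i)

omit [NumberField K] in
private theorem fty_kq {m : ℕ} {ζ : K} {l l' : ℕ} (h : l = l') (x : QBar) (τ : Gal(QBar/K)) :
    (kq l (ζ ^ (m / l)) x τ).val = (kq l' (ζ ^ (m / l')) x τ).val := by
  subst h
  rfl

omit [Finite A] in
private theorem fty_not {𝔪 : Ideal (𝓞 K)} {X : I → ℝ} {α : Tp fun i => D.E i}
    (hα : α ∈ Ph (fun i => D.E i) 𝔪 X) (i : I) {v : Pl K} {w : Pl (D.E i)} (hw : Over w v)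
    (hv : α i ∈ w.asIdeal) : ¬ v.asIdeal ∣ 𝔪 := by
  intro hd
  have h1 : α i - 1 ∈ ex (fun i => D.E i) 𝔪 i := (Finset.mem_filter.1 hα).2.1 i
  have h2 : α i - 1 ∈ w.asIdeal := ex_dvd (E := fun i => D.E i) hd hw h1
  have h3 : (1 : 𝓞 (D.E i)) ∈ w.asIdeal := by
    have h4 := w.asIdeal.sub_mem hv h2
    rwa [sub_sub_cancel] at h4
  exact w.isPrime.ne_top ((Ideal.eq_top_iff_one _).2 h3)

/-- all conjugates of `e (u i)` are in the image -/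
private theorem fty_mem (hD : Ok D) (Q : DP K QBar) (v : Pl K)
    (hv : ((D.m : ℕ) : 𝓞 K) ∉ v.asIdeal)
    (h₀ : ∀ τ ∈ (Q.P v).inertia Gal(QBar/K), D.φ τ = 1) {α : Tp fun i => D.E i}
    (hα : ∀ i, α i ≠ 0) (hb : ¬ Bad α v) {i : I} {w : Pl (D.E i)} (hw : Over w v)
    (h1 : α i ∈ w.asIdeal) (φ : Gal(QBar/K) →* A) (hφ : ∀ σ, φ σ = phf D α σ) (a : A) :
    D.e (a • D.u i) ∈ φ.range := by
  obtain ⟨ι, -, hι⟩ := pha_ram hD Q v hv h₀ hα hb hw h1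
  have hl : ((D.l i : ℕ) : 𝓞 K) ∉ v.asIdeal := by
    intro hl
    apply hv
    obtain ⟨c, hc⟩ := l_dvd hD i
    rw [hc, Nat.cast_mul]
    exact Ideal.mul_mem_right _ _ hl
  obtain ⟨τ, hτ, h2⟩ := H51.K1.tam Q (hD.pr i) (z_prim hD i) v hl
  have h3 : D.e (xv D i ι) ∈ φ.range := by
    refine ⟨τ, ?_⟩
    have : Fact (1 < D.l i) := ⟨(hD.pr i).one_lt⟩
    rw [hφ, hι τ hτ, h2, ZMod.val_one, pow_one]
  obtain ⟨γ, rfl⟩ := emb_tr (D.E i) (D.E i).val ι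
  obtain ⟨σ, hσ⟩ := hD.srj (a * (D.φ γ)⁻¹)
  have h4 : φ σ * D.e (xv D i (ac γ (D.E i).val)) * (φ σ)⁻¹ ∈ φ.range :=
    φ.range.mul_mem (φ.range.mul_mem ⟨σ, rfl⟩ h3) (φ.range.inv_mem ⟨σ, rfl⟩)
  obtain ⟨y, hy⟩ : ∃ y : V, φ σ = D.e y * D.φ σ := ⟨_, by rw [hφ]; rfl⟩
  have h5 : φ σ * D.e (xv D i (ac γ (D.E i).val)) * (φ σ)⁻¹ = D.e (a • D.u i) := by
    rw [← hD.act, hy, mul_smul, e_com hD, xv_spec hD, hσ, mul_smul, inv_smul_smul]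
  rwa [h5] at h4

theorem fty (hD : Ok D) (hE : ∀ i, NumberField.IsTotallyComplex (D.E i)) (Q : DP K QBar)
    (S₀ S' : Finset (Pl K)) (𝔪 : Ideal (𝓞 K)) (h𝔪 : ∀ v : Pl K, v.asIdeal ∣ 𝔪 ↔ v ∈ S₀)
    (hm : ∀ v : Pl K, ((D.m : ℕ) : 𝓞 K) ∈ v.asIdeal → v ∈ S₀)
    (hun : ∀ v, v ∉ S₀ → ∀ τ ∈ (Q.P v).inertia Gal(QBar/K), D.φ τ = 1)
    (hS' : S' ⊆ S₀) (hmS' : ∀ v ∈ S', ((D.m : ℕ) : 𝓞 K) ∉ v.asIdeal)
    (hd : ∀ v ∈ S', ∀ σ ∈ dec (K := K) (Q.P v), D.φ σ = 1)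
    (X : I → ℝ) (hX : ∀ i, 1 ≤ X i) (α : Tp fun i => D.E i) (hα : α ∈ Ph (fun i => D.E i) 𝔪 X)
    (φ : Gal(QBar/K) →* A) (hφ : ∀ σ, φ σ = phf D α σ) (hft : FT φ) :
    H51.K2.TyB Q D.m D.ζ S₀ S' (fun i => D.e (D.u i)) (Dv D α) φ := by
  have hX0 : ∀ i, 0 < X i := fun i => one_pos.trans_le (hX i)
  have hα0 : ∀ i, α i ≠ 0 := fun i => ph_ne hX0 hα i
  have hb : ∀ v : Pl K, ¬ Bad α v := (Finset.mem_filter.1 hα).2.2
  have hout : ∀ i, ∀ v ∈ Dv D α i, v ∉ S₀ := by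
    intro i v hv hvS
    obtain ⟨w, hw, h1⟩ := (dv_mem hα0 i v).1 hv
    exact fty_not hα i hw h1 ((h𝔪 v).2 hvS)
  have hmv : ∀ v : Pl K, v ∉ S₀ → ((D.m : ℕ) : 𝓞 K) ∉ v.asIdeal := fun v hv h => hv (hm v h)
  have hsrj : Function.Surjective φ := by
    have h1 : ∀ i (a : A), D.e (a • D.u i) ∈ φ.range := by
      intro i a
      have h2 := (dv_norm hE hX0 hα i).1
      obtain ⟨v, hv⟩ : (Dv D α i).Nonempty := by
        rw [Finset.nonempty_iff_ne_empty]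
        intro h3
        rw [h3] at h2
        unfold H51.K1.nN at h2
        rw [Finset.prod_empty] at h2
        exact absurd h2 (not_lt.2 (hX i))
      obtain ⟨w, hw, h3⟩ := (dv_mem hα0 i v).1 hv
      exact fty_mem hD Q v (hmv v (hout i v hv)) (hun v (hout i v hv)) hα0 (hb v) hw h3 φ hφ a
    have h2 : φ.range.comap D.e = ⊤ := hD.gen _ fun i a => h1 i a
    intro a
    obtain ⟨σ, hσ⟩ := hD.srj a
    obtain ⟨y, hy⟩ : ∃ y : V, φ σ = D.e y * D.φ σ := ⟨_, by rw [hφ]; rfl⟩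
    have h3 : D.e y ∈ φ.range := by
      have h4 : y ∈ φ.range.comap D.e := by
        rw [h2]
        exact Subgroup.mem_top y
      exact h4
    have h5 : (D.e y)⁻¹ * φ σ ∈ φ.range := φ.range.mul_mem (φ.range.inv_mem h3) ⟨σ, rfl⟩
    rw [hy, inv_mul_cancel_left, hσ] at h5
    exact h5
  refine ⟨hft, hsrj, hout, ?_, ?_, ?_, ?_⟩
  · intro i j hij
    rw [Finset.disjoint_left]
    intro v hv hv'
    obtain ⟨w, hw, h1⟩ := (dv_mem hα0 i v).1 hv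
    obtain ⟨u, hu, h2⟩ := (dv_mem hα0 j v).1 hv'
    exact hb v (Or.inr (Or.inr ⟨i, j, w, u, hw, hu, fun h => hij (congrArg Sigma.fst h), h1, h2⟩))
  · intro i v hv
    obtain ⟨w, hw, h1⟩ := (dv_mem hα0 i v).1 hv
    have hvS := hout i v hv
    obtain ⟨ι, -, hι⟩ := pha_ram hD Q v (hmv v hvS) (hun v hvS) hα0 (hb v) hw h1
    obtain ⟨a, ha⟩ := xv_conj hD i ι
    refine ⟨a, fun τ hτ => ?_⟩
    rw [hφ, hι τ hτ, map_pow, ha, conj_pow]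
    unfold H51.K1.tx
    rw [fty_kq (fty_ord hD i)]
  · intro v hvS hv τ hτ
    rw [hφ]
    refine pha_unr hD Q v (hmv v hvS) (hun v hvS) hα0 ?_ τ hτ
    by_contra hu
    have h1 := (un_iff hα0 v).2 hu
    unfold H51.K2.UI at h1
    rw [Finset.mem_biUnion] at h1
    obtain ⟨i, -, hi⟩ := h1
    exact hv i hi
  · intro v hv σ hσ
    rw [hφ]
    refine pha_dec hD Q v (hmS' v hv) (hd v hv) (fun i => ?_) σ hσ
    have h1 : α i - 1 ∈ ex (fun i => D.E i) 𝔪 i := (Finset.mem_filter.1 hα).2.1 i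
    have h2 : 𝔪 ≤ v.asIdeal := Ideal.le_of_dvd ((h𝔪 v).2 (hS' hv))
    exact Ideal.map_mono h2 h1

end Pool.Agent.H36.FR
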