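import Pool.Agent.H36.FR.Phr
import Pool.Agent.H36.FR.Dvs
import Pool.Agent.H51.K1.Tam

/-!
# [H36 FR INJ] Different tuples give different homomorphisms

Let `w` (over `v`) contain `α i` (so `v ∤ 𝔪`: otherwise `α i ≡ 1` modulo `w`, `ex_dvd`; `v` tame, `φ` trivial on inertia by `h1`). `pha_ram`: `phf α τ = e (xv i ι ^ t(τ))`, `pe ι = w`, `t(τ) = kq (l i) (z i) (uf v) τ`, and `t(τ) = 1` for some `τ` (`H51.K1.tam`). So `phf α' ≠ 1` on inertia, by `pha_unr` some `(j, w')` over `v` has `α' j ∈ w'`: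
`phf α' τ = e (xv j ι' ^ t'(τ))`, `pe ι' = w'`. `e` injective: `xv i ι ^ t(τ) = xv j ι' ^ t'(τ)` for all `τ`: the orders `l i`, `l j` (primes, `xv_ord`) are equal (take `τ` with `t = 1`: `xv i ι` is a power of `xv j ι'`), then `t = t'` (same `l`, same `z` : `D.z` only depends on the order) and `xv i ι = xv j ι'` (`τ` with `t = 1`): `i = j` (`xv_eq`), `ι = ι'`
(`xv_inj`), `w = w'`. So `α i ∈ w → α' i ∈ w` for all `w` (every `w` is over some `v`, `ov_ex`), and conversely. Both are squarefree (`¬ Bad`): `α i = α' i u` (`FA.assoc`), `w u < 2` for all infinite places (`FA.mem_Ax`), `u - 1 ∈ ex 𝔪 i` (`u - 1 ≡ α' i (u - 1) = α i - α' i`): `u = 1` by `hu`.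
-/

set_option autoImplicit false

open scoped NumberField Classical
open IsDedekindDomain NumberField

noncomputable section

namespace Pool.Agent.H36.FR

open H63.MA H38.BB H38.BG H77.PC3 H51.SN H57.SL H36.QA H1.LS4 H38.ML

variable {K : IntermediateField ℚ QBar} [NumberField K] {A V I : Type} [Group A] [Finite A]
  [CommGroup V] [MulDistribMulAction A V] [Fintype I] {D : Dt K A V I}
  [∀ i, NumberField (D.E i)]

omit [Finite A] in
private theorem not_dvd {𝔪 : Ideal (𝓞 K)} {X : I → ℝ} {α : Tp fun i => D.E i}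
    (hα : α ∈ Ph (fun i => D.E i) 𝔪 X) (i : I) {v : Pl K} {w : Pl (D.E i)} (hw : Over w v)
    (hv : α i ∈ w.asIdeal) : ¬ v.asIdeal ∣ 𝔪 := by
  intro hd
  have h1 : α i - 1 ∈ ex (fun i => D.E i) 𝔪 i := (Finset.mem_filter.1 hα).2.1 i
  have h2 : α i - 1 ∈ w.asIdeal := ex_dvd (E := fun i => D.E i) hd hw h1
  have h3 : (1 : 𝓞 (D.E i)) ∈ w.asIdeal := by
    have h4 := w.asIdeal.sub_mem hv h2
    rwa [sub_sub_cancel] at h4
  exact w.isPrime.ne_top ((Ideal.eq_top_iff_one _).2 h3)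

omit [Finite A] in
private theorem box {𝔪 : Ideal (𝓞 K)} {X : I → ℝ} {α : Tp fun i => D.E i}
    (hα : α ∈ Ph (fun i => D.E i) 𝔪 X) (i : I) : ∀ w : InfinitePlace (D.E i),
    X i ^ (1 / (Module.finrank ℚ (D.E i) : ℝ)) < w (α i : D.E i) ∧
      w (α i : D.E i) ≤ 2 * X i ^ (1 / (Module.finrank ℚ (D.E i) : ℝ)) := by
  have h1 : α ∈ BX (fun i => D.E i) X := (Finset.mem_filter.1 hα).1
  exact (FA.mem_Ax (D.E i)).1 (Fintype.mem_piFinset.1 h1 i)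

private theorem kq_eq {m : ℕ} {ζ : K} {l l' : ℕ} (h : l = l') (x : QBar) (τ : Gal(QBar/K)) :
    (kq l (ζ ^ (m / l)) x τ).val = (kq l' (ζ ^ (m / l')) x τ).val := by
  subst h
  rfl

private theorem sub (hD : Ok D) (Q : DP K QBar) (𝔪 : Ideal (𝓞 K))
    (h1 : ∀ v : Pl K, ¬ v.asIdeal ∣ 𝔪 → ((D.m : ℕ) : 𝓞 K) ∉ v.asIdeal ∧
      ∀ τ ∈ (Q.P v).inertia Gal(QBar/K), D.φ τ = 1)
    (X : I → ℝ) (hX : ∀ i, 0 < X i) (α α' : Tp fun i => D.E i)
    (hα : α ∈ Ph (fun i => D.E i) 𝔪 X) (hα' : α' ∈ Ph (fun i => D.E i) 𝔪 X)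
    (h : ∀ σ, phf D α σ = phf D α' σ) (i : I) (w : Pl (D.E i)) (hw : α i ∈ w.asIdeal) :
    α' i ∈ w.asIdeal := by
  obtain ⟨v, hwv⟩ := ov_ex (K := K) w
  obtain ⟨hm, h₀⟩ := h1 v (not_dvd hα i hwv hw)
  have hlv : ∀ i, ((D.l i : ℕ) : 𝓞 K) ∉ v.asIdeal := by
    intro i h2
    apply hm
    obtain ⟨k, hk⟩ := l_dvd hD i
    rw [hk, Nat.cast_mul]
    exact v.asIdeal.mul_mem_right _ h2
  obtain ⟨ι, hι, hr⟩ := pha_ram hD Q v hm h₀ (fun i => ph_ne hX hα i) ((Finset.mem_filter.1 hα).2.2 v) hwv hw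
  obtain ⟨τ, hτ, hτ1⟩ := H51.K1.tam Q (hD.pr i) (z_prim hD i) v (hlv i)
  have hv1 : (1 : ZMod (D.l i)).val = 1 := by
    have : Fact (1 < D.l i) := ⟨(hD.pr i).one_lt⟩
    exact ZMod.val_one _
  have hr1 := hr τ hτ
  rw [hτ1, hv1, pow_one] at hr1
  by_cases hu : Un α' v
  · exfalso
    have h3 := pha_unr hD Q v hm h₀ (fun i => ph_ne hX hα' i) hu τ hτ
    rw [← h τ, hr1] at h3
    have h4 : xv D i ι = 1 := hD.inj (h3.trans (map_one D.e).symm)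
    have h5 := xv_ord hD i ι
    rw [h4, orderOf_one] at h5
    exact (hD.pr i).one_lt.ne h5
  · unfold Un at hu
    push Not at hu
    obtain ⟨j, w', hwv', hw'⟩ := hu
    obtain ⟨ι', hι', hr'⟩ := pha_ram hD Q v hm h₀ (fun i => ph_ne hX hα' i)
      ((Finset.mem_filter.1 hα').2.2 v) hwv' hw'
    have h6 : xv D i ι = xv D j ι' ^ (kq (D.l j) (D.z j) ((H51.K1.uf v : K) : QBar) τ).val := by
      apply hD.inj
      rw [← hr1, h τ, hr' τ hτ]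
    have h7 : D.l i ∣ D.l j := by
      rw [← xv_ord hD i ι, ← xv_ord hD j ι', h6]
      exact orderOf_pow_dvd _
    have h8 : D.l i = D.l j := ((Nat.dvd_prime (hD.pr j)).1 h7).resolve_left (hD.pr i).one_lt.ne'
    have h9 : (kq (D.l j) (D.z j) ((H51.K1.uf v : K) : QBar) τ).val = 1 := by
      have h10 : (kq (D.l j) (D.z j) ((H51.K1.uf v : K) : QBar) τ).val =
          (kq (D.l i) (D.z i) ((H51.K1.uf v : K) : QBar) τ).val :=
        kq_eq (m := D.m) (ζ := D.ζ) h8.symm _ τ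
      rw [h10, hτ1, hv1]
    rw [h9, pow_one] at h6
    have h11 : i = j := xv_eq hD h6
    subst h11
    have h12 : ι = ι' := xv_inj hD i h6
    subst h12
    rw [← hι, hι']
    exact hw'

theorem inj (hD : Ok D) (Q : DP K QBar) (𝔪 : Ideal (𝓞 K))
    (h1 : ∀ v : Pl K, ¬ v.asIdeal ∣ 𝔪 → ((D.m : ℕ) : 𝓞 K) ∉ v.asIdeal ∧
      ∀ τ ∈ (Q.P v).inertia Gal(QBar/K), D.φ τ = 1)
    (hu : ∀ i (u : (𝓞 (D.E i))ˣ), (∀ w : InfinitePlace (D.E i), w ((u : 𝓞 (D.E i)) : D.E i) < 2) →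
      ((u : 𝓞 (D.E i)) - 1) ∈ ex (fun i => D.E i) 𝔪 i → u = 1)
    (X : I → ℝ) (hX : ∀ i, 0 < X i) (α α' : Tp fun i => D.E i)
    (hα : α ∈ Ph (fun i => D.E i) 𝔪 X) (hα' : α' ∈ Ph (fun i => D.E i) 𝔪 X)
    (h : ∀ σ, phf D α σ = phf D α' σ) : α = α' := by
  funext i
  have h2 : ∀ w : Pl (D.E i), α i ∈ w.asIdeal ↔ α' i ∈ w.asIdeal := fun w =>
    ⟨sub hD Q 𝔪 h1 X hX α α' hα hα' h i w, sub hD Q 𝔪 h1 X hX α' α hα' hα (fun σ => (h σ).symm) i w⟩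
  have hsq : ∀ β : Tp fun i => D.E i, β ∈ Ph (fun i => D.E i) 𝔪 X → ∀ w : Pl (D.E i),
      β i ∉ w.asIdeal ^ 2 := by
    intro β hβ w hw
    obtain ⟨v, hwv⟩ := ov_ex (K := K) w
    exact (Finset.mem_filter.1 hβ).2.2 v (Or.inl ⟨i, w, hwv, hw⟩)
  obtain ⟨u, hu1⟩ := FA.assoc (ph_ne hX hα i) (ph_ne hX hα' i) (hsq α hα) (hsq α' hα') h2
  have h3 : ∀ w : InfinitePlace (D.E i), w ((u : 𝓞 (D.E i)) : D.E i) < 2 := by
    intro w
    have h4 := (box hα i w).2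
    have h5 := (box hα' i w).1
    have h6 : w (α i : D.E i) = w (α' i : D.E i) * w ((u : 𝓞 (D.E i)) : D.E i) := by
      rw [hu1, ← map_mul]
      rfl
    have h7 : 0 < X i ^ (1 / (Module.finrank ℚ (D.E i) : ℝ)) := Real.rpow_pos_of_pos (hX i) _
    rw [h6] at h4
    nlinarith
  have h8 : ((u : 𝓞 (D.E i)) - 1) ∈ ex (fun i => D.E i) 𝔪 i := by
    have h9 : α i - 1 ∈ ex (fun i => D.E i) 𝔪 i := (Finset.mem_filter.1 hα).2.1 i
    have h10 : α' i - 1 ∈ ex (fun i => D.E i) 𝔪 i := (Finset.mem_filter.1 hα').2.1 i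
    have h11 : ((u : 𝓞 (D.E i)) - 1) = (α i - 1) - (α' i - 1) - ((u : 𝓞 (D.E i)) - 1) * (α' i - 1) := by
      rw [hu1]
      ring
    rw [h11]
    exact (ex (fun i => D.E i) 𝔪 i).sub_mem ((ex (fun i => D.E i) 𝔪 i).sub_mem h9 h10)
      ((ex (fun i => D.E i) 𝔪 i).mul_mem_left _ h10)
  rw [hu1, hu i u h3 h8, Units.val_one, mul_one]

end Pool.Agent.H36.FR
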