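import Pool.Agent.H36.FR.Fhy
import Pool.Agent.H36.FR.Fty
import Pool.Agent.H36.FR.Inj
import Pool.Agent.H36.FR.Fte
import Pool.Agent.H36.FR.Ffd
import Pool.Agent.H36.FA.Che
import Pool.Agent.H36.FA.Ndv
import Pool.Agent.H36.FA.Urf

/-!
# [H36 FR FIN] The output `FAM2` of the chapter

Given the data of `FAM2` (H51/K2/Def.lean). THE DATA `D`: `V` = the subgroup generated by all conjugates of all `o i`, with the structure of a commutative group and the action by conjugation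
(`MulDistribMulAction.compHom` with `MulAut.conjNormal`), `e` = the inclusion, `u i = o i`, `φ = φ₀`, `E i` from `ex_F` with `H` = `MulAction.stabilizer` of `u i`.
`E i` totally complex: `tc_F`.
`S₀ = S₁ ∪ S' ∪ S_m ∪ S_u ∪ S_N`: places over `m` (finite, `m ≠ 0`), `unr_fin`, places over `N`, `N` = the product of the `unit_mod (E i)` (H36/FA/Ndv.lean). `𝔪 = span {N} * ∏_{v ∈ S₀} v` (`v ∣ 𝔪` iff `v ∈ S₀`; `ex 𝔪 i ≤ span {N_i}`).
`θ, η, c, Z0` from `mea` (`B = card A`), `C` = sum of `che_p` (H36/FA/Che.lean), `gg_che` for all `j`, `card A`, `2^(..)`, `2`. Family: `ι = {α // α ∈ Ph 𝔪 X}`, `φ` from `phf_hom` (choice), `D = Dv D α`, `g j v = gg D Q (H j) v`. Injective: `inj`; card: `mea`; norms: `dv_norm`; `TyB`: `fty`; `Hyp`: `fhy`.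
-/

set_option autoImplicit false

open scoped NumberField Classical
open IsDedekindDomain NumberField

noncomputable section

namespace Pool.Agent.H36.FR

open H63.MA H38.BB H38.BG H77.PC3 H51.SN H57.SL H36.QA H1.LS4 H38.ML

private theorem dvd_mod {K : Type} [Field K] [NumberField K] {N : 𝓞 K} (S : Finset (Pl K))
    (hN : ∀ v : Pl K, N ∈ v.asIdeal → v ∈ S) (v : Pl K) :
    v.asIdeal ∣ Ideal.span {N} * ∏ w ∈ S, w.asIdeal ↔ v ∈ S := by
  constructor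
  · intro h
    rcases v.prime.dvd_or_dvd h with h1 | h1
    · rw [Ideal.dvd_span_singleton] at h1
      exact hN v h1
    · obtain ⟨w, hw, h2⟩ := (v.prime.dvd_finsetProd_iff _).1 h1
      have h3 : w.asIdeal ≤ v.asIdeal := Ideal.dvd_iff_le.1 h2
      have h4 : w.asIdeal = v.asIdeal := w.isMaximal.eq_of_le v.isPrime.ne_top h3
      have h5 : w = v := HeightOneSpectrum.ext h4
      rw [← h5]
      exact hw
  · intro h
    exact (Finset.dvd_prod_of_mem (fun w : Pl K => w.asIdeal) h).mul_left _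

private theorem mod_ne {K : Type} [Field K] [NumberField K] {N : 𝓞 K} (S : Finset (Pl K)) (hN : N ≠ 0) :
    Ideal.span {N} * ∏ w ∈ S, w.asIdeal ≠ ⊥ := by
  have h1 : Ideal.span {N} ≠ (⊥ : Ideal (𝓞 K)) := by
    rw [Ne, Ideal.span_singleton_eq_bot]
    exact hN
  have h2 : ∏ w ∈ S, w.asIdeal ≠ (0 : Ideal (𝓞 K)) := Finset.prod_ne_zero_iff.2 fun w _ => w.ne_bot
  exact mul_ne_zero h1 h2

private theorem fin_exle {K F : Type} [Field K] [NumberField K] [Field F] [NumberField F] [Algebra K F]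
    {N M : ℕ} (h : M ∣ N) (𝔪 : Ideal (𝓞 K)) (h1 : 𝔪 ≤ Ideal.span {((N : ℕ) : 𝓞 K)}) :
    𝔪.map (algebraMap (𝓞 K) (𝓞 F)) ≤ Ideal.span {((M : ℕ) : 𝓞 F)} := by
  refine (Ideal.map_mono h1).trans ?_
  rw [Ideal.map_span, Set.image_singleton, map_natCast, Ideal.span_singleton_le_span_singleton]
  exact Nat.cast_dvd_cast h

private theorem unr_fin {K : IntermediateField ℚ QBar} [NumberField K] {A : Type} [Group A] [Finite A]
    (φ₀ : Gal(QBar/K) →* A) (h₀ : FT φ₀) (Q : DP K QBar) : ∃ S : Finset (Pl K),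
    ∀ v, v ∉ S → ∀ τ ∈ (Q.P v).inertia Gal(QBar/K), φ₀ τ = 1 := by
  have : IsAlgClosure K QBar := inferInstance
  obtain ⟨M, hfd, hgal, e, he, h⟩ := H38.ML.factor φ₀ h₀
  have : NumberField M := NumberField.of_module_finite K M
  have hfin := H38.ML.finite_not_unr K M
  have hinj : Function.Injective (fun v : Pl K => v.asIdeal) := by
    intro v w hvw
    exact HeightOneSpectrum.ext hvw
  refine ⟨(hfin.preimage hinj.injOn).toFinset, fun v hv τ hτ => ?_⟩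
  have := Q.prime v
  have hun' : H38.ML.Unr K M ((Q.P v).under (𝓞 K)) := by
    by_contra hne
    refine hv ((Set.Finite.mem_toFinset _).2 ⟨v.isPrime, v.ne_bot, fun hun => hne ?_⟩)
    rw [Q.under]
    exact hun
  have h1 := H38.ML.res_eq_one M (Q.P v) hun' τ hτ
  rw [← h, h1, map_one]

private theorem famD {K : IntermediateField ℚ QBar} [NumberField K] (hK : NumberField.IsTotallyComplex K)
    {A V I : Type} [Group A] [Finite A] [CommGroup V] [MulDistribMulAction A V] [Fintype I]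
    (D : Dt K A V I) [∀ i, NumberField (D.E i)] (hD : Ok D) {J : Type} [Fintype J]
    (H : J → Subgroup A) (Q : DP K QBar) (S₁ S' : Finset (Pl K))
    (hmS : ∀ v ∈ S', ((D.m : ℕ) : 𝓞 K) ∉ v.asIdeal)
    (hd : ∀ v ∈ S', ∀ σ ∈ dec (K := K) (Q.P v), D.φ σ = 1) :
    ∃ (S₀ : Finset (Pl K)) (C θ η c Z0 : ℝ), S₁ ⊆ S₀ ∧ 2 ≤ C ∧ 0 < θ ∧ 0 < η ∧ 0 < c ∧
      ∀ Z : ℝ, Z0 ≤ Z → ∀ X : I → ℝ, (∀ i, Z ≤ X i) → (∀ i, X i ≤ Z ^ 2) →
        ∃ (ι : Type) (_ : Fintype ι) (φ : ι → Gal(QBar/K) →* A) (D' : ι → I → Finset (Pl K))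
          (g : J → H51.K1.Vx S₀ → ℝ),
          Function.Injective φ ∧ c * ∏ i, X i ≤ (Fintype.card ι : ℝ) ∧
          (∀ k, H51.K2.TyB Q D.m D.ζ S₀ S' (fun i => D.e (D.u i)) (D' k) (φ k)) ∧
          (∀ k, ∀ i, X i < H51.K1.nN (D' k i) ∧ H51.K1.nN (D' k i) ≤ C * X i) ∧
          RS.Hyp C θ η 1 Z (H51.K1.dat Q S₀ H φ (fun k => H51.K2.UI (D' k)) g Z) := by
  have hm0 : ((D.m : ℕ) : 𝓞 K) ≠ 0 := Nat.cast_ne_zero.2 hD.pos.ne'
  have hE : ∀ i, NumberField.IsTotallyComplex (D.E i) := fun i => tc_F hK (D.E i)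
  obtain ⟨S3, hS3⟩ := unr_fin D.φ hD.ft Q
  choose Ni hNi hui using fun i => FA.unit_mod (D.E i)
  obtain ⟨N, hNdef⟩ : ∃ N : ℕ, N = ∏ i, Ni i := ⟨_, rfl⟩
  have hN : 0 < N := by
    rw [hNdef]
    exact Finset.prod_pos fun i _ => hNi i
  have hN0 : ((N : ℕ) : 𝓞 K) ≠ 0 := Nat.cast_ne_zero.2 hN.ne'
  have hNd : ∀ i, Ni i ∣ N := by
    intro i
    rw [hNdef]
    exact Finset.dvd_prod_of_mem Ni (Finset.mem_univ i)
  obtain ⟨S₀, hS₀⟩ : ∃ S₀ : Finset (Pl K),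
      S₀ = S₁ ∪ S' ∪ FA.dv ((D.m : ℕ) : 𝓞 K) ∪ S3 ∪ FA.dv ((N : ℕ) : 𝓞 K) := ⟨_, rfl⟩
  have hS₁ : S₁ ⊆ S₀ := by
    intro v hv
    rw [hS₀]
    simp only [Finset.mem_union]
    tauto
  have hS'0 : S' ⊆ S₀ := by
    intro v hv
    rw [hS₀]
    simp only [Finset.mem_union]
    tauto
  have hS30 : S3 ⊆ S₀ := by
    intro v hv
    rw [hS₀]
    simp only [Finset.mem_union]
    tauto
  have hmv : ∀ v : Pl K, ((D.m : ℕ) : 𝓞 K) ∈ v.asIdeal → v ∈ S₀ := by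
    intro v hv
    have h1 := (FA.dv_mem hm0 v).2 hv
    rw [hS₀]
    simp only [Finset.mem_union]
    tauto
  have hNv : ∀ v : Pl K, ((N : ℕ) : 𝓞 K) ∈ v.asIdeal → v ∈ S₀ := by
    intro v hv
    have h1 := (FA.dv_mem hN0 v).2 hv
    rw [hS₀]
    simp only [Finset.mem_union]
    tauto
  have hun : ∀ v, v ∉ S₀ → ∀ τ ∈ (Q.P v).inertia Gal(QBar/K), D.φ τ = 1 := fun v hv =>
    hS3 v fun h => hv (hS30 h)
  obtain ⟨𝔪, h𝔪⟩ : ∃ 𝔪 : Ideal (𝓞 K), 𝔪 = Ideal.span {((N : ℕ) : 𝓞 K)} * ∏ w ∈ S₀, w.asIdeal := ⟨_, rfl⟩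
  have hdiv : ∀ v : Pl K, v.asIdeal ∣ 𝔪 ↔ v ∈ S₀ := by
    intro v
    rw [h𝔪]
    exact dvd_mod S₀ hNv v
  have hne : 𝔪 ≠ ⊥ := by
    rw [h𝔪]
    exact mod_ne S₀ hN0
  have hle : 𝔪 ≤ Ideal.span {((N : ℕ) : 𝓞 K)} := by
    intro x hx
    rw [h𝔪] at hx
    exact Ideal.mul_le_left hx
  have hcA : (1 : ℝ) ≤ (Nat.card A : ℝ) := by
    exact_mod_cast Nat.card_pos
  obtain ⟨θ, η, c, Z0, hθ, hη, hc, hZ0, hmea⟩ := mea (E := fun i => D.E i) hE 𝔪 hne (Nat.card A) hcA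
  obtain ⟨Cp, hCp2, hCp⟩ := FA.che_p K S₀
  have hgg := fun j => gg_che hD Q (H j) S₀ hmv hun
  choose Cg hCg2 hCg using hgg
  obtain ⟨C, hC⟩ : ∃ C : ℝ, C = Cp + Nat.card A + ∑ i, (2 : ℝ) ^ Module.finrank ℚ (D.E i) + ∑ j, Cg j :=
    ⟨_, rfl⟩
  have hs0 : 0 ≤ ∑ j, Cg j := Finset.sum_nonneg fun j _ => by linarith [hCg2 j]
  have hp0 : (0 : ℝ) ≤ ∑ i, (2 : ℝ) ^ Module.finrank ℚ (D.E i) :=
    Finset.sum_nonneg fun i _ => by positivity
  have hC2 : 2 ≤ C := by linarith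
  have hCA : (Nat.card A : ℝ) ≤ C := by linarith
  have hCn : ∀ i, (2 : ℝ) ^ Module.finrank ℚ (D.E i) ≤ C := by
    intro i
    have h1 : (2 : ℝ) ^ Module.finrank ℚ (D.E i) ≤ ∑ i, (2 : ℝ) ^ Module.finrank ℚ (D.E i) :=
      Finset.single_le_sum (f := fun i => (2 : ℝ) ^ Module.finrank ℚ (D.E i)) (fun i _ => by positivity)
        (Finset.mem_univ i)
    linarith
  have hCCp : Cp ≤ C := by linarith
  have hCCg : ∀ j, Cg j ≤ C := by
    intro j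
    have h1 : Cg j ≤ ∑ j, Cg j :=
      Finset.single_le_sum (f := Cg) (fun i _ => by linarith [hCg2 i]) (Finset.mem_univ j)
    linarith
  have hp : ∀ x : ℝ, 2 ≤ x → ((H51.K1.PV S₀ x).card : ℝ) ≤ C * x / Real.log x := by
    intro x hx
    refine (hCp x hx).trans ?_
    have h1 : 0 < Real.log x := Real.log_pos (by linarith)
    exact div_le_div_of_nonneg_right (mul_le_mul_of_nonneg_right hCCp (by linarith)) h1.le
  have hche := fun j => hCg j C (hCCg j)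
  refine ⟨S₀, C, θ, η, c, Z0, hS₁, hC2, hθ, hη, hc, fun Z hZ X hX1 hX2 => ?_⟩
  have hZ2 : 2 ≤ Z := hZ0.trans hZ
  have hX1' : ∀ i, 1 ≤ X i := fun i => by linarith [hX1 i]
  have hX0 : ∀ i, 0 < X i := fun i => by linarith [hX1 i]
  obtain ⟨hcard, hmean⟩ := hmea Z hZ X hX1 hX2
  have hne0 : ∀ k : {α : Tp fun i => D.E i // α ∈ Ph (fun i => D.E i) 𝔪 X}, ∀ i, k.1 i ≠ 0 := by
    intro k i
    exact ph_ne hX0 k.2 i
  choose φ hφ hft using fun k : {α : Tp fun i => D.E i // α ∈ Ph (fun i => D.E i) 𝔪 X} =>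
    phf_hom hD (hne0 k)
  refine ⟨{α : Tp fun i => D.E i // α ∈ Ph (fun i => D.E i) 𝔪 X}, inferInstance, φ,
    fun k => Dv D k.1, fun j v => gg D Q (H j) v.1, ?_, ?_, ?_, ?_, ?_⟩
  · intro k l hkl
    refine Subtype.ext (inj hD Q 𝔪 ?_ ?_ X hX0 k.1 l.1 k.2 l.2 fun σ => ?_)
    · intro v hv
      have h1 : v ∉ S₀ := fun h => hv ((hdiv v).2 h)
      exact ⟨fun h => h1 (hmv v h), hun v h1⟩
    · intro i u hu1 hu2
      exact hui i u hu1 (fin_exle (F := D.E i) (hNd i) 𝔪 hle hu2)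
    · rw [← hφ, ← hφ, hkl]
  · rw [Fintype.card_coe]
    exact hcard
  · intro k
    exact fty hD hE Q S₀ S' 𝔪 hdiv hmv hun hS'0 hmS hd X hX1' k.1 k.2 (φ k) (hφ k) (hft k)
  · intro k i
    have h1 := dv_norm hE hX0 k.2 i
    refine ⟨h1.1, h1.2.trans ?_⟩
    exact mul_le_mul_of_nonneg_right (hCn i) (hX0 i).le
  · exact fhy hD H Q S₀ 𝔪 hdiv hmv hun C θ η Z hC2 hCA hZ2 hp hche X hX1' hmean φ hφ

private theorem famV {K : IntermediateField ℚ QBar} [NumberField K] (hK : NumberField.IsTotallyComplex K)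
    (m : ℕ) (ζ : K) (hζ : IsPrimitiveRoot ζ m) {A V I : Type} [Group A] [Finite A] (hA : Nat.card A ∣ m)
    (hm : 0 < m) [CommGroup V] [MulDistribMulAction A V] [Fintype I]
    (e : V →* A) (he : Function.Injective e) (hact : ∀ (a : A) (x : V), e (a • x) = a * e x * a⁻¹)
    (u : I → V) (hpr : ∀ i, (orderOf (u i)).Prime) (hcl : ∀ i j (a : A), a • u i = u j → i = j)
    (hgen : ∀ W : Subgroup V, (∀ i (a : A), a • u i ∈ W) → W = ⊤)
    (φ₀ : Gal(QBar/K) →* A) (h₀ : FT φ₀) (hs : Function.Surjective φ₀)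
    {J : Type} [Fintype J] (H : J → Subgroup A) (Q : DP K QBar) (S₁ S' : Finset (Pl K))
    (hmS : ∀ v ∈ S', ((m : ℕ) : 𝓞 K) ∉ v.asIdeal)
    (hd : ∀ v ∈ S', ∀ σ ∈ dec (K := K) (Q.P v), φ₀ σ = 1) :
    ∃ (S₀ : Finset (Pl K)) (C θ η c Z0 : ℝ), S₁ ⊆ S₀ ∧ 2 ≤ C ∧ 0 < θ ∧ 0 < η ∧ 0 < c ∧
      ∀ Z : ℝ, Z0 ≤ Z → ∀ X : I → ℝ, (∀ i, Z ≤ X i) → (∀ i, X i ≤ Z ^ 2) →
        ∃ (ι : Type) (_ : Fintype ι) (φ : ι → Gal(QBar/K) →* A) (D' : ι → I → Finset (Pl K))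
          (g : J → H51.K1.Vx S₀ → ℝ),
          Function.Injective φ ∧ c * ∏ i, X i ≤ (Fintype.card ι : ℝ) ∧
          (∀ k, H51.K2.TyB Q m ζ S₀ S' (fun i => e (u i)) (D' k) (φ k)) ∧
          (∀ k, ∀ i, X i < H51.K1.nN (D' k i) ∧ H51.K1.nN (D' k i) ≤ C * X i) ∧
          RS.Hyp C θ η 1 Z (H51.K1.dat Q S₀ H φ (fun k => H51.K2.UI (D' k)) g Z) := by
  choose E hfd hnf hfix using fun i => ex_F φ₀ h₀ (MulAction.stabilizer A (u i))
  obtain ⟨D, hDe, hDu, hDφ, hDm, hDζ, hDE⟩ : ∃ D : Dt K A V I, D.e = e ∧ D.u = u ∧ D.φ = φ₀ ∧ D.m = m ∧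
      D.ζ = ζ ∧ D.E = E := ⟨⟨e, u, φ₀, m, ζ, E⟩, rfl, rfl, rfl, rfl, rfl, rfl⟩
  subst hDe hDu hDφ hDm hDζ hDE
  have hD : Ok D := by
    refine ⟨he, hact, hpr, hcl, hgen, h₀, hs, hζ, hm, hA, fun i σ => ?_⟩
    rw [hfix i σ, MulAction.mem_stabilizer_iff]
  exact famD hK D hD H Q S₁ S' hmS hd

private theorem norm_cl {A I : Type} [Group A] (o : I → A) :
    (Subgroup.closure {x : A | ∃ i a, a * o i * a⁻¹ = x}).Normal := by
  refine ⟨fun n hn g => ?_⟩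
  induction hn using Subgroup.closure_induction with
  | mem x hx =>
    obtain ⟨i, a, rfl⟩ := hx
    refine Subgroup.subset_closure ⟨i, g * a, ?_⟩
    group
  | one => simp
  | mul x y _ _ hx hy =>
    have h : g * (x * y) * g⁻¹ = (g * x * g⁻¹) * (g * y * g⁻¹) := by group
    rw [h]
    exact mul_mem hx hy
  | inv x _ hx =>
    have h : g * x⁻¹ * g⁻¹ = (g * x * g⁻¹)⁻¹ := by group
    rw [h]
    exact inv_mem hx

private theorem comm_cl {A I : Type} [Group A] (o : I → A)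
    (h : ∀ i j (a b : A), (a * o i * a⁻¹) * (b * o j * b⁻¹) = (b * o j * b⁻¹) * (a * o i * a⁻¹))
    (x y : Subgroup.closure {x : A | ∃ i a, a * o i * a⁻¹ = x}) : x * y = y * x := by
  have h1 : ∀ x ∈ {x : A | ∃ i a, a * o i * a⁻¹ = x}, ∀ y ∈ {x : A | ∃ i a, a * o i * a⁻¹ = x},
      x * y = y * x := by
    rintro _ ⟨i, a, rfl⟩ _ ⟨j, b, rfl⟩
    exact h i j a b
  exact (Subgroup.isMulCommutative_closure h1).is_comm.comm x y

theorem fam2 : H51.K2.FAM2 := by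
  intro K _ hK m ζ hζ A _ _ hA hm I _ o hpr hcj hcomm J _ H Q φ₀ h₀ hs S₁ S' hmS hd
  have hN := norm_cl o
  let _ : CommGroup (Subgroup.closure {x : A | ∃ i a, a * o i * a⁻¹ = x}) :=
    { (inferInstance : Group (Subgroup.closure {x : A | ∃ i a, a * o i * a⁻¹ = x})) with
      mul_comm := comm_cl o hcomm }
  let _ : MulDistribMulAction A (Subgroup.closure {x : A | ∃ i a, a * o i * a⁻¹ = x}) :=
    MulDistribMulAction.compHom (Subgroup.closure {x : A | ∃ i a, a * o i * a⁻¹ = x})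
      (MulAut.conjNormal : A →* MulAut (Subgroup.closure {x : A | ∃ i a, a * o i * a⁻¹ = x}))
  have hmem : ∀ i a, a * o i * a⁻¹ ∈ Subgroup.closure {x : A | ∃ i a, a * o i * a⁻¹ = x} :=
    fun i a => Subgroup.subset_closure ⟨i, a, rfl⟩
  have hmo : ∀ i, o i ∈ Subgroup.closure {x : A | ∃ i a, a * o i * a⁻¹ = x} := by
    intro i
    have h := hmem i 1
    rwa [one_mul, inv_one, mul_one] at h
  have hact : ∀ (a : A) (x : Subgroup.closure {x : A | ∃ i a, a * o i * a⁻¹ = x}),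
      (Subgroup.closure {x : A | ∃ i a, a * o i * a⁻¹ = x}).subtype (a • x) =
        a * (Subgroup.closure {x : A | ∃ i a, a * o i * a⁻¹ = x}).subtype x * a⁻¹ := by
    intro a x
    exact MulAut.conjNormal_apply a x
  refine famV hK m ζ hζ hA hm (V := Subgroup.closure {x : A | ∃ i a, a * o i * a⁻¹ = x})
    (Subgroup.closure {x : A | ∃ i a, a * o i * a⁻¹ = x}).subtype Subtype.val_injective hact
    (fun i => ⟨o i, hmo i⟩) ?_ ?_ ?_ φ₀ h₀ hs H Q S₁ S' hmS hd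
  · intro i
    have h1 : orderOf (⟨o i, hmo i⟩ : Subgroup.closure {x : A | ∃ i a, a * o i * a⁻¹ = x}) =
        orderOf (o i) := Subgroup.orderOf_mk (o i) (hmo i)
    rw [h1]
    exact hpr i
  · intro i j a h
    refine hcj i j (isConj_iff.2 ⟨a, ?_⟩)
    have h1 := hact a ⟨o i, hmo i⟩
    rw [h] at h1
    exact h1.symm
  · intro W hW
    rw [eq_top_iff]
    rintro ⟨x, hx⟩ -
    have h1 : ∀ y (hy : y ∈ Subgroup.closure {x : A | ∃ i a, a * o i * a⁻¹ = x}),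
        (⟨y, hy⟩ : Subgroup.closure {x : A | ∃ i a, a * o i * a⁻¹ = x}) ∈ W := by
      intro y hy
      induction hy using Subgroup.closure_induction with
      | mem x hx =>
        obtain ⟨i, a, rfl⟩ := hx
        have h2 := hW i a
        have h3 : a • (⟨o i, hmo i⟩ : Subgroup.closure {x : A | ∃ i a, a * o i * a⁻¹ = x}) =
            ⟨a * o i * a⁻¹, hmem i a⟩ := Subtype.ext (hact a ⟨o i, hmo i⟩)
        rw [h3] at h2
        exact h2
      | one => exact W.one_mem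
      | mul x y hx hy h2 h3 => exact W.mul_mem h2 h3
      | inv x hx h2 => exact W.inv_mem h2
    exact h1 x hx

end Pool.Agent.H36.FR
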