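import Pool.Agent.H36.FR.Frr
import Pool.Agent.H57.SL.Inr

/-!
# [H36 FR FRB] An element with one nontrivial symbol

`P = Q.P v`, `N = nm v`, `s = fr Q v`, `w₀ = pe F Q v ι₀`, `nm w₀ = N^f` (`nm_over`). (a) `ac (s^f) ι₀ = ι₀` (`x^(N^f) ≡ x` modulo `w₀` for `x ∈ 𝓞 F`, `diu_pow`, `fr_spec`, `dic_U`) and no smaller power `0 < n < f` does it (then `x^(N^n) ≡ x` for all `x`: `diu_field`: `nm w₀ ≤ N^n`). (b) If `pe ι = w₀` then `ι = ac (s^n) ι₀` for some `n < f`: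
both give embeddings of the finite field `𝓞 F ⧸ w₀` over `𝓞 K ⧸ v` into `𝓞 QBar ⧸ P`, they differ by a power of Frobenius; `dic_U`. (c) `l ∣ N - 1 ∣ N^f - 1`; choose `r ∈ 𝓞 F ⧸ w₀`, `r^((N^f-1)/l) = ζ` (cyclic group of order `N^f - 1`), `β ≡ r` modulo `w₀`, `β ≡ 1` modulo all other places over `v`
(Chinese remainder theorem). (d) ROOTS: `B (ac (s^n) ι₀) = s^n B₀` for `0 ≤ n < f`, `B₀` a root of `ι₀ β`; for `pe ι ≠ w₀` choose `B ι ≡ 1` modulo `P` (`ro ι β ≡ 1`: `∏ (1 - ζ^j B)`, as in `rt_lift`). (e) SYMBOLS at `s`: `0` outside the orbit (`s (B ι) ≡ 1 ≡ B (s ι)`, `zeta_res`), `0` at `ac (s^n) ι₀` for `n < f - 1`; at `ac (s^(f-1)) ι₀`: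
`s^f B₀ ≡ B₀^(N^f) = B₀ (ι₀ β)^((N^f-1)/l) ≡ ζ B₀`: symbol `1`. So `kap = x (ac (s^f) ι₀)^1 = x ι₀`.
-/

set_option autoImplicit false

open scoped NumberField Classical
open IsDedekindDomain NumberField

noncomputable section

namespace Pool.Agent.H36.FR

open H63.MA H38.BB H38.BG H77.PC3 H51.SN H57.SL H36.QA H1.LS4 H38.ML

variable {K : IntermediateField ℚ QBar} [NumberField K] {F : Type} [Field F] [NumberField F]
  [Algebra K F] {l : ℕ} {ζ : K}

open Polynomial in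
/-- two embeddings of a finite field which agree on the fixed field of `x ↦ x ^ N` -/
private theorem ff_emb {k R : Type} [Field k] [Finite k] [CommRing R] [IsDomain R]
    (g g₀ : k →+* R) (N f : ℕ) (hf : 1 ≤ f) (hc : Nat.card k = N ^ f)
    (h : ∀ c : k, c ^ N = c → g c = g₀ c) : ∃ n < f, ∀ y : k, g y = g₀ y ^ (N ^ n) := by
  let _ : Fintype k := Fintype.ofFinite k
  obtain ⟨p, hcp, m, hp, hpm⟩ := FiniteField.card' k
  have hpf : Fact p.Prime := ⟨hp⟩
  have hcx : ∀ y : k, y ^ (N ^ f) = y := by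
    intro y
    rw [← hc, Nat.card_eq_fintype_card]
    exact FiniteField.pow_card y
  rw [Nat.card_eq_fintype_card, hpm] at hc
  have hdv : N ∣ p ^ (m : ℕ) := by
    rw [hc]
    exact dvd_pow_self N (by omega)
  obtain ⟨j, -, rfl⟩ := (Nat.dvd_prime_pow hp).1 hdv
  have hex : ExpChar k p := ExpChar.prime hp
  -- every single element
  have key : ∀ x : k, ∃ n < f, g x = g₀ x ^ ((p ^ j) ^ n) := by
    intro x
    let q : ℕ → k[X] := fun n => X - C (x ^ ((p ^ j) ^ n))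
    have hq0 : q 0 ≠ 0 := X_sub_C_ne_zero _
    have hqf : q f = q 0 := by
      simp only [q]
      rw [hcx, pow_zero, pow_one]
    have hmap : (∏ n ∈ Finset.range f, q n).map (iterateFrobenius k p j) =
        ∏ n ∈ Finset.range f, q n := by
      have h1 : (∏ n ∈ Finset.range f, q n).map (iterateFrobenius k p j) =
          ∏ n ∈ Finset.range f, q (n + 1) := by
        rw [Polynomial.map_prod]
        refine Finset.prod_congr rfl fun n _ => ?_
        simp only [q, Polynomial.map_sub, Polynomial.map_X, Polynomial.map_C]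
        rw [iterateFrobenius_def, ← pow_mul, ← pow_succ]
      rw [h1]
      apply mul_right_cancel₀ hq0
      rw [← Finset.prod_range_succ', Finset.prod_range_succ, hqf]
    have hco : ∀ i, g ((∏ n ∈ Finset.range f, q n).coeff i) =
        g₀ ((∏ n ∈ Finset.range f, q n).coeff i) := by
      intro i
      apply h
      have h2 := congrArg (fun r : k[X] => r.coeff i) hmap
      simp only [coeff_map] at h2
      rw [iterateFrobenius_def] at h2
      exact h2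
    have hgg : (∏ n ∈ Finset.range f, q n).map g = (∏ n ∈ Finset.range f, q n).map g₀ := by
      ext i
      rw [coeff_map, coeff_map, hco]
    have h3 : eval (g x) ((∏ n ∈ Finset.range f, q n).map g) = 0 := by
      rw [eval_map, eval₂_hom, eval_prod, Finset.prod_eq_zero (Finset.mem_range.2 (by omega : 0 < f)),
        map_zero]
      simp only [q]
      rw [eval_sub, eval_X, eval_C, pow_zero, pow_one, sub_self]
    rw [hgg, Polynomial.map_prod, eval_prod, Finset.prod_eq_zero_iff] at h3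
    obtain ⟨n, hn, h4⟩ := h3
    refine ⟨n, Finset.mem_range.1 hn, ?_⟩
    simp only [q, Polynomial.map_sub, Polynomial.map_X, Polynomial.map_C, eval_sub, eval_X, eval_C] at h4
    rw [map_pow] at h4
    exact sub_eq_zero.1 h4
  obtain ⟨θ, hθ⟩ := IsCyclic.exists_generator (α := kˣ)
  obtain ⟨n, hn, hx⟩ := key (θ : k)
  refine ⟨n, hn, fun y => ?_⟩
  rcases eq_or_ne y 0 with rfl | hy
  · rw [map_zero, map_zero, zero_pow (pow_ne_zero _ (pow_ne_zero _ hp.pos.ne'))]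
  · have h5 := hθ (Units.mk0 y hy)
    rw [← mem_powers_iff_mem_zpowers, Submonoid.mem_powers_iff] at h5
    obtain ⟨i, hi⟩ := h5
    have h6 : (θ : k) ^ i = y := by
      have h7 := congrArg (fun u : kˣ => (u : k)) hi
      simpa using h7
    rw [← h6, map_pow, map_pow, hx]
    exact pow_right_comm _ _ _

private theorem fr_pow (Q : DP K QBar) (v : Pl K) (x : 𝓞 QBar) (n : ℕ) :
    (fr Q v ^ n) • x - x ^ (nm v ^ n) ∈ Q.P v := by
  induction n with
  | zero =>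
    rw [pow_zero, pow_zero, pow_one, one_smul, sub_self]
    exact (Q.P v).zero_mem
  | succ n ih =>
    rw [pow_succ' (fr Q v) n, mul_smul, pow_succ (nm v) n, pow_mul]
    have h1 := fr_spec Q v ((fr Q v ^ n) • x)
    have h2 := (Q.P v).mem_of_dvd (sub_dvd_pow_sub_pow ((fr Q v ^ n) • x) (x ^ (nm v ^ n)) (nm v)) ih
    have h3 := (Q.P v).add_mem h1 h2
    rw [sub_add_sub_cancel] at h3
    exact h3

/-- the elements fixed by `x ↦ x ^ N` come from `𝓞 K` -/
private theorem res_fix (w : Pl F) (v : Pl K) (hw : Over w v) (y : 𝓞 F)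
    (hy : y ^ nm v - y ∈ w.asIdeal) : ∃ a : 𝓞 K, y - algebraMap (𝓞 K) (𝓞 F) a ∈ w.asIdeal := by
  have h0 : v.asIdeal ≤ w.asIdeal.comap (algebraMap (𝓞 K) (𝓞 F)) := le_of_eq hw.symm
  let g : (𝓞 K ⧸ v.asIdeal) →+* (𝓞 F ⧸ w.asIdeal) :=
    Ideal.quotientMap w.asIdeal (algebraMap (𝓞 K) (𝓞 F)) h0
  have hg : Function.Injective g := Ideal.quotientMap_injective' (le_of_eq hw)
  have hmax := w.isMaximal
  let _ : Field (𝓞 F ⧸ w.asIdeal) := Ideal.Quotient.field w.asIdeal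
  have hfw := diu_fin w
  have hfv := diu_fin v
  let _ : Fintype (𝓞 F ⧸ w.asIdeal) := Fintype.ofFinite _
  let _ : Fintype (𝓞 K ⧸ v.asIdeal) := Fintype.ofFinite _
  have hq := diu_one v
  let f : Polynomial (𝓞 F ⧸ w.asIdeal) := Polynomial.X ^ nm v - Polynomial.X
  have hdeg : f.natDegree = nm v := FiniteField.X_pow_card_sub_X_natDegree_eq _ hq
  have hf0 : f ≠ 0 := by
    intro h0
    rw [h0, Polynomial.natDegree_zero] at hdeg
    omega
  have himg : Finset.univ.image g ⊆ f.roots.toFinset := by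
    intro z hz
    obtain ⟨a, -, rfl⟩ := Finset.mem_image.1 hz
    obtain ⟨b, rfl⟩ := Ideal.Quotient.mk_surjective a
    rw [Multiset.mem_toFinset, Polynomial.mem_roots hf0, Polynomial.IsRoot.def]
    simp only [f, Polynomial.eval_sub, Polynomial.eval_pow, Polynomial.eval_X]
    rw [← map_pow, ← map_sub, ← map_pow, ← map_sub, Ideal.Quotient.eq_zero_iff_mem.2 (diu_pow v b),
      map_zero]
  have hcard : f.roots.toFinset.card ≤ (Finset.univ.image g).card := by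
    refine (Multiset.toFinset_card_le _).trans ((Polynomial.card_roots' f).trans ?_)
    rw [hdeg, Finset.card_image_of_injective _ hg, Finset.card_univ, ← Nat.card_eq_fintype_card,
      diu_card]
  have heq := Finset.eq_of_subset_of_card_le himg hcard
  have hyr : Ideal.Quotient.mk w.asIdeal y ∈ f.roots.toFinset := by
    rw [Multiset.mem_toFinset, Polynomial.mem_roots hf0, Polynomial.IsRoot.def]
    simp only [f, Polynomial.eval_sub, Polynomial.eval_pow, Polynomial.eval_X]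
    rw [← map_pow, ← map_sub]
    exact Ideal.Quotient.eq_zero_iff_mem.2 hy
  rw [← heq] at hyr
  obtain ⟨a, -, ha⟩ := Finset.mem_image.1 hyr
  obtain ⟨b, rfl⟩ := Ideal.Quotient.mk_surjective a
  refine ⟨b, ?_⟩
  have h5 : Ideal.Quotient.mk w.asIdeal (algebraMap (𝓞 K) (𝓞 F) b) = Ideal.Quotient.mk w.asIdeal y := ha
  exact (Ideal.Quotient.eq.1 h5.symm)

omit [NumberField K] [NumberField F] in
private theorem ro_alg (ι : F →ₐ[K] QBar) (a : 𝓞 K) :
    ro ι (algebraMap (𝓞 K) (𝓞 F) a) = algebraMap (𝓞 K) (𝓞 QBar) a := by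
  apply RingOfIntegers.ext
  exact ι.commutes (a : K)

/-- the embeddings over a place -/
private theorem orb (Q : DP K QBar) (v : Pl K) (hi : IT QBar F v) (ι₀ ι : F →ₐ[K] QBar) (f : ℕ)
    (hf : 1 ≤ f) (hnm : nm (pe F Q v ι₀) = nm v ^ f) (h : pe F Q v ι = pe F Q v ι₀) :
    ∃ n < f, ι = ac (fr Q v ^ n) ι₀ := by
  have hmax := (pe F Q v ι₀).isMaximal
  have hP := Q.prime v
  let _ : Field (𝓞 F ⧸ (pe F Q v ι₀).asIdeal) := Ideal.Quotient.field _
  have hfw := diu_fin (pe F Q v ι₀)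
  let g₀ : (𝓞 F ⧸ (pe F Q v ι₀).asIdeal) →+* (𝓞 QBar ⧸ Q.P v) :=
    Ideal.quotientMap (Q.P v) (ro ι₀) le_rfl
  let g : (𝓞 F ⧸ (pe F Q v ι₀).asIdeal) →+* (𝓞 QBar ⧸ Q.P v) :=
    Ideal.quotientMap (Q.P v) (ro ι) (by rw [← h]; exact le_rfl)
  obtain ⟨n, hn, hy⟩ := ff_emb g g₀ (nm v) f hf (by rw [diu_card, hnm]) (by
    intro c hc
    obtain ⟨y, rfl⟩ := Ideal.Quotient.mk_surjective c
    have h1 : y ^ nm v - y ∈ (pe F Q v ι₀).asIdeal := by
      rw [← Ideal.Quotient.eq_zero_iff_mem, map_sub, map_pow, hc, sub_self]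
    obtain ⟨a, ha⟩ := res_fix (pe F Q v ι₀) v (pe_over F Q v ι₀) y h1
    have h2 : Ideal.Quotient.mk (pe F Q v ι₀).asIdeal y =
        Ideal.Quotient.mk (pe F Q v ι₀).asIdeal (algebraMap (𝓞 K) (𝓞 F) a) := Ideal.Quotient.eq.2 ha
    rw [h2]
    show Ideal.Quotient.mk (Q.P v) (ro ι (algebraMap (𝓞 K) (𝓞 F) a)) =
      Ideal.Quotient.mk (Q.P v) (ro ι₀ (algebraMap (𝓞 K) (𝓞 F) a))
    rw [ro_alg, ro_alg])
  refine ⟨n, hn, ?_⟩
  apply dic_U F Q v hi
  intro x
  have h3 : Ideal.Quotient.mk (Q.P v) (ro ι x) = Ideal.Quotient.mk (Q.P v) (ro ι₀ x) ^ (nm v ^ n) :=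
    hy (Ideal.Quotient.mk _ x)
  rw [← map_pow] at h3
  have h4 := Ideal.Quotient.eq.1 h3
  have h5 := fr_pow Q v (ro ι₀ x) n
  rw [ro_ac]
  have h6 := (Q.P v).sub_mem h4 h5
  rw [sub_sub_sub_cancel_right] at h6
  exact h6

private theorem fr_mem (Q : DP K QBar) (v : Pl K) : fr Q v ∈ dec (K := K) (Q.P v) := by
  have := Q.prime v
  intro x
  have h := fr_spec Q v x
  constructor
  · intro hx
    have h1 : x ^ nm v ∈ Q.P v := by
      have h2 := Ideal.sub_mem _ hx h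
      rwa [sub_sub_cancel] at h2
    exact (Q.prime v).mem_of_pow_mem _ h1
  · intro hx
    have h1 : x ^ nm v ∈ Q.P v := Ideal.pow_mem_of_mem _ hx _ (by have := diu_one v; omega)
    have h2 := Ideal.add_mem _ h h1
    rwa [sub_add_cancel] at h2

/-- the orbit of `ι₀` -/
private theorem cyc (Q : DP K QBar) (v : Pl K) (hi : IT QBar F v) (ι₀ : F →ₐ[K] QBar) (f : ℕ)
    (hnm : nm (pe F Q v ι₀) = nm v ^ f) :
    ac (fr Q v ^ f) ι₀ = ι₀ ∧
      ∀ n < f, ∀ m < f, ac (fr Q v ^ n) ι₀ = ac (fr Q v ^ m) ι₀ → n = m := by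
  constructor
  · apply dic_U F Q v hi
    intro x
    have h1 := diu_pow (pe F Q v ι₀) x
    rw [mem_pe, map_sub, map_pow, hnm] at h1
    have h2 := fr_pow Q v (ro ι₀ x) f
    rw [ro_ac]
    have h3 := (Q.P v).add_mem h2 h1
    rw [sub_add_sub_cancel] at h3
    exact h3
  · have key : ∀ d, 0 < d → d < f → ac (fr Q v ^ d) ι₀ ≠ ι₀ := by
      intro d hd hdf he
      have h1 : nm (pe F Q v ι₀) ≤ nm v ^ d := by
        apply diu_field _ _ (Nat.one_lt_pow hd.ne' (diu_one v))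
        intro x
        rw [mem_pe, map_sub, map_pow]
        have h2 := fr_pow Q v (ro ι₀ x) d
        rw [← ro_ac, he] at h2
        rw [← neg_sub]
        exact (Q.P v).neg_mem h2
      rw [hnm] at h1
      exact absurd ((Nat.pow_le_pow_iff_right (diu_one v)).1 h1) (by omega)
    have key2 : ∀ n m, m < n → n < f → ac (fr Q v ^ n) ι₀ ≠ ac (fr Q v ^ m) ι₀ := by
      intro n m hmn hn he
      apply key (n - m) (by omega) (by omega)
      have h1 : fr Q v ^ n = fr Q v ^ m * fr Q v ^ (n - m) := by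
        rw [← pow_add, Nat.add_sub_cancel' hmn.le]
      rw [h1, ac_mul] at he
      have h2 := congrArg (ac (fr Q v ^ m)⁻¹) he
      rw [← ac_mul, ← ac_mul, ← ac_mul, inv_mul_cancel, one_mul, ac_one] at h2
      exact h2
    intro n hn m hm he
    rcases lt_trichotomy n m with h | h | h
    · exact absurd he.symm (key2 m n h hm)
    · exact h
    · exact absurd he (key2 n m h hn)

omit [NumberField K] in
/-- an element with prescribed power residue -/
private theorem beta_ex (hl : l.Prime) (z : 𝓞 F) (w₀ : Pl F) (s : Finset (Pl F)) (hz : z ^ l = 1)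
    (hz1 : z - 1 ∉ w₀.asIdeal) :
    ∃ β : 𝓞 F, ∃ M : ℕ, 0 < M ∧ nm w₀ = l * M + 1 ∧ β ^ M - z ∈ w₀.asIdeal ∧
      ∀ w ∈ s, w ≠ w₀ → β - 1 ∈ w.asIdeal := by
  have hmax := w₀.isMaximal
  let _ : Field (𝓞 F ⧸ w₀.asIdeal) := Ideal.Quotient.field _
  have hfw := diu_fin w₀
  obtain ⟨g, hg⟩ := IsCyclic.exists_generator (α := (𝓞 F ⧸ w₀.asIdeal)ˣ)
  have hζ1 : Ideal.Quotient.mk w₀.asIdeal z ^ l = 1 := by
    rw [← map_pow, hz, map_one]
  let u : (𝓞 F ⧸ w₀.asIdeal)ˣ := Units.ofPowEqOne _ l hζ1 hl.ne_zero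
  have hu : (u : 𝓞 F ⧸ w₀.asIdeal) = Ideal.Quotient.mk w₀.asIdeal z := rfl
  have hul : u ^ l = 1 := Units.ext (by rw [Units.val_pow_eq_pow_val, hu, hζ1, Units.val_one])
  have hu1 : u ≠ 1 := by
    intro h
    apply hz1
    rw [← Ideal.Quotient.eq_zero_iff_mem, map_sub, map_one, ← hu, h, Units.val_one, sub_self]
  have hfl : Fact l.Prime := ⟨hl⟩
  have hord : orderOf u = l := orderOf_eq_prime hul hu1
  have hd : l ∣ Nat.card (𝓞 F ⧸ w₀.asIdeal)ˣ := by
    rw [← hord]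
    exact orderOf_dvd_natCard u
  obtain ⟨M, hM⟩ := hd
  have hcu : Nat.card (𝓞 F ⧸ w₀.asIdeal)ˣ = nm w₀ - 1 := by
    rw [Nat.card_units, diu_card]
  have h1 := diu_one w₀
  have hM0 : 0 < M := by
    rcases Nat.eq_zero_or_pos M with rfl | h
    · rw [mul_zero, hcu] at hM
      omega
    · exact h
  have hg2 := hg u
  rw [← mem_powers_iff_mem_zpowers, Submonoid.mem_powers_iff] at hg2
  obtain ⟨i, hi⟩ := hg2
  have hgo : orderOf g = l * M := by
    rw [← hM]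
    exact orderOf_eq_card_of_forall_mem_zpowers hg
  have hdi : l * M ∣ i * l := by
    rw [← hgo, orderOf_dvd_iff_pow_eq_one, pow_mul, hi, hul]
  have hdi2 : M ∣ i := by
    rw [mul_comm i l] at hdi
    exact Nat.dvd_of_mul_dvd_mul_left hl.pos hdi
  obtain ⟨i', rfl⟩ := hdi2
  obtain ⟨r, hr⟩ := Ideal.Quotient.mk_surjective ((g ^ i' : (𝓞 F ⧸ w₀.asIdeal)ˣ) : 𝓞 F ⧸ w₀.asIdeal)
  obtain ⟨β, hβ⟩ := exists_forall_sub_mem_ideal (s := insert w₀ s)
    (fun w : Pl F => w.asIdeal) (fun _ => 1) (fun w _ => w.prime)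
    (fun w _ w' _ h h' => h (HeightOneSpectrum.ext h')) (fun w => if w.1 = w₀ then r else 1)
  refine ⟨β, M, hM0, by omega, ?_, ?_⟩
  · have h2 := hβ w₀ (Finset.mem_insert_self _ _)
    simp only [if_true, pow_one] at h2
    rw [← Ideal.Quotient.eq_zero_iff_mem, map_sub, map_pow, Ideal.Quotient.eq.2 h2, hr, ← hu, ← hi,
      mul_comm M i', pow_mul, Units.val_pow_eq_pow_val, Units.val_pow_eq_pow_val, Units.val_pow_eq_pow_val, sub_self]
  · intro w hw hne
    have h2 := hβ w (Finset.mem_insert_of_mem hw)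
    simp only [hne, if_false, pow_one] at h2
    exact h2

omit [NumberField K] [NumberField F] [Algebra K F] [Field F] in
/-- a root congruent to one -/
private theorem root_one (hl : l.Prime) (hζ : IsPrimitiveRoot ζ l) (P : Ideal (𝓞 QBar))
    (hP : P.IsPrime) (c b : 𝓞 QBar) (hb : b ^ l = c) (hc : c - 1 ∈ P) :
    ∃ b' : 𝓞 QBar, b' ^ l = c ∧ b' - 1 ∈ P := by
  let z : 𝓞 QBar := algebraMap (𝓞 K) (𝓞 QBar) ⟨ζ, hζ.isIntegral hl.pos⟩
  have hz : IsPrimitiveRoot z l := by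
    have h1 : IsPrimitiveRoot (algebraMap K QBar ζ) l := hζ.map_of_injective (algebraMap K QBar).injective
    have h2 : algebraMap (𝓞 QBar) QBar z = algebraMap K QBar ζ := rfl
    rw [← h2] at h1
    exact h1.of_map_of_injective RingOfIntegers.coe_injective
  have h3 := hz.pow_sub_pow_eq_prod_sub_mul b 1 hl.pos
  rw [one_pow, hb] at h3
  rw [h3, Ideal.IsPrime.prod_mem_iff] at hc
  obtain ⟨e, he, h4⟩ := hc
  rw [Polynomial.mem_nthRootsFinset hl.pos] at he
  have h5 : e ^ (l - 1) * e = 1 := by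
    rw [← pow_succ, Nat.sub_add_cancel hl.one_le, he]
  refine ⟨e ^ (l - 1) * b, ?_, ?_⟩
  · rw [mul_pow, hb, ← pow_mul, mul_comm (l - 1) l, pow_mul, he, one_pow, one_mul]
  · have h6 : e ^ (l - 1) * b - 1 = e ^ (l - 1) * (b - e * 1) := by
      rw [mul_sub, mul_one, h5]
    rw [h6]
    exact P.mul_mem_left _ h4

theorem beta {V : Type} [CommGroup V] (hl : l.Prime) (hζ : IsPrimitiveRoot ζ l) (Q : DP K QBar)
    (v : Pl K) (hv : ((l : ℕ) : 𝓞 K) ∉ v.asIdeal) (hi : IT QBar F v) (ι₀ : F →ₐ[K] QBar)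
    (x : (F →ₐ[K] QBar) → V) (hxl : ∀ ι, x ι ^ l = 1) :
    ∃ β : 𝓞 F, (∀ w : Pl F, Over w v → β ∉ w.asIdeal) ∧
      ∃ B : (F →ₐ[K] QBar) → 𝓞 QBar, Rt l β B ∧ kap l ζ x B (fr Q v) = x ι₀ := by
  have hP := Q.prime v
  have hP1 : (1 : 𝓞 QBar) ∉ Q.P v := fun h => hP.ne_top ((Ideal.eq_top_iff_one _).2 h)
  have hl1 : Fact (1 < l) := ⟨hl.one_lt⟩
  obtain ⟨f, hf, hnm⟩ := nm_over (pe_over F Q v ι₀)
  obtain ⟨hcyc, hinj⟩ := cyc Q v hi ι₀ f hnm
  have hv1 : (1 : ZMod l).val = 1 := ZMod.val_one l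
  let z : 𝓞 F := algebraMap (𝓞 K) (𝓞 F) ⟨ζ, hζ.isIntegral hl.pos⟩
  have hz : ∀ ι : F →ₐ[K] QBar, ((ro ι z : 𝓞 QBar) : QBar) = algebraMap K QBar ζ :=
    fun ι => ι.commutes ζ
  have hzl : z ^ l = 1 := by
    apply RingOfIntegers.ext
    show algebraMap K F ζ ^ l = 1
    rw [← map_pow, hζ.pow_eq_one, map_one]
  have h1c : ((1 : 𝓞 QBar) : QBar) = 1 := rfl
  have hz1 : z - 1 ∉ (pe F Q v ι₀).asIdeal := by
    intro h
    rw [mem_pe, map_sub, map_one] at h
    have h1 := zeta_res hl hζ Q v hv 1 hP1 1 0 (ro ι₀ z) 1 (by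
      rw [hv1, pow_one, hz, h1c, mul_one]) (by
      rw [ZMod.val_zero, pow_zero, one_mul]) h
    exact one_ne_zero h1
  obtain ⟨β, M, hM, hnM, hβ0, hβ1⟩ := beta_ex hl z (pe F Q v ι₀) (over_finite v).toFinset hzl hz1
  have hover : ∀ w : Pl F, Over w v → w ≠ pe F Q v ι₀ → β - 1 ∈ w.asIdeal := fun w hw hne =>
    hβ1 w ((over_finite v).mem_toFinset.2 hw) hne
  have hβw : ∀ w : Pl F, Over w v → β ∉ w.asIdeal := by
    intro w hw hm
    by_cases hne : w = pe F Q v ι₀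
    · subst hne
      have h1 : z ∈ (pe F Q v ι₀).asIdeal := by
        have h2 := (pe F Q v ι₀).asIdeal.sub_mem (Ideal.pow_mem_of_mem _ hm M hM) hβ0
        rw [sub_sub_cancel] at h2
        exact h2
      have h3 := Ideal.pow_mem_of_mem _ h1 l hl.pos
      rw [hzl] at h3
      exact (pe F Q v ι₀).isPrime.ne_top ((Ideal.eq_top_iff_one _).2 h3)
    · have h2 := w.asIdeal.sub_mem hm (hover w hw hne)
      rw [sub_sub_cancel] at h2
      exact w.isPrime.ne_top ((Ideal.eq_top_iff_one _).2 h2)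
  have hβne : β ≠ 0 := by
    intro h
    apply hβw (pe F Q v ι₀) (pe_over F Q v ι₀)
    rw [h]
    exact Submodule.zero_mem _
  -- roots
  have hrt := rt_ex (K := K) hl.pos β
  have hout : ∀ ι : F →ₐ[K] QBar, pe F Q v ι ≠ pe F Q v ι₀ →
      ∃ b : 𝓞 QBar, b ^ l = ro ι β ∧ b - 1 ∈ Q.P v := by
    intro ι hne
    have h1 := hover _ (pe_over F Q v ι) hne
    rw [mem_pe, map_sub, map_one] at h1
    exact root_one hl hζ (Q.P v) hP (ro ι β) (rt l β ι) (hrt ι) h1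
  let B₀ : 𝓞 QBar := rt (K := K) l β ι₀
  have hB₀ : B₀ ^ l = ro ι₀ β := hrt ι₀
  have hs : fr Q v ∈ dec (K := K) (Q.P v) := fr_mem Q v
  have hpes : ∀ (n : ℕ) (ι : F →ₐ[K] QBar), pe F Q v (ac (fr Q v ^ n) ι) = pe F Q v ι :=
    fun n ι => pe_ac F Q v ι (pow_mem hs n)
  let B : (F →ₐ[K] QBar) → 𝓞 QBar := fun ι =>
    if h : ∃ n < f, ι = ac (fr Q v ^ n) ι₀ then fr Q v ^ h.choose • B₀
    else if h' : pe F Q v ι ≠ pe F Q v ι₀ then (hout ι h').choose else 0
  have hB1 : ∀ n < f, B (ac (fr Q v ^ n) ι₀) = fr Q v ^ n • B₀ := by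
    intro n hn
    have h : ∃ n' < f, ac (fr Q v ^ n) ι₀ = ac (fr Q v ^ n') ι₀ := ⟨n, hn, rfl⟩
    have h1 : B (ac (fr Q v ^ n) ι₀) = fr Q v ^ h.choose • B₀ := dif_pos h
    rw [h1, ← hinj n hn h.choose h.choose_spec.1 h.choose_spec.2]
  have hB2 : ∀ ι, pe F Q v ι ≠ pe F Q v ι₀ → B ι ^ l = ro ι β ∧ B ι - 1 ∈ Q.P v := by
    intro ι hne
    have h : ¬ ∃ n < f, ι = ac (fr Q v ^ n) ι₀ := by
      rintro ⟨n, hn, rfl⟩
      exact hne (hpes n ι₀)
    have h1 : B ι = (hout ι hne).choose := by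
      show (if h : ∃ n < f, ι = ac (fr Q v ^ n) ι₀ then fr Q v ^ h.choose • B₀
        else if h' : pe F Q v ι ≠ pe F Q v ι₀ then (hout ι h').choose else 0) = _
      rw [dif_neg h, dif_pos hne]
    rw [h1]
    exact (hout ι hne).choose_spec
  have hB : Rt l β B := by
    intro ι
    by_cases hne : pe F Q v ι = pe F Q v ι₀
    · obtain ⟨n, hn, rfl⟩ := orb Q v hi ι₀ ι f hf hnm hne
      rw [hB1 n hn, ← smul_pow', hB₀, ro_ac]
    · exact (hB2 ι hne).1
  refine ⟨β, hβw, B, hB, ?_⟩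
  -- symbols
  have hB0 : B ι₀ = B₀ := by
    have h1 := hB1 0 (by omega)
    rw [pow_zero, one_smul, ac_one] at h1
    exact h1
  have hsm : ∀ (σ : Gal(QBar/K)) (y : 𝓞 QBar), ((σ • y : 𝓞 QBar) : QBar) = σ (y : QBar) :=
    fun _ _ => rfl
  have hout0 : ∀ ι, pe F Q v ι ≠ pe F Q v ι₀ → sy l ζ B (fr Q v) ι = 0 := by
    intro ι hne
    have hne' : pe F Q v (ac (fr Q v) ι) ≠ pe F Q v ι₀ := by
      have h1 := hpes 1 ι
      rw [pow_one] at h1
      rw [h1]
      exact hne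
    have h1 := (hB2 ι hne).2
    have h2 := (hB2 _ hne').2
    apply zeta_res hl hζ Q v hv (B (ac (fr Q v) ι)) (fun h => hP1 ?_) (sy l ζ B (fr Q v) ι) 0
      (fr Q v • B ι) (B (ac (fr Q v) ι)) (sy_spec hl hζ hB hβne (fr Q v) ι)
    · rw [ZMod.val_zero, pow_zero, one_mul]
    · have h3 := fr_spec Q v (B ι)
      have h4 := (Q.P v).mem_of_dvd (sub_dvd_pow_sub_pow (B ι) 1 (nm v)) h1
      rw [one_pow] at h4
      have h5 := (Q.P v).sub_mem ((Q.P v).add_mem h3 h4) h2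
      rw [sub_add_sub_cancel, sub_sub_sub_cancel_right] at h5
      exact h5
    · have h3 := (Q.P v).sub_mem h h2
      rw [sub_sub_cancel] at h3
      exact h3
  have hin0 : ∀ n, n + 1 < f → sy l ζ B (fr Q v) (ac (fr Q v ^ n) ι₀) = 0 := by
    intro n hn
    have h1 := sy_eq hl hζ hB hβne (fr Q v) (ac (fr Q v ^ n) ι₀) 0 (by
      rw [← ac_mul, ← pow_succ', hB1 n (by omega), hB1 (n + 1) hn, pow_zero, one_mul, pow_succ',
        mul_smul, hsm (fr Q v) (fr Q v ^ n • B₀)])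
    rw [h1, Nat.cast_zero]
  have hlast : sy l ζ B (fr Q v) (ac (fr Q v ^ (f - 1)) ι₀) = 1 := by
    have hac : ac (fr Q v) (ac (fr Q v ^ (f - 1)) ι₀) = ι₀ := by
      rw [← ac_mul, ← pow_succ', Nat.sub_add_cancel hf, hcyc]
    have h1 := sy_spec hl hζ hB hβne (fr Q v) (ac (fr Q v ^ (f - 1)) ι₀)
    rw [hac, hB0] at h1
    apply zeta_res hl hζ Q v hv B₀ (fun h => ?_) _ 1
      (fr Q v • B (ac (fr Q v ^ (f - 1)) ι₀)) (ro ι₀ z * B₀) h1
    · rw [hv1, pow_one]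
      show ((ro ι₀ z : 𝓞 QBar) : QBar) * (B₀ : QBar) = _
      rw [hz]
    · rw [hB1 (f - 1) (by omega), ← mul_smul, ← pow_succ', Nat.sub_add_cancel hf]
      have h2 := fr_pow Q v B₀ f
      rw [← hnm, hnM, pow_succ, pow_mul, hB₀, ← map_pow] at h2
      have h3 : ro ι₀ (β ^ M) * B₀ - ro ι₀ z * B₀ ∈ Q.P v := by
        rw [← sub_mul, ← map_sub]
        exact (Q.P v).mul_mem_right _ ((mem_pe F Q v ι₀ _).1 hβ0)
      have h4 := (Q.P v).add_mem h2 h3
      rw [sub_add_sub_cancel] at h4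
      exact h4
    · have h5 := Ideal.pow_mem_of_mem _ h l hl.pos
      rw [hB₀] at h5
      exact hβw _ (pe_over F Q v ι₀) ((mem_pe F Q v ι₀ _).2 h5)
  have hac : ac (fr Q v) (ac (fr Q v ^ (f - 1)) ι₀) = ι₀ := by
    rw [← ac_mul, ← pow_succ', Nat.sub_add_cancel hf, hcyc]
  unfold kap
  rw [finprod_eq_single _ (ac (fr Q v ^ (f - 1)) ι₀), hlast, hv1, pow_one, hac]
  intro ι hne
  have h0 : sy l ζ B (fr Q v) ι = 0 := by
    by_cases hpe : pe F Q v ι = pe F Q v ι₀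
    · obtain ⟨n, hn, rfl⟩ := orb Q v hi ι₀ ι f hf hnm hpe
      apply hin0
      rcases Nat.lt_or_ge (n + 1) f with h | h
      · exact h
      · exfalso
        apply hne
        rw [show n = f - 1 by omega]
    · exact hout0 ι hpe
  rw [h0, ZMod.val_zero, pow_zero]

end Pool.Agent.H36.FR
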