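import Pool.Agent.H36.FR.Sym

/-!
# [H36 FR FRR] Roots modulo `P`

`P = Q.P v`, `l ∉ v` (so `l ∉ P`). `zeta_res`: the powers `ζ^a`, `a < l`, are different modulo `P` (`∏_{0 < i < l} (1 - ζ^i) = l`; `H38.ML.pow_eq_one_of_inertia` or its proof; see `kqe` in H36/FA/Kqf.lean).
* `sy_res`: `σ (B ι) = ζ^k B (σ ι)`, `σ (B' ι) = ζ^k' B' (σ ι)`; `σ P = P` (`dec`): `ζ^k B (σ ι) ≡ ζ^k' B' (σ ι) ≡ ζ^k' B (σ ι)`, `B (σ ι) ∉ P` (its `l`-th power is `ro (σ ι) α ∉ P`): `ζ^k ≡ ζ^k'`.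
* `rt_lift`: `B₀` any roots of `α'` (`rt_ex`); `∏_{j < l} (B ι - ζ^j B₀ ι) = (B ι)^l - (B₀ ι)^l = ro ι (α - α') ∈ P` (an element of `v 𝓞_F` is mapped into `P`): one factor is in `P`, `B' ι = ζ^j B₀ ι`.
-/

set_option autoImplicit false

open scoped NumberField Classical
open IsDedekindDomain NumberField

noncomputable section

namespace Pool.Agent.H36.FR

open H63.MA H38.BB H38.BG H77.PC3 H51.SN H57.SL H36.QA H1.LS4 H38.ML

variable {K : IntermediateField ℚ QBar} [NumberField K] {F : Type} [Field F] [NumberField F]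
  [Algebra K F] {l : ℕ} {ζ : K}

private theorem dvd_of_mem {R : Type} [CommRing R] [IsDomain R] (P : Ideal R) [P.IsPrime] {q : ℕ} (hq : 0 < q)
    (hqP : ((q : ℕ) : R) ∉ P) {z : R} (hzp : IsPrimitiveRoot z q) {k : ℕ} (h3 : z ^ k - 1 ∈ P) :
    q ∣ k := by
  by_contra hnd
  obtain ⟨n, rfl⟩ : ∃ n, q = n + 1 := ⟨q - 1, by omega⟩
  have hprod := hzp.prod_one_sub_pow_eq_order
  have hmod : k % (n + 1) ≠ 0 := fun h0 => hnd (Nat.dvd_of_mod_eq_zero h0)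
  have hlt : k % (n + 1) < n + 1 := Nat.mod_lt _ hq
  have hzk : z ^ k = z ^ (k % (n + 1)) := by
    rw [← pow_mod_orderOf, ← hzp.eq_orderOf]
  have hmem : k % (n + 1) - 1 ∈ Finset.range n := Finset.mem_range.2 (by omega)
  have hdvd : (1 - z ^ (k % (n + 1) - 1 + 1)) ∣ ∏ k ∈ Finset.range n, (1 - z ^ (k + 1)) :=
    Finset.dvd_prod_of_mem (fun k => 1 - z ^ (k + 1)) hmem
  rw [Nat.sub_add_cancel (by omega), hprod, ← hzk] at hdvd
  apply hqP
  obtain ⟨c, hc⟩ := hdvd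
  have : ((n + 1 : ℕ) : R) = (z ^ k - 1) * (-c) := by
    push_cast
    rw [hc]; ring
  rw [this]
  exact P.mul_mem_right _ h3

omit [NumberField F] [Field F] [Algebra K F] in
private theorem mem_P (Q : DP K QBar) (v : Pl K) (x : 𝓞 K) :
    algebraMap (𝓞 K) (𝓞 QBar) x ∈ Q.P v ↔ x ∈ v.asIdeal := by
  rw [← Q.under v]
  rfl

private theorem ro_mem (Q : DP K QBar) (v : Pl K) {α : 𝓞 F}
    (h : α ∈ v.asIdeal.map (algebraMap (𝓞 K) (𝓞 F))) (ι : F →ₐ[K] QBar) : ro ι α ∈ Q.P v := by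
  have h1 : v.asIdeal.map (algebraMap (𝓞 K) (𝓞 F)) ≤ (Q.P v).comap (ro ι) := by
    rw [Ideal.map_le_iff_le_comap]
    intro x hx
    rw [Ideal.mem_comap, Ideal.mem_comap]
    have h2 : ro ι (algebraMap (𝓞 K) (𝓞 F) x) = algebraMap (𝓞 K) (𝓞 QBar) x := by
      apply NumberField.RingOfIntegers.ext
      change ι (algebraMap K F (x : K)) = algebraMap K QBar (x : K)
      exact ι.commutes _
    rw [h2, mem_P]
    exact hx
  exact h1 h

omit [NumberField F] [Field F] [Algebra K F] in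
theorem zeta_res (hl : l.Prime) (hζ : IsPrimitiveRoot ζ l) (Q : DP K QBar) (v : Pl K)
    (hv : ((l : ℕ) : 𝓞 K) ∉ v.asIdeal) (x : 𝓞 QBar) (hx : x ∉ Q.P v) (a b : ZMod l)
    (y z : 𝓞 QBar) (hy : (y : QBar) = algebraMap K QBar ζ ^ a.val * (x : QBar))
    (hz : (z : QBar) = algebraMap K QBar ζ ^ b.val * (x : QBar)) (h : y - z ∈ Q.P v) : a = b := by
  have hP := Q.prime v
  have hlp := hl.pos
  have : NeZero l := ⟨hlp.ne'⟩
  have hζ' : IsPrimitiveRoot (algebraMap K QBar ζ) l :=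
    hζ.map_of_injective (algebraMap K QBar).injective
  have hlP : ((l : ℕ) : 𝓞 QBar) ∉ Q.P v := by
    intro h0
    apply hv
    rw [← mem_P Q v, map_natCast]
    exact h0
  have hzp : IsPrimitiveRoot hζ'.toInteger l := hζ'.toInteger_isPrimitiveRoot
  have hbl : b.val < l := ZMod.val_lt b
  have h1 : (hζ'.toInteger ^ (l - b.val + a.val) - 1) * x =
      hζ'.toInteger ^ (l - b.val) * (y - z) := by
    apply NumberField.RingOfIntegers.ext
    change (algebraMap K QBar ζ ^ (l - b.val + a.val) - 1) * (x : QBar) =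
      algebraMap K QBar ζ ^ (l - b.val) * ((y : QBar) - (z : QBar))
    rw [hy, hz]
    have h2 : algebraMap K QBar ζ ^ (l - b.val) * algebraMap K QBar ζ ^ b.val = 1 := by
      rw [← pow_add, Nat.sub_add_cancel hbl.le]
      exact hζ'.pow_eq_one
    calc (algebraMap K QBar ζ ^ (l - b.val + a.val) - 1) * (x : QBar)
        = algebraMap K QBar ζ ^ (l - b.val) * algebraMap K QBar ζ ^ a.val * (x : QBar) -
          1 * (x : QBar) := by rw [pow_add]; ring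
      _ = _ := by rw [← h2]; ring
  have h3 : (hζ'.toInteger ^ (l - b.val + a.val) - 1) * x ∈ Q.P v := by
    rw [h1]
    exact (Q.P v).mul_mem_left _ h
  have h4 := (hP.mem_or_mem h3).resolve_right hx
  have h5 := dvd_of_mem (Q.P v) hlp hlP hzp h4
  have h6 : ((l - b.val + a.val : ℕ) : ZMod l) = 0 := (ZMod.natCast_eq_zero_iff _ _).2 h5
  rw [Nat.cast_add, Nat.cast_sub hbl.le, ZMod.natCast_self, ZMod.natCast_zmod_val,
    ZMod.natCast_zmod_val] at h6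
  exact (sub_eq_zero.1 (by linear_combination h6))

theorem sy_res (hl : l.Prime) (hζ : IsPrimitiveRoot ζ l) (Q : DP K QBar) (v : Pl K)
    (hv : ((l : ℕ) : 𝓞 K) ∉ v.asIdeal) {α α' : 𝓞 F} {B B' : (F →ₐ[K] QBar) → 𝓞 QBar}
    (hB : Rt l α B) (hB' : Rt l α' B') (hu : ∀ ι : F →ₐ[K] QBar, ro ι α ∉ Q.P v)
    (h : ∀ ι, B ι - B' ι ∈ Q.P v) (σ : Gal(QBar/K)) (hσ : σ ∈ dec (K := K) (Q.P v))
    (ι : F →ₐ[K] QBar) : sy l ζ B σ ι = sy l ζ B' σ ι := by
  have hP := Q.prime v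
  have : NeZero l := ⟨hl.pos.ne'⟩
  have hBP : ∀ ι : F →ₐ[K] QBar, B ι ∉ Q.P v := by
    intro ι h0
    apply hu ι
    rw [← hB ι]
    exact Ideal.pow_mem_of_mem _ h0 l hl.pos
  have hBP' : ∀ ι : F →ₐ[K] QBar, B' ι ∉ Q.P v := by
    intro ι h0
    apply hBP ι
    have h1 := (Q.P v).add_mem (h ι) h0
    rwa [sub_add_cancel] at h1
  have hα : α ≠ 0 := by
    rintro rfl
    apply hu ι
    rw [map_zero]
    exact (Q.P v).zero_mem
  have hα' : α' ≠ 0 := by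
    rintro rfl
    have h1 := hB' ι
    rw [map_zero] at h1
    have h2 := eq_zero_of_pow_eq_zero h1
    apply hBP' ι
    rw [h2]
    exact (Q.P v).zero_mem
  have s1 := sy_spec hl hζ hB hα σ ι
  have s2 := sy_spec hl hζ hB' hα' σ ι
  have hζ' : IsPrimitiveRoot (algebraMap K QBar ζ) l :=
    hζ.map_of_injective (algebraMap K QBar).injective
  refine zeta_res hl hζ Q v hv (B (ac σ ι)) (hBP _) _ _ (σ • B ι)
    (hζ'.toInteger ^ (sy l ζ B' σ ι).val * B (ac σ ι)) s1 rfl ?_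
  have h1 : σ • (B ι - B' ι) ∈ Q.P v := (hσ _).2 (h ι)
  have h2 : hζ'.toInteger ^ (sy l ζ B' σ ι).val * (B (ac σ ι) - B' (ac σ ι)) ∈ Q.P v :=
    (Q.P v).mul_mem_left _ (h _)
  have h3 : σ • B ι - hζ'.toInteger ^ (sy l ζ B' σ ι).val * B (ac σ ι) =
      σ • (B ι - B' ι) - hζ'.toInteger ^ (sy l ζ B' σ ι).val * (B (ac σ ι) - B' (ac σ ι)) := by
    have h4 : σ • B' ι = hζ'.toInteger ^ (sy l ζ B' σ ι).val * B' (ac σ ι) := by
      apply NumberField.RingOfIntegers.ext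
      exact s2
    rw [smul_sub, h4]
    ring
  rw [h3]
  exact (Q.P v).sub_mem h1 h2

theorem rt_lift (hl : l.Prime) (hζ : IsPrimitiveRoot ζ l) (Q : DP K QBar) (v : Pl K)
    {α α' : 𝓞 F} {B : (F →ₐ[K] QBar) → 𝓞 QBar} (hB : Rt l α B)
    (h : α - α' ∈ v.asIdeal.map (algebraMap (𝓞 K) (𝓞 F))) :
    ∃ B' : (F →ₐ[K] QBar) → 𝓞 QBar, Rt l α' B' ∧ ∀ ι, B ι - B' ι ∈ Q.P v := by
  have hP := Q.prime v
  have : NeZero l := ⟨hl.pos.ne'⟩
  have hζ' : IsPrimitiveRoot (algebraMap K QBar ζ) l :=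
    hζ.map_of_injective (algebraMap K QBar).injective
  have hzp : IsPrimitiveRoot hζ'.toInteger l := hζ'.toInteger_isPrimitiveRoot
  have h0 : Rt l α' (rt (K := K) l α') := rt_ex hl.pos α'
  have hex : ∀ ι : F →ₐ[K] QBar, ∃ w : 𝓞 QBar, w ^ l = 1 ∧ B ι - w * rt (K := K) l α' ι ∈ Q.P v := by
    intro ι
    have h1 : B ι ^ l - rt (K := K) l α' ι ^ l ∈ Q.P v := by
      rw [hB ι, h0 ι, ← map_sub]
      exact ro_mem Q v h ι
    rw [hzp.pow_sub_pow_eq_prod_sub_mul _ _ hl.pos] at h1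
    obtain ⟨w, hw, h2⟩ := (hP.prod_mem_iff).1 h1
    exact ⟨w, (Polynomial.mem_nthRootsFinset hl.pos _).1 hw, h2⟩
  choose w hw1 hw2 using hex
  refine ⟨fun ι => w ι * rt (K := K) l α' ι, fun ι => ?_, hw2⟩
  show (w ι * rt (K := K) l α' ι) ^ l = ro ι α'
  rw [mul_pow, hw1, one_mul, h0 ι]

end Pool.Agent.H36.FR
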