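import Pool.Agent.H36.FR.Def
import Pool.Agent.H57.SL.Inr

/-!
# [H36 FR ITT] Inertia acts trivially on the embeddings of `E i`; orders at unramified places

* `it_of`: let `P` be a prime over `v`, `τ ∈ P.inertia`. `P = g • Q.P v` (`dic_tr`), so `g⁻¹ τ g` is in the inertia group at `Q.P v`, `φ (g⁻¹ τ g) = 1`, so `φ τ = 1`. Every embedding is `ac γ val` (`emb_tr`), `φ (γ⁻¹ τ γ) = 1` fixes `u i`, so `γ⁻¹ τ γ` fixes `E i` (`Ok.fix`): `ac τ (ac γ val) = ac γ val`.
* `ord_ex`: `F/K` is unramified at `v` (`inr_iff`: `H1.LS4.Unr`: no prime of `F` has its square dividing `v 𝓞_F`), so for `w` over `v` the valuation of `w` restricted to `K` is the valuation of `v` (the order is multiplied by the ramification index, which is `1`; Mathlib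
  `IsDedekindDomain.HeightOneSpectrum.valuation_comap` or `valuation_liesOver`-type lemma).
-/

set_option autoImplicit false

open scoped NumberField Classical
open IsDedekindDomain NumberField

noncomputable section

namespace Pool.Agent.H36.FR

open H63.MA H38.BB H38.BG H77.PC3 H51.SN H57.SL H36.QA H1.LS4 H38.ML

variable {K : IntermediateField ℚ QBar} [NumberField K]

theorem ord_ex {F : Type} [Field F] [NumberField F] [Algebra K F] {w : Pl F} {v : Pl K}
    (h : Over w v) (hi : IT QBar F v) (x : Kˣ) :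
    ord w (Units.map (algebraMap K F : K →* F) x) = ord v x := by
  have hl : w.asIdeal.LiesOver v.asIdeal := ⟨h.symm⟩
  have hu := (inr_iff F v).1 hi
  have hb : v.asIdeal.map (algebraMap (𝓞 K) (𝓞 F)) ≠ ⊥ := Ideal.map_ne_bot_of_ne_bot v.ne_bot
  have he : v.asIdeal.ramificationIdx' w.asIdeal = 1 := by
    have h0 := Ideal.IsDedekindDomain.ramificationIdx'_ne_zero_of_liesOver w.asIdeal v.ne_bot
    have hm := Ideal.IsDedekindDomain.ramificationIdx'_eq_multiplicity (P := w.asIdeal) hb w.isPrime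
    by_contra hne
    have h2 : 2 ≤ multiplicity w.asIdeal (v.asIdeal.map (algebraMap (𝓞 K) (𝓞 F))) := by omega
    exact hu w.asIdeal w.isPrime (pow_dvd_of_le_multiplicity h2)
  have h1 := HeightOneSpectrum.valuation_liesOver F v w (x : K)
  rw [he, pow_one] at h1
  unfold ord
  rw [Units.coe_map, MonoidHom.coe_coe, ← h1]

variable {A V I : Type} [Group A] [Finite A] [CommGroup V] [MulDistribMulAction A V]
  {D : Dt K A V I} [∀ i, NumberField (D.E i)]

theorem it_of (hD : Ok D) (Q : DP K QBar) (v : Pl K)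
    (h₀ : ∀ τ ∈ (Q.P v).inertia Gal(QBar/K), D.φ τ = 1) (i : I) : IT QBar (D.E i) v := by
  intro P hP hPv τ hτ ι
  have h1 : D.φ τ = 1 := by
    obtain ⟨g, hg⟩ := dic_tr (Q.P v) P (Q.prime v) hP (by rw [Q.under v, hPv])
    have h2 : g⁻¹ * τ * g ∈ (Q.P v).inertia Gal(QBar/K) := by
      intro x
      have h3 : τ • (g • x) - g • x ∈ P := hτ (g • x)
      rw [hg, Ideal.mem_pointwise_smul_iff_inv_smul_mem, smul_sub, inv_smul_smul] at h3
      rw [mul_smul, mul_smul]
      exact h3
    have h3 := h₀ _ h2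
    rw [map_mul, map_mul, map_inv] at h3
    have h4 : D.φ τ = D.φ g * ((D.φ g)⁻¹ * D.φ τ * D.φ g) * (D.φ g)⁻¹ := by group
    rw [h4, h3, mul_one, mul_inv_cancel]
  obtain ⟨γ, rfl⟩ := emb_tr (D.E i) (D.E i).val ι
  have h2 : ∀ y : D.E i, (γ⁻¹ * τ * γ) (y : QBar) = y := by
    rw [hD.fix]
    rw [map_mul, map_mul, h1, mul_one, map_inv, inv_mul_cancel, one_smul]
  apply AlgHom.ext
  intro y
  have h3 := h2 y
  have h4 : τ (γ (y : QBar)) = γ ((γ⁻¹ * τ * γ) (y : QBar)) := by
    rw [← AlgEquiv.mul_apply γ, ← AlgEquiv.mul_apply τ]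
    congr 1
    group
  rw [h3] at h4
  exact h4

end Pool.Agent.H36.FR
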