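import Pool.Agent.H36.FR.Frb
import Pool.Agent.H36.FR.Cob
import Pool.Agent.H36.FR.Itt
import Pool.Agent.H36.FR.Nex

/-!
# [H36 FR FRT] Translation

`β`, `B_β` from `beta` (`F = E i`, `x = xv D i`, `IT` by `it_of`). Let `B` be the chosen roots of `α`; `α' = update α i (α i β)`; roots `B' = update B i (B i * B_β)` of `α'`. `kap (B i B_β) = kap (B i) kap B_β = kap (B i) xv i ι₀` at `fr` (`kap_arg`; `α i ≠ 0` by `Un` and `ov_nonempty`, `β ≠ 0`), so `phB D B' (fr) = e (xv i ι₀) phf D α (fr)`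
(`V` commutative). The chosen roots of `α'` differ from `B'` by a conjugation with `e w` (`phB_cob`).
-/

set_option autoImplicit false

open scoped NumberField Classical
open IsDedekindDomain NumberField

noncomputable section

namespace Pool.Agent.H36.FR

open H63.MA H38.BB H38.BG H77.PC3 H51.SN H57.SL H36.QA H1.LS4 H38.ML

variable {K : IntermediateField ℚ QBar} [NumberField K] {A V I : Type} [Group A] [Finite A]
  [CommGroup V] [MulDistribMulAction A V] [Fintype I] {D : Dt K A V I}
  [∀ i, NumberField (D.E i)]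

theorem transl (hD : Ok D) (Q : DP K QBar) (v : Pl K) (hv : ((D.m : ℕ) : 𝓞 K) ∉ v.asIdeal)
    (h₀ : ∀ τ ∈ (Q.P v).inertia Gal(QBar/K), D.φ τ = 1) (i : I) (ι₀ : D.E i →ₐ[K] QBar) :
    ∃ β : 𝓞 (D.E i), (∀ w : Pl (D.E i), Over w v → β ∉ w.asIdeal) ∧
      ∀ α : Tp fun i => D.E i, Un α v → ∃ w : V,
        phf D (Function.update α i (α i * β)) (fr Q v) =
          D.e w * (D.e (xv D i ι₀) * phf D α (fr Q v)) * (D.e w)⁻¹ := by
  have hvl : ((D.l i : ℕ) : 𝓞 K) ∉ v.asIdeal := by
    intro h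
    apply hv
    obtain ⟨k, hk⟩ := l_dvd hD i
    rw [hk, Nat.cast_mul]
    exact Ideal.mul_mem_right _ _ h
  have hxl : ∀ (j : I) (ι : D.E j →ₐ[K] QBar), xv D j ι ^ D.l j = 1 := by
    intro j ι
    rw [← xv_ord hD j ι]
    exact pow_orderOf_eq_one _
  obtain ⟨β, hβ, Bβ, hBβ, hk⟩ := beta (hD.pr i) (z_prim hD i) Q v hvl (it_of hD Q v h₀ i) ι₀
    (xv D i) (hxl i)
  refine ⟨β, hβ, ?_⟩
  intro α hα
  have hβ0 : β ≠ 0 := by
    intro h
    obtain ⟨w, hw⟩ := ov_nonempty (F := D.E i) v
    apply hβ w hw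
    rw [h]
    exact Ideal.zero_mem _
  have hα0 : ∀ j, α j ≠ 0 := by
    intro j h
    obtain ⟨w, hw⟩ := ov_nonempty (F := D.E j) v
    apply hα j w hw
    rw [h]
    exact Ideal.zero_mem _
  have hB : ∀ j, Rt (D.l j) (α j) (rt (K := K) (D.l j) (α j)) := fun j => rt_ex (hD.pr j).pos (α j)
  have hα1 : ∀ j, Function.update α i (α i * β) j ≠ 0 := by
    intro j
    by_cases hj : j = i
    · subst hj
      rw [Function.update_self]
      exact mul_ne_zero (hα0 j) hβ0
    · rw [Function.update_of_ne hj]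
      exact hα0 j
  have hB1 : ∀ j, Rt (D.l j) (Function.update α i (α i * β) j)
      (Function.update (fun j => rt (K := K) (D.l j) (α j)) i
        (fun ι => rt (K := K) (D.l i) (α i) ι * Bβ ι) j) := by
    intro j
    by_cases hj : j = i
    · subst hj
      rw [Function.update_self, Function.update_self]
      intro ι
      rw [mul_pow, hB j ι, hBβ ι, map_mul]
    · rw [Function.update_of_ne hj, Function.update_of_ne hj]
      exact hB j
  obtain ⟨w, hw⟩ := phB_cob hD hα1 hB1 (fun j => rt_ex (hD.pr j).pos _)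
  refine ⟨w, ?_⟩
  have h1 := hw (fr Q v)
  have h2 : phB D (Function.update (fun j => rt (K := K) (D.l j) (α j)) i
        (fun ι => rt (K := K) (D.l i) (α i) ι * Bβ ι)) (fr Q v) =
      D.e (xv D i ι₀) * phf D α (fr Q v) := by
    have h3 : ∀ j, kap (D.l j) (D.z j) (xv D j) (Function.update
        (fun j => rt (K := K) (D.l j) (α j)) i
        (fun ι => rt (K := K) (D.l i) (α i) ι * Bβ ι) j) (fr Q v) =
        (if j = i then xv D i ι₀ else 1) *
          kap (D.l j) (D.z j) (xv D j) (rt (K := K) (D.l j) (α j)) (fr Q v) := by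
      intro j
      by_cases hj : j = i
      · subst hj
        rw [Function.update_self, if_pos rfl,
          kap_arg (hD.pr j) (z_prim hD j) (hB j) hBβ (hα0 j) hβ0 (xv D j) (hxl j) (fr Q v), hk,
          mul_comm]
      · rw [Function.update_of_ne hj, if_neg hj, one_mul]
    unfold phf phB
    rw [Finset.prod_congr rfl fun j _ => h3 j, Finset.prod_mul_distrib, Finset.prod_ite_eq',
      if_pos (Finset.mem_univ i), map_mul, mul_assoc]
  rw [h2] at h1
  exact h1

end Pool.Agent.H36.FR
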