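import Pool.Agent.H36.FR.Def
import Pool.Agent.H51.SN.Kum

/-!
# [H36 FR SYM] Roots and symbols

`rt_ex`: roots of integral elements exist (`IsAlgClosed.exists_pow_nat_eq`) and are integral (`IsIntegral.of_pow`). `sy_spec`: `(σ (B ι))^l = σ (ι α) = (ac σ ι) α = (B (ac σ ι))^l`, both nonzero: they differ by a power of the primitive root `algebraMap ζ`
(`IsPrimitiveRoot.eq_pow_of_pow_eq_one`; see `two_roots`, `kq_is` in H51/SN/Kum.lean), the exponent in `ZMod l` is unique (`sy_eq`). `sy_fix`: if `ac σ ι = ι` the symbol is the Kummer symbol (`kq_eq_nat`).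
-/

set_option autoImplicit false

open scoped NumberField Classical
open IsDedekindDomain NumberField

noncomputable section

namespace Pool.Agent.H36.FR

open H63.MA H38.BB H38.BG H77.PC3 H51.SN H57.SL H36.QA H1.LS4 H38.ML

variable {K : IntermediateField ℚ QBar} [NumberField K] {F : Type} [Field F] [NumberField F]
  [Algebra K F] {l : ℕ} {ζ : K}

private theorem two_rt {Ω : Type} [Field Ω] {l : ℕ} (hl : l.Prime) {z : Ω} (hz : IsPrimitiveRoot z l)
    {x B D : Ω} (hx : x ≠ 0) (hB : B ^ l = x) (hD : D ^ l = x) : ∃ i < l, D = z ^ i * B := by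
  have hB0 : B ≠ 0 := by
    intro h0
    rw [h0, zero_pow hl.ne_zero] at hB
    exact hx hB.symm
  have hne : NeZero l := ⟨hl.ne_zero⟩
  have h1 : (D / B) ^ l = 1 := by
    rw [div_pow, hD, hB, div_self hx]
  obtain ⟨i, hi, h2⟩ := hz.eq_pow_of_pow_eq_one h1
  exact ⟨i, hi, by rw [h2, div_mul_cancel₀ _ hB0]⟩

omit [NumberField F] [NumberField K] in
private theorem rt_pow {α : 𝓞 F} {B : (F →ₐ[K] QBar) → 𝓞 QBar} (hB : Rt l α B) (ι : F →ₐ[K] QBar) :
    (B ι : QBar) ^ l = ι (α : F) := by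
  have h1 := congrArg (fun z : 𝓞 QBar => (z : QBar)) (hB ι)
  simp only [map_pow] at h1
  exact h1

omit [NumberField F] [NumberField K] in
private theorem rt_ne {α : 𝓞 F} (hα : α ≠ 0) (ι : F →ₐ[K] QBar) : ι (α : F) ≠ 0 := by
  intro h0
  have h1 : (α : F) = 0 := by
    apply (ι : F →+* QBar).injective
    rw [map_zero]
    exact h0
  exact hα (NumberField.RingOfIntegers.ext h1)

omit [NumberField F] [NumberField K] in
private theorem rt_sig {α : 𝓞 F} {B : (F →ₐ[K] QBar) → 𝓞 QBar} (hB : Rt l α B) (σ : Gal(QBar/K))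
    (ι : F →ₐ[K] QBar) : (σ (B ι : QBar)) ^ l = (ac σ ι) (α : F) := by
  rw [← map_pow, rt_pow hB ι]
  rfl

omit [NumberField F] [NumberField K] in
theorem rt_ex (hl : 0 < l) (α : 𝓞 F) : Rt l α (rt (K := K) l α) := by
  have h0 : ∃ B : (F →ₐ[K] QBar) → 𝓞 QBar, Rt l α B := by
    have h1 : ∀ ι : F →ₐ[K] QBar, ∃ b : 𝓞 QBar, b ^ l = ro ι α := by
      intro ι
      obtain ⟨z, hz⟩ := IsAlgClosed.exists_pow_nat_eq (ι (α : F)) hl
      refine ⟨⟨z, ?_⟩, NumberField.RingOfIntegers.ext ?_⟩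
      · refine IsIntegral.of_pow hl ?_
        rw [hz]
        exact (ro ι α).2
      · exact hz
    choose B hB using h1
    exact ⟨B, hB⟩
  unfold rt
  rw [dif_pos h0]
  exact h0.choose_spec

omit [NumberField F] [NumberField K] in
theorem sy_spec (hl : l.Prime) (hζ : IsPrimitiveRoot ζ l) {α : 𝓞 F} {B : (F →ₐ[K] QBar) → 𝓞 QBar}
    (hB : Rt l α B) (hα : α ≠ 0) (σ : Gal(QBar/K)) (ι : F →ₐ[K] QBar) :
    σ (B ι : QBar) = algebraMap K QBar ζ ^ (sy l ζ B σ ι).val * (B (ac σ ι) : QBar) := by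
  have hne : NeZero l := ⟨hl.ne_zero⟩
  have hz : IsPrimitiveRoot (algebraMap K QBar ζ) l := hζ.map_of_injective (algebraMap K QBar).injective
  have h0 : ∃ a : ZMod l, σ (B ι : QBar) = algebraMap K QBar ζ ^ a.val * (B (ac σ ι) : QBar) := by
    obtain ⟨i, hi, h1⟩ := two_rt hl hz (rt_ne hα (ac σ ι)) (rt_pow hB (ac σ ι)) (rt_sig hB σ ι)
    exact ⟨(i : ZMod l), by rw [ZMod.val_cast_of_lt hi]; exact h1⟩
  unfold sy
  rw [dif_pos h0]
  exact h0.choose_spec

omit [NumberField F] [NumberField K] in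
theorem sy_eq (hl : l.Prime) (hζ : IsPrimitiveRoot ζ l) {α : 𝓞 F} {B : (F →ₐ[K] QBar) → 𝓞 QBar}
    (hB : Rt l α B) (hα : α ≠ 0) (σ : Gal(QBar/K)) (ι : F →ₐ[K] QBar) (n : ℕ)
    (h : σ (B ι : QBar) = algebraMap K QBar ζ ^ n * (B (ac σ ι) : QBar)) :
    sy l ζ B σ ι = (n : ZMod l) := by
  have hne : NeZero l := ⟨hl.ne_zero⟩
  have hz : IsPrimitiveRoot (algebraMap K QBar ζ) l := hζ.map_of_injective (algebraMap K QBar).injective
  have hB0 : (B (ac σ ι) : QBar) ≠ 0 := by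
    intro h0
    have h1 := rt_pow hB (ac σ ι)
    rw [h0, zero_pow hl.ne_zero] at h1
    exact rt_ne hα (ac σ ι) h1.symm
  have h1 := sy_spec hl hζ hB hα σ ι
  rw [h] at h1
  have h2 := mul_right_cancel₀ hB0 h1
  rw [← pow_mod_orderOf, ← hz.eq_orderOf] at h2
  have h3 := hz.pow_inj (Nat.mod_lt _ hl.pos) (ZMod.val_lt _) h2
  apply ZMod.val_injective l
  rw [ZMod.val_natCast, h3]

omit [NumberField F] [NumberField K] in
theorem sy_fix (hl : l.Prime) (hζ : IsPrimitiveRoot ζ l) {α : 𝓞 F} {B : (F →ₐ[K] QBar) → 𝓞 QBar}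
    (hB : Rt l α B) (hα : α ≠ 0) (σ : Gal(QBar/K)) (ι : F →ₐ[K] QBar) (h : ac σ ι = ι) :
    sy l ζ B σ ι = kq l ζ (ι (α : F)) σ := by
  have hne : NeZero l := ⟨hl.ne_zero⟩
  have h1 : σ (ι (α : F)) = ι (α : F) := by
    exact congrArg (fun f : F →ₐ[K] QBar => f (α : F)) h
  have h2 := sy_spec hl hζ hB hα σ ι
  rw [h] at h2
  rw [kq_eq_nat hl hζ (rt_ne hα ι) h1 (sy l ζ B σ ι).val (rt_pow hB ι) h2, ZMod.natCast_zmod_val]

end Pool.Agent.H36.FR
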