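import Pool.Agent.H36.FR.Itt
import Pool.Agent.H36.FR.Sym
import Pool.Agent.H51.SN.Unr

/-!
# [H36 FR KSY] Symbols on inertia

`v` with `l ∉ v`, `P = Q.P v`, `τ ∈ P.inertia`, all embeddings of `F` fixed by `τ`.
* `kap_ine`: `sy_fix`.
* `kq_unit`: `unr` (H51/SN/Unr.lean) for the field `ι.fieldRange` (a number field in `QBar`; `τ` fixes it), the element `ι α`, the place under `P`: order `0` as `ro ι α ∉ P` (`ord` of an integral element not in the prime is `0`). `l ∉ P` since `l ∉ v` (`Q.under`).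
* `kq_unif`: `pe F Q v ι = w`, `α ∈ w`, `α ∉ w²`: `ord w α = 1`; `ord w (uf v) = ord v (uf v) = 1` (`ord_ex`, `H51.K1.ord_uf`). So `ι α / uf v` has order `0` at the place of `ι.fieldRange` under `P` (transport along `F ≃ ι.fieldRange`), symbol `0` (`unr`), and
  `kq (x y) = kq x + kq y` (`kq_arg`).
-/

set_option autoImplicit false

open scoped NumberField Classical
open IsDedekindDomain NumberField

noncomputable section

namespace Pool.Agent.H36.FR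

open H63.MA H38.BB H38.BG H77.PC3 H51.SN H57.SL H36.QA H1.LS4 H38.ML

variable {K : IntermediateField ℚ QBar} [NumberField K] {F : Type} [Field F] [NumberField F]
  [Algebra K F] {l : ℕ} {ζ : K}

omit [NumberField F] [NumberField K] in
theorem kap_ine {V : Type} [CommGroup V] (hl : l.Prime) (hζ : IsPrimitiveRoot ζ l) {α : 𝓞 F}
    {B : (F →ₐ[K] QBar) → 𝓞 QBar} (hB : Rt l α B) (hα : α ≠ 0) (x : (F →ₐ[K] QBar) → V)
    (τ : Gal(QBar/K)) (hτ : ∀ ι : F →ₐ[K] QBar, ac τ ι = ι) :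
    kap l ζ x B τ = ∏ᶠ ι : F →ₐ[K] QBar, x ι ^ (kq l ζ (ι (α : F)) τ).val := by
  unfold kap
  refine finprod_congr fun ι => ?_
  rw [hτ ι, sy_fix hl hζ hB hα τ ι (hτ ι)]

/-- the symbol of a quotient of two units is trivial on the inertia group -/
private theorem kq_core (hl : l.Prime) (hζ : IsPrimitiveRoot ζ l) (P : Ideal (𝓞 QBar))
    (hP : P.IsPrime) (hlP : ((l : ℕ) : 𝓞 QBar) ∉ P) (x : QBar) (hx : x ≠ 0) (a c : 𝓞 QBar)
    (ha : a ∉ P) (hc : c ∉ P) (hac : x * (c : QBar) = a) (τ : Gal(QBar/K))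
    (hτ : τ ∈ P.inertia Gal(QBar/K)) (hτx : τ x = x) (hτc : τ (c : QBar) = c) :
    kq l ζ x τ = 0 := by
  obtain ⟨B, hB⟩ := IsAlgClosed.exists_pow_nat_eq x hl.pos
  have hk := kq_is hl hζ hx hτx B hB
  obtain ⟨k, hkd⟩ : ∃ k, k = (kq l ζ x τ).val := ⟨_, rfl⟩
  rw [← hkd] at hk
  obtain ⟨C, hC⟩ : ∃ C : QBar, C = (c : QBar) * B := ⟨_, rfl⟩
  have hCp : C ^ l = ((c ^ (l - 1) * a : 𝓞 QBar) : QBar) := by
    have e1 : ((c ^ (l - 1) * a : 𝓞 QBar) : QBar) = (c : QBar) ^ (l - 1) * (a : QBar) := by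
      push_cast
      rfl
    rw [hC, mul_pow, hB, e1, ← hac]
    obtain ⟨r, hr⟩ : ∃ r, l = r + 1 := ⟨l - 1, by have := hl.pos; omega⟩
    rw [hr, Nat.add_sub_cancel, pow_succ]
    ring
  have hint : IsIntegral ℤ C := by
    refine IsIntegral.of_pow hl.pos ?_
    rw [hCp]
    exact NumberField.RingOfIntegers.isIntegral_coe (c ^ (l - 1) * a)
  obtain ⟨C', hC'⟩ : ∃ C' : 𝓞 QBar, (C' : QBar) = C := ⟨⟨C, hint⟩, rfl⟩
  have hC'n : C' ∉ P := by
    intro hmem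
    have h1 : C' ^ l ∈ P := Ideal.pow_mem_of_mem P hmem l hl.pos
    have h2 : C' ^ l = c ^ (l - 1) * a := by
      apply NumberField.RingOfIntegers.ext
      have h3 : ((C' ^ l : 𝓞 QBar) : QBar) = (C' : QBar) ^ l := by
        push_cast
        rfl
      rw [h3, hC', hCp]
    rw [h2] at h1
    rcases hP.mem_or_mem h1 with h3 | h3
    · exact hc (hP.mem_of_pow_mem _ h3)
    · exact ha h3
  have hτC : τ (C' : QBar) = algebraMap K QBar ζ ^ k * (C' : QBar) := by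
    rw [hC', hC, map_mul, hτc, hk]
    ring
  have hd : l ∣ k := H38.ML.pow_eq_one_of_inertia P l hl.pos hlP ζ hζ τ hτ C' hC'n k hτC
  have : NeZero l := ⟨hl.ne_zero⟩
  have hlt : k < l := by
    rw [hkd]
    exact ZMod.val_lt _
  have hk0 : k = 0 := Nat.eq_zero_of_dvd_of_lt hd hlt
  rw [hk0] at hkd
  exact (ZMod.val_eq_zero _).1 hkd.symm

private theorem l_nP (Q : DP K QBar) (v : Pl K) (hv : ((l : ℕ) : 𝓞 K) ∉ v.asIdeal) :
    ((l : ℕ) : 𝓞 QBar) ∉ Q.P v := by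
  intro h
  apply hv
  rw [← Q.under v, Ideal.mem_under]
  rwa [map_natCast]

omit [NumberField F] in
theorem kq_unit (hl : l.Prime) (hζ : IsPrimitiveRoot ζ l) (Q : DP K QBar) (v : Pl K)
    (hv : ((l : ℕ) : 𝓞 K) ∉ v.asIdeal) (α : 𝓞 F) (ι : F →ₐ[K] QBar) (hu : ro ι α ∉ Q.P v)
    (τ : Gal(QBar/K)) (hτ : τ ∈ (Q.P v).inertia Gal(QBar/K)) (h : ac τ ι = ι) :
    kq l ζ (ι (α : F)) τ = 0 := by
  have hP := Q.prime v
  have h1 : τ (ι (α : F)) = ι (α : F) := congrArg (fun f : F →ₐ[K] QBar => f (α : F)) h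
  have h0 : ι (α : F) ≠ 0 := by
    intro h0
    apply hu
    have h2 : ro ι α = 0 := NumberField.RingOfIntegers.ext (by rw [ro_coe, h0]; rfl)
    rw [h2]
    exact (Q.P v).zero_mem
  refine kq_core hl hζ (Q.P v) hP (l_nP Q v hv) (ι (α : F)) h0 (ro ι α) 1 hu
    (fun h2 => hP.ne_top ((Ideal.eq_top_iff_one _).2 h2)) ?_ τ hτ h1 ?_
  · rw [ro_coe]
    exact mul_one _
  · exact map_one τ

private theorem ksy_ord1 (v : Pl F) (a : 𝓞 F) (x : Fˣ) (hx : (x : F) = algebraMap (𝓞 F) F a)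
    (ha : a ∈ v.asIdeal) (ha2 : a ∉ v.asIdeal ^ 2) : ord v x = 1 := by
  have h1 : 0 < ord v x := by
    rw [ord_pos_iff, hx, HeightOneSpectrum.valuation_of_algebraMap,
      HeightOneSpectrum.intValuation_lt_one_iff_mem]
    exact ha
  have h2 : ord v x < 2 := by
    by_contra hc
    push Not at hc
    apply ha2
    rw [← HeightOneSpectrum.intValuation_le_pow_iff_mem, ← HeightOneSpectrum.valuation_of_algebraMap (K := F)]
    have h3 : v.valuation F (x : F) ≤ WithZero.exp (-(((2 : ℕ) : ℤ))) := by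
      rw [val_eq, WithZero.exp_le_exp]
      push_cast
      omega
    rw [hx] at h3
    exact h3
  omega

theorem kq_unif (hl : l.Prime) (hζ : IsPrimitiveRoot ζ l) (Q : DP K QBar) (v : Pl K)
    (hv : ((l : ℕ) : 𝓞 K) ∉ v.asIdeal) (hi : IT QBar F v) (α : 𝓞 F) (ι : F →ₐ[K] QBar)
    (h1 : α ∈ (pe F Q v ι).asIdeal) (h2 : α ∉ (pe F Q v ι).asIdeal ^ 2) (τ : Gal(QBar/K))
    (hτ : τ ∈ (Q.P v).inertia Gal(QBar/K)) :
    kq l ζ (ι (α : F)) τ = kq l ζ ((H51.K1.uf v : K) : QBar) τ := by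
  have hP := Q.prime v
  have hac : ac τ ι = ι := hi (Q.P v) hP (Q.under v) τ hτ ι
  have hfix : ∀ y : F, τ (ι y) = ι y := fun y => congrArg (fun f : F →ₐ[K] QBar => f y) hac
  have hα0 : (α : F) ≠ 0 := by
    intro h0
    apply h2
    have h3 : α = 0 := NumberField.RingOfIntegers.ext h0
    rw [h3]
    exact Ideal.zero_mem _
  obtain ⟨w, hw⟩ : ∃ w, w = pe F Q v ι := ⟨_, rfl⟩
  rw [← hw] at h1 h2
  have hov : Over w v := by
    rw [hw]
    exact pe_over F Q v ι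
  obtain ⟨y, hy⟩ : ∃ y : Fˣ, y = Units.map (algebraMap K F : K →* F) (H51.K1.uf v) := ⟨_, rfl⟩
  have hy1 : ord w y = 1 := by
    rw [hy, ord_ex hov hi, H51.K1.ord_uf]
  have hyι : ι (y : F) = ((H51.K1.uf v : K) : QBar) := by
    rw [hy]
    exact ι.commutes (H51.K1.uf v : K)
  have hα1 : ord w (Units.mk0 (α : F) hα0) = 1 := ksy_ord1 w α _ rfl h1 h2
  obtain ⟨e, he⟩ : ∃ e : Fˣ, e = Units.mk0 (α : F) hα0 * y⁻¹ := ⟨_, rfl⟩
  have he0 : H38.TD.od w e = 0 := by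
    rw [← ord_eq_od, he, ord_mul, ord_inv, hα1, hy1]
    norm_num
  obtain ⟨a, c, ha, hc, hac'⟩ := H38.TD.exists_int_div w e he0
  have hey : (α : F) = (e : F) * (y : F) := by
    rw [he]
    rw [Units.val_mul, Units.val_mk0, Units.val_inv_eq_inv_val, inv_mul_cancel_right₀ y.ne_zero]
  rw [hw, mem_pe] at ha hc
  have hine : ∀ z : F, z ≠ 0 → ι z ≠ 0 := fun z hz h0 =>
    hz ((ι : F →+* QBar).injective (by rw [map_zero]; exact h0))
  have hk0 : kq l ζ (ι (e : F)) τ = 0 := by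
    refine kq_core hl hζ (Q.P v) hP (l_nP Q v hv) (ι (e : F)) (hine _ e.ne_zero) (ro ι a) (ro ι c)
      ha hc ?_ τ hτ (hfix _) ?_
    · rw [ro_coe, ro_coe, ← map_mul, hac']
    · rw [ro_coe]
      exact hfix _
  rw [hey, map_mul, kq_arg hl hζ (hine _ e.ne_zero) (hine _ y.ne_zero) (hfix _) (hfix _), hk0,
    zero_add, hyι]

end Pool.Agent.H36.FR
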