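import Pool.Agent.H36.FR.Per

/-!
# [H36 FR PEP] Products of periodic functions

As H36/FA/Pep.lean (proved), index set `s` of an arbitrary type `S`, ideals `𝔞 v i`, pairwise coprime in every component. Induction on `s` with `mn_mul`, `per_mul`; the empty product is the ideal `⊤`
(`Ideal.one_eq_top`): `𝓞 (E i) ⧸ ⊤` has one element, `absNorm ⊤ = 1`.
-/

set_option autoImplicit false

open scoped NumberField Classical
open IsDedekindDomain NumberField

noncomputable section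

namespace Pool.Agent.H36.FR

open H63.MA H38.BB H38.BG H77.PC3 H51.SN H57.SL H36.QA H1.LS4 H38.ML

variable {I : Type} [Fintype I] {E : I → Type} [∀ i, Field (E i)] [∀ i, NumberField (E i)]

omit [Fintype I] [∀ i, NumberField (E i)] in
theorem per_prod {S : Type} (s : Finset S) (𝔞 : S → (i : I) → Ideal (𝓞 (E i))) (f : S → Tp E → ℝ)
    (hf : ∀ v ∈ s, Per (𝔞 v) (f v)) :
    Per (fun i => ∏ v ∈ s, 𝔞 v i) (fun α => ∏ v ∈ s, f v α) := by
  intro α α' h
  refine Finset.prod_congr rfl fun v hv => hf v hv α α' fun i => ?_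
  exact Ideal.le_of_dvd (Finset.dvd_prod_of_mem (fun v : S => 𝔞 v i) hv) (h i)

theorem mn_prod {S : Type} (s : Finset S) (𝔞 : S → (i : I) → Ideal (𝓞 (E i)))
    (h0 : ∀ v ∈ s, ∀ i, 𝔞 v i ≠ ⊥)
    (hc : ∀ v ∈ s, ∀ w ∈ s, v ≠ w → ∀ i, IsCoprime (𝔞 v i) (𝔞 w i)) (f : S → Tp E → ℝ)
    (hf : ∀ v ∈ s, Per (𝔞 v) (f v)) :
    Mn (fun i => ∏ v ∈ s, 𝔞 v i) (fun α => ∏ v ∈ s, f v α) = ∏ v ∈ s, Mn (𝔞 v) (f v) := by
  induction s using Finset.induction_on with
  | empty =>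
    simp only [Finset.prod_empty]
    rw [show (fun _ : I => (1 : Ideal _)) = (fun i => (⊤ : Ideal (𝓞 (E i)))) from
      funext fun i => Ideal.one_eq_top]
    unfold Mn
    have hs : ∀ i, Subsingleton (𝓞 (E i) ⧸ (⊤ : Ideal (𝓞 (E i)))) := fun i =>
      Ideal.Quotient.subsingleton_iff.2 rfl
    let _ : Unique ((i : I) → 𝓞 (E i) ⧸ (⊤ : Ideal (𝓞 (E i)))) :=
      ⟨⟨fun _ => 0⟩, fun _ => Subsingleton.elim _ _⟩
    rw [finsum_unique]
    simp only [Ideal.absNorm_top]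
    simp
  | insert a s ha ih =>
    have h0' : ∀ v ∈ s, ∀ i, 𝔞 v i ≠ ⊥ := fun v hv => h0 v (Finset.mem_insert_of_mem hv)
    have hc' : ∀ v ∈ s, ∀ w ∈ s, v ≠ w → ∀ i, IsCoprime (𝔞 v i) (𝔞 w i) := fun v hv w hw =>
      hc v (Finset.mem_insert_of_mem hv) w (Finset.mem_insert_of_mem hw)
    have hs : ∀ v ∈ s, Per (𝔞 v) (f v) := fun v hv => hf v (Finset.mem_insert_of_mem hv)
    have hcp : ∀ i, IsCoprime (𝔞 a i) (∏ v ∈ s, 𝔞 v i) := by
      intro i
      refine IsCoprime.prod_right fun v hv => ?_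
      refine hc a (Finset.mem_insert_self a s) v (Finset.mem_insert_of_mem hv) ?_ i
      intro h
      exact ha (h ▸ hv)
    have hd : ∀ i, (∏ v ∈ s, 𝔞 v i) ≠ ⊥ := by
      intro i
      have h2 : (∏ v ∈ s, 𝔞 v i) ≠ 0 := Finset.prod_ne_zero_iff.2 fun v hv => h0' v hv i
      exact h2
    have h3 := mn_mul (h0 a (Finset.mem_insert_self a s)) hd hcp
      (hf a (Finset.mem_insert_self a s)) (per_prod s 𝔞 f hs)
    rw [Finset.prod_insert ha, ← ih h0' hc' hs, ← h3]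
    have h4 : (fun i => ∏ v ∈ insert a s, 𝔞 v i) = fun i => 𝔞 a i * ∏ v ∈ s, 𝔞 v i :=
      funext fun i => Finset.prod_insert ha
    have h5 : (fun α : Tp E => ∏ v ∈ insert a s, f v α) = fun α => f a α * ∏ v ∈ s, f v α :=
      funext fun α => Finset.prod_insert ha
    rw [h4, h5]

end Pool.Agent.H36.FR
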