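import Pool.Agent.H36.FA.Anu
import Pool.Agent.H36.FR.Nex

/-!
# [H36 FR UPP] Upper bound for the tuples which are bad at all primes of a set

As H36/FA/Upp.lean (proved, read it). If `α` is bad at all `v ∈ d` choose for every `v ∈ d` a pattern: `(1, x)`: `α x.1 ∈ x.2²`; `(2, x)`: `nm x.2 ≠ nm v`, `α x.1 ∈ x.2`; `(3, x, y)`: `x ≠ y`, `α x.1 ∈ x.2`, `α y.1 ∈ y.2`
(`x, y` in the finite set `s_v` of `ov_fin`, at most `kk` elements): at most `cb = kk² + 2 kk` patterns for every `v`. For a fixed choice the component `α i` is in an ideal `𝔞_i` (product of the `x.2²`, `x.2`, different primes, `x.1 = i`), and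
`∏_i N𝔞_i ≥ (∏_d nm v)²` (`ov_nm`). `FA.ann_up (E i)`: at most `∏ C_i X i / N𝔞_i ≤ C (∏ X i)/(∏_d nm)²`. Union bound over the choices.
-/

set_option autoImplicit false

open scoped NumberField Classical
open IsDedekindDomain NumberField

noncomputable section

namespace Pool.Agent.H36.FR

open H63.MA H38.BB H38.BG H77.PC3 H51.SN H57.SL H36.QA H1.LS4 H38.ML

variable {K : Type} [Field K] [NumberField K] {I : Type} [Fintype I] {E : I → Type}
  [∀ i, Field (E i)] [∀ i, NumberField (E i)] [∀ i, Algebra K (E i)]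

/-- the exponents of a pair of places -/
private def e2 (q : (Σ i, Pl (E i)) × (Σ i, Pl (E i))) (z : Σ i, Pl (E i)) : ℕ :=
  (if q.1 = z then 1 else 0) + (if q.2 = z then 1 else 0)

/-- the exponents of a place -/
private def e1 (x : Σ i, Pl (E i)) (z : Σ i, Pl (E i)) : ℕ := if x = z then 1 else 0

/-- the patterns of a place -/
private def pat (s : Finset (Σ i, Pl (E i))) (v : Pl K) : Finset ((Σ i, Pl (E i)) → ℕ) :=
  (s ×ˢ s).image e2 ∪ (s.filter fun x => nm x.2 ≠ nm v).image e1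

private theorem one_nm {F : Type} [Field F] [NumberField F] (w : Pl F) : (1 : ℝ) ≤ nm w := by
  have h0 : nm w ≠ 0 := fun h => w.ne_bot (Ideal.absNorm_eq_zero_iff.1 h)
  exact_mod_cast Nat.one_le_iff_ne_zero.2 h0

private theorem pat_card {s : Finset (Σ i, Pl (E i))} (hs : s.card ≤ kk K E) (v : Pl K) :
    ((pat s v).card : ℝ) ≤ cb K E := by
  have h1 : (pat s v).card ≤ kk K E * kk K E + kk K E := by
    unfold pat
    refine (Finset.card_union_le _ _).trans (add_le_add ?_ ?_)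
    · refine Finset.card_image_le.trans ?_
      rw [Finset.card_product]
      exact Nat.mul_le_mul hs hs
    · exact Finset.card_image_le.trans ((Finset.card_filter_le _ _).trans hs)
  have h2 : ((pat s v).card : ℝ) ≤ (kk K E : ℝ) * kk K E + kk K E := by exact_mod_cast h1
  have h3 : (0 : ℝ) ≤ kk K E := Nat.cast_nonneg _
  unfold cb
  nlinarith

private theorem pat_nm {s : Finset (Σ i, Pl (E i))} {v : Pl K} (hs : ∀ x, x ∈ s ↔ Over x.2 v)
    {m : (Σ i, Pl (E i)) → ℕ} (hm : m ∈ pat s v) : (nm v : ℝ) ^ 2 ≤ ∏ z ∈ s, (nm z.2 : ℝ) ^ m z := by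
  have hv := one_nm v
  unfold pat at hm
  rcases Finset.mem_union.1 hm with h | h
  · obtain ⟨⟨x, y⟩, hq, rfl⟩ := Finset.mem_image.1 h
    obtain ⟨hx, hy⟩ := Finset.mem_product.1 hq
    have h1 : ∏ z ∈ s, (nm z.2 : ℝ) ^ e2 (x, y) z = nm x.2 * nm y.2 := by
      unfold e2
      rw [Finset.prod_congr rfl fun z _ => pow_add (nm z.2 : ℝ) (if x = z then 1 else 0) (if y = z then 1 else 0),
        Finset.prod_mul_distrib]
      congr 1
      · rw [Finset.prod_eq_single x (fun z _ hz => by rw [if_neg (Ne.symm hz), pow_zero]) (fun h => absurd hx h), if_pos rfl, pow_one]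
      · rw [Finset.prod_eq_single y (fun z _ hz => by rw [if_neg (Ne.symm hz), pow_zero]) (fun h => absurd hy h), if_pos rfl, pow_one]
    rw [h1, sq]
    exact mul_le_mul (ov_nm ((hs x).1 hx)).1 (ov_nm ((hs y).1 hy)).1 (by linarith) (by linarith [one_nm x.2])
  · obtain ⟨x, hx, rfl⟩ := Finset.mem_image.1 h
    obtain ⟨hxs, hx2⟩ := Finset.mem_filter.1 hx
    have h1 : ∏ z ∈ s, (nm z.2 : ℝ) ^ e1 x z = nm x.2 := by
      unfold e1
      rw [Finset.prod_eq_single x (fun z _ hz => by rw [if_neg (Ne.symm hz), pow_zero]) (fun h => absurd hxs h), if_pos rfl, pow_one]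
    rw [h1]
    exact (ov_nm ((hs x).1 hxs)).2 hx2

private theorem pat_ex {s : Finset (Σ i, Pl (E i))} {v : Pl K} (hs : ∀ x, x ∈ s ↔ Over x.2 v) {α : Tp E} (h : Bad α v) :
    ∃ m ∈ pat s v, ∀ i (w : Pl (E i)), α i ∈ w.asIdeal ^ m ⟨i, w⟩ := by
  unfold pat
  rcases h with ⟨i, w, hw, ha⟩ | ⟨i, w, hw, hn, ha⟩ | ⟨i, j, w, u, hw, hu, hne, ha, hb⟩
  · refine ⟨e2 (⟨i, w⟩, ⟨i, w⟩), Finset.mem_union_left _ (Finset.mem_image.2 ⟨_, Finset.mem_product.2 ⟨(hs _).2 hw, (hs _).2 hw⟩, rfl⟩), ?_⟩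
    intro j u
    unfold e2
    by_cases h1 : (⟨i, w⟩ : Σ i, Pl (E i)) = ⟨j, u⟩
    · obtain ⟨rfl, h2⟩ := Sigma.mk.inj_iff.1 h1
      obtain rfl := eq_of_heq h2
      rw [if_pos rfl]
      exact ha
    · rw [if_neg h1, add_zero, pow_zero, Ideal.one_eq_top]
      exact Submodule.mem_top
  · refine ⟨e1 ⟨i, w⟩, Finset.mem_union_right _ (Finset.mem_image.2 ⟨_, Finset.mem_filter.2 ⟨(hs _).2 hw, hn⟩, rfl⟩), ?_⟩
    intro j u
    unfold e1
    by_cases h1 : (⟨i, w⟩ : Σ i, Pl (E i)) = ⟨j, u⟩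
    · obtain ⟨rfl, h2⟩ := Sigma.mk.inj_iff.1 h1
      obtain rfl := eq_of_heq h2
      rw [if_pos rfl, pow_one]
      exact ha
    · rw [if_neg h1, pow_zero, Ideal.one_eq_top]
      exact Submodule.mem_top
  · refine ⟨e2 (⟨i, w⟩, ⟨j, u⟩), Finset.mem_union_left _ (Finset.mem_image.2 ⟨_, Finset.mem_product.2 ⟨(hs _).2 hw, (hs _).2 hu⟩, rfl⟩), ?_⟩
    intro k z
    unfold e2
    by_cases h1 : (⟨i, w⟩ : Σ i, Pl (E i)) = ⟨k, z⟩
    · have h3 : ¬ (⟨j, u⟩ : Σ i, Pl (E i)) = ⟨k, z⟩ := fun h3 => hne (h1.trans h3.symm)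
      rw [if_neg h3, if_pos h1, add_zero, pow_one]
      obtain ⟨rfl, h2⟩ := Sigma.mk.inj_iff.1 h1
      obtain rfl := eq_of_heq h2
      exact ha
    · by_cases h3 : (⟨j, u⟩ : Σ i, Pl (E i)) = ⟨k, z⟩
      · rw [if_neg h1, if_pos h3, zero_add, pow_one]
        obtain ⟨rfl, h2⟩ := Sigma.mk.inj_iff.1 h3
        obtain rfl := eq_of_heq h2
        exact hb
      · rw [if_neg h1, if_neg h3, add_zero, pow_zero, Ideal.one_eq_top]
        exact Submodule.mem_top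

/-- the ideal of the component `i` -/
private def ida {d : Finset (Pl K)} (W : (i : I) → Pl K → Finset (Pl (E i))) (τ : d → (Σ i, Pl (E i)) → ℕ) (i : I) : Ideal (𝓞 (E i)) :=
  ∏ p ∈ (Finset.univ : Finset d).sigma fun v : d => W i v, p.2.asIdeal ^ τ p.1 ⟨i, p.2⟩

private theorem mem_ida {d : Finset (Pl K)} {W : (i : I) → Pl K → Finset (Pl (E i))} (hW : ∀ i v w, w ∈ W i v ↔ Over w v)
    {τ : d → (Σ i, Pl (E i)) → ℕ} {i : I} {x : 𝓞 (E i)}
    (h : ∀ (v : d) (w : Pl (E i)), x ∈ w.asIdeal ^ τ v ⟨i, w⟩) : x ∈ ida W τ i := by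
  unfold ida
  rw [← IsDedekindDomain.inf_pow_eq_prod_of_prime ((Finset.univ : Finset d).sigma fun v : d => W i v)
    (fun p => p.2.asIdeal) (fun p => τ p.1 ⟨i, p.2⟩) (fun p _ => p.2.prime) ?_]
  · rw [Submodule.mem_finsetInf]
    exact fun p _ => h p.1 p.2
  · rintro ⟨v, w⟩ hv ⟨v', w'⟩ hv' hne h1
    obtain rfl : w = w' := HeightOneSpectrum.ext h1
    apply hne
    have h2 : Over w (v : Pl K) := (hW i v w).1 (Finset.mem_sigma.1 hv).2
    have h3 : Over w (v' : Pl K) := (hW i v' w).1 (Finset.mem_sigma.1 hv').2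
    have h4 : v = v' := Subtype.ext (HeightOneSpectrum.ext (h2.symm.trans h3))
    rw [h4]

private theorem ida_ne {d : Finset (Pl K)} (W : (i : I) → Pl K → Finset (Pl (E i))) (τ : d → (Σ i, Pl (E i)) → ℕ) (i : I) :
    ida W τ i ≠ ⊥ := by
  unfold ida
  rw [Ne, ← Ideal.zero_eq_bot, Finset.prod_eq_zero_iff]
  rintro ⟨p, -, hp⟩
  exact p.2.ne_bot (eq_zero_of_pow_eq_zero hp)

private theorem ida_norm {d : Finset (Pl K)} {W : (i : I) → Pl K → Finset (Pl (E i))} {s : Pl K → Finset (Σ i, Pl (E i))}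
    (hs : ∀ v x, x ∈ s v ↔ Over x.2 v) (hW : ∀ i v w, w ∈ W i v ↔ Over w v) {τ : d → (Σ i, Pl (E i)) → ℕ}
    (hτ : ∀ v : d, τ v ∈ pat (s v) (v : Pl K)) :
    (∏ v ∈ d, (nm v : ℝ)) ^ 2 ≤ ∏ i, (Ideal.absNorm (ida W τ i) : ℝ) := by
  have h1 : ∀ i, (Ideal.absNorm (ida W τ i) : ℝ) = ∏ v : d, ∏ w ∈ W i v, (nm w : ℝ) ^ τ v ⟨i, w⟩ := by
    intro i
    unfold ida
    rw [map_prod, Finset.prod_sigma]
    push_cast
    refine Finset.prod_congr rfl fun v _ => Finset.prod_congr rfl fun w _ => ?_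
    rw [map_pow]
    push_cast
    rfl
  rw [Finset.prod_congr rfl fun i _ => h1 i, Finset.prod_comm]
  have h2 : ∀ v : d, ∏ i, ∏ w ∈ W i v, (nm w : ℝ) ^ τ v ⟨i, w⟩ = ∏ z ∈ s v, (nm z.2 : ℝ) ^ τ v z := by
    intro v
    have h3 : s (v : Pl K) = (Finset.univ : Finset I).sigma fun i => W i v := by
      ext z
      rw [Finset.mem_sigma, hs, hW]
      exact ⟨fun h => ⟨Finset.mem_univ _, h⟩, fun h => h.2⟩
    rw [h3, Finset.prod_sigma]
  rw [Finset.prod_congr rfl fun v _ => h2 v, ← Finset.prod_pow, ← Finset.prod_coe_sort d fun v => (nm v : ℝ) ^ 2]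
  exact Finset.prod_le_prod (fun v _ => by positivity) fun v _ => pat_nm (hs v) (hτ v)

variable (K) in
theorem upp (hE : ∀ i, NumberField.IsTotallyComplex (E i)) : ∃ C : ℝ, 1 ≤ C ∧
    ∀ X : I → ℝ, (∀ i, 1 ≤ X i) → ∀ d : Finset (Pl K),
      (((BX E X).filter fun α => ∀ v ∈ d, Bad α v).card : ℝ) ≤
        C * (∏ i, X i) * cb K E ^ d.card / (∏ v ∈ d, (nm v : ℝ)) ^ 2 := by
  choose C hC h using fun i => FA.ann_up (E i) (hE i)
  choose s hs hsc using fun v : Pl K => ov_fin E v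
  obtain ⟨W, hW⟩ : ∃ W : (i : I) → Pl K → Finset (Pl (E i)), ∀ i v w, w ∈ W i v ↔ Over w v := by
    refine ⟨fun i v => (s v).preimage (fun w : Pl (E i) => (⟨i, w⟩ : Σ i, Pl (E i))) (fun a _ b _ hab => eq_of_heq (Sigma.mk.inj_iff.1 hab).2), fun i v w => ?_⟩
    rw [Finset.mem_preimage, hs]
  have hCp : 1 ≤ ∏ i, C i := by
    calc (1 : ℝ) = ∏ _i : I, (1 : ℝ) := Finset.prod_const_one.symm
      _ ≤ ∏ i, C i := Finset.prod_le_prod (fun _ _ => zero_le_one) fun i _ => hC i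
  refine ⟨∏ i, C i, hCp, fun X hX d => ?_⟩
  have hXp : 0 ≤ ∏ i, X i := Finset.prod_nonneg fun i _ => by linarith [hX i]
  have hNp : 0 < (∏ v ∈ d, (nm v : ℝ)) ^ 2 := by
    have h1 : 0 < ∏ v ∈ d, (nm v : ℝ) := Finset.prod_pos fun v _ => by linarith [one_nm v]
    positivity
  have h1 : ((BX E X).filter fun α => ∀ v ∈ d, Bad α v) ⊆
      (Fintype.piFinset fun v : d => pat (s v) (v : Pl K)).biUnion fun τ =>
        Fintype.piFinset fun i => (FA.Ax (E i) (X i)).filter fun x => x ∈ ida W τ i := by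
    intro α hα
    obtain ⟨hα1, hα2⟩ := Finset.mem_filter.1 hα
    unfold BX at hα1
    rw [Fintype.mem_piFinset] at hα1
    have hex : ∀ v : d, ∃ m ∈ pat (s v) (v : Pl K), ∀ i (w : Pl (E i)), α i ∈ w.asIdeal ^ m ⟨i, w⟩ :=
      fun v => pat_ex (hs v) (hα2 v v.2)
    choose τ hτ1 hτ2 using hex
    refine Finset.mem_biUnion.2 ⟨τ, Fintype.mem_piFinset.2 hτ1, ?_⟩
    rw [Fintype.mem_piFinset]
    exact fun i => Finset.mem_filter.2 ⟨hα1 i, mem_ida hW fun v w => hτ2 v i w⟩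
  have h2 : ∀ τ ∈ Fintype.piFinset fun v : d => pat (s v) (v : Pl K),
      ((Fintype.piFinset fun i => (FA.Ax (E i) (X i)).filter fun x => x ∈ ida W τ i).card : ℝ) ≤
      (∏ i, C i) * (∏ i, X i) / (∏ v ∈ d, (nm v : ℝ)) ^ 2 := by
    intro τ hτ
    have hn := ida_norm hs hW (Fintype.mem_piFinset.1 hτ)
    rw [Fintype.card_piFinset]
    push_cast
    calc ∏ i, (((FA.Ax (E i) (X i)).filter fun x => x ∈ ida W τ i).card : ℝ)
        ≤ ∏ i, C i * X i / Ideal.absNorm (ida W τ i) :=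
          Finset.prod_le_prod (fun i _ => Nat.cast_nonneg _) fun i _ => h i (ida W τ i) (ida_ne W τ i) (X i) (hX i)
      _ = (∏ i, C i) * (∏ i, X i) / ∏ i, (Ideal.absNorm (ida W τ i) : ℝ) := by
        rw [Finset.prod_div_distrib, Finset.prod_mul_distrib]
      _ ≤ _ := div_le_div_of_nonneg_left (mul_nonneg (by linarith) hXp) hNp hn
  have h3 : (((Fintype.piFinset fun v : d => pat (s v) (v : Pl K)).card : ℕ) : ℝ) ≤ cb K E ^ d.card := by
    rw [Fintype.card_piFinset]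
    push_cast
    calc ∏ v : d, ((pat (s v) (v : Pl K)).card : ℝ) ≤ ∏ _v : d, cb K E :=
          Finset.prod_le_prod (fun v _ => Nat.cast_nonneg _) fun v _ => pat_card (hsc v) v
      _ = cb K E ^ d.card := by rw [Finset.prod_const, Finset.card_univ, Fintype.card_coe]
  calc (((BX E X).filter fun α => ∀ v ∈ d, Bad α v).card : ℝ)
      ≤ (((Fintype.piFinset fun v : d => pat (s v) (v : Pl K)).biUnion fun τ =>
        Fintype.piFinset fun i => (FA.Ax (E i) (X i)).filter fun x => x ∈ ida W τ i).card : ℝ) := by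
        exact_mod_cast Finset.card_le_card h1
    _ ≤ ∑ τ ∈ Fintype.piFinset fun v : d => pat (s v) (v : Pl K),
        ((Fintype.piFinset fun i => (FA.Ax (E i) (X i)).filter fun x => x ∈ ida W τ i).card : ℝ) := by
        exact_mod_cast Finset.card_biUnion_le
    _ ≤ ∑ _τ ∈ Fintype.piFinset fun v : d => pat (s v) (v : Pl K), (∏ i, C i) * (∏ i, X i) / (∏ v ∈ d, (nm v : ℝ)) ^ 2 :=
        Finset.sum_le_sum h2
    _ = ((Fintype.piFinset fun v : d => pat (s v) (v : Pl K)).card : ℝ) * ((∏ i, C i) * (∏ i, X i) / (∏ v ∈ d, (nm v : ℝ)) ^ 2) := by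
        rw [Finset.sum_const, nsmul_eq_mul]
    _ ≤ cb K E ^ d.card * ((∏ i, C i) * (∏ i, X i) / (∏ v ∈ d, (nm v : ℝ)) ^ 2) :=
        mul_le_mul_of_nonneg_right h3 (div_nonneg (mul_nonneg (by linarith) hXp) hNp.le)
    _ = (∏ i, C i) * (∏ i, X i) * cb K E ^ d.card / (∏ v ∈ d, (nm v : ℝ)) ^ 2 := by ring

end Pool.Agent.H36.FR
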