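import Pool.Agent.H36.FR.Cnt
import Pool.Agent.H36.FR.Mpi
import Pool.Agent.H36.FA.Sv
import Pool.Agent.H36.FR.Upp
import Pool.Agent.H36.FR.Pep

/-!
# [H36 FR MSV] The sieve over the family

As H36/FA/Msv.lean (read it; proved or in work). `R = R₀ \ q`, `Ω0 = {α ∈ BX, α ≡ 1 (ex 𝔪)}`. If `α i ∈ w`, `w` over `v`, `α ∈ Ω0`: `nm v ≤ nm w ≤ N(α i) ≤ 2^n X i ≤ 2^n Z²` (`FA.ann_norm`), and `v` does not divide `𝔪` (`ex_dvd`).
So outside `R₀` all tuples of `Ω0` are units, and `∑_{α ∈ Ph} ∏_q f v α = ∑_{α ∈ Ω0, not bad on R} ∏_q f v α` (on `q`: `f v α ≠ 0` implies `Un`, `un_not_bad`).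
Now `FA.sv` with `V = Pl K`, `b = Bad`, `f ω = ∏_q f v ω`, `β = be`, `m = ∏_q Mn (ex v) (f v)`, `Y = κ ∏ X i / N𝔪^kk`, `B := B^#q`, `U = C ∏ X i` (`upp`), `κ := cb` (`be_le`), `y = Z^τ`, `S` from `FA.sum_32`.
HYPOTHESIS of `sv` (`d ⊆ R`, `∏_d nm ≤ y`): `mn_cnt` with `𝔄 = ex (𝔪 ∏_q v ∏_d v²)` and `1_{≡ 1} ∏_q f v ∏_d 1_Bad` (`per_mul`, `per_prod`, `per_cls`, `per_bad`, `ex_mul`, `ex_prod`; `mn_mul`, `mn_prod`, `mn_cls`, `ex_cop`), `∏ N(𝔄 i) = N(..)^kk`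
(`norm_ex`), error `C B^#q (N𝔪 Z^θ y²)^kk (∏ X) Z^(-η')`. `B^#q ≤ (∏_q nm)^(log₂ B) ≤ Z^(θ log₂ B)`. With `τ = η'/(8 (kk + 1))` and `θ` small everything is `≤ C (∏ X) Z^(-η)`.
-/

set_option autoImplicit false

open scoped NumberField Classical
open IsDedekindDomain NumberField

noncomputable section

namespace Pool.Agent.H36.FR

open H63.MA H38.BB H38.BG H77.PC3 H51.SN H57.SL H36.QA H1.LS4 H38.ML

variable {K : Type} [Field K] [NumberField K] {I : Type} [Fintype I] {E : I → Type}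
  [∀ i, Field (E i)] [∀ i, NumberField (E i)] [∀ i, Algebra K (E i)]

private theorem msv_nm_le {F : Type} [Field F] [NumberField F] {v : Pl F} {x : 𝓞 F} (hx : x ∈ v.asIdeal)
    (h0 : x ≠ 0) : (nm v : ℝ) ≤ (Ideal.absNorm (Ideal.span {x}) : ℝ) := by
  have h1 : v.asIdeal ∣ Ideal.span {x} := by
    rw [Ideal.dvd_iff_le, Ideal.span_le]
    intro y hy
    rw [Set.mem_singleton_iff] at hy
    rw [hy]
    exact hx
  have h2 : nm v ∣ Ideal.absNorm (Ideal.span {x}) := by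
    unfold nm
    exact Ideal.absNorm_dvd_absNorm_of_le (Ideal.dvd_iff_le.1 h1)
  have h3 : Ideal.absNorm (Ideal.span {x}) ≠ 0 := by
    intro h
    rw [Ideal.absNorm_eq_zero_iff, Ideal.span_singleton_eq_bot] at h
    exact h0 h
  exact_mod_cast Nat.le_of_dvd (Nat.pos_of_ne_zero h3) h2

omit [Fintype I] in
private theorem msv_bad_mem {α : Tp E} {v : Pl K}
    (h : Bad α v) : ∃ i, ∃ w : Pl (E i), Over w v ∧ α i ∈ w.asIdeal := by
  rcases h with ⟨i, w, hw, ho⟩ | ⟨i, w, hw, -, ho⟩ | ⟨i, j, w, u, hw, -, -, ho, -⟩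
  · exact ⟨i, w, hw, Ideal.pow_le_self two_ne_zero ho⟩
  · exact ⟨i, w, hw, ho⟩
  · exact ⟨i, w, hw, ho⟩

/-- the tuples of the family are those which are not bad on `R₀ \ q`, as far as the product is not zero -/
private theorem msv_sum (hE : ∀ i, NumberField.IsTotallyComplex (E i))
    {𝔪 : Ideal (𝓞 K)} {Z : ℝ} (hZ : 2 ≤ Z) {X : I → ℝ} (hX1 : ∀ i, Z ≤ X i)
    (hX2 : ∀ i, X i ≤ Z ^ 2) {R₀ : Finset (Pl K)}
    (hR : ∀ v, v ∈ R₀ ↔ ¬ v.asIdeal ∣ 𝔪 ∧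
      (nm v : ℝ) ≤ 2 ^ (∑ i, Module.finrank ℚ (E i)) * Z ^ 2)
    {f : Pl K → Tp E → ℝ} (hu : ∀ v α, ¬ Un α v → f v α = 0) (q : Finset (Pl K)) :
    ∑ α ∈ Ph E 𝔪 X, ∏ v ∈ q, f v α =
      ∑ α ∈ ((BX E X).filter fun α => ∀ i, α i - 1 ∈ ex E 𝔪 i).filter (fun α => ∀ v ∈ R₀ \ q, ¬ Bad α v),
        ∏ v ∈ q, f v α := by
  unfold Ph
  rw [Finset.filter_filter]
  refine Finset.sum_subset ?_ ?_
  · intro α hα
    rw [Finset.mem_filter] at hα ⊢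
    exact ⟨hα.1, hα.2.1, fun v _ => hα.2.2 v⟩
  · intro α hα hα'
    rw [Finset.mem_filter] at hα hα'
    obtain ⟨h1, h2, h3⟩ := hα
    have h4 : ∃ v : Pl K, Bad α v := by
      by_contra h
      push Not at h
      exact hα' ⟨h1, h2, h⟩
    obtain ⟨v, hv⟩ := h4
    by_cases hq : v ∈ q
    · refine Finset.prod_eq_zero hq (hu v α fun h => un_not_bad h hv)
    · exfalso
      refine h3 v ?_ hv
      rw [Finset.mem_sdiff]
      refine ⟨(hR v).2 ?_, hq⟩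
      obtain ⟨i, w, hw, ho⟩ := msv_bad_mem hv
      refine ⟨?_, ?_⟩
      · intro hd
        have h5 : α i - 1 ∈ w.asIdeal := ex_dvd hd hw (h2 i)
        have h6 : (1 : 𝓞 (E i)) ∈ w.asIdeal := by
          have h7 := w.asIdeal.sub_mem ho h5
          rwa [sub_sub_cancel] at h7
        exact w.isPrime.ne_top ((Ideal.eq_top_iff_one _).2 h6)
      · unfold BX at h1
        rw [Fintype.mem_piFinset] at h1
        have hX0 : 0 < X i := by linarith [hX1 i]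
        obtain ⟨h5, h6⟩ := FA.ann_norm (E i) (hE i) (X i) hX0 (α i) (h1 i)
        have h7 : α i ≠ 0 := by
          intro h
          rw [h] at h5
          have h8 : Ideal.span {(0 : 𝓞 (E i))} = ⊥ := Ideal.span_singleton_eq_bot.2 rfl
          rw [h8, Ideal.absNorm_bot] at h5
          simp only [Nat.cast_zero] at h5
          linarith
        have h9 : (2 : ℝ) ^ Module.finrank ℚ (E i) ≤ 2 ^ (∑ i, Module.finrank ℚ (E i)) :=
          pow_le_pow_right₀ (by norm_num)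
            (Finset.single_le_sum (f := fun i => Module.finrank ℚ (E i)) (fun _ _ => Nat.zero_le _)
              (Finset.mem_univ i))
        calc (nm v : ℝ) ≤ nm w := (ov_nm hw).1
          _ ≤ _ := msv_nm_le ho h7
          _ ≤ _ := h6
          _ ≤ _ := mul_le_mul h9 (hX2 i) hX0.le (by positivity)

private theorem msv_cop {𝔪 : Ideal (𝓞 K)} {v : Pl K}
    (hv : ¬ v.asIdeal ∣ 𝔪) : IsCoprime 𝔪 v.asIdeal := by
  have := v.isMaximal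
  rw [Ideal.isCoprime_iff_sup_eq]
  have h1 : v.asIdeal < 𝔪 ⊔ v.asIdeal := by
    refine lt_of_le_of_ne le_sup_right fun h => hv ?_
    rw [Ideal.dvd_iff_le, h]
    exact le_sup_left
  exact v.isMaximal.out.2 _ h1

/-- the exponent -/
private def msv_e (q : Finset (Pl K)) (v : Pl K) : ℕ :=
  if v ∈ q then 1 else 2

/-- the factor -/
private def msv_F (q : Finset (Pl K)) (f : Pl K → Tp E → ℝ) (v : Pl K) : Tp E → ℝ :=
  if v ∈ q then f v else fun α => if Bad α v then 1 else 0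

/-- the modulus -/
private def msv_c (𝔪 : Ideal (𝓞 K)) (q d : Finset (Pl K)) : Ideal (𝓞 K) :=
  𝔪 * ∏ v ∈ q ∪ d, v.asIdeal ^ msv_e q v

private theorem msv_prod {M : Type} [CommMonoid M] {q d : Finset (Pl K)}
    (hqd : Disjoint q d) (a b : Pl K → M) :
    ∏ v ∈ q ∪ d, (if v ∈ q then a v else b v) = (∏ v ∈ q, a v) * ∏ v ∈ d, b v := by
  rw [Finset.prod_union hqd]
  congr 1
  · exact Finset.prod_congr rfl fun v hv => if_pos hv
  · exact Finset.prod_congr rfl fun v hv => if_neg fun h => (Finset.disjoint_left.1 hqd h hv)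

private theorem msv_per {q : Finset (Pl K)}
    {f : Pl K → Tp E → ℝ} (hf : ∀ v, Per (ex E v.asIdeal) (f v)) (v : Pl K) :
    Per (ex E (v.asIdeal ^ msv_e q v)) (msv_F q f v) := by
  unfold msv_e msv_F
  by_cases h : v ∈ q
  · rw [if_pos h, if_pos h, pow_one]
    exact hf v
  · rw [if_neg h, if_neg h]
    exact per_bad v

private theorem msv_ne {𝔪 : Ideal (𝓞 K)} (hm : 𝔪 ≠ ⊥) (q d : Finset (Pl K)) :
    (∏ v ∈ q ∪ d, v.asIdeal ^ msv_e q v) ≠ ⊥ ∧ msv_c 𝔪 q d ≠ ⊥ := by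
  have h2 : (∏ v ∈ q ∪ d, v.asIdeal ^ msv_e q v) ≠ ⊥ := by
    rw [← Ideal.zero_eq_bot]
    exact Finset.prod_ne_zero_iff.2 fun v _ => pow_ne_zero _ (by rw [Ideal.zero_eq_bot]; exact v.ne_bot)
  refine ⟨h2, ?_⟩
  unfold msv_c
  rw [← Ideal.zero_eq_bot] at hm h2 ⊢
  exact mul_ne_zero hm h2

private theorem msv_ex (𝔪 : Ideal (𝓞 K)) (q d : Finset (Pl K)) :
    ex E (msv_c 𝔪 q d) = fun i => ex E 𝔪 i * ∏ v ∈ q ∪ d, ex E (v.asIdeal ^ msv_e q v) i := by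
  funext i
  unfold msv_c
  rw [ex_mul, ex_prod]

private theorem msv_vcop {v w : Pl K} (h : v ≠ w) (a b : ℕ) :
    IsCoprime (v.asIdeal ^ a) (w.asIdeal ^ b) := pl_cop h a b

private theorem msv_mn {𝔪 : Ideal (𝓞 K)}
    (hm : 𝔪 ≠ ⊥) {q d : Finset (Pl K)} (hqd : Disjoint q d) (hq : ∀ v ∈ q, ¬ v.asIdeal ∣ 𝔪)
    (hd : ∀ v ∈ d, ¬ v.asIdeal ∣ 𝔪)
    {f : Pl K → Tp E → ℝ} (hf : ∀ v, Per (ex E v.asIdeal) (f v)) :
    Per (ex E (msv_c 𝔪 q d))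
      (fun α => (if ∀ i, α i - 1 ∈ ex E 𝔪 i then (1 : ℝ) else 0) * ∏ v ∈ q ∪ d, msv_F q f v α) ∧
    Mn (ex E (msv_c 𝔪 q d))
      (fun α => (if ∀ i, α i - 1 ∈ ex E 𝔪 i then (1 : ℝ) else 0) * ∏ v ∈ q ∪ d, msv_F q f v α) =
      1 / (Ideal.absNorm 𝔪 : ℝ) ^ kk K E *
        ((∏ v ∈ q, Mn (ex E v.asIdeal) (f v)) * ∏ v ∈ d, be E v) := by
  have h1 := per_prod (q ∪ d) (fun v => ex E (v.asIdeal ^ msv_e q v)) (msv_F q f)
    fun v _ => msv_per hf v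
  have hcls : Per (ex E 𝔪) (fun α : Tp E => if ∀ i, α i - 1 ∈ ex E 𝔪 i then (1 : ℝ) else 0) :=
    per_cls (ex E 𝔪) (fun _ => 1)
  have hcop : IsCoprime 𝔪 (∏ v ∈ q ∪ d, v.asIdeal ^ msv_e q v) := by
    refine IsCoprime.prod_right fun v hv => ?_
    refine IsCoprime.pow_right (msv_cop ?_)
    rcases Finset.mem_union.1 hv with h | h
    · exact hq v h
    · exact hd v h
  have hcop' : ∀ i, IsCoprime (ex E 𝔪 i) (∏ v ∈ q ∪ d, ex E (v.asIdeal ^ msv_e q v) i) := by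
    intro i
    rw [← ex_prod]
    exact ex_cop hcop i
  have hne : ∀ i, (∏ v ∈ q ∪ d, ex E (v.asIdeal ^ msv_e q v) i) ≠ ⊥ := by
    intro i
    rw [← ex_prod]
    exact ex_ne (msv_ne hm q d).1 i
  rw [msv_ex]
  refine ⟨per_mul hcls h1, ?_⟩
  have h2 := mn_mul (fun i => ex_ne hm i) hne hcop' hcls h1
  have h2' := mn_cls (fun i => ex_ne (E := E) hm i) (fun _ => 1)
  rw [norm_ex] at h2'
  have h3 := mn_prod (q ∪ d) (fun v => ex E (v.asIdeal ^ msv_e q v))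
    (fun v _ i => ex_ne (pow_ne_zero _ v.ne_bot) i)
    (fun v _ w _ hvw i => ex_cop (msv_vcop hvw _ _) i) (msv_F q f) fun v _ => msv_per hf v
  have h4 : ∀ v : Pl K, Mn (ex E (v.asIdeal ^ msv_e q v)) (msv_F q f v) =
      if v ∈ q then Mn (ex E v.asIdeal) (f v) else be E v := by
    intro v
    unfold msv_e msv_F
    by_cases h : v ∈ q
    · rw [if_pos h, if_pos h, if_pos h, pow_one]
    · rw [if_neg h, if_neg h, if_neg h]
      rfl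
  rw [Finset.prod_congr rfl fun v _ => h4 v, msv_prod hqd] at h3
  rw [h3] at h2
  refine h2.trans ?_
  congr 1

private theorem msv_norm (𝔪 : Ideal (𝓞 K)) {q d : Finset (Pl K)}
    (hqd : Disjoint q d) : (Ideal.absNorm (msv_c 𝔪 q d) : ℝ) =
      (Ideal.absNorm 𝔪 : ℝ) * ((∏ v ∈ q, (nm v : ℝ)) * (∏ v ∈ d, (nm v : ℝ)) ^ 2) := by
  unfold msv_c
  rw [map_mul, map_prod]
  push_cast
  congr 1
  rw [← Finset.prod_pow, ← msv_prod hqd]
  refine Finset.prod_congr rfl fun v _ => ?_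
  unfold msv_e
  rw [map_pow]
  by_cases h : v ∈ q
  · rw [if_pos h, if_pos h, pow_one]
    rfl
  · rw [if_neg h, if_neg h]
    push_cast
    rfl

private theorem msv_term (𝔪 : Ideal (𝓞 K))
    {q d : Finset (Pl K)} (hqd : Disjoint q d) (f : Pl K → Tp E → ℝ) (X : I → ℝ) :
    ∑ α ∈ BX E X, (if ∀ i, α i - 1 ∈ ex E 𝔪 i then (1 : ℝ) else 0) * ∏ v ∈ q ∪ d, msv_F q f v α =
      ∑ α ∈ ((BX E X).filter fun α => ∀ i, α i - 1 ∈ ex E 𝔪 i).filter (fun α => ∀ v ∈ d, Bad α v),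
        ∏ v ∈ q, f v α := by
  rw [Finset.filter_filter, Finset.sum_filter]
  refine Finset.sum_congr rfl fun α _ => ?_
  have h1 : ∏ v ∈ q ∪ d, msv_F q f v α = (∏ v ∈ q, f v α) * if ∀ v ∈ d, Bad α v then (1 : ℝ) else 0 := by
    have h2 : ∀ v : Pl K, msv_F q f v α = if v ∈ q then f v α else (if Bad α v then 1 else 0) := by
      intro v
      unfold msv_F
      by_cases h : v ∈ q
      · rw [if_pos h, if_pos h]
      · rw [if_neg h, if_neg h]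
    rw [Finset.prod_congr rfl fun v _ => h2 v, msv_prod hqd]
    congr 1
    rw [Finset.prod_ite_zero, Finset.prod_const_one]
  rw [h1]
  by_cases ha : ∀ i, α i - 1 ∈ ex E 𝔪 i
  · by_cases hb : ∀ v ∈ d, Bad α v
    · rw [if_pos ha, if_pos hb, if_pos ⟨ha, hb⟩, one_mul, mul_one]
    · have h2 : ¬ ((∀ i, α i - 1 ∈ ex E 𝔪 i) ∧ ∀ v ∈ d, Bad α v) := fun h => hb h.2
      rw [if_neg hb, if_neg h2, mul_zero, mul_zero]
  · have h2 : ¬ ((∀ i, α i - 1 ∈ ex E 𝔪 i) ∧ ∀ v ∈ d, Bad α v) := fun h => ha h.1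
    rw [if_neg ha, if_neg h2, zero_mul]

private theorem msv_pow (B : ℝ) (hB : 1 ≤ B) : ∃ b : ℝ, 0 ≤ b ∧ ∀ (N : ℕ) (P : ℝ), (2 : ℝ) ^ N ≤ P →
    B ^ N ≤ P ^ b := by
  refine ⟨Real.logb 2 B, Real.logb_nonneg (by norm_num) hB, fun N P hP => ?_⟩
  have h1 : (2 : ℝ) ^ Real.logb 2 B = B := Real.rpow_logb (by norm_num) (by norm_num) (by linarith)
  calc B ^ N = ((2 : ℝ) ^ Real.logb 2 B) ^ N := by rw [h1]
    _ = ((2 : ℝ) ^ N) ^ Real.logb 2 B := by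
      rw [← Real.rpow_natCast, ← Real.rpow_natCast, ← Real.rpow_mul (by norm_num), ← Real.rpow_mul (by norm_num),
        mul_comm]
    _ ≤ P ^ Real.logb 2 B :=
      Real.rpow_le_rpow (by positivity) hP (Real.logb_nonneg (by norm_num) hB)

private theorem msv_err {Z e0 t θ b M Cc Cu κ P B' U Y y W C₁ : ℝ} (hZ1 : 1 ≤ Z) (k : ℕ)
    (htk : t * (8 * (k + 1)) = e0) (ht0 : 0 < t)
    (hθb : θ * b ≤ t / 4) (hθbk : θ * (b + k) ≤ t / 4) (hM1 : 1 ≤ M) (hCc : 1 ≤ Cc) (hCu : 1 ≤ Cu)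
    (hκ : 0 < κ) (hPX : 0 < P) (hBN : B' ≤ Z ^ (θ * b)) (hU : U = Cu * P)
    (hYle : Y ≤ κ * P) (hY0 : 0 ≤ Y) (hy : y = Z ^ t)
    (hW : W = Cc * Z ^ (θ * b) * (M * (Z ^ θ * y ^ 2)) ^ k * P * Z ^ (-e0)) (hC₁ : 1 ≤ C₁) :
    C₁ * (y ^ 2 * W + B' * (U + Y) * y ^ (-(1 / 2) : ℝ)) ≤
      C₁ * (Cc * M ^ k + (Cu + κ)) * P * Z ^ (-(t / 4)) := by
  have hZ0 : 0 < Z := by linarith
  have hk0 : (0 : ℝ) ≤ k := Nat.cast_nonneg k
  have hCc0 : 0 ≤ Cc := by linarith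
  have hCu0 : 0 ≤ Cu := by linarith
  have hMk : 1 ≤ M ^ k := one_le_pow₀ hM1
  have hyr : ∀ s : ℝ, y ^ s = Z ^ (t * s) := by
    intro s
    rw [hy, ← Real.rpow_mul hZ0.le]
  have hy2 : y ^ 2 = Z ^ (2 * t) := by
    rw [← Real.rpow_two, hyr, mul_comm]
  have e1 : y ^ 2 * W ≤ Cc * M ^ k * P * Z ^ (-(t / 4)) := by
    have h1 : y ^ 2 * W = Cc * M ^ k * P * (Z ^ (2 * t) * Z ^ (θ * b) * (Z ^ θ * Z ^ (2 * t)) ^ k * Z ^ (-e0)) := by
      rw [hW, mul_pow, hy2]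
      ring
    have h2 : Z ^ (2 * t) * Z ^ (θ * b) * (Z ^ θ * Z ^ (2 * t)) ^ k * Z ^ (-e0) =
        Z ^ (2 * t + θ * b + (θ + 2 * t) * k + -e0) := by
      rw [← Real.rpow_add hZ0, ← Real.rpow_add hZ0, ← Real.rpow_natCast, ← Real.rpow_mul hZ0.le,
        ← Real.rpow_add hZ0, ← Real.rpow_add hZ0]
    rw [h1, h2]
    refine mul_le_mul_of_nonneg_left (Real.rpow_le_rpow_of_exponent_le hZ1 ?_) (by positivity)
    have h4 := mul_nonneg ht0.le hk0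
    rw [← htk]
    linarith
  have e2 : B' * (U + Y) * y ^ (-(1 / 2) : ℝ) ≤ (Cu + κ) * P * Z ^ (-(t / 4)) := by
    have h1 : U + Y ≤ (Cu + κ) * P := by
      rw [hU]
      linarith
    have h2 : 0 ≤ U + Y := by
      rw [hU]
      positivity
    have h3 : 0 < Z ^ (t * (-(1 / 2))) := Real.rpow_pos_of_pos hZ0 _
    have h4 : 0 < Z ^ (θ * b) := Real.rpow_pos_of_pos hZ0 _
    calc B' * (U + Y) * y ^ (-(1 / 2) : ℝ)
        ≤ Z ^ (θ * b) * ((Cu + κ) * P) * Z ^ (t * (-(1 / 2))) := by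
          rw [hyr]
          exact mul_le_mul_of_nonneg_right (mul_le_mul hBN h1 h2 h4.le) h3.le
      _ = (Cu + κ) * P * Z ^ (θ * b + t * (-(1 / 2))) := by
          rw [Real.rpow_add hZ0]
          ring
      _ ≤ (Cu + κ) * P * Z ^ (-(t / 4)) := by
          refine mul_le_mul_of_nonneg_left (Real.rpow_le_rpow_of_exponent_le hZ1 (by linarith)) ?_
          positivity
  calc C₁ * (y ^ 2 * W + B' * (U + Y) * y ^ (-(1 / 2) : ℝ))
      ≤ C₁ * (Cc * M ^ k * P * Z ^ (-(t / 4)) + (Cu + κ) * P * Z ^ (-(t / 4))) :=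
        mul_le_mul_of_nonneg_left (add_le_add e1 e2) (by linarith)
    _ = C₁ * (Cc * M ^ k + (Cu + κ)) * P * Z ^ (-(t / 4)) := by ring

/-- the modulus is not too large -/
private theorem msv_NZ {Z M θ t y e0 : ℝ} (hZ1 : 1 ≤ Z) (k : ℕ) (hM1 : 1 ≤ M) (hZM : (M ^ k) ^ 2 ≤ Z)
    (hθk : θ * k ≤ t / 4) (htk : t * (8 * (k + 1)) = e0) (he : e0 ≤ 1) (hy : y = Z ^ t) (ht0 : 0 < t) :
    (M * (Z ^ θ * y ^ 2)) ^ k ≤ Z := by
  have hZ0 : 0 < Z := by linarith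
  have hk0 : (0 : ℝ) ≤ k := Nat.cast_nonneg k
  have hM0 : 0 < M := by linarith
  have h3 : M ^ k ≤ Z ^ (1 / 2 : ℝ) := by
    rw [← Real.sqrt_eq_rpow]
    exact Real.le_sqrt_of_sq_le hZM
  have h4 : (Z ^ θ * y ^ 2) ^ k ≤ Z ^ (1 / 2 : ℝ) := by
    have h5 : y ^ 2 = Z ^ (2 * t) := by
      rw [hy, ← Real.rpow_natCast, ← Real.rpow_mul hZ0.le]
      congr 1
      push_cast
      ring
    rw [h5, ← Real.rpow_add hZ0, ← Real.rpow_natCast, ← Real.rpow_mul hZ0.le]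
    refine Real.rpow_le_rpow_of_exponent_le hZ1 ?_
    have h6 := mul_nonneg ht0.le hk0
    nlinarith
  calc (M * (Z ^ θ * y ^ 2)) ^ k = M ^ k * (Z ^ θ * y ^ 2) ^ k := mul_pow _ _ _
    _ ≤ Z ^ (1 / 2 : ℝ) * Z ^ (1 / 2 : ℝ) :=
        mul_le_mul h3 h4 (by rw [hy]; positivity) (by positivity)
    _ = Z := by
      rw [← Real.rpow_add hZ0]
      norm_num

private theorem msv_abs (𝔪 : Ideal (𝓞 K))
    {q d : Finset (Pl K)} (hqd : Disjoint q d) (f : Pl K → Tp E → ℝ) {b : ℝ} (hb : 0 ≤ b)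
    (hfq : ∀ α, |∏ v ∈ q, f v α| ≤ b) (α : Tp E) :
    |(if ∀ i, α i - 1 ∈ ex E 𝔪 i then (1 : ℝ) else 0) * ∏ v ∈ q ∪ d, msv_F q f v α| ≤ b := by
  have h3 : ∏ v ∈ q ∪ d, msv_F q f v α = (∏ v ∈ q, f v α) * ∏ v ∈ d, (if Bad α v then (1 : ℝ) else 0) := by
    rw [← msv_prod hqd]
    refine Finset.prod_congr rfl fun v _ => ?_
    unfold msv_F
    by_cases h : v ∈ q
    · rw [if_pos h, if_pos h]
    · rw [if_neg h, if_neg h]
  rw [h3, abs_mul, abs_mul]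
  have h4 : |if ∀ i, α i - 1 ∈ ex E 𝔪 i then (1 : ℝ) else 0| ≤ 1 := by
    split_ifs
    · rw [abs_one]
    · rw [abs_zero]
      norm_num
  have h5 : |∏ v ∈ d, (if Bad α v then (1 : ℝ) else 0)| ≤ 1 := by
    rw [Finset.abs_prod]
    refine Finset.prod_le_one (fun _ _ => abs_nonneg _) fun v _ => ?_
    split_ifs
    · rw [abs_one]
    · rw [abs_zero]
      norm_num
  calc _ ≤ 1 * (b * 1) :=
        mul_le_mul h4 (mul_le_mul (hfq α) h5 (abs_nonneg _) hb) (by positivity) (by norm_num)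
    _ = _ := by ring

theorem msv (hE : ∀ i, NumberField.IsTotallyComplex (E i)) (𝔪 : Ideal (𝓞 K)) (h𝔪 : 𝔪 ≠ ⊥)
    (B : ℝ) (hB : 1 ≤ B) :
    ∃ κ θ η C Z0 : ℝ, 0 < κ ∧ 0 < θ ∧ θ ≤ 1 ∧ 0 < η ∧ 1 ≤ C ∧ 2 ≤ Z0 ∧ ∀ Z : ℝ, Z0 ≤ Z →
      ∀ X : I → ℝ, (∀ i, Z ≤ X i) → (∀ i, X i ≤ Z ^ 2) → ∀ R₀ : Finset (Pl K),
        (∀ v, v ∈ R₀ ↔ ¬ v.asIdeal ∣ 𝔪 ∧
          (nm v : ℝ) ≤ 2 ^ (∑ i, Module.finrank ℚ (E i)) * Z ^ 2) →
        ∀ f : Pl K → Tp E → ℝ, (∀ v, Per (ex E v.asIdeal) (f v)) → (∀ v α, 0 ≤ f v α) →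
          (∀ v α, f v α ≤ B) → (∀ v α, ¬ Un α v → f v α = 0) → ∀ q ⊆ R₀,
            ∏ v ∈ q, (nm v : ℝ) ≤ Z ^ θ →
              |∑ α ∈ Ph E 𝔪 X, ∏ v ∈ q, f v α -
                κ * (∏ i, X i) / (Ideal.absNorm 𝔪 : ℝ) ^ kk K E *
                  (∏ v ∈ q, Mn (ex E v.asIdeal) (f v)) * ∏ v ∈ R₀ \ q, (1 - be E v)| ≤
                  C * (∏ i, X i) * Z ^ (-η) := by
  obtain ⟨κ, η', Cc, hκ, hη', hCc, hcnt⟩ := mn_cnt hE
  obtain ⟨Cu, hCu, hupp⟩ := upp (K := K) hE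
  obtain ⟨S, hS, hS32⟩ := FA.sum_32 K
  obtain ⟨b, hb, hpow⟩ := msv_pow B hB
  obtain ⟨k, hk⟩ : ∃ k : ℕ, k = kk K E := ⟨_, rfl⟩
  have hcb : 0 ≤ cb K E := by
    unfold cb
    positivity
  obtain ⟨C₁, hC₁, hsv⟩ := FA.sv S (cb K E) hS hcb
  obtain ⟨M, hM⟩ : ∃ M : ℝ, M = (Ideal.absNorm 𝔪 : ℝ) := ⟨_, rfl⟩
  have hM1 : 1 ≤ M := by
    rw [hM]
    exact_mod_cast Nat.one_le_iff_ne_zero.2 fun h => h𝔪 (Ideal.absNorm_eq_zero_iff.1 h)
  rw [← hk, ← hM]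
  obtain ⟨e0, he0⟩ : ∃ e0 : ℝ, e0 = min η' 1 := ⟨_, rfl⟩
  have he1 : e0 ≤ 1 := by
    rw [he0]
    exact min_le_right _ _
  have heη : e0 ≤ η' := by
    rw [he0]
    exact min_le_left _ _
  have hepos : 0 < e0 := by
    rw [he0]
    exact lt_min hη' one_pos
  obtain ⟨t, ht⟩ : ∃ t : ℝ, t = e0 / (8 * (k + 1)) := ⟨_, rfl⟩
  obtain ⟨θ, hθ⟩ : ∃ θ : ℝ, θ = t / (4 * (b + k + 1)) := ⟨_, rfl⟩
  have hk0 : (0 : ℝ) ≤ k := Nat.cast_nonneg k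
  have ht0 : 0 < t := by
    rw [ht]
    positivity
  have htk : t * (8 * (k + 1)) = e0 := by
    rw [ht]
    field_simp
  have ht8 : t ≤ 1 / 8 := by nlinarith [mul_nonneg ht0.le hk0]
  have hθ0 : 0 < θ := by
    rw [hθ]
    positivity
  have hθt : θ * (4 * (b + k + 1)) = t := by
    rw [hθ]
    field_simp
  have hθb : θ * b ≤ t / 4 := by nlinarith [mul_nonneg hθ0.le hk0, mul_nonneg hθ0.le hb]
  have hθbk : θ * (b + k) ≤ t / 4 := by nlinarith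
  have hθk : θ * k ≤ t / 4 := by nlinarith [mul_nonneg hθ0.le hb]
  have hθ4 : θ ≤ t / 4 := by nlinarith [mul_nonneg hθ0.le hk0, mul_nonneg hθ0.le hb]
  refine ⟨κ, θ, t / 4, C₁ * (Cc * M ^ k + (Cu + κ)), max 2 ((M ^ k) ^ 2), hκ, hθ0, by linarith, by linarith, ?_,
    le_max_left _ _, ?_⟩
  · have h1 : 1 ≤ M ^ k := one_le_pow₀ hM1
    have h3 : 1 ≤ Cc * M ^ k := by nlinarith
    nlinarith
  intro Z hZ X hX1 hX2 R₀ hR f hf hf0 hfB hfu q hq hqZ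
  have hZ2 : 2 ≤ Z := (le_max_left _ _).trans hZ
  have hZM : (M ^ k) ^ 2 ≤ Z := (le_max_right _ _).trans hZ
  have hZ0 : 0 < Z := by linarith
  have hZ1 : 1 ≤ Z := by linarith
  have hX0 : ∀ i, 0 < X i := fun i => hZ0.trans_le (hX1 i)
  have hPX : 0 < ∏ i, X i := Finset.prod_pos fun i _ => hX0 i
  have hMk : 1 ≤ M ^ k := one_le_pow₀ hM1
  have hBN : B ^ q.card ≤ Z ^ (θ * b) := by
    have h1 : (2 : ℝ) ^ q.card ≤ ∏ v ∈ q, (nm v : ℝ) := by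
      rw [← Finset.prod_const]
      exact Finset.prod_le_prod (fun _ _ => by norm_num) fun v _ => by exact_mod_cast one_lt_nm v
    have h2 := hpow q.card (Z ^ θ) (h1.trans hqZ)
    rwa [← Real.rpow_mul hZ0.le] at h2
  have hB0 : 0 ≤ B := by linarith
  have hBN0 : 0 ≤ B ^ q.card := pow_nonneg hB0 _
  have hfq : ∀ α, |∏ v ∈ q, f v α| ≤ B ^ q.card := by
    intro α
    rw [abs_of_nonneg (Finset.prod_nonneg fun v _ => hf0 v α), ← Finset.prod_const]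
    exact Finset.prod_le_prod (fun v _ => hf0 v α) fun v _ => hfB v α
  have hm : |∏ v ∈ q, Mn (ex E v.asIdeal) (f v)| ≤ B ^ q.card := by
    have h1 : ∀ v : Pl K, 0 ≤ Mn (ex E v.asIdeal) (f v) := fun v => mn_nonneg (hf0 v)
    rw [abs_of_nonneg (Finset.prod_nonneg fun v _ => h1 v), ← Finset.prod_const]
    refine Finset.prod_le_prod (fun v _ => h1 v) fun v _ => ?_
    have h2 := mn_mono (fun i => ex_ne (E := E) v.ne_bot i) (g := fun _ => B) (hfB v)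
    rwa [mn_const fun i => ex_ne v.ne_bot i] at h2
  obtain ⟨Y, hY⟩ : ∃ Y : ℝ, Y = κ * (∏ i, X i) / M ^ k := ⟨_, rfl⟩
  obtain ⟨U, hU⟩ : ∃ U : ℝ, U = Cu * ∏ i, X i := ⟨_, rfl⟩
  obtain ⟨y, hy⟩ : ∃ y : ℝ, y = Z ^ t := ⟨_, rfl⟩
  obtain ⟨W, hW⟩ : ∃ W : ℝ, W = Cc * Z ^ (θ * b) * (M * (Z ^ θ * y ^ 2)) ^ k * (∏ i, X i) * Z ^ (-e0) := ⟨_, rfl⟩
  have hy0 : 0 < y := by
    rw [hy]
    exact Real.rpow_pos_of_pos hZ0 _
  have hy1 : 1 ≤ y := by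
    rw [hy]
    exact Real.one_le_rpow hZ1 ht0.le
  have hZθ : 0 < Z ^ θ := Real.rpow_pos_of_pos hZ0 _
  have hZb : 0 < Z ^ (θ * b) := Real.rpow_pos_of_pos hZ0 _
  have hZn : 0 < Z ^ (-e0) := Real.rpow_pos_of_pos hZ0 _
  have hM0 : 0 < M := by linarith
  have hMk0 : 0 < M ^ k := pow_pos hM0 k
  have hY0 : 0 ≤ Y := by
    rw [hY]
    positivity
  have hYle : Y ≤ κ * ∏ i, X i := by
    rw [hY]
    exact div_le_self (by positivity) hMk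
  have hU0 : 0 ≤ U := by
    rw [hU]
    positivity
  have hW0 : 0 ≤ W := by
    rw [hW]
    positivity
  have hmain := hsv (Pl K) (Tp E) nm (R₀ \ q) ((BX E X).filter fun α => ∀ i, α i - 1 ∈ ex E 𝔪 i) Bad
    (fun α => ∏ v ∈ q, f v α) (be E) (∏ v ∈ q, Mn (ex E v.asIdeal) (f v)) Y U W (B ^ q.card) y
    (fun v => one_lt_nm v) (hS32 _) (be_nonneg E) (be_le E) hfq hm hY0 hU0 hW0 hy1 (by
      intro d hd hdy
      have hqd : Disjoint q d := by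
        rw [Finset.disjoint_left]
        intro v h1 h2
        exact (Finset.mem_sdiff.1 (hd h2)).2 h1
      have hqm : ∀ v ∈ q, ¬ v.asIdeal ∣ 𝔪 := fun v hv => ((hR v).1 (hq hv)).1
      have hdm : ∀ v ∈ d, ¬ v.asIdeal ∣ 𝔪 := fun v hv => ((hR v).1 (Finset.mem_sdiff.1 (hd hv)).1).1
      obtain ⟨h1, h2⟩ := msv_mn (E := E) h𝔪 hqd hqm hdm hf
      have hnn := msv_abs 𝔪 hqd f hBN0 hfq
      have hNn := msv_norm 𝔪 hqd
      rw [← hM] at hNn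
      have hNle : (Ideal.absNorm (msv_c 𝔪 q d) : ℝ) ≤ M * (Z ^ θ * y ^ 2) := by
        rw [hNn]
        have h3 : 0 ≤ ∏ v ∈ d, (nm v : ℝ) := Finset.prod_nonneg fun v _ => Nat.cast_nonneg _
        have h4 : 0 ≤ ∏ v ∈ q, (nm v : ℝ) := Finset.prod_nonneg fun v _ => Nat.cast_nonneg _
        refine mul_le_mul_of_nonneg_left ?_ (by linarith)
        have h5 : (∏ v ∈ d, (nm v : ℝ)) ^ 2 ≤ y ^ 2 := pow_le_pow_left₀ h3 hdy 2
        exact mul_le_mul hqZ h5 (sq_nonneg _) hZθ.le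
      have h8 : (Ideal.absNorm (msv_c 𝔪 q d) : ℝ) ^ k ≤ (M * (Z ^ θ * y ^ 2)) ^ k :=
        pow_le_pow_left₀ (Nat.cast_nonneg _) hNle k
      have hNZ : (M * (Z ^ θ * y ^ 2)) ^ k ≤ Z := msv_NZ hZ1 k hM1 hZM hθk htk he1 hy ht0
      have h6 := hcnt (ex E (msv_c 𝔪 q d)) (fun i => ex_ne (msv_ne h𝔪 q d).2 i) _ h1 (B ^ q.card) hnn X Z
        hZ1 hX1 (by
          rw [norm_ex, ← hk]
          exact h8.trans hNZ)
      rw [h2, msv_term 𝔪 hqd, norm_ex, ← hk, ← hM] at h6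
      have h7 : Y * (∏ v ∈ q, Mn (ex E v.asIdeal) (f v)) * ∏ v ∈ d, be E v =
          κ * (∏ i, X i) * (1 / M ^ k * ((∏ v ∈ q, Mn (ex E v.asIdeal) (f v)) * ∏ v ∈ d, be E v)) := by
        rw [hY]
        ring
      rw [h7]
      refine h6.trans ?_
      rw [hW]
      have hCc0 : 0 ≤ Cc := by linarith
      have h9 : Z ^ (-η') ≤ Z ^ (-e0) := Real.rpow_le_rpow_of_exponent_le hZ1 (by linarith)
      gcongr) (by
      intro d hd
      have h1 := hupp X (fun i => hZ1.trans (hX1 i)) d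
      rw [hU]
      refine le_trans (Nat.cast_le.2 (Finset.card_le_card ?_)) h1
      intro α hα
      rw [Finset.mem_filter, Finset.mem_filter] at hα
      exact Finset.mem_filter.2 ⟨hα.1.1, hα.2⟩)
  rw [msv_sum hE hZ2 hX1 hX2 hR hfu q, ← hY]
  refine hmain.trans ?_
  exact msv_err hZ1 _ htk ht0 hθb hθbk hM1 hCc hCu hκ hPX hBN hU hYle hY0 hy hW hC₁

end Pool.Agent.H36.FR
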