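import Pool.Agent.H36.FR.Ksy
import Pool.Agent.H36.FR.Xvv

/-!
# [H36 FR PHR] The homomorphism of a tuple on inertia

`τ ∈ (Q.P v).inertia`, `φ τ = 1`, `ac τ ι = ι` for all embeddings (`it_of`, `IT` for `P = Q.P v`), `l i ∉ v` (`l_dvd`), roots `rt_ex`: `phf D α τ = e (∏_i ∏_ι xv i ι ^ kq (ι (α i)) τ)` (`kap_ine`).
* `pha_unr`: all `ro ι (α i) ∉ P` (`mem_pe`, `pe_over`, `Un`): all symbols are `0` (`kq_unit`).
* `pha_ram`: `w = pe ι₀` for exactly one `ι₀` (`dic_bij`: `nm w = nm v` by `¬ Bad`; an embedding with `pe ι = w` is fixed by `fr Q v` by `dic_fix`, then injectivity). For all `(j, ι) ≠ (i, ι₀)` the place `pe ι` is different from `w` (or `j ≠ i`), so `α j ∉ pe ι` (`¬ Bad`): symbol `0`. For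
  `ι₀`: `kq_unif`. The product has one factor.
-/

set_option autoImplicit false

open scoped NumberField Classical
open IsDedekindDomain NumberField

noncomputable section

namespace Pool.Agent.H36.FR

open H63.MA H38.BB H38.BG H77.PC3 H51.SN H57.SL H36.QA H1.LS4 H38.ML

variable {K : IntermediateField ℚ QBar} [NumberField K] {A V I : Type} [Group A] [Finite A]
  [CommGroup V] [MulDistribMulAction A V] [Fintype I] {D : Dt K A V I}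
  [∀ i, NumberField (D.E i)]

omit [Fintype I] [∀ i, NumberField (D.E i)] in
private theorem phr_l (hD : Ok D) (v : Pl K) (hv : ((D.m : ℕ) : 𝓞 K) ∉ v.asIdeal) (i : I) :
    ((D.l i : ℕ) : 𝓞 K) ∉ v.asIdeal := by
  intro hl
  apply hv
  obtain ⟨c, hc⟩ := l_dvd hD i
  rw [hc, Nat.cast_mul]
  exact Ideal.mul_mem_right _ _ hl

private theorem phr_form (hD : Ok D) (Q : DP K QBar) (v : Pl K)
    (h₀ : ∀ τ ∈ (Q.P v).inertia Gal(QBar/K), D.φ τ = 1) {α : Tp fun i => D.E i}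
    (hα : ∀ i, α i ≠ 0) (τ : Gal(QBar/K)) (hτ : τ ∈ (Q.P v).inertia Gal(QBar/K)) :
    phf D α τ = D.e (∏ i, ∏ᶠ ι : D.E i →ₐ[K] QBar,
      xv D i ι ^ (kq (D.l i) (D.z i) (ι (α i : D.E i)) τ).val) := by
  have hfx : ∀ (i : I) (ι : D.E i →ₐ[K] QBar), ac τ ι = ι := fun i ι =>
    it_of hD Q v h₀ i (Q.P v) (Q.prime v) (Q.under v) τ hτ ι
  unfold phf phB
  rw [h₀ τ hτ, mul_one]
  rw [Finset.prod_congr rfl fun i _ =>
    kap_ine (hD.pr i) (z_prim hD i) (rt_ex (hD.pr i).pos (α i)) (hα i) (xv D i) τ (hfx i)]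

theorem pha_unr (hD : Ok D) (Q : DP K QBar) (v : Pl K) (hv : ((D.m : ℕ) : 𝓞 K) ∉ v.asIdeal)
    (h₀ : ∀ τ ∈ (Q.P v).inertia Gal(QBar/K), D.φ τ = 1) {α : Tp fun i => D.E i}
    (hα : ∀ i, α i ≠ 0) (hu : Un α v) (τ : Gal(QBar/K))
    (hτ : τ ∈ (Q.P v).inertia Gal(QBar/K)) : phf D α τ = 1 := by
  have hfx : ∀ (i : I) (ι : D.E i →ₐ[K] QBar), ac τ ι = ι := fun i ι =>
    it_of hD Q v h₀ i (Q.P v) (Q.prime v) (Q.under v) τ hτ ι
  rw [phr_form hD Q v h₀ hα τ hτ]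
  have h1 : ∀ i, (∏ᶠ ι : D.E i →ₐ[K] QBar,
      xv D i ι ^ (kq (D.l i) (D.z i) (ι (α i : D.E i)) τ).val) = 1 := by
    intro i
    apply finprod_eq_one_of_forall_eq_one
    intro ι
    have h2 : kq (D.l i) (D.z i) (ι (α i : D.E i)) τ = 0 :=
      kq_unit (hD.pr i) (z_prim hD i) Q v (phr_l hD v hv i) (α i) ι
        (fun h => hu i (pe (D.E i) Q v ι) (pe_over (D.E i) Q v ι)
          ((mem_pe (D.E i) Q v ι (α i)).2 h)) τ hτ (hfx i ι)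
    rw [h2, ZMod.val_zero, pow_zero]
  rw [Finset.prod_eq_one fun i _ => h1 i, map_one]

theorem pha_ram (hD : Ok D) (Q : DP K QBar) (v : Pl K) (hv : ((D.m : ℕ) : 𝓞 K) ∉ v.asIdeal)
    (h₀ : ∀ τ ∈ (Q.P v).inertia Gal(QBar/K), D.φ τ = 1) {α : Tp fun i => D.E i}
    (hα : ∀ i, α i ≠ 0) (hb : ¬ Bad α v) {i : I} {w : Pl (D.E i)} (hw : Over w v)
    (h1 : α i ∈ w.asIdeal) :
    ∃ ι : D.E i →ₐ[K] QBar, pe (D.E i) Q v ι = w ∧ ∀ τ ∈ (Q.P v).inertia Gal(QBar/K),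
      phf D α τ = D.e (xv D i ι ^ (kq (D.l i) (D.z i) ((H51.K1.uf v : K) : QBar) τ).val) := by
  have hi : IT QBar (D.E i) v := it_of hD Q v h₀ i
  have hb1 : α i ∉ w.asIdeal ^ 2 := fun h => hb (Or.inl ⟨i, w, hw, h⟩)
  have hb2 : nm w = nm v := by
    by_contra h
    exact hb (Or.inr (Or.inl ⟨i, w, hw, h, h1⟩))
  have hb3 : ∀ (j : I) (u : Pl (D.E j)), Over u v →
      (⟨i, w⟩ : Σ i, Pl (D.E i)) ≠ ⟨j, u⟩ → α j ∉ u.asIdeal :=
    fun j u hu hne h => hb (Or.inr (Or.inr ⟨i, j, w, u, hw, hu, hne, h1, h⟩))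
  obtain ⟨ι₀, hι₀⟩ := pe_surj (D.E i) Q v w hw
  have huq : ∀ ι : D.E i →ₐ[K] QBar, pe (D.E i) Q v ι = w → ι = ι₀ := by
    intro ι hι
    have h2 : ι ∈ fx (D.E i) (fr Q v) := (dic_fix (D.E i) Q v hi ι).2 (by rw [hι, hb2])
    have h3 : ι₀ ∈ fx (D.E i) (fr Q v) := (dic_fix (D.E i) Q v hi ι₀).2 (by rw [hι₀, hb2])
    exact (dic_bij (D.E i) Q v hi).injOn h2 h3 (hι.trans hι₀.symm)
  refine ⟨ι₀, hι₀, ?_⟩
  intro τ hτ
  have hfx : ∀ (i : I) (ι : D.E i →ₐ[K] QBar), ac τ ι = ι := fun i ι =>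
    it_of hD Q v h₀ i (Q.P v) (Q.prime v) (Q.under v) τ hτ ι
  have hz : ∀ (j : I) (ι : D.E j →ₐ[K] QBar),
      (⟨i, w⟩ : Σ i, Pl (D.E i)) ≠ ⟨j, pe (D.E j) Q v ι⟩ →
      xv D j ι ^ (kq (D.l j) (D.z j) (ι (α j : D.E j)) τ).val = 1 := by
    intro j ι hne
    have h2 : kq (D.l j) (D.z j) (ι (α j : D.E j)) τ = 0 :=
      kq_unit (hD.pr j) (z_prim hD j) Q v (phr_l hD v hv j) (α j) ι
        (fun h => hb3 j (pe (D.E j) Q v ι) (pe_over (D.E j) Q v ι) hne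
          ((mem_pe (D.E j) Q v ι (α j)).2 h)) τ hτ (hfx j ι)
    rw [h2, ZMod.val_zero, pow_zero]
  rw [phr_form hD Q v h₀ hα τ hτ]
  have h4 : (∏ j, ∏ᶠ ι : D.E j →ₐ[K] QBar,
      xv D j ι ^ (kq (D.l j) (D.z j) (ι (α j : D.E j)) τ).val) =
      ∏ᶠ ι : D.E i →ₐ[K] QBar, xv D i ι ^ (kq (D.l i) (D.z i) (ι (α i : D.E i)) τ).val := by
    refine Finset.prod_eq_single i ?_ ?_
    · intro j _ hj
      apply finprod_eq_one_of_forall_eq_one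
      intro ι
      refine hz j ι fun h => hj ?_
      exact (congrArg Sigma.fst h).symm
    · intro h
      exact absurd (Finset.mem_univ i) h
  have h5 : (∏ᶠ ι : D.E i →ₐ[K] QBar, xv D i ι ^ (kq (D.l i) (D.z i) (ι (α i : D.E i)) τ).val) =
      xv D i ι₀ ^ (kq (D.l i) (D.z i) (ι₀ (α i : D.E i)) τ).val := by
    refine finprod_eq_single _ ι₀ ?_
    intro ι hne
    refine hz i ι fun h => hne (huq ι ?_)
    exact (eq_of_heq (Sigma.mk.inj h).2).symm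
  rw [h4, h5, kq_unif (hD.pr i) (z_prim hD i) Q v (phr_l hD v hv i) hi (α i) ι₀
    (by rw [hι₀]; exact h1) (by rw [hι₀]; exact hb1) τ hτ]

end Pool.Agent.H36.FR
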